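import Mathlib

/-!
Algebraic part: a determinant of one-jets attached to a finite family of points of the dual
projective space which does not lie on a hypersurface of degree `k`.
-/

open MvPolynomial Module

namespace Pool.Agent.Lib.GGL

/-- The linear form on the dual space attached to `y`. -/
noncomputable def linForm {n : ℕ} (y : Fin (n + 1) → ℂ) : MvPolynomial (Fin (n + 1)) ℂ :=
  ∑ i, C (y i) * X i

lemma eval_linForm {n : ℕ} (p y : Fin (n + 1) → ℂ) : eval p (linForm y) = p ⬝ᵥ y := by
  simp [linForm, dotProduct, mul_comm]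

lemma linForm_isHomogeneous {n : ℕ} (y : Fin (n + 1) → ℂ) : (linForm y).IsHomogeneous 1 := by
  unfold linForm
  refine IsHomogeneous.sum _ _ _ fun i _ => ?_
  exact isHomogeneous_C_mul_X _ _

lemma linForm_add {n : ℕ} (y z : Fin (n + 1) → ℂ) : linForm (y + z) = linForm y + linForm z := by
  simp [linForm, add_mul, Finset.sum_add_distrib]

lemma linForm_smul {n : ℕ} (c : ℂ) (y : Fin (n + 1) → ℂ) : linForm (c • y) = c • linForm y := by
  simp [linForm, Finset.smul_sum, smul_eq_C_mul, mul_assoc]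

lemma coeff_linForm {n : ℕ} (y : Fin (n + 1) → ℂ) (i : Fin (n + 1)) :
    coeff (Finsupp.single i 1) (linForm y) = y i := by
  classical
  simp [linForm, coeff_sum, coeff_C_mul, coeff_X, Finsupp.single_left_inj]

lemma linForm_ne_zero {n : ℕ} {y : Fin (n + 1) → ℂ} (hy : y ≠ 0) : linForm y ≠ 0 := by
  intro h
  apply hy
  funext i
  rw [← coeff_linForm y i, h]
  simp

lemma linForm_mul_isHomogeneous {n k : ℕ} (y : Fin (n + 1) → ℂ)
    {c : MvPolynomial (Fin (n + 1)) ℂ} (hc : c.IsHomogeneous k) :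
    (linForm y * c).IsHomogeneous (k + 1) := by
  have h := (linForm_isHomogeneous y).mul hc
  rwa [Nat.add_comm 1 k] at h

/-- `linForm` as a linear map. -/
noncomputable def linFormL (n : ℕ) : (Fin (n + 1) → ℂ) →ₗ[ℂ] MvPolynomial (Fin (n + 1)) ℂ where
  toFun := linForm
  map_add' := linForm_add
  map_smul' := linForm_smul

@[simp] lemma linFormL_apply {n : ℕ} (y : Fin (n + 1) → ℂ) : linFormL n y = linForm y := rfl

instance finiteDimensional_homogeneousSubmodule (n k : ℕ) :
    FiniteDimensional ℂ (homogeneousSubmodule (Fin (n + 1)) ℂ k) :=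
  Module.Finite.iff_fg.mpr (homogeneousSubmodule_fg (Fin (n+1)) ℂ k)

lemma finrank_homogeneousSubmodule (n k : ℕ) :
    finrank ℂ (homogeneousSubmodule (Fin (n + 1)) ℂ k) = (n + k).choose k := by
  classical
  rw [homogeneousSubmodule_eq_finsupp_supported]
  rw [(AddMonoidAlgebra.supportedEquivFinsupp _).finrank_eq]
  have e : {d : Fin (n+1) →₀ ℕ | Finsupp.degree d = k} ≃ Sym (Fin (n+1)) k := by
    refine (Equiv.subtypeEquivRight ?_).trans (Sym.equivNatSum (Fin (n+1)) k).symm
    intro d
    show d.degree = k ↔ _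
    rw [Finsupp.degree_eq_sum, Finsupp.sum_fintype _ _ (by simp)]
    simp
  have : Fintype {d : Fin (n+1) →₀ ℕ | Finsupp.degree d = k} := Fintype.ofEquiv _ e.symm
  rw [Module.finrank_finsupp_self]
  rw [Fintype.card_congr e, Sym.card_sym_eq_multichoose, Nat.multichoose_eq]
  simp only [Fintype.card_fin]
  have h2 : n + 1 + k - 1 = n + k := by omega
  rw [h2]

lemma finrank_homogeneousSubmodule_rec (n k : ℕ) (hk : 1 ≤ k) :
    k * finrank ℂ (homogeneousSubmodule (Fin (n + 1)) ℂ k) =
    (n + k) * finrank ℂ (homogeneousSubmodule (Fin (n + 1)) ℂ (k - 1)) := by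
  rw [finrank_homogeneousSubmodule, finrank_homogeneousSubmodule]
  obtain ⟨k, rfl⟩ : ∃ j, k = j + 1 := ⟨k - 1, by omega⟩
  have := Nat.add_one_mul_choose_eq (n + k) k
  simp only [Nat.add_sub_cancel]
  have h2 : n + (k + 1) = n + k + 1 := by ring
  rw [h2]
  linarith [this]

/-- abstract Lagrange lemma: a finite family of functionals with trivial common kernel on a
finite-dimensional space contains a basis of the dual, with dual basis. -/
lemma exists_lagrange {E ι : Type*} [AddCommGroup E] [Module ℂ E] [FiniteDimensional ℂ E]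
    [Finite ι] [DecidableEq ι] (φ : ι → Module.Dual ℂ E) (h : ∀ x, (∀ i, φ i x = 0) → x = 0) :
    ∃ (H : Finset ι) (L : ι → E), H.card = finrank ℂ E ∧
      (∀ i ∈ H, ∀ j ∈ H, φ j (L i) = if i = j then 1 else 0) ∧
      (∀ x, x = ∑ i ∈ H, φ i x • L i) := by
  classical
  have := Fintype.ofFinite ι
  obtain ⟨b, -, -, hb, hli⟩ := exists_linearIndepOn_extension (K := ℂ) (v := φ)
    (linearIndepOn_empty ℂ φ) (Set.empty_subset Set.univ)
  have hspan : Submodule.span ℂ (φ '' b) = ⊤ := by
    have h1 : Submodule.span ℂ (Set.range φ) = ⊤ := by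
      rw [← Subspace.dualCoannihilator_dualAnnihilator_eq (W := Submodule.span ℂ (Set.range φ))]
      have : (Submodule.span ℂ (Set.range φ)).dualCoannihilator = ⊥ := by
        rw [eq_bot_iff]
        intro x hx
        rw [Submodule.mem_dualCoannihilator] at hx
        rw [Submodule.mem_bot]
        exact h x fun i => hx _ (Submodule.subset_span ⟨i, rfl⟩)
      rw [this, Submodule.dualAnnihilator_bot]
    rw [← h1]
    apply le_antisymm
    · exact Submodule.span_mono (Set.image_subset_range _ _)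
    · rw [Submodule.span_le]
      simpa using hb
  let β : Basis b ℂ (Module.Dual ℂ E) := Basis.mk (v := fun i : b => φ i) hli (by
    rw [← hspan]
    apply Submodule.span_mono
    rintro _ ⟨i, hi, rfl⟩
    exact ⟨⟨i, hi⟩, rfl⟩)
  have hβ : ∀ i : b, β i = φ i := fun i => Basis.mk_apply _ _ _
  let L : ι → E := fun i => if hi : i ∈ b then (evalEquiv ℂ E).symm (β.dualBasis ⟨i, hi⟩) else 0
  have hL : ∀ i ∈ b, ∀ j ∈ b, φ j (L i) = if i = j then 1 else 0 := by
    intro i hi j hj
    have : φ j (L i) = (evalEquiv ℂ E (L i)) (φ j) := by simp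
    rw [this]
    simp only [L, hi, dite_true, LinearEquiv.apply_symm_apply]
    rw [← hβ ⟨j, hj⟩, Basis.dualBasis_apply_self]
    simp only [Subtype.mk.injEq, eq_comm]
  refine ⟨b.toFinset, L, ?_, ?_, ?_⟩
  · rw [Set.toFinset_card, ← Module.finrank_eq_card_basis β, Subspace.dual_finrank_eq]
  · intro i hi j hj
    exact hL i (by simpa using hi) j (by simpa using hj)
  · intro x
    have key : ∀ ψ : Module.Dual ℂ E, ψ x = ψ (∑ i ∈ b.toFinset, φ i x • L i) := by
      intro ψ
      have hψ : ψ ∈ Submodule.span ℂ (φ '' b) := by rw [hspan]; trivial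
      induction hψ using Submodule.span_induction with
      | mem ψ hψ =>
        obtain ⟨j, hj, rfl⟩ := hψ
        rw [map_sum]
        rw [Finset.sum_eq_single j]
        · simp [hL j hj j hj]
        · intro i hi hij
          simp [hL i (by simpa using hi) j hj, hij]
        · intro hj'
          exact absurd (by simpa using hj) hj'
      | zero => simp
      | add a c _ _ ha hc => simp only [LinearMap.add_apply, ha, hc]
      | smul a c _ hc => simp only [LinearMap.smul_apply, hc]
    rw [← sub_eq_zero]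
    apply h
    intro i
    rw [map_sub, sub_eq_zero]
    exact key _

lemma linForm_sub_smul {n : ℕ} (w y : Fin (n + 1) → ℂ) (c : ℂ) :
    linForm (w - c • y) = linForm w - C c * linForm y := by
  have h : linForm (w - c • y) = linFormL n (w - c • y) := rfl
  rw [h, map_sub, map_smul, linFormL_apply, linFormL_apply, smul_eq_C_mul]

lemma exists_algHom_X {n : ℕ} (g : Fin (n + 1) → MvPolynomial (Fin (n + 1)) ℂ) :
    ∃ φ : MvPolynomial (Fin (n + 1)) ℂ →ₐ[ℂ] MvPolynomial (Fin (n + 1)) ℂ, ∀ i, φ (X i) = g i :=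
  ⟨aeval g, fun i => aeval_X g i⟩

lemma exists_reduction_aux {n : ℕ} (y : Fin (n + 1) → ℂ) (i₀ : Fin (n + 1)) :
    ∃ φ : MvPolynomial (Fin (n + 1)) ℂ →ₐ[ℂ] MvPolynomial (Fin (n + 1)) ℂ,
      (∀ Q, linForm y ∣ Q - φ Q) ∧
      (∀ w, φ (linForm w) = linForm w - C (w i₀ / y i₀) * linForm y) := by
  classical
  obtain ⟨φ, hφX⟩ := exists_algHom_X
    (fun i => X i - C ((Pi.single i₀ (1 : ℂ) : Fin (n+1) → ℂ) i / y i₀) * linForm y)
  have hC : ∀ a, φ (C a) = C a := fun a => by
    rw [algHom_C, algebraMap_eq]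
  refine ⟨φ, ?_, ?_⟩
  · intro Q
    induction Q using MvPolynomial.induction_on with
    | C a =>
      rw [hC, sub_self]
      exact dvd_zero _
    | add p q hp hq =>
      rw [map_add, add_sub_add_comm]
      exact dvd_add hp hq
    | mul_X p i hp =>
      rw [map_mul, hφX]
      have : p * X i - φ p * (X i - C ((Pi.single i₀ (1 : ℂ) : Fin (n+1) → ℂ) i / y i₀) *
          linForm y) = (p - φ p) * X i + linForm y *
          (φ p * C ((Pi.single i₀ (1 : ℂ) : Fin (n+1) → ℂ) i / y i₀)) := by ring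
      rw [this]
      exact dvd_add (hp.mul_right _) (dvd_mul_right _ _)
  · intro w
    have h0 : linForm w = ∑ i, C (w i) * X i := rfl
    rw [h0, map_sum]
    have h1 : ∀ i, φ (C (w i) * X i) = C (w i) * X i -
        C (w i * ((Pi.single i₀ (1 : ℂ) : Fin (n+1) → ℂ) i / y i₀)) * linForm y := by
      intro i
      rw [map_mul, hφX, hC, C_mul]
      ring
    rw [Finset.sum_congr rfl fun i _ => h1 i, Finset.sum_sub_distrib]
    congr 1
    rw [Finset.sum_eq_single i₀]
    · rw [Pi.single_eq_same, mul_one_div]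
    · intro i _ hi
      rw [Pi.single_eq_of_ne hi, zero_div, mul_zero, C_0, zero_mul]
    · intro h
      exact absurd (Finset.mem_univ _) h

/-- Reduction modulo a linear form. -/
lemma exists_reduction {n : ℕ} {y : Fin (n + 1) → ℂ} (hy : y ≠ 0) :
    ∃ φ : MvPolynomial (Fin (n + 1)) ℂ →ₐ[ℂ] MvPolynomial (Fin (n + 1)) ℂ,
      φ (linForm y) = 0 ∧ (∀ Q, φ Q = 0 → linForm y ∣ Q) ∧
      (∀ w, LinearIndependent ℂ ![y, w] → φ (linForm w) ≠ 0) := by
  obtain ⟨i₀, hi₀⟩ : ∃ i, y i ≠ 0 := by
    by_contra h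
    push Not at h
    exact hy (funext h)
  obtain ⟨φ, h1, h2⟩ := exists_reduction_aux y i₀
  refine ⟨φ, ?_, ?_, ?_⟩
  · rw [h2, div_self hi₀, C_1, one_mul, sub_self]
  · intro Q hQ
    have h3 := h1 Q
    rwa [hQ, sub_zero] at h3
  · intro w hw h
    rw [h2, ← linForm_sub_smul] at h
    have h4 : w - (w i₀ / y i₀) • y = 0 := by
      by_contra h5
      exact linForm_ne_zero h5 h
    have h5 := (LinearIndependent.pair_iff.mp hw) (-(w i₀ / y i₀)) 1 (by
      rw [one_smul, neg_smul]
      rw [← h4]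
      abel)
    exact one_ne_zero h5.2

/-- homogeneous components of a product with a linear form -/
lemma homogeneousComponent_linForm_mul {n : ℕ} (y : Fin (n + 1) → ℂ) (k : ℕ)
    (c : MvPolynomial (Fin (n + 1)) ℂ) :
    homogeneousComponent (k + 1) (linForm y * c) = linForm y * homogeneousComponent k c := by
  classical
  conv_lhs => rw [← sum_homogeneousComponent c, Finset.mul_sum, map_sum]
  have h : ∀ i, homogeneousComponent (k + 1) (linForm y * homogeneousComponent i c)
      = if i = k then linForm y * homogeneousComponent i c else 0 := by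
    intro i
    have h1 : (linForm y * homogeneousComponent i c).IsHomogeneous (1 + i) :=
      (linForm_isHomogeneous y).mul (homogeneousComponent_isHomogeneous i c)
    rw [homogeneousComponent_of_mem (m := k + 1) (n := 1 + i)
      ((mem_homogeneousSubmodule _ _).mpr h1)]
    by_cases hik : i = k
    · subst hik
      simp [add_comm]
    · have : ¬ (k + 1 = 1 + i) := by omega
      simp [this, hik]
  simp only [h]
  rw [Finset.sum_ite_eq']
  split_ifs with hk
  · rfl
  · have : homogeneousComponent k c = 0 := by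
      apply homogeneousComponent_eq_zero
      simpa using hk
    rw [this, mul_zero]

lemma exists_of_mul_eq_mul {n k : ℕ} {y w : Fin (n + 1) → ℂ} (h : LinearIndependent ℂ ![y, w])
    {A B : MvPolynomial (Fin (n + 1)) ℂ} (hA : A.IsHomogeneous (k + 1))
    (hAB : linForm w * A = linForm y * B) :
    ∃ c : MvPolynomial (Fin (n + 1)) ℂ, c.IsHomogeneous k ∧ A = linForm y * c ∧
      B = linForm w * c := by
  have hy : y ≠ 0 := by
    have := h.ne_zero 0
    simpa using this
  obtain ⟨φ, h1, h2, h3⟩ := exists_reduction hy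
  have h4 : φ A = 0 := by
    have h5 : φ (linForm w) * φ A = 0 := by
      rw [← map_mul, hAB, map_mul, h1, zero_mul]
    exact (mul_eq_zero.mp h5).resolve_left (h3 w h)
  obtain ⟨c', hc'⟩ := h2 A h4
  refine ⟨homogeneousComponent k c', homogeneousComponent_isHomogeneous _ _, ?_, ?_⟩
  · have h6 := homogeneousComponent_linForm_mul y k c'
    rw [← hc'] at h6
    rw [← h6]
    rw [homogeneousComponent_of_mem (m := k + 1) (n := k + 1)
      ((mem_homogeneousSubmodule _ _).mpr hA)]
    simp
  · have h6 := homogeneousComponent_linForm_mul y k c'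
    rw [← hc', homogeneousComponent_of_mem (m := k + 1) (n := k + 1)
      ((mem_homogeneousSubmodule _ _).mpr hA)] at h6
    simp only [if_true] at h6
    have h7 : linForm y * B = linForm y * (linForm w * homogeneousComponent k c') := by
      rw [← hAB, h6]
      ring
    exact mul_left_cancel₀ (linForm_ne_zero hy) h7

/-- The vector `(p·y) w - (p·w) y`. -/
noncomputable def dlt {n : ℕ} (p y w : Fin (n + 1) → ℂ) : Fin (n + 1) → ℂ :=
  (p ⬝ᵥ y) • w - (p ⬝ᵥ w) • y

lemma linForm_dlt {n : ℕ} (p y w : Fin (n + 1) → ℂ) :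
    linForm (dlt p y w) = C (p ⬝ᵥ y) * linForm w - C (p ⬝ᵥ w) * linForm y := by
  have : linForm (dlt p y w) = linFormL n (dlt p y w) := rfl
  rw [this, dlt, map_sub, map_smul, map_smul, linFormL_apply, linFormL_apply, smul_eq_C_mul,
    smul_eq_C_mul]

section main

variable {n k : ℕ} {H : Type*} [Fintype H] [DecidableEq H] (p : H → Fin (n + 1) → ℂ)
  (L : H → MvPolynomial (Fin (n + 1)) ℂ)

/-- The map `a ↦ ∑ a_j ((p_j·y) W - (p_j·w) Y) L_j`. -/
noncomputable def kap (y w : Fin (n + 1) → ℂ) : (H → ℂ) →ₗ[ℂ] MvPolynomial (Fin (n + 1)) ℂ :=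
  ∑ j, (LinearMap.proj j).smulRight (linForm (dlt (p j) y w) * L j)

omit [DecidableEq H] in
lemma kap_apply (y w : Fin (n + 1) → ℂ) (a : H → ℂ) :
    kap p L y w a = ∑ j, a j • (linForm (dlt (p j) y w) * L j) := by
  simp [kap]

lemma kap_single (y w : Fin (n + 1) → ℂ) (j : H) :
    kap p L y w (Pi.single j 1) = linForm (dlt (p j) y w) * L j := by
  rw [kap_apply, Finset.sum_eq_single j]
  · simp
  · intro i _ hi
    simp [Pi.single_eq_of_ne hi]
  · simp

omit [DecidableEq H] in
lemma kap_eq (y w : Fin (n + 1) → ℂ) (a : H → ℂ) :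
    kap p L y w a = linForm w * (∑ j, (a j * (p j ⬝ᵥ y)) • L j)
      - linForm y * (∑ j, (a j * (p j ⬝ᵥ w)) • L j) := by
  rw [kap_apply, Finset.mul_sum, Finset.mul_sum, ← Finset.sum_sub_distrib]
  refine Finset.sum_congr rfl fun j _ => ?_
  rw [linForm_dlt]
  simp only [smul_eq_C_mul, C_mul]
  ring

/-- evaluation of forms of degree `k` at the points `p_j`. -/
noncomputable def evW (k : ℕ) : homogeneousSubmodule (Fin (n + 1)) ℂ k →ₗ[ℂ] (H → ℂ) where
  toFun c := fun j => eval (p j) (c : MvPolynomial (Fin (n + 1)) ℂ)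
  map_add' c d := by funext j; simp
  map_smul' t c := by funext j; simp [smul_eq_C_mul]

omit [Fintype H] [DecidableEq H] in
@[simp] lemma evW_apply (k : ℕ) (c : homogeneousSubmodule (Fin (n + 1)) ℂ k) (j : H) :
    evW p k c j = eval (p j) (c : MvPolynomial (Fin (n + 1)) ℂ) := rfl

variable (hinterp : ∀ Q : MvPolynomial (Fin (n + 1)) ℂ, Q.IsHomogeneous (k + 1) →
    Q = ∑ j, eval (p j) Q • L j)

include hinterp

omit [DecidableEq H] in
lemma eq_zero_of_vanish {Q : MvPolynomial (Fin (n + 1)) ℂ} (hQ : Q.IsHomogeneous (k + 1))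
    (h : ∀ j, eval (p j) Q = 0) : Q = 0 := by
  rw [hinterp Q hQ]
  simp [h]

omit [DecidableEq H] in
lemma evW_injective : Function.Injective (evW p k) := by
  rw [← LinearMap.ker_eq_bot, LinearMap.ker_eq_bot']
  rintro ⟨c, hc⟩ h
  rw [mem_homogeneousSubmodule] at hc
  have h1 : ∀ j, eval (p j) c = 0 := fun j => congrFun h j
  have h2 : linForm (Pi.single 0 1 : Fin (n+1) → ℂ) * c = 0 := by
    apply eq_zero_of_vanish p L hinterp (Q := linForm (Pi.single 0 1 : Fin (n+1) → ℂ) * c)
    · exact linForm_mul_isHomogeneous _ hc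
    · intro j
      rw [map_mul, h1, mul_zero]
  have h3 : linForm (Pi.single 0 1 : Fin (n+1) → ℂ) ≠ 0 := by
    apply linForm_ne_zero
    intro h
    have := congrFun h 0
    simp at this
  have h4 := (mul_eq_zero.mp h2).resolve_left h3
  ext1
  simpa using h4

omit [DecidableEq H] in
lemma range_le_ker (y w : Fin (n + 1) → ℂ) :
    LinearMap.range (evW p k) ≤ LinearMap.ker (kap p L y w) := by
  rintro _ ⟨⟨c, hc⟩, rfl⟩
  rw [mem_homogeneousSubmodule] at hc
  rw [LinearMap.mem_ker, kap_eq]
  simp only [evW_apply]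
  have h1 : ∀ v : Fin (n+1) → ℂ, ∑ j, (eval (p j) c * (p j ⬝ᵥ v)) • L j = linForm v * c := by
    intro v
    have h2 : (linForm v * c).IsHomogeneous (k + 1) := linForm_mul_isHomogeneous _ hc
    rw [hinterp _ h2]
    refine Finset.sum_congr rfl fun j _ => ?_
    rw [map_mul, eval_linForm, mul_comm]
  rw [h1, h1]
  ring

variable (hL : ∀ j, (L j).IsHomogeneous (k + 1))
  (hev : ∀ i j, eval (p j) (L i) = if i = j then 1 else 0)

include hL hev

omit hinterp in
lemma kap_ker_le {y w : Fin (n + 1) → ℂ} (h : LinearIndependent ℂ ![y, w])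
    (hy : ∀ j, p j ⬝ᵥ y ≠ 0) :
    LinearMap.ker (kap p L y w) ≤ LinearMap.range (evW p k) := by
  intro a ha
  rw [LinearMap.mem_ker, kap_eq, sub_eq_zero] at ha
  have hA : (∑ j, (a j * (p j ⬝ᵥ y)) • L j).IsHomogeneous (k + 1) := by
    refine IsHomogeneous.sum _ _ _ fun j _ => ?_
    rw [smul_eq_C_mul]
    exact (hL j).C_mul _
  obtain ⟨c, hc, hc1, -⟩ := exists_of_mul_eq_mul h hA ha
  refine ⟨⟨c, (mem_homogeneousSubmodule _ _).mpr hc⟩, ?_⟩
  funext j
  rw [evW_apply]
  have h2 := congrArg (eval (p j)) hc1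
  rw [map_mul, eval_linForm, map_sum, Finset.sum_eq_single j] at h2
  · simp only [smul_eval, hev, if_true, mul_one] at h2
    have h3 : (p j ⬝ᵥ y) * (a j - eval (p j) c) = 0 := by
      linear_combination h2
    have h4 := (mul_eq_zero.mp h3).resolve_left (hy j)
    exact (sub_eq_zero.mp h4).symm
  · intro i _ hi
    simp [smul_eval, hev, hi]
  · simp

/-- The set of index sets whose classes form a basis of the quotient. -/
theorem exists_jetForm :
    ∃ 𝓑 : Finset (Finset H),
      (∀ B ∈ 𝓑, B.card + finrank ℂ (homogeneousSubmodule (Fin (n + 1)) ℂ k) = Fintype.card H) ∧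
      (∀ y : Fin (n + 1) → ℂ, y ≠ 0 → ∃ B ∈ 𝓑, ∀ j, p j ⬝ᵥ y = 0 → j ∈ B) ∧
      ∀ y₀ w₀ : Fin (n + 1) → ℂ, LinearIndependent ℂ ![y₀, w₀] → (∀ j, p j ⬝ᵥ y₀ ≠ 0) →
        ∃ G : (Fin (n + 1) → ℂ) → (Fin (n + 1) → ℂ) → ℂ, G y₀ w₀ ≠ 0 ∧
          ∀ B ∈ 𝓑, ∃ a : B → B → ((Fin (n + 1) → ℂ) →ₗ[ℂ] ℂ), ∀ y w,
            G y w = Matrix.det (Matrix.of fun i j : B => a i j (dlt (p j) y w)) := by
  classical
  set W : Submodule ℂ (H → ℂ) := LinearMap.range (evW p k) with hW
  let ē : H → (H → ℂ) ⧸ W := fun j => W.mkQ (Pi.single j 1)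
  have hspanē : Submodule.span ℂ (Set.range ē) = ⊤ := by
    have h1 : Submodule.span ℂ (Set.range fun j : H => (Pi.single j 1 : H → ℂ)) = ⊤ := by
      have h0 : (fun j : H => (Pi.single j 1 : H → ℂ)) = ⇑(Pi.basisFun ℂ H) := by
        funext j
        rw [Pi.basisFun_apply]
      rw [h0]
      exact (Pi.basisFun ℂ H).span_eq
    have h2 : Set.range ē = W.mkQ '' (Set.range fun j : H => (Pi.single j 1 : H → ℂ)) := by
      rw [← Set.range_comp]
      rfl
    rw [h2, Submodule.span_image, h1, Submodule.map_top, Submodule.range_mkQ]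
  have hfinW : finrank ℂ W = finrank ℂ (homogeneousSubmodule (Fin (n + 1)) ℂ k) :=
    LinearMap.finrank_range_of_inj (evW_injective p L hinterp)
  refine ⟨Finset.univ.filter fun B : Finset H => LinearIndepOn ℂ ē (B : Set H) ∧
    Submodule.span ℂ (ē '' (B : Set H)) = ⊤, ?_, ?_, ?_⟩
  · intro B hB
    rw [Finset.mem_filter] at hB
    obtain ⟨-, hB1, hB2⟩ := hB
    let b : Basis B ℂ ((H → ℂ) ⧸ W) := Basis.mk (v := fun i : B => ē i) hB1 (by
      rw [← hB2]
      apply Submodule.span_mono
      rintro _ ⟨i, hi, rfl⟩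
      exact ⟨⟨i, hi⟩, rfl⟩)
    have h1 := Module.finrank_eq_card_basis b
    have h2 := W.finrank_quotient_add_finrank
    rw [h1, hfinW] at h2
    simpa using h2
  · intro y hy
    have hli : LinearIndepOn ℂ ē {j | p j ⬝ᵥ y = 0} := by
      rw [linearIndepOn_iff]
      intro l hl hl0
      have h1 : ∀ j, p j ⬝ᵥ y ≠ 0 → l j = 0 := by
        intro j hj
        by_contra h2
        exact hj ((Finsupp.mem_supported ℂ l).mp hl (Finsupp.mem_support_iff.mpr h2))
      have h2 : W.mkQ (fun j => l j) = 0 := by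
        rw [← hl0, Finsupp.linearCombination_apply, Finsupp.sum_fintype _ _ (by simp)]
        have h3 : (fun j => l j) = ∑ j, l j • (Pi.single j 1 : H → ℂ) := by
          funext i
          rw [Finset.sum_apply, Finset.sum_eq_single i]
          · simp
          · intro j _ hj
            simp [Pi.single_eq_of_ne (Ne.symm hj)]
          · simp
        rw [h3, map_sum]
        refine Finset.sum_congr rfl fun j _ => ?_
        rw [map_smul]
      rw [Submodule.mkQ_apply, Submodule.Quotient.mk_eq_zero] at h2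
      obtain ⟨⟨c, hc⟩, hc2⟩ := h2
      rw [mem_homogeneousSubmodule] at hc
      have h4 : ∀ j, eval (p j) c = l j := fun j => congrFun hc2 j
      have h5 : linForm y * c = 0 := by
        apply eq_zero_of_vanish p L hinterp (Q := linForm y * c)
        · exact linForm_mul_isHomogeneous _ hc
        · intro j
          rw [map_mul, eval_linForm, h4]
          by_cases hj : p j ⬝ᵥ y = 0
          · rw [hj, zero_mul]
          · rw [h1 j hj, mul_zero]
      have h6 : c = 0 := (mul_eq_zero.mp h5).resolve_left (linForm_ne_zero hy)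
      ext j
      rw [← h4 j, h6]
      simp
    obtain ⟨b, -, hb1, hb2, hb3⟩ := exists_linearIndepOn_extension hli (Set.subset_univ _)
    refine ⟨b.toFinset, ?_, ?_⟩
    · rw [Finset.mem_filter]
      refine ⟨Finset.mem_univ _, ?_, ?_⟩
      · simpa using hb3
      · rw [Set.coe_toFinset, eq_top_iff, ← hspanē, Submodule.span_le]
        simpa using hb2
    · intro j hj
      rw [Set.mem_toFinset]
      exact hb1 hj
  · intro y₀ w₀ hyw hy₀
    -- the induced maps on the quotient
    let κ : (Fin (n + 1) → ℂ) → (Fin (n + 1) → ℂ) → ((H → ℂ) ⧸ W) →ₗ[ℂ]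
        MvPolynomial (Fin (n + 1)) ℂ := fun y w =>
      W.liftQ (kap p L y w) (range_le_ker p L hinterp y w)
    have hinj : LinearMap.ker (κ y₀ w₀) = ⊥ := by
      rw [Submodule.ker_liftQ_eq_bot]
      exact kap_ker_le p L hL hev hyw hy₀
    obtain ⟨ϕ, hϕ⟩ := LinearMap.exists_leftInverse_of_injective _ hinj
    refine ⟨fun y w => LinearMap.det (ϕ ∘ₗ κ y w), ?_, ?_⟩
    · beta_reduce
      rw [hϕ]
      simp
    · intro B hB
      rw [Finset.mem_filter] at hB
      obtain ⟨-, hB1, hB2⟩ := hB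
      let b : Basis B ℂ ((H → ℂ) ⧸ W) := Basis.mk (v := fun i : B => ē i) hB1 (by
        rw [← hB2]
        apply Submodule.span_mono
        rintro _ ⟨i, hi, rfl⟩
        exact ⟨⟨i, hi⟩, rfl⟩)
      have hb : ∀ i : B, b i = ē i := fun i => Basis.mk_apply _ _ _
      refine ⟨fun i j => (b.coord i) ∘ₗ ϕ ∘ₗ (LinearMap.mulRight ℂ (L j)) ∘ₗ linFormL n, ?_⟩
      intro y w
      beta_reduce
      rw [← LinearMap.det_toMatrix b]
      congr 1
      ext i j
      rw [LinearMap.toMatrix_apply, hb]
      simp only [Matrix.of_apply, LinearMap.comp_apply, linFormL_apply, LinearMap.mulRight_apply,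
        Basis.coord_apply]
      congr 3
      show κ y w (W.mkQ (Pi.single (j : H) 1)) = _
      rw [Submodule.mkQ_apply]
      show W.liftQ (kap p L y w) _ (Submodule.Quotient.mk (Pi.single (j : H) 1)) = _
      rw [Submodule.liftQ_apply, kap_single]

end main

end Pool.Agent.Lib.GGL
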