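import Mathlib
import Pool.Agent.Lib.MP_8d161d_ag.Alg

/-!
Pointwise estimate for the determinant of one-jets.
-/

open Filter Topology Metric

namespace Pool.Agent.Lib.GGL

section pointwise

variable {n : ℕ} {H : Type*} [Fintype H] [DecidableEq H] (p : H → Fin (n + 1) → ℂ)

/-- the linear map `y ↦ (p_j · y)_j` -/
noncomputable def evL : (Fin (n + 1) → ℂ) →ₗ[ℂ] (H → ℂ) where
  toFun y := fun j => p j ⬝ᵥ y
  map_add' y z := by funext j; simp [dotProduct_add]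
  map_smul' c y := by funext j; simp [dotProduct_smul]

omit [Fintype H] [DecidableEq H] in
@[simp] lemma evL_apply (y : Fin (n + 1) → ℂ) (j : H) : evL p y j = p j ⬝ᵥ y := rfl

variable (hsep : ∀ y : Fin (n + 1) → ℂ, (∀ j, p j ⬝ᵥ y = 0) → y = 0)

include hsep

omit [DecidableEq H] in
lemma functional_bound (a : (Fin (n + 1) → ℂ) →ₗ[ℂ] ℂ) :
    ∃ C : ℝ, 0 ≤ C ∧ ∀ (v : Fin (n + 1) → ℂ) (r : ℝ), 0 ≤ r → (∀ i, ‖p i ⬝ᵥ v‖ ≤ r) →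
      ‖a v‖ ≤ C * r := by
  have hinj : LinearMap.ker (evL p) = ⊥ := by
    rw [LinearMap.ker_eq_bot']
    intro y hy
    exact hsep y fun j => congrFun hy j
  obtain ⟨g, hg⟩ := LinearMap.exists_leftInverse_of_injective _ hinj
  let b : (H → ℂ) →L[ℂ] ℂ := LinearMap.toContinuousLinearMap (a ∘ₗ g)
  refine ⟨‖b‖, norm_nonneg _, ?_⟩
  intro v r hr hv
  have h1 : a v = b (evL p v) := by
    have h2 : g (evL p v) = v := by
      rw [← LinearMap.comp_apply, hg, LinearMap.id_apply]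
    show a v = a (g (evL p v))
    rw [h2]
  rw [h1]
  calc ‖b (evL p v)‖ ≤ ‖b‖ * ‖evL p v‖ := b.le_opNorm _
    _ ≤ ‖b‖ * r := by
      gcongr
      rw [pi_norm_le_iff_of_nonneg hr]
      intro i
      exact hv i

omit [Fintype H] in
omit hsep in
lemma det_bound {B : Finset H} (A : Matrix B B ℂ) (β : H → ℝ) (hA : ∀ i j : B, ‖A i j‖ ≤ β j) :
    ‖A.det‖ ≤ (B.card.factorial : ℝ) * ∏ j ∈ B, β j := by
  rw [Matrix.det_apply]
  refine (norm_sum_le _ _).trans ?_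
  have h : ∀ σ ∈ (Finset.univ : Finset (Equiv.Perm B)),
      ‖Equiv.Perm.sign σ • ∏ i, A (σ i) i‖ ≤ ∏ j ∈ B, β j := by
    intro σ _
    have h1 : ‖Equiv.Perm.sign σ • ∏ i, A (σ i) i‖ = ‖∏ i, A (σ i) i‖ := by
      rcases Int.units_eq_one_or (Equiv.Perm.sign σ) with h | h <;> simp [h]
    rw [h1, norm_prod, ← Finset.prod_coe_sort B]
    exact Finset.prod_le_prod (fun i _ => norm_nonneg _) (fun i _ => hA _ _)
  refine (Finset.sum_le_sum h).trans ?_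
  rw [Finset.sum_const, Finset.card_univ, Fintype.card_perm, Fintype.card_coe, nsmul_eq_mul]

omit [DecidableEq H] in
omit hsep in
lemma lower_bound (m t : ℕ) (𝓑 : Finset (Finset H))
    (hcov : ∀ y : Fin (n + 1) → ℂ, y ≠ 0 → ∃ B ∈ 𝓑, ∀ j, p j ⬝ᵥ y = 0 → j ∈ B)
    (hm : 0 < m) [DecidableEq H] :
    ∃ c : ℝ, 0 < c ∧ ∀ (x : EuclideanSpace ℂ H) (y : Fin (n + 1) → ℂ), ‖x‖ = 1 →
      (∀ j, p j ⬝ᵥ y = x j ^ m) → c ≤ ∑ B ∈ 𝓑, ∏ j ∈ Bᶜ, ‖x j‖ ^ t := by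
  let K : Set (EuclideanSpace ℂ H) := sphere 0 1 ∩
    {x | (fun j => x j ^ m) ∈ (LinearMap.range (evL p) : Set (H → ℂ))}
  have hK : IsCompact K := by
    apply (isCompact_sphere (0 : EuclideanSpace ℂ H) 1).inter_right
    have h1 : IsClosed (LinearMap.range (evL p) : Set (H → ℂ)) :=
      Submodule.closed_of_finiteDimensional _
    exact h1.preimage (by fun_prop)
  have hcont : Continuous fun x : EuclideanSpace ℂ H => ∑ B ∈ 𝓑, ∏ j ∈ Bᶜ, ‖x j‖ ^ t := by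
    fun_prop
  have hpos : ∀ x ∈ K, 0 < ∑ B ∈ 𝓑, ∏ j ∈ Bᶜ, ‖x j‖ ^ t := by
    rintro x ⟨hx1, y, hy⟩
    have hx1' : ‖x‖ = 1 := by simpa using hx1
    have hy' : ∀ j, p j ⬝ᵥ y = x j ^ m := fun j => congrFun hy j
    have hy0 : y ≠ 0 := by
      rintro rfl
      have : x = 0 := by
        ext j
        have := hy' j
        rw [dotProduct_zero] at this
        simpa using (pow_eq_zero_iff hm.ne').mp this.symm
      rw [this, norm_zero] at hx1'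
      exact zero_ne_one hx1'
    obtain ⟨B, hB, hB2⟩ := hcov y hy0
    apply Finset.sum_pos'
    · intro B _
      exact Finset.prod_nonneg fun j _ => by positivity
    · refine ⟨B, hB, ?_⟩
      apply Finset.prod_pos
      intro j hj
      have : x j ≠ 0 := by
        intro h
        rw [Finset.mem_compl] at hj
        apply hj
        apply hB2
        rw [hy', h, zero_pow hm.ne']
      positivity
  rcases K.eq_empty_or_nonempty with hne | hne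
  · refine ⟨1, one_pos, ?_⟩
    intro x y hx hy
    have : x ∈ K := ⟨by simpa using hx, y, funext hy⟩
    rw [hne] at this
    exact absurd this (Set.notMem_empty _)
  · obtain ⟨x₀, hx₀, hmin⟩ := hK.exists_isMinOn hne hcont.continuousOn
    refine ⟨_, hpos x₀ hx₀, ?_⟩
    intro x y hx hy
    exact hmin (a := x) ⟨by simpa using hx, y, funext hy⟩

omit [DecidableEq H] in
lemma det_upper {B : Finset H} [DecidableEq H] {e : ℕ} (hcard : B.card = e)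
    (a : B → B → ((Fin (n + 1) → ℂ) →ₗ[ℂ] ℂ)) :
    ∃ C : ℝ, 0 ≤ C ∧ ∀ (y w : Fin (n + 1) → ℂ) (γ : H → ℝ) (r : ℝ), (∀ j, 0 ≤ γ j) → 0 ≤ r →
      (∀ i j, ‖p i ⬝ᵥ dlt (p j) y w‖ ≤ γ j * r) →
      ‖Matrix.det (Matrix.of fun i j : B => a i j (dlt (p j) y w))‖ ≤
        C * (∏ j ∈ B, γ j) * r ^ e := by
  choose C hC0 hC using fun i j => functional_bound p hsep (a i j)
  obtain ⟨D, hD⟩ : ∃ D : ℝ, D = ∑ i, ∑ j, C i j := ⟨_, rfl⟩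
  have hD0 : 0 ≤ D := by
    rw [hD]
    exact Finset.sum_nonneg fun i _ => Finset.sum_nonneg fun j _ => hC0 i j
  have hCD : ∀ i j, C i j ≤ D := by
    intro i j
    rw [hD]
    calc C i j ≤ ∑ j, C i j := Finset.single_le_sum (fun j _ => hC0 i j) (Finset.mem_univ j)
      _ ≤ ∑ i, ∑ j, C i j := Finset.single_le_sum
          (f := fun i => ∑ j, C i j) (fun i _ => Finset.sum_nonneg fun j _ => hC0 i j)
          (Finset.mem_univ i)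
  refine ⟨(B.card.factorial : ℝ) * D ^ e, by positivity, ?_⟩
  intro y w γ r hγ hr h
  have h1 : ∀ i j : B, ‖(Matrix.of fun i j : B => a i j (dlt (p j) y w)) i j‖ ≤ D * (γ j * r) := by
    intro i j
    rw [Matrix.of_apply]
    have h2 := hC i j (dlt (p j) y w) (γ j * r) (mul_nonneg (hγ _) hr) fun i => h i j
    exact h2.trans (mul_le_mul_of_nonneg_right (hCD i j) (mul_nonneg (hγ _) hr))
  refine (det_bound _ (fun j => D * (γ j * r)) h1).trans (le_of_eq ?_)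
  rw [Finset.prod_mul_distrib, Finset.prod_mul_distrib, Finset.prod_const, Finset.prod_const, hcard]
  ring

/-- The main pointwise estimate. -/
theorem pointwise {m e s : ℕ} (hm : 0 < m) (𝓑 : Finset (Finset H))
    (hcard : ∀ B ∈ 𝓑, B.card = e)
    (hcov : ∀ y : Fin (n + 1) → ℂ, y ≠ 0 → ∃ B ∈ 𝓑, ∀ j, p j ⬝ᵥ y = 0 → j ∈ B)
    (hs : s + 2 * m * e = (m - 1) * Fintype.card H)
    (G : (Fin (n + 1) → ℂ) → (Fin (n + 1) → ℂ) → ℂ)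
    (hG : ∀ B ∈ 𝓑, ∃ a : B → B → ((Fin (n + 1) → ℂ) →ₗ[ℂ] ℂ), ∀ y w,
            G y w = Matrix.det (Matrix.of fun i j : B => a i j (dlt (p j) y w))) :
    ∃ C : ℝ, 0 ≤ C ∧ ∀ (x x' : EuclideanSpace ℂ H) (y w : Fin (n + 1) → ℂ), x ≠ 0 →
      (∀ j, p j ⬝ᵥ y = x j ^ m) → (∀ j, p j ⬝ᵥ w = m * x j ^ (m - 1) * x' j) → ∀ β : ℂ,
        ‖G y w‖ * ‖x‖ ^ s ≤ C * (∏ j, ‖x j‖ ^ (m - 1)) * (‖x' - β • x‖ / ‖x‖) ^ e := by
  obtain ⟨c, hc, hlow⟩ := lower_bound p m (m - 1) 𝓑 hcov hm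
  have hup : ∀ B ∈ 𝓑, ∃ C : ℝ, 0 ≤ C ∧ ∀ (y w : Fin (n + 1) → ℂ) (γ : H → ℝ) (r : ℝ),
      (∀ j, 0 ≤ γ j) → 0 ≤ r → (∀ i j, ‖p i ⬝ᵥ dlt (p j) y w‖ ≤ γ j * r) →
      ‖G y w‖ ≤ C * (∏ j ∈ B, γ j) * r ^ e := by
    intro B hB
    obtain ⟨a, ha⟩ := hG B hB
    obtain ⟨C, hC0, hC⟩ := det_upper p hsep (hcard B hB) a
    refine ⟨C, hC0, ?_⟩
    intro y w γ r h1 h2 h3
    rw [ha]
    exact hC y w γ r h1 h2 h3
  choose! C hC0 hC using hup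
  refine ⟨(∑ B ∈ 𝓑, C B) * (2 * m) ^ e / c, ?_, ?_⟩
  · have : 0 ≤ ∑ B ∈ 𝓑, C B := Finset.sum_nonneg hC0
    positivity
  intro x x' y w hx hxy hxw β
  have hnx : 0 < ‖x‖ := norm_pos_iff.mpr hx
  -- lower bound
  have hL : c * ‖x‖ ^ ((m - 1) * (Fintype.card H - e)) ≤
      ∑ B ∈ 𝓑, ∏ j ∈ Bᶜ, ‖x j‖ ^ (m - 1) := by
    have h1 := hlow (((‖x‖ : ℂ)⁻¹) • x) (((‖x‖ : ℂ)⁻¹ ^ m) • y) (by
        rw [norm_smul, norm_inv, Complex.norm_real, norm_norm, inv_mul_cancel₀ hnx.ne']) (by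
        intro j
        rw [dotProduct_smul, hxy j, PiLp.smul_apply, smul_eq_mul, smul_eq_mul, mul_pow])
    have h2 : ∀ B ∈ 𝓑, ∏ j ∈ Bᶜ, ‖(((‖x‖ : ℂ)⁻¹) • x) j‖ ^ (m - 1) =
        (‖x‖⁻¹) ^ ((m - 1) * (Fintype.card H - e)) * ∏ j ∈ Bᶜ, ‖x j‖ ^ (m - 1) := by
      intro B hB
      have h3 : ∀ j ∈ Bᶜ, ‖(((‖x‖ : ℂ)⁻¹) • x) j‖ ^ (m - 1) =
          (‖x‖⁻¹) ^ (m - 1) * ‖x j‖ ^ (m - 1) := by
        intro j _
        rw [PiLp.smul_apply, norm_smul, norm_inv, Complex.norm_real, norm_norm, mul_pow]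
      rw [Finset.prod_congr rfl h3, Finset.prod_mul_distrib, Finset.prod_const, Finset.card_compl,
        hcard B hB, ← pow_mul]
    rw [Finset.sum_congr rfl h2, ← Finset.mul_sum] at h1
    calc c * ‖x‖ ^ ((m - 1) * (Fintype.card H - e))
        ≤ ((‖x‖⁻¹) ^ ((m - 1) * (Fintype.card H - e)) * ∑ B ∈ 𝓑, ∏ j ∈ Bᶜ, ‖x j‖ ^ (m - 1)) *
          ‖x‖ ^ ((m - 1) * (Fintype.card H - e)) := by gcongr
      _ = ((‖x‖⁻¹ * ‖x‖) ^ ((m - 1) * (Fintype.card H - e))) *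
          ∑ B ∈ 𝓑, ∏ j ∈ Bᶜ, ‖x j‖ ^ (m - 1) := by
          rw [mul_pow]; ring
      _ = ∑ B ∈ 𝓑, ∏ j ∈ Bᶜ, ‖x j‖ ^ (m - 1) := by
          rw [inv_mul_cancel₀ hnx.ne', one_pow, one_mul]
  -- upper bound
  obtain ⟨τ, hτ⟩ : ∃ τ, τ = ‖x' - β • x‖ / ‖x‖ := ⟨_, rfl⟩
  have hτ0 : 0 ≤ τ := by rw [hτ]; positivity
  have hτ' : ‖x' - β • x‖ = τ * ‖x‖ := by rw [hτ]; field_simp
  rw [← hτ]
  have hM : ∀ i j, ‖x j * x' i - x' j * x i‖ ≤ 2 * ‖x‖ ^ 2 * τ := by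
    intro i j
    have h1 : x j * x' i - x' j * x i =
        x j * (x' - β • x) i - (x' - β • x) j * x i := by
      simp only [PiLp.sub_apply, PiLp.smul_apply, smul_eq_mul]
      ring
    rw [h1]
    have h2 : ∀ i, ‖x i‖ ≤ ‖x‖ := fun i => PiLp.norm_apply_le x i
    have h3 : ∀ i, ‖(x' - β • x) i‖ ≤ τ * ‖x‖ := fun i => by
      rw [← hτ']
      exact PiLp.norm_apply_le (x' - β • x) i
    calc ‖x j * (x' - β • x) i - (x' - β • x) j * x i‖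
        ≤ ‖x j * (x' - β • x) i‖ + ‖(x' - β • x) j * x i‖ := norm_sub_le _ _
      _ = ‖x j‖ * ‖(x' - β • x) i‖ + ‖(x' - β • x) j‖ * ‖x i‖ := by rw [norm_mul, norm_mul]
      _ ≤ ‖x‖ * (τ * ‖x‖) + (τ * ‖x‖) * ‖x‖ := by
          gcongr
          · exact h2 j
          · exact h3 i
          · exact h3 j
          · exact h2 i
      _ = 2 * ‖x‖ ^ 2 * τ := by ring
  have hδ : ∀ i j, ‖p i ⬝ᵥ dlt (p j) y w‖ ≤
      ‖x j‖ ^ (m - 1) * (2 * m * (‖x‖ ^ (m + 1) * τ)) := by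
    intro i j
    have h1 : p i ⬝ᵥ dlt (p j) y w =
        (m * (x j ^ (m - 1) * x i ^ (m - 1))) * (x j * x' i - x' j * x i) := by
      have e1 : ∀ j, x j ^ m = x j ^ (m - 1) * x j := by
        intro j
        rw [← pow_succ]
        congr 1
        omega
      rw [dlt, dotProduct_sub, dotProduct_smul, dotProduct_smul, hxy, hxy, hxw, hxw, e1, e1]
      simp only [smul_eq_mul]
      ring
    rw [h1, norm_mul, norm_mul, norm_mul, norm_pow, norm_pow, Complex.norm_natCast]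
    have h2 : ‖x i‖ ^ (m - 1) ≤ ‖x‖ ^ (m - 1) := by
      gcongr
      exact PiLp.norm_apply_le x i
    calc m * (‖x j‖ ^ (m - 1) * ‖x i‖ ^ (m - 1)) * ‖x j * x' i - x' j * x i‖
        ≤ m * (‖x j‖ ^ (m - 1) * ‖x‖ ^ (m - 1)) * (2 * ‖x‖ ^ 2 * τ) := by
          gcongr
          exact hM i j
      _ = ‖x j‖ ^ (m - 1) * (2 * m * ((‖x‖ ^ (m - 1) * ‖x‖ ^ 2) * τ)) := by ring
      _ = ‖x j‖ ^ (m - 1) * (2 * m * (‖x‖ ^ (m + 1) * τ)) := by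
          have e2 : m - 1 + 2 = m + 1 := by omega
          rw [← pow_add, e2]
  have hU : ∀ B ∈ 𝓑, ‖G y w‖ * ∏ j ∈ Bᶜ, ‖x j‖ ^ (m - 1) ≤
      C B * ((∏ j, ‖x j‖ ^ (m - 1)) * (2 * m * (‖x‖ ^ (m + 1) * τ)) ^ e) := by
    intro B hB
    have h1 := hC B hB y w (fun j => ‖x j‖ ^ (m - 1)) (2 * m * (‖x‖ ^ (m + 1) * τ))
      (fun j => by positivity) (by positivity) hδ
    calc ‖G y w‖ * ∏ j ∈ Bᶜ, ‖x j‖ ^ (m - 1)
        ≤ (C B * (∏ j ∈ B, ‖x j‖ ^ (m - 1)) * (2 * m * (‖x‖ ^ (m + 1) * τ)) ^ e) *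
          ∏ j ∈ Bᶜ, ‖x j‖ ^ (m - 1) := by
          gcongr
      _ = C B * (((∏ j ∈ B, ‖x j‖ ^ (m - 1)) * ∏ j ∈ Bᶜ, ‖x j‖ ^ (m - 1)) *
          (2 * m * (‖x‖ ^ (m + 1) * τ)) ^ e) := by ring
      _ = _ := by
          rw [Finset.prod_mul_prod_compl]
  have hsum : ‖G y w‖ * (c * ‖x‖ ^ ((m - 1) * (Fintype.card H - e))) ≤
      (∑ B ∈ 𝓑, C B) * ((∏ j, ‖x j‖ ^ (m - 1)) * (2 * m * (‖x‖ ^ (m + 1) * τ)) ^ e) := by
    calc ‖G y w‖ * (c * ‖x‖ ^ ((m - 1) * (Fintype.card H - e)))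
        ≤ ‖G y w‖ * ∑ B ∈ 𝓑, ∏ j ∈ Bᶜ, ‖x j‖ ^ (m - 1) := by gcongr
      _ = ∑ B ∈ 𝓑, ‖G y w‖ * ∏ j ∈ Bᶜ, ‖x j‖ ^ (m - 1) := by rw [Finset.mul_sum]
      _ ≤ ∑ B ∈ 𝓑, C B * ((∏ j, ‖x j‖ ^ (m - 1)) * (2 * m * (‖x‖ ^ (m + 1) * τ)) ^ e) :=
          Finset.sum_le_sum hU
      _ = _ := by rw [Finset.sum_mul]
  have hexp : (m - 1) * (Fintype.card H - e) = s + (m + 1) * e := by
    rw [Nat.mul_sub, ← hs]
    have h4 : 2 * m * e = (m - 1) * e + (m + 1) * e := by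
      rw [← add_mul]
      congr 1
      omega
    omega
  rw [hexp] at hsum
  have hfac : 0 < ‖x‖ ^ ((m + 1) * e) := by positivity
  have h5 : (‖G y w‖ * (c * ‖x‖ ^ s)) * ‖x‖ ^ ((m + 1) * e) ≤
      ((∑ B ∈ 𝓑, C B) * ((∏ j, ‖x j‖ ^ (m - 1)) * ((2 * m) ^ e * τ ^ e))) *
        ‖x‖ ^ ((m + 1) * e) := by
    calc (‖G y w‖ * (c * ‖x‖ ^ s)) * ‖x‖ ^ ((m + 1) * e)
        = ‖G y w‖ * (c * ‖x‖ ^ (s + (m + 1) * e)) := by rw [pow_add]; ring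
      _ ≤ _ := hsum
      _ = _ := by
          rw [mul_pow, mul_pow (‖x‖ ^ (m + 1)) τ, ← pow_mul]
          ring
  have h6 := le_of_mul_le_mul_right h5 hfac
  calc ‖G y w‖ * ‖x‖ ^ s = (‖G y w‖ * (c * ‖x‖ ^ s)) / c := by
        field_simp
    _ ≤ ((∑ B ∈ 𝓑, C B) * ((∏ j, ‖x j‖ ^ (m - 1)) * ((2 * m) ^ e * τ ^ e))) / c := by gcongr
    _ = _ := by ring

end pointwise

end Pool.Agent.Lib.GGL
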