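import Mathlib
import Pool.Agent.Lib.MP_8d161d_ag.Alg
import Pool.Agent.Lib.MP_8d161d_ag.Mg.G039
import Pool.Agent.Lib.MP_8d161d_ag.Point

/-!
The main argument for curves not contained in any of the hyperplanes.
-/

open Filter Topology Metric

namespace Pool.Agent.Lib.GGL

/-- glueing local continuous functions that agree off isolated points -/
lemma glue (P₀ : ℂ → ℝ) (h : ∀ z₁, ∃ c : ℂ → ℝ, (∀ᶠ z in 𝓝 z₁, ContinuousAt c z) ∧
    ∀ᶠ z in 𝓝[≠] z₁, P₀ z = c z) :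
    ∃ P : ℂ → ℝ, Continuous P ∧ ∀ (z₁ : ℂ) (c : ℂ → ℝ), (∀ᶠ z in 𝓝 z₁, ContinuousAt c z) →
      (∀ᶠ z in 𝓝[≠] z₁, P₀ z = c z) → ∀ᶠ z in 𝓝 z₁, P z = c z := by
  have key : ∀ (z₁ : ℂ) (c : ℂ → ℝ), (∀ᶠ z in 𝓝 z₁, ContinuousAt c z) →
      (∀ᶠ z in 𝓝[≠] z₁, P₀ z = c z) → ∀ᶠ z in 𝓝 z₁, limUnder (𝓝[≠] z) P₀ = c z := by
    intro z₁ c hc hP
    have h1 : ∀ᶠ z in 𝓝 z₁, ∀ᶠ w in 𝓝[≠] z, P₀ w = c w := by
      rw [eventually_nhdsWithin_iff] at hP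
      have h2 := hP.eventually_nhds
      filter_upwards [h2] with z hz
      rcases eq_or_ne z z₁ with rfl | hne
      · rw [eventually_nhdsWithin_iff]
        exact hz
      · have h3 : ∀ᶠ w in 𝓝 z, w ≠ z₁ := eventually_ne_nhds hne
        apply Filter.Eventually.filter_mono nhdsWithin_le_nhds
        filter_upwards [hz, h3] with w hw1 hw2 using hw1 hw2
    filter_upwards [h1, hc] with z hz hcz
    apply Tendsto.limUnder_eq
    have h4 : Tendsto c (𝓝[≠] z) (𝓝 (c z)) := hcz.tendsto.mono_left nhdsWithin_le_nhds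
    exact h4.congr' (hz.mono fun w hw => hw.symm)
  refine ⟨fun z => limUnder (𝓝[≠] z) P₀, ?_, key⟩
  rw [continuous_iff_continuousAt]
  intro z₁
  obtain ⟨c, hc1, hc2⟩ := h z₁
  have h5 := key z₁ c hc1 hc2
  exact (continuousAt_congr h5).mpr hc1.self_of_nhds

/-- A family of local lifts of a holomorphic curve in projective space. -/
def LiftFamily {n : ℕ} (Y : ℂ → ℂ → Fin (n + 1) → ℂ) : Prop :=
  (∀ z₁, AnalyticAt ℂ (Y z₁) z₁) ∧ (∀ z₁, Y z₁ z₁ ≠ 0) ∧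
  ∀ z₁, ∀ᶠ z in 𝓝 z₁, ∃ l : ℂ → ℂ, AnalyticAt ℂ l z ∧ l z ≠ 0 ∧ ∀ᶠ w in 𝓝 z,
    Y z w = l w • Y z₁ w

section

variable {n : ℕ} {H : Type*} [Fintype H] [DecidableEq H] (p : H → Fin (n + 1) → ℂ)

lemma dlt_smul (v y w : Fin (n + 1) → ℂ) (l μ : ℂ) :
    dlt v (l • y) (l • w + μ • y) = l ^ 2 • dlt v y w := by
  simp only [dlt, dotProduct_smul, dotProduct_add, smul_eq_mul, smul_add, smul_smul, smul_sub]
  module

omit [Fintype H] in
lemma G_smul {e : ℕ} {𝓑 : Finset (Finset H)} (hne : 𝓑.Nonempty) (hcard : ∀ B ∈ 𝓑, B.card = e)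
    {G : (Fin (n + 1) → ℂ) → (Fin (n + 1) → ℂ) → ℂ}
    (hG : ∀ B ∈ 𝓑, ∃ a : B → B → ((Fin (n + 1) → ℂ) →ₗ[ℂ] ℂ), ∀ y w,
            G y w = Matrix.det (Matrix.of fun i j : B => a i j (dlt (p j) y w)))
    (y w : Fin (n + 1) → ℂ) (l μ : ℂ) :
    G (l • y) (l • w + μ • y) = (l ^ 2) ^ e * G y w := by
  obtain ⟨B, hB⟩ := hne
  obtain ⟨a, ha⟩ := hG B hB
  rw [ha, ha]
  have h1 : (Matrix.of fun i j : B => a i j (dlt (p j) (l • y) (l • w + μ • y))) =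
      l ^ 2 • (Matrix.of fun i j : B => a i j (dlt (p j) y w)) := by
    ext i j
    rw [Matrix.smul_apply, Matrix.of_apply, Matrix.of_apply, dlt_smul, map_smul]
  rw [h1, Matrix.det_smul, Fintype.card_coe, hcard B hB]

/-- The auxiliary function. -/
noncomputable def Phi (m N : ℕ) (G : (Fin (n + 1) → ℂ) → (Fin (n + 1) → ℂ) → ℂ)
    (y w : Fin (n + 1) → ℂ) : ℝ :=
  ‖G y w‖ ^ (2 * m) / (∏ j, ‖p j ⬝ᵥ y‖) ^ (2 * (m - 1)) *
    (∑ j, (‖p j ⬝ᵥ y‖ ^ ((m : ℝ)⁻¹)) ^ 2) ^ N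

lemma Phi_smul {m e s : ℕ} (hm : 0 < m) {𝓑 : Finset (Finset H)} (hne : 𝓑.Nonempty)
    (hcard : ∀ B ∈ 𝓑, B.card = e) (hs : s + 2 * m * e = (m - 1) * Fintype.card H)
    {G : (Fin (n + 1) → ℂ) → (Fin (n + 1) → ℂ) → ℂ}
    (hG : ∀ B ∈ 𝓑, ∃ a : B → B → ((Fin (n + 1) → ℂ) →ₗ[ℂ] ℂ), ∀ y w,
            G y w = Matrix.det (Matrix.of fun i j : B => a i j (dlt (p j) y w)))
    (y w : Fin (n + 1) → ℂ) {l : ℂ} (hl : l ≠ 0) (μ : ℂ) :
    Phi p m (m * s) G (l • y) (l • w + μ • y) = Phi p m (m * s) G y w := by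
  unfold Phi
  rw [G_smul p hne hcard hG]
  obtain ⟨ρ, hρ⟩ : ∃ ρ : ℝ, ρ = ‖l‖ ^ ((m : ℝ)⁻¹) := ⟨_, rfl⟩
  have hρ0 : 0 < ρ := by
    rw [hρ]
    exact Real.rpow_pos_of_pos (norm_pos_iff.mpr hl) _
  have hρm : ‖l‖ = ρ ^ m := by
    rw [hρ, Real.rpow_inv_natCast_pow (norm_nonneg _) hm.ne']
  have h1 : ∀ j, ‖p j ⬝ᵥ (l • y)‖ = ρ ^ m * ‖p j ⬝ᵥ y‖ := by
    intro j
    rw [dotProduct_smul, norm_smul, hρm]
  have h2 : ∀ j, (‖p j ⬝ᵥ (l • y)‖ ^ ((m : ℝ)⁻¹)) ^ 2 =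
      ρ ^ 2 * (‖p j ⬝ᵥ y‖ ^ ((m : ℝ)⁻¹)) ^ 2 := by
    intro j
    rw [dotProduct_smul, norm_smul, Real.mul_rpow (norm_nonneg _) (norm_nonneg _), ← hρ, mul_pow]
  rw [Finset.sum_congr rfl fun j _ => h2 j, Finset.prod_congr rfl fun j _ => h1 j]
  rw [Finset.prod_mul_distrib, Finset.prod_const, Finset.card_univ, ← Finset.mul_sum, norm_mul,
    norm_pow, norm_pow, hρm]
  rw [mul_pow, mul_pow, mul_pow]
  have h3 : ((((ρ ^ m) ^ 2) ^ e) ^ (2 * m)) * ((ρ ^ 2) ^ (m * s)) =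
      ((ρ ^ m) ^ Fintype.card H) ^ (2 * (m - 1)) := by
    simp only [← pow_mul, ← pow_add]
    congr 1
    calc m * 2 * e * (2 * m) + 2 * (m * s) = 2 * m * (s + 2 * m * e) := by ring
      _ = m * Fintype.card H * (2 * (m - 1)) := by rw [hs]; ring
  rw [← h3]
  have h4 : 0 < (((ρ ^ m) ^ 2) ^ e) ^ (2 * m) := by positivity
  have h5 : 0 < (ρ ^ 2) ^ (m * s) := by positivity
  generalize (((ρ ^ m) ^ 2) ^ e) ^ (2 * m) = A at *
  generalize (ρ ^ 2) ^ (m * s) = A' at *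
  rw [mul_div_mul_comm]
  have h6 : A / (A * A') = 1 / A' := by
    field_simp
  rw [h6]
  field_simp

/-- The contradiction for curves not contained in any of the hyperplanes. -/
theorem caseB {m e s : ℕ} (hm : 0 < m) (he : 0 < e) (hs0 : 0 < s) {𝓑 : Finset (Finset H)}
    (hcard : ∀ B ∈ 𝓑, B.card = e)
    (hcov : ∀ y : Fin (n + 1) → ℂ, y ≠ 0 → ∃ B ∈ 𝓑, ∀ j, p j ⬝ᵥ y = 0 → j ∈ B)
    (hsep : ∀ y : Fin (n + 1) → ℂ, (∀ j, p j ⬝ᵥ y = 0) → y = 0)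
    (hs : s + 2 * m * e = (m - 1) * Fintype.card H)
    {G : (Fin (n + 1) → ℂ) → (Fin (n + 1) → ℂ) → ℂ}
    (hG : ∀ B ∈ 𝓑, ∃ a : B → B → ((Fin (n + 1) → ℂ) →ₗ[ℂ] ℂ), ∀ y w,
            G y w = Matrix.det (Matrix.of fun i j : B => a i j (dlt (p j) y w)))
    {Y : ℂ → ℂ → Fin (n + 1) → ℂ} (hY : LiftFamily Y)
    (htop : ∀ j z₁, analyticOrderAt (fun z => p j ⬝ᵥ Y z₁ z) z₁ ≠ ⊤)
    (hord : ∀ j z₁, analyticOrderAt (fun z => p j ⬝ᵥ Y z₁ z) z₁ = 0 ∨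
      (m : ℕ∞) ≤ analyticOrderAt (fun z => p j ⬝ᵥ Y z₁ z) z₁)
    {z₀ : ℂ} (hz₀ : ∀ j, p j ⬝ᵥ Y z₀ z₀ ≠ 0) (hGz₀ : G (Y z₀ z₀) (deriv (Y z₀) z₀) ≠ 0) :
    False := by
  obtain ⟨hYan, hY0, hYc⟩ := hY
  have hne : 𝓑.Nonempty := by
    obtain ⟨B, hB, -⟩ := hcov (Y 0 0) (hY0 0)
    exact ⟨B, hB⟩
  -- the function off the hyperplanes
  obtain ⟨P₀, hP₀⟩ : ∃ P₀ : ℂ → ℝ, P₀ = fun z => Phi p m (m * s) G (Y z z) (deriv (Y z) z) :=
    ⟨_, rfl⟩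
  have hP₀loc : ∀ z₁, ∀ᶠ z in 𝓝 z₁, P₀ z = Phi p m (m * s) G (Y z₁ z) (deriv (Y z₁) z) := by
    intro z₁
    filter_upwards [hYc z₁, (hYan z₁).eventually_analyticAt] with z ⟨l, hl1, hl2, hl3⟩ han
    rw [hP₀]
    have h1 : Y z z = l z • Y z₁ z := hl3.self_of_nhds
    have h2 : deriv (Y z) z = l z • deriv (Y z₁) z + deriv l z • Y z₁ z := by
      have h3 : Y z =ᶠ[𝓝 z] fun w => l w • Y z₁ w := hl3
      rw [h3.deriv_eq]
      exact (hl1.differentiableAt.hasDerivAt.smul han.differentiableAt.hasDerivAt).deriv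
    beta_reduce
    rw [h1, h2, Phi_smul p hm hne hcard hs hG _ _ hl2]
  choose σ hσan hσG hσx using fun z₁ => local_structure p hm 𝓑 hcov G hG (hYan z₁) (hY0 z₁)
    (fun j => htop j z₁) (fun j => hord j z₁)
  have hlan : ∀ z₁ j, AnalyticAt ℂ (fun z => p j ⬝ᵥ Y z₁ z) z₁ := fun z₁ j =>
    analyticAt_dotProduct (hYan z₁) _
  have hlne : ∀ z₁, ∀ᶠ z in 𝓝[≠] z₁, ∀ j, p j ⬝ᵥ Y z₁ z ≠ 0 := by
    intro z₁
    rw [Filter.eventually_all]
    intro j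
    rcases (hlan z₁ j).eventually_eq_zero_or_eventually_ne_zero with h | h
    · exact absurd (analyticOrderAt_eq_top.mpr h) (htop j z₁)
    · exact h
  obtain ⟨c, hc⟩ : ∃ c : ℂ → ℂ → ℝ, c = fun z₁ z => ‖σ z₁ z‖ ^ 2 *
    (∑ j, (‖p j ⬝ᵥ Y z₁ z‖ ^ ((m : ℝ)⁻¹)) ^ 2) ^ (m * s) := ⟨_, rfl⟩
  have hccont : ∀ z₁, ∀ᶠ z in 𝓝 z₁, ContinuousAt (c z₁) z := by
    intro z₁
    filter_upwards [(hσan z₁).eventually_analyticAt, (hYan z₁).eventually_analyticAt]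
      with z h1 h2
    rw [hc]
    have h3 : ContinuousAt (σ z₁) z := h1.continuousAt
    have h4 : ∀ j, ContinuousAt (fun z => p j ⬝ᵥ Y z₁ z) z := fun j =>
      (analyticAt_dotProduct h2 _).continuousAt
    have h5 : ∀ j, ContinuousAt (fun z => (‖p j ⬝ᵥ Y z₁ z‖ ^ ((m : ℝ)⁻¹)) ^ 2) z := fun j =>
      (((h4 j).norm).rpow_const (Or.inr (by positivity))).pow 2
    have h6 : ContinuousAt (fun z => ∑ j, (‖p j ⬝ᵥ Y z₁ z‖ ^ ((m : ℝ)⁻¹)) ^ 2) z :=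
      tendsto_finsetSum _ fun j _ => h5 j
    exact ((h3.norm).pow 2).mul (h6.pow _)
  have hcP : ∀ z₁, ∀ᶠ z in 𝓝[≠] z₁, P₀ z = c z₁ z := by
    intro z₁
    filter_upwards [hlne z₁, (hP₀loc z₁).filter_mono nhdsWithin_le_nhds,
      (hσG z₁).filter_mono nhdsWithin_le_nhds] with z h1 h2 h3
    rw [h2, hc, Phi]
    have h4 : 0 < (∏ j, ‖p j ⬝ᵥ Y z₁ z‖) ^ (2 * (m - 1)) := by
      apply pow_pos
      exact Finset.prod_pos fun j _ => norm_pos_iff.mpr (h1 j)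
    have h5 : ‖G (Y z₁ z) (deriv (Y z₁) z)‖ ^ (2 * m) =
        ‖σ z₁ z‖ ^ 2 * (∏ j, ‖p j ⬝ᵥ Y z₁ z‖) ^ (2 * (m - 1)) := by
      rw [mul_comm 2 m, pow_mul, ← norm_pow, h3, norm_mul, mul_pow, norm_pow, ← norm_prod,
        ← pow_mul, mul_comm (m - 1) 2]
    rw [h5, mul_div_assoc, div_self h4.ne', mul_one]
  obtain ⟨P, hPcont, hPc⟩ := glue P₀ fun z₁ => ⟨c z₁, hccont z₁, hcP z₁⟩
  have hPz : ∀ z₁, ∀ᶠ z in 𝓝 z₁, P z = c z₁ z := fun z₁ => hPc z₁ _ (hccont z₁) (hcP z₁)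
  have hPnonneg : ∀ z, 0 ≤ P z := by
    intro z
    rw [(hPz z).self_of_nhds, hc]
    positivity
  obtain ⟨C, hC0, hC⟩ := pointwise p hsep hm 𝓑 hcard hcov hs G hG
  -- application of the growth lemma
  have hzero : ∀ z, P z = 0 := by
    refine growth (E := EuclideanSpace ℂ H) hPcont hPnonneg (κ := m * e) (N := m * s)
      (Nat.mul_pos hm hs0) (Nat.mul_pos hm he) (C ^ (2 * m)) ?_
    intro z₁ hz₁
    have h1 := (hPz z₁).self_of_nhds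
    have hσ0 : σ z₁ z₁ ≠ 0 := by
      intro h
      rw [h1, hc] at hz₁
      simp [h] at hz₁
    obtain ⟨x, hxan, hx⟩ := hσx z₁ hσ0
    have hnorm : ∀ z, (∀ j, p j ⬝ᵥ Y z₁ z = x z j ^ m) →
        ∑ j, (‖p j ⬝ᵥ Y z₁ z‖ ^ ((m : ℝ)⁻¹)) ^ 2 = ‖x z‖ ^ 2 := by
      intro z hz
      rw [EuclideanSpace.norm_sq_eq]
      refine Finset.sum_congr rfl fun j _ => ?_
      rw [hz j, norm_pow, Real.pow_rpow_inv_natCast (norm_nonneg _) hm.ne']
    have hx0 : x z₁ ≠ 0 := by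
      intro h0
      apply hY0 z₁
      apply hsep
      intro j
      rw [(hx.self_of_nhds j).1, h0]
      simp [hm.ne']
    refine ⟨σ z₁, x, hσan z₁, hxan, hx0, ?_, ?_⟩
    · filter_upwards [hPz z₁, hx] with z g1 g2
      rw [g1, hc]
      beta_reduce
      rw [hnorm z fun j => (g2 j).1]
    · intro β
      have hx0' : ∀ᶠ z in 𝓝 z₁, x z ≠ 0 := hxan.continuousAt.eventually_ne hx0
      have hineq : ∀ᶠ z in 𝓝[≠] z₁, P z ≤
          C ^ (2 * m) * (‖deriv x z - β • x z‖ / ‖x z‖) ^ (2 * (m * e)) := by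
        filter_upwards [hlne z₁, (hPz z₁).filter_mono nhdsWithin_le_nhds,
          (hσG z₁).filter_mono nhdsWithin_le_nhds, hx.filter_mono nhdsWithin_le_nhds,
          hx0'.filter_mono nhdsWithin_le_nhds] with z g1 g2 g3 g4 g5
        rw [g2, hc]
        beta_reduce
        rw [hnorm z fun j => (g4 j).1]
        have g6 := hC (x z) (deriv x z) (Y z₁ z) (deriv (Y z₁) z) g5 (fun j => (g4 j).1)
          (fun j => (g4 j).2) β
        obtain ⟨τ, hτ⟩ : ∃ τ, τ = ‖deriv x z - β • x z‖ / ‖x z‖ := ⟨_, rfl⟩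
        have hτ0 : 0 ≤ τ := by rw [hτ]; positivity
        rw [← hτ] at g6 ⊢
        have g7 : 0 < (∏ j, ‖x z j‖ ^ (m - 1)) ^ (2 * m) := by
          apply pow_pos
          refine Finset.prod_pos fun j _ => ?_
          have : x z j ≠ 0 := by
            intro h
            apply g1 j
            rw [(g4 j).1, h, zero_pow hm.ne']
          positivity
        have g8 : (‖G (Y z₁ z) (deriv (Y z₁) z)‖ * ‖x z‖ ^ s) ^ (2 * m) ≤
            (C * (∏ j, ‖x z j‖ ^ (m - 1)) * τ ^ e) ^ (2 * m) := by gcongr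
        have g9 : ‖G (Y z₁ z) (deriv (Y z₁) z)‖ ^ (2 * m) =
            ‖σ z₁ z‖ ^ 2 * (∏ j, ‖x z j‖ ^ (m - 1)) ^ (2 * m) := by
          rw [mul_comm 2 m, pow_mul, ← norm_pow, g3, norm_mul, mul_pow, norm_pow]
          congr 1
          have : ∀ j, ‖p j ⬝ᵥ Y z₁ z‖ = ‖x z j‖ ^ m := fun j => by
            rw [(g4 j).1, norm_pow]
          rw [norm_prod, Finset.prod_congr rfl fun j _ => this j, Finset.prod_pow, Finset.prod_pow,
            ← pow_mul, ← pow_mul, ← pow_mul]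
          congr 1
          ring
        have g10 : (‖σ z₁ z‖ ^ 2 * (‖x z‖ ^ 2) ^ (m * s)) *
            (∏ j, ‖x z j‖ ^ (m - 1)) ^ (2 * m) ≤
            (C ^ (2 * m) * τ ^ (2 * (m * e))) * (∏ j, ‖x z j‖ ^ (m - 1)) ^ (2 * m) := by
          calc (‖σ z₁ z‖ ^ 2 * (‖x z‖ ^ 2) ^ (m * s)) * (∏ j, ‖x z j‖ ^ (m - 1)) ^ (2 * m)
              = (‖σ z₁ z‖ ^ 2 * (∏ j, ‖x z j‖ ^ (m - 1)) ^ (2 * m)) *
                (‖x z‖ ^ s) ^ (2 * m) := by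
                  rw [← pow_mul, ← pow_mul]
                  have : 2 * (m * s) = s * (2 * m) := by ring
                  rw [this]
                  ring
            _ = (‖G (Y z₁ z) (deriv (Y z₁) z)‖ * ‖x z‖ ^ s) ^ (2 * m) := by
                  rw [← g9, mul_pow]
            _ ≤ _ := g8
            _ = _ := by
                  rw [mul_pow, mul_pow, ← pow_mul τ]
                  have : e * (2 * m) = 2 * (m * e) := by ring
                  rw [this]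
                  ring
        exact le_of_mul_le_mul_right g10 g7
      have hcont : ContinuousAt (fun z => C ^ (2 * m) *
          (‖deriv x z - β • x z‖ / ‖x z‖) ^ (2 * (m * e))) z₁ := by
        have h2 : ContinuousAt x z₁ := hxan.continuousAt
        have h3 : ContinuousAt (deriv x) z₁ := hxan.deriv.continuousAt
        have h4 : ‖x z₁‖ ≠ 0 := norm_ne_zero_iff.mpr hx0
        exact continuousAt_const.mul (((h3.sub (h2.const_smul β)).norm.div h2.norm h4).pow _)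
      exact le_of_tendsto_of_tendsto (hPcont.continuousAt.tendsto.mono_left nhdsWithin_le_nhds)
        (hcont.tendsto.mono_left nhdsWithin_le_nhds) hineq
  -- contradiction
  have h1 := (hPz z₀).self_of_nhds
  rw [hzero z₀, hc] at h1
  have h2 := (hσG z₀).self_of_nhds
  have h3 : σ z₀ z₀ ≠ 0 := by
    intro h
    rw [h, zero_mul] at h2
    exact (pow_ne_zero m hGz₀) h2
  have h4 : 0 < ∑ j, (‖p j ⬝ᵥ Y z₀ z₀‖ ^ ((m : ℝ)⁻¹)) ^ 2 := by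
    have hHne : (Finset.univ : Finset H).Nonempty := by
      by_contra hemp
      rw [Finset.not_nonempty_iff_eq_empty] at hemp
      apply hY0 z₀
      apply hsep
      intro j
      have := Finset.mem_univ j
      rw [hemp] at this
      exact absurd this (Finset.notMem_empty _)
    refine Finset.sum_pos (fun j _ => ?_) hHne
    have := norm_pos_iff.mpr (hz₀ j)
    positivity
  have h5 : 0 < ‖σ z₀ z₀‖ ^ 2 * (∑ j, (‖p j ⬝ᵥ Y z₀ z₀‖ ^ ((m : ℝ)⁻¹)) ^ 2) ^ (m * s) := by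
    have := norm_pos_iff.mpr h3
    positivity
  exact absurd h1 h5.ne

end

end Pool.Agent.Lib.GGL
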