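import Mathlib
import Pool.Agent.Lib.MP_8d161d_ag.Alg
import Pool.Agent.Lib.MP_8d161d_ag.CaseB

/-!
Ramified holomorphic curves in projective space are constant.
-/

open Filter Topology Metric MvPolynomial Module

namespace Pool.Agent.Lib.GGL

section families

variable {n : ℕ} {Y : ℂ → ℂ → Fin (n + 1) → ℂ}

lemma linearIndependent_transfer {E : Type*} [AddCommGroup E] [Module ℂ E] {a b : E} {l μ : ℂ}
    (hl : l ≠ 0) (h : LinearIndependent ℂ ![a, b]) :
    LinearIndependent ℂ ![l • a, l • b + μ • a] := by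
  rw [LinearIndependent.pair_iff] at h ⊢
  intro s t hst
  have h1 : (s * l + t * μ) • a + (t * l) • b = 0 := by
    rw [← hst]
    module
  obtain ⟨h2, h3⟩ := h _ _ h1
  have ht : t = 0 := (mul_eq_zero.mp h3).resolve_right hl
  subst ht
  rw [zero_mul, add_zero] at h2
  exact ⟨(mul_eq_zero.mp h2).resolve_right hl, rfl⟩

lemma LiftFamily.transfer (hY : LiftFamily Y) (z₁ : ℂ) : ∀ᶠ z in 𝓝 z₁,
    (LinearIndependent ℂ ![Y z₁ z, deriv (Y z₁) z] →
      LinearIndependent ℂ ![Y z z, deriv (Y z) z]) := by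
  obtain ⟨hYan, hY0, hYc⟩ := hY
  filter_upwards [hYc z₁, (hYan z₁).eventually_analyticAt] with z ⟨l, hl1, hl2, hl3⟩ han hind
  have h1 : Y z z = l z • Y z₁ z := hl3.self_of_nhds
  have h2 : deriv (Y z) z = l z • deriv (Y z₁) z + deriv l z • Y z₁ z := by
    have h3 : Y z =ᶠ[𝓝 z] fun w => l w • Y z₁ w := hl3
    rw [h3.deriv_eq]
    exact (hl1.differentiableAt.hasDerivAt.smul han.differentiableAt.hasDerivAt).deriv
  rw [h1, h2]
  exact linearIndependent_transfer hl2 hind

/-- local constancy from linear dependence of `y` and `y'` -/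
lemma const_local {y : ℂ → Fin (n + 1) → ℂ} {z₁ : ℂ} (hy : AnalyticAt ℂ y z₁) (hy0 : y z₁ ≠ 0)
    (hdep : ∀ᶠ z in 𝓝 z₁, ¬ LinearIndependent ℂ ![y z, deriv y z]) :
    ∀ᶠ z in 𝓝 z₁, ∃ c : ℂ, c ≠ 0 ∧ y z = c • y z₁ := by
  obtain ⟨i, hi⟩ : ∃ i, y z₁ i ≠ 0 := by
    by_contra h
    push Not at h
    exact hy0 (funext h)
  have hcoord : ∀ z, AnalyticAt ℂ y z → ∀ j, AnalyticAt ℂ (fun z => y z j) z := fun z hz j =>
    (analyticAt_pi_iff.mp hz) j
  have hne : ∀ᶠ z in 𝓝 z₁, y z i ≠ 0 := (hcoord z₁ hy i).continuousAt.eventually_ne hi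
  obtain ⟨ε, hε, hball⟩ := Metric.eventually_nhds_iff_ball.mp
    ((hdep.and hne).and hy.eventually_analyticAt)
  have hconst : ∀ j, ∀ z ∈ ball z₁ ε, y z j / y z i = y z₁ j / y z₁ i := by
    intro j z hz
    have hderiv : ∀ w ∈ ball z₁ ε, HasDerivAt (fun z => y z j / y z i) 0 w := by
      intro w hw
      obtain ⟨⟨h1, h2⟩, h3⟩ := hball w hw
      have h4 : HasDerivAt y (deriv y w) w := h3.differentiableAt.hasDerivAt
      have h5 := hasDerivAt_pi.mp h4
      have h6 := (h5 j).div (h5 i) h2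
      have h7 : (deriv y w j * y w i - y w j * deriv y w i) / y w i ^ 2 = 0 := by
        rw [div_eq_zero_iff]
        left
        rw [LinearIndependent.pair_iff] at h1
        push Not at h1
        obtain ⟨s, t, hst, hne⟩ := h1
        have e1 : s * y w j + t * deriv y w j = 0 := congrFun hst j
        have e2 : s * y w i + t * deriv y w i = 0 := congrFun hst i
        have ht : t ≠ 0 := by
          intro ht
          rw [ht, zero_mul, add_zero] at e2
          have := (mul_eq_zero.mp e2).resolve_right h2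
          exact hne this ht
        have e3 : t * (deriv y w j * y w i - y w j * deriv y w i) = 0 := by
          linear_combination (y w i) * e1 - (y w j) * e2
        exact (mul_eq_zero.mp e3).resolve_left ht
      rw [h7] at h6
      exact h6
    refine isOpen_ball.is_const_of_deriv_eq_zero (convex_ball z₁ ε).isPreconnected
      (f := fun z => y z j / y z i) ?_ ?_ hz (mem_ball_self hε)
    · intro w hw
      exact (hderiv w hw).differentiableAt.differentiableWithinAt
    · intro w hw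
      exact (hderiv w hw).deriv
  filter_upwards [ball_mem_nhds z₁ hε] with z hz
  obtain ⟨⟨-, h2⟩, -⟩ := hball z hz
  refine ⟨y z i / y z₁ i, div_ne_zero h2 hi, ?_⟩
  funext j
  have h3 := hconst j z hz
  rw [Pi.smul_apply, smul_eq_mul]
  field_simp at h3 ⊢
  linear_combination h3

/-- global constancy -/
lemma LiftFamily.const (hY : LiftFamily Y)
    (hdep : ∀ z, ¬ LinearIndependent ℂ ![Y z z, deriv (Y z) z]) (z w : ℂ) :
    ∃ c : ℂ, c ≠ 0 ∧ Y z z = c • Y w w := by
  have hY' := hY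
  obtain ⟨hYan, hY0, hYc⟩ := hY'
  have hloc : IsLocallyConstant fun z => Submodule.span ℂ {Y z z} := by
    rw [IsLocallyConstant.iff_eventually_eq]
    intro z₁
    have h1 : ∀ᶠ z in 𝓝 z₁, ¬ LinearIndependent ℂ ![Y z₁ z, deriv (Y z₁) z] := by
      filter_upwards [hY.transfer z₁] with z hz h
      exact hdep z (hz h)
    filter_upwards [const_local (hYan z₁) (hY0 z₁) h1, hYc z₁] with z ⟨c, hc, hc2⟩
      ⟨l, hl1, hl2, hl3⟩
    have h2 : Y z z = l z • Y z₁ z := hl3.self_of_nhds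
    rw [h2, hc2, smul_smul]
    exact Submodule.span_singleton_smul_eq (isUnit_iff_ne_zero.mpr (mul_ne_zero hl2 hc)) _
  have h3 := hloc.apply_eq_of_preconnectedSpace z w
  beta_reduce at h3
  have h4 : Y z z ∈ Submodule.span ℂ {Y w w} := by
    rw [← h3]
    exact Submodule.mem_span_singleton_self _
  obtain ⟨c, hc⟩ := Submodule.mem_span_singleton.mp h4
  refine ⟨c, ?_, hc.symm⟩
  rintro rfl
  rw [zero_smul] at hc
  exact hY0 z hc.symm

/-- identity theorem for hyperplanes -/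
lemma LiftFamily.top_or (hY : LiftFamily Y) (v : Fin (n + 1) → ℂ) :
    (∀ z₁, analyticOrderAt (fun z => v ⬝ᵥ Y z₁ z) z₁ ≠ ⊤) ∨ (∀ z, v ⬝ᵥ Y z z = 0) := by
  obtain ⟨hYan, hY0, hYc⟩ := hY
  have hloc : IsLocallyConstant fun z₁ => analyticOrderAt (fun z => v ⬝ᵥ Y z₁ z) z₁ = ⊤ := by
    rw [IsLocallyConstant.iff_eventually_eq]
    intro z₁
    by_cases htop : analyticOrderAt (fun z => v ⬝ᵥ Y z₁ z) z₁ = ⊤
    · have h1 := (analyticOrderAt_eq_top.mp htop).eventually_nhds
      filter_upwards [h1, hYc z₁] with z hz ⟨l, hl1, hl2, hl3⟩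
      rw [eq_iff_iff]
      refine iff_of_true ?_ htop
      rw [analyticOrderAt_eq_top]
      filter_upwards [hz, hl3] with w hw1 hw2
      rw [hw2, dotProduct_smul, hw1, smul_zero]
    · have h1 : ∀ᶠ z in 𝓝[≠] z₁, v ⬝ᵥ Y z₁ z ≠ 0 := by
        rcases (analyticAt_dotProduct (hYan z₁) v).eventually_eq_zero_or_eventually_ne_zero
          with h | h
        · exact absurd (analyticOrderAt_eq_top.mpr h) htop
        · exact h
      rw [eventually_nhdsWithin_iff] at h1
      filter_upwards [h1, hYc z₁] with z hz ⟨l, hl1, hl2, hl3⟩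
      rw [eq_iff_iff]
      refine iff_of_false ?_ htop
      rcases eq_or_ne z z₁ with rfl | hne
      · exact htop
      · intro h2
        have h3 := (analyticOrderAt_eq_top.mp h2).self_of_nhds
        rw [hl3.self_of_nhds, dotProduct_smul, smul_eq_mul] at h3
        rcases mul_eq_zero.mp h3 with h4 | h4
        · exact hl2 h4
        · exact hz hne h4
  by_cases h : analyticOrderAt (fun z => v ⬝ᵥ Y 0 z) 0 = ⊤
  · right
    intro z
    have h5 := hloc.apply_eq_of_preconnectedSpace z 0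
    beta_reduce at h5
    have h6 : analyticOrderAt (fun w => v ⬝ᵥ Y z w) z = ⊤ := by
      rw [h5]; exact h
    exact (analyticOrderAt_eq_top.mp h6).self_of_nhds
  · left
    intro z h6
    have h5 := hloc.apply_eq_of_preconnectedSpace z 0
    beta_reduce at h5
    rw [h5] at h6
    exact h h6

/-- transport of a family of lifts by a linear map injective on the span -/
lemma LiftFamily.map {n' : ℕ} (hY : LiftFamily Y)
    (B : (Fin (n + 1) → ℂ) →ₗ[ℂ] (Fin (n' + 1) → ℂ)) (hB : ∀ z, B (Y z z) ≠ 0) :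
    LiftFamily fun z w => B (Y z w) := by
  obtain ⟨hYan, hY0, hYc⟩ := hY
  refine ⟨fun z => ?_, hB, fun z₁ => ?_⟩
  · exact ((LinearMap.toContinuousLinearMap B).analyticAt _).comp (hYan z)
  · filter_upwards [hYc z₁] with z ⟨l, hl1, hl2, hl3⟩
    refine ⟨l, hl1, hl2, ?_⟩
    filter_upwards [hl3] with w hw
    rw [hw, map_smul]

end families

section unisolvent

variable {n k : ℕ} {ι : Type*}

/-- evaluation of forms of degree `k` at a point -/
noncomputable def evF (k : ℕ) (v : Fin (n + 1) → ℂ) :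
    homogeneousSubmodule (Fin (n + 1)) ℂ k →ₗ[ℂ] ℂ where
  toFun c := eval v (c : MvPolynomial (Fin (n + 1)) ℂ)
  map_add' c d := by simp
  map_smul' t c := by simp [smul_eq_C_mul]

lemma evF_apply (k : ℕ) (v : Fin (n + 1) → ℂ) (c : homogeneousSubmodule (Fin (n + 1)) ℂ k) :
    evF k v c = eval v (c : MvPolynomial (Fin (n + 1)) ℂ) := rfl

lemma exists_unisolvent [Finite ι] [DecidableEq ι] (p : ι → Fin (n + 1) → ℂ)
    (hND : ∀ Q : MvPolynomial (Fin (n + 1)) ℂ, Q.IsHomogeneous k → (∀ j, eval (p j) Q = 0) →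
      Q = 0) :
    ∃ (H : Finset ι) (L : H → MvPolynomial (Fin (n + 1)) ℂ),
      H.card = finrank ℂ (homogeneousSubmodule (Fin (n + 1)) ℂ k) ∧
      (∀ j, (L j).IsHomogeneous k) ∧
      (∀ i j : H, eval (p j) (L i) = if i = j then 1 else 0) ∧
      (∀ Q : MvPolynomial (Fin (n + 1)) ℂ, Q.IsHomogeneous k →
        Q = ∑ j : H, eval (p j) Q • L j) := by
  obtain ⟨H, L, h1, h2, h3⟩ := exists_lagrange
    (E := homogeneousSubmodule (Fin (n + 1)) ℂ k)
    (fun j : ι => evF k (p j)) (by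
      rintro ⟨Q, hQ⟩ h
      rw [mem_homogeneousSubmodule] at hQ
      ext1
      exact hND Q hQ h)
  refine ⟨H, fun j => (L j : MvPolynomial (Fin (n + 1)) ℂ), h1, ?_, ?_, ?_⟩
  · intro j
    exact (mem_homogeneousSubmodule _ _).mp (L j).2
  · intro i j
    have h4 : eval (p j) (L i : MvPolynomial (Fin (n + 1)) ℂ) = _ := h2 i i.2 j j.2
    rw [h4]
    by_cases hij : i = j
    · rw [if_pos hij, if_pos (congrArg Subtype.val hij)]
    · rw [if_neg hij, if_neg fun h => hij (Subtype.ext h)]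
  · intro Q hQ
    have h4 := h3 ⟨Q, (mem_homogeneousSubmodule _ _).mpr hQ⟩
    have h5 := congrArg (homogeneousSubmodule (Fin (n + 1)) ℂ k).subtype h4
    rw [map_sum] at h5
    rw [Finset.sum_coe_sort H
      (fun j => eval (p j) Q • (L j : MvPolynomial (Fin (n + 1)) ℂ))]
    refine h5.trans (Finset.sum_congr rfl fun j _ => ?_)
    rw [map_smul]
    rfl

end unisolvent

lemma arith {n m k q q' e : ℕ} (hineq : (m + 1) * n < (m - 1) * (k + 1))
    (hrec : (k + 1) * q = (n + (k + 1)) * q') (he : e + q' = q) (hq : 0 < q) :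
    2 * m * e < (m - 1) * q := by
  obtain ⟨m', rfl⟩ : ∃ m', m = m' + 1 := by
    refine ⟨m - 1, ?_⟩
    have : m ≠ 0 := by
      rintro rfl
      simp at hineq
    omega
  rw [Nat.add_sub_cancel] at hineq ⊢
  have h1 : (n + (k + 1)) * e = n * q := by
    have : (n + (k + 1)) * e + (n + (k + 1)) * q' = n * q + (k + 1) * q := by
      rw [← mul_add, he]
      ring
    omega
  have h2 : (n + (k + 1)) * (2 * (m' + 1) * e) < (n + (k + 1)) * (m' * q) := by
    calc (n + (k + 1)) * (2 * (m' + 1) * e) = 2 * (m' + 1) * ((n + (k + 1)) * e) := by ring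
      _ = (2 * (m' + 1) * n) * q := by rw [h1]; ring
      _ < (m' * (n + (k + 1))) * q := by
          apply Nat.mul_lt_mul_of_pos_right _ hq
          nlinarith
      _ = _ := by ring
  exact Nat.lt_of_mul_lt_mul_left h2

theorem core_nondeg {n m k : ℕ} {ι : Type*} [Finite ι] (p : ι → Fin (n + 1) → ℂ)
    (hND : ∀ Q : MvPolynomial (Fin (n + 1)) ℂ, Q.IsHomogeneous k → (∀ j, eval (p j) Q = 0) →
      Q = 0)
    (hineq : (m + 1) * n < (m - 1) * k) {Y : ℂ → ℂ → Fin (n + 1) → ℂ} (hY : LiftFamily Y)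
    (hord : ∀ j z₁, analyticOrderAt (fun z => p j ⬝ᵥ Y z₁ z) z₁ = 0 ∨
      (m : ℕ∞) ≤ analyticOrderAt (fun z => p j ⬝ᵥ Y z₁ z) z₁)
    (hspan : ∀ v : Fin (n + 1) → ℂ, v ≠ 0 → ∃ z, v ⬝ᵥ Y z z ≠ 0) (z w : ℂ) :
    ∃ c : ℂ, c ≠ 0 ∧ Y z z = c • Y w w := by
  classical
  obtain ⟨k, rfl⟩ : ∃ j, k = j + 1 := by
    refine ⟨k - 1, ?_⟩
    have : k ≠ 0 := by
      rintro rfl
      simp at hineq
    omega
  have hm : 0 < m := by
    rcases Nat.eq_zero_or_pos m with h | h
    · subst h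
      simp at hineq
    · exact h
  by_contra hcon
  have hex : ∃ z₁, LinearIndependent ℂ ![Y z₁ z₁, deriv (Y z₁) z₁] := by
    by_contra h
    push Not at h
    exact hcon (hY.const h z w)
  obtain ⟨z₁, hz₁⟩ := hex
  have hn : 0 < n := by
    have := hz₁.fintype_card_le_finrank
    simp at this
    omega
  obtain ⟨H, L, hcard, hLh, hLev, hLint⟩ := exists_unisolvent p hND
  obtain ⟨𝓑, h𝓑card, h𝓑cov, h𝓑G⟩ := exists_jetForm (k := k) (fun j : H => p j) L hLint hLh hLev
  -- numerics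
  obtain ⟨q, hq⟩ : ∃ q, q = finrank ℂ (homogeneousSubmodule (Fin (n + 1)) ℂ (k + 1)) := ⟨_, rfl⟩
  obtain ⟨q', hq'⟩ : ∃ q', q' = finrank ℂ (homogeneousSubmodule (Fin (n + 1)) ℂ k) := ⟨_, rfl⟩
  have hrec : (k + 1) * q = (n + (k + 1)) * q' := by
    rw [hq, hq']
    exact finrank_homogeneousSubmodule_rec n (k + 1) (by omega)
  have hqpos : 0 < q := by
    rw [hq, finrank_homogeneousSubmodule]
    exact Nat.choose_pos (by omega)
  have hq'pos : 0 < q' := by
    rw [hq', finrank_homogeneousSubmodule]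
    exact Nat.choose_pos (by omega)
  have hcardH : Fintype.card H = q := by rw [Fintype.card_coe, hcard, hq]
  have hlt : q' < q := by
    have h1 : (k + 1) * q' < (k + 1) * q := by
      rw [hrec]
      apply Nat.mul_lt_mul_of_pos_right _ hq'pos
      omega
    exact Nat.lt_of_mul_lt_mul_left h1
  obtain ⟨e, he⟩ : ∃ e, e + q' = q := ⟨q - q', by omega⟩
  have he0 : 0 < e := by omega
  have hBe : ∀ B ∈ 𝓑, B.card = e := by
    intro B hB
    have := h𝓑card B hB
    rw [hcardH, ← hq'] at this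
    omega
  have hs1 := arith hineq hrec he hqpos
  obtain ⟨s, hs⟩ : ∃ s, s + 2 * m * e = (m - 1) * Fintype.card H := by
    rw [hcardH]
    exact ⟨(m - 1) * q - 2 * m * e, by omega⟩
  have hs0 : 0 < s := by
    rw [hcardH] at hs
    omega
  have hsep : ∀ y : Fin (n + 1) → ℂ, (∀ j : H, p j ⬝ᵥ y = 0) → y = 0 := by
    intro y hy
    by_contra hy0
    have h1 : (linForm y ^ (k + 1)).IsHomogeneous (k + 1) := by
      simpa using (linForm_isHomogeneous y).pow (k + 1)
    have h2 := hLint _ h1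
    have h3 : linForm y ^ (k + 1) = 0 := by
      rw [h2]
      refine Finset.sum_eq_zero fun j _ => ?_
      rw [map_pow, eval_linForm, hy j, zero_pow (by omega), zero_smul]
    exact linForm_ne_zero hy0 (pow_eq_zero_iff (by omega) |>.mp h3)
  have hpne : ∀ j : H, p j ≠ 0 := by
    intro j hj
    have h1 := hLev j j
    rw [if_pos rfl, hj] at h1
    have h2 : eval (0 : Fin (n + 1) → ℂ) (L j) = 0 := by
      have h3 := (hLh j).coeff_eq_zero (d := 0) (by simp)
      rw [MvPolynomial.eval_zero, MvPolynomial.constantCoeff_eq]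
      exact h3
    rw [h2] at h1
    exact zero_ne_one h1
  have htop : ∀ (j : H) z₁, analyticOrderAt (fun z => p j ⬝ᵥ Y z₁ z) z₁ ≠ ⊤ := by
    intro j
    rcases hY.top_or (p j) with h | h
    · exact h
    · obtain ⟨z, hz⟩ := hspan (p j) (hpne j)
      exact absurd (h z) hz
  -- a good point
  have hYan := hY.1
  have hgood : ∃ z₀, LinearIndependent ℂ ![Y z₀ z₀, deriv (Y z₀) z₀] ∧
      ∀ j : H, p j ⬝ᵥ Y z₀ z₀ ≠ 0 := by
    have h1 : ∀ᶠ z in 𝓝 z₁, LinearIndependent ℂ ![Y z₁ z, deriv (Y z₁) z] := by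
      have hcont : ContinuousAt (fun z => ![Y z₁ z, deriv (Y z₁) z]) z₁ := by
        rw [continuousAt_pi]
        intro i
        fin_cases i
        · exact (hYan z₁).continuousAt
        · exact (hYan z₁).deriv.continuousAt
      exact hcont.eventually_mem
        ((isOpen_setOfPred_linearIndependent (𝕜 := ℂ) (E := Fin (n + 1) → ℂ)).mem_nhds hz₁)
    have h2 : ∀ᶠ z in 𝓝[≠] z₁, ∀ j : H, p j ⬝ᵥ Y z₁ z ≠ 0 := by
      rw [Filter.eventually_all]
      intro j
      rcases (analyticAt_dotProduct (hYan z₁) (p j)).eventually_eq_zero_or_eventually_ne_zero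
        with h | h
      · exact absurd (analyticOrderAt_eq_top.mpr h) (htop j z₁)
      · exact h
    have h3 := ((h2.and (h1.filter_mono nhdsWithin_le_nhds)).and
      ((hY.transfer z₁).filter_mono nhdsWithin_le_nhds)).and
      ((hY.2.2 z₁).filter_mono nhdsWithin_le_nhds)
    obtain ⟨z₀, ⟨⟨g1, g2⟩, g3⟩, l, hl1, hl2, hl3⟩ := h3.exists
    refine ⟨z₀, g3 g2, ?_⟩
    intro j
    rw [hl3.self_of_nhds, dotProduct_smul, smul_eq_mul]
    exact mul_ne_zero hl2 (g1 j)
  obtain ⟨z₀, hz₀, hz₀'⟩ := hgood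
  obtain ⟨G, hG0, hG⟩ := h𝓑G _ _ hz₀ hz₀'
  exact caseB (fun j : H => p j) hm he0 hs0 hBe h𝓑cov hsep hs hG hY htop
    (fun j z => hord j z) hz₀' hG0

/-- pulling back a polynomial by a linear substitution -/
lemma exists_pullback {n n' k : ℕ} (A : Fin (n' + 1) → Fin (n + 1) → ℂ)
    {Q : MvPolynomial (Fin (n' + 1)) ℂ} (hQ : Q.IsHomogeneous k) :
    ∃ Q' : MvPolynomial (Fin (n + 1)) ℂ, Q'.IsHomogeneous k ∧
      ∀ v, eval v Q' = eval (fun i => v ⬝ᵥ A i) Q := by
  refine ⟨aeval (fun i => linForm (A i)) Q, ?_, ?_⟩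
  · simpa using hQ.aeval _ (fun i => linForm_isHomogeneous (A i))
  · intro v
    have h : (eval v) (aeval (fun i => linForm (A i)) Q) =
        (((MvPolynomial.aeval v : MvPolynomial (Fin (n + 1)) ℂ →ₐ[ℂ] ℂ).comp
          (aeval (fun i => linForm (A i)))) Q) := by
      rw [AlgHom.comp_apply]
      rfl
    rw [h, MvPolynomial.comp_aeval, ← MvPolynomial.coe_aeval_eq_eval]
    have h2 : (fun i => (MvPolynomial.aeval v : MvPolynomial (Fin (n + 1)) ℂ →ₐ[ℂ] ℂ)
        (linForm (A i))) = fun i => v ⬝ᵥ A i := by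
      funext i
      rw [← eval_linForm]
      rfl
    rw [h2]
    rfl

theorem core_family {n m k : ℕ} {ι : Type*} [Finite ι] (p : ι → Fin (n + 1) → ℂ)
    (hND : ∀ Q : MvPolynomial (Fin (n + 1)) ℂ, Q.IsHomogeneous k → (∀ j, eval (p j) Q = 0) →
      Q = 0)
    (hineq : (m + 1) * n < (m - 1) * k) {Y : ℂ → ℂ → Fin (n + 1) → ℂ} (hY : LiftFamily Y)
    (hord : ∀ j z₁, analyticOrderAt (fun z => p j ⬝ᵥ Y z₁ z) z₁ = 0 ∨
      (m : ℕ∞) ≤ analyticOrderAt (fun z => p j ⬝ᵥ Y z₁ z) z₁) (z w : ℂ) :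
    ∃ c : ℂ, c ≠ 0 ∧ Y z z = c • Y w w := by
  classical
  obtain ⟨S, hS⟩ : ∃ S : Submodule ℂ (Fin (n + 1) → ℂ),
    S = Submodule.span ℂ (Set.range fun z => Y z z) := ⟨_, rfl⟩
  have hYS : ∀ z, Y z z ∈ S := fun z => by
    rw [hS]; exact Submodule.subset_span ⟨z, rfl⟩
  have hYS' : ∀ z₁, ∀ᶠ z in 𝓝 z₁, Y z₁ z ∈ S := by
    intro z₁
    filter_upwards [hY.2.2 z₁] with z ⟨l, hl1, hl2, hl3⟩
    have h1 := hYS z
    rw [hl3.self_of_nhds] at h1
    exact (Submodule.smul_mem_iff S hl2).mp h1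
  have hSpos : 0 < finrank ℂ S := by
    rw [finrank_pos_iff_exists_ne_zero]
    refine ⟨⟨Y 0 0, hYS 0⟩, ?_⟩
    intro h
    exact hY.2.1 0 (congrArg Subtype.val h)
  obtain ⟨n', hn'⟩ : ∃ n', finrank ℂ S = n' + 1 := ⟨finrank ℂ S - 1, by omega⟩
  have hn'le : n' ≤ n := by
    have := S.finrank_le
    rw [hn'] at this
    simp at this
    exact this
  obtain ⟨b⟩ : Nonempty ((Fin (n' + 1) → ℂ) ≃ₗ[ℂ] S) := by
    apply FiniteDimensional.nonempty_linearEquiv_of_finrank_eq
    rw [hn']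
    simp
  obtain ⟨A, hA⟩ : ∃ A : (Fin (n' + 1) → ℂ) →ₗ[ℂ] (Fin (n + 1) → ℂ),
    A = S.subtype ∘ₗ (b : (Fin (n' + 1) → ℂ) →ₗ[ℂ] S) := ⟨_, rfl⟩
  have hAS : ∀ v, A v ∈ S := by
    intro v
    rw [hA]
    exact (b v).2
  have hAker : LinearMap.ker A = ⊥ := by
    rw [hA, LinearMap.ker_eq_bot']
    intro v hv
    have : (b v : Fin (n + 1) → ℂ) = 0 := hv
    have h2 : b v = 0 := Subtype.ext this
    simpa using h2
  obtain ⟨B, hB⟩ := LinearMap.exists_leftInverse_of_injective A hAker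
  have hBA : ∀ v, B (A v) = v := fun v => by
    rw [← LinearMap.comp_apply, hB, LinearMap.id_apply]
  have hAB : ∀ v ∈ S, A (B v) = v := by
    intro v hv
    have h1 : v = A (b.symm ⟨v, hv⟩) := by
      rw [hA]
      simp
    conv_lhs => rw [h1, hBA]
    exact h1.symm
  -- the restricted data
  have hdot : ∀ (u : Fin (n + 1) → ℂ) (v : Fin (n' + 1) → ℂ),
      (fun i => u ⬝ᵥ A (Pi.single i 1)) ⬝ᵥ v = u ⬝ᵥ A v := by
    intro u v
    have h1 : v = ∑ i, v i • (Pi.single i (1 : ℂ) : Fin (n' + 1) → ℂ) := by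
      funext l
      rw [Finset.sum_apply, Finset.sum_eq_single l]
      · simp
      · intro j _ hj
        simp [Pi.single_eq_of_ne (Ne.symm hj)]
      · simp
    conv_rhs => rw [h1, map_sum, dotProduct_sum]
    rw [dotProduct]
    refine Finset.sum_congr rfl fun i _ => ?_
    rw [map_smul, dotProduct_smul, smul_eq_mul, mul_comm]
  have hY'S : ∀ z, B (Y z z) ≠ 0 := by
    intro z h
    have h1 := hAB _ (hYS z)
    rw [h, map_zero] at h1
    exact hY.2.1 z h1.symm
  have hY' := hY.map B hY'S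
  have hND' : ∀ Q : MvPolynomial (Fin (n' + 1)) ℂ, Q.IsHomogeneous k →
      (∀ j, eval (fun i => p j ⬝ᵥ A (Pi.single i 1)) Q = 0) → Q = 0 := by
    intro Q hQ hQ0
    obtain ⟨Q', hQ', hev⟩ := exists_pullback (fun i => A (Pi.single i 1)) hQ
    have h1 : Q' = 0 := hND Q' hQ' fun j => by rw [hev, hQ0]
    apply MvPolynomial.funext
    intro v
    rw [map_zero]
    have h2 : v = fun i => (fun l => v ⬝ᵥ B (Pi.single l 1)) ⬝ᵥ A (Pi.single i 1) := by
      funext i
      have h3 : (fun l => v ⬝ᵥ B (Pi.single l 1)) ⬝ᵥ A (Pi.single i 1) =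
          v ⬝ᵥ B (A (Pi.single i 1)) := by
        have h4 : A (Pi.single i 1) = ∑ l, A (Pi.single i 1) l •
            (Pi.single l (1 : ℂ) : Fin (n + 1) → ℂ) := by
          funext l
          rw [Finset.sum_apply, Finset.sum_eq_single l]
          · simp
          · intro j _ hj
            simp [Pi.single_eq_of_ne (Ne.symm hj)]
          · simp
        conv_rhs => rw [h4, map_sum, dotProduct_sum]
        rw [dotProduct]
        refine Finset.sum_congr rfl fun l _ => ?_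
        rw [map_smul, dotProduct_smul, smul_eq_mul, mul_comm]
      rw [h3, hBA]
      simp
    rw [h2, ← hev, h1, map_zero]
  have hineq' : (m + 1) * n' < (m - 1) * k :=
    lt_of_le_of_lt (Nat.mul_le_mul_left _ hn'le) hineq
  have hord' : ∀ j z₁,
      analyticOrderAt (fun z => (fun i => p j ⬝ᵥ A (Pi.single i 1)) ⬝ᵥ B (Y z₁ z)) z₁ = 0 ∨
      (m : ℕ∞) ≤
        analyticOrderAt (fun z => (fun i => p j ⬝ᵥ A (Pi.single i 1)) ⬝ᵥ B (Y z₁ z)) z₁ := by
    intro j z₁
    have h1 : (fun z => (fun i => p j ⬝ᵥ A (Pi.single i 1)) ⬝ᵥ B (Y z₁ z)) =ᶠ[𝓝 z₁]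
        fun z => p j ⬝ᵥ Y z₁ z := by
      filter_upwards [hYS' z₁] with z hz
      rw [hdot, hAB _ hz]
    rw [analyticOrderAt_congr h1]
    exact hord j z₁
  have hspan' : ∀ v : Fin (n' + 1) → ℂ, v ≠ 0 → ∃ z, v ⬝ᵥ B (Y z z) ≠ 0 := by
    intro v hv
    by_contra hcon
    push Not at hcon
    -- the functional `v ∘ B` vanishes on `S`
    have h1 : ∀ u ∈ S, v ⬝ᵥ B u = 0 := by
      intro u hu
      rw [hS] at hu
      induction hu using Submodule.span_induction with
      | mem u hu =>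
        obtain ⟨z, rfl⟩ := hu
        exact hcon z
      | zero => simp
      | add a c _ _ ha hc => rw [map_add, dotProduct_add, ha, hc, add_zero]
      | smul a c _ hc => rw [map_smul, dotProduct_smul, hc, smul_zero]
    apply hv
    funext i
    have h2 := h1 _ (hAS (Pi.single i 1))
    rw [hBA] at h2
    simpa using h2
  obtain ⟨c, hc, hc2⟩ := core_nondeg _ hND' hineq' hY' hord' hspan' z w
  refine ⟨c, hc, ?_⟩
  have h3 := congrArg A hc2
  rw [map_smul, hAB _ (hYS z), hAB _ (hYS w)] at h3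
  exact h3

end Pool.Agent.Lib.GGL
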