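import Mathlib

/-!
Definitions: holomorphic curves in projective space, regular maps to projective space, and
ramification over a hyperplane.
-/

open Filter Topology MvPolynomial

namespace Pool.Agent.Lib.GGL

/-- The complex projective space of dimension `N`. -/
abbrev PSpace (N : ℕ) : Type := Projectivization ℂ (Fin (N + 1) → ℂ)

/-- `F` is a holomorphic lift of `f` (in homogeneous coordinates) near `z₀`. -/
def IsLift {N : ℕ} (f : ℂ → PSpace N) (F : ℂ → Fin (N + 1) → ℂ) (z₀ : ℂ) : Prop :=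
  AnalyticAt ℂ F z₀ ∧ ∀ᶠ z in 𝓝 z₀, ∃ h : F z ≠ 0, f z = Projectivization.mk ℂ (F z) h

/-- `f` is holomorphic near `z₀`. -/
def HolomorphicNear {N : ℕ} (f : ℂ → PSpace N) (z₀ : ℂ) : Prop :=
  ∃ F, IsLift f F z₀

/-- `φ` is a regular map on `X`: near every point of `X` it is given by homogeneous polynomials
of one degree. -/
def IsRegularOn {N n : ℕ} (X : Set (PSpace N)) (φ : PSpace N → PSpace n) : Prop :=
  ∀ x ∈ X, ∃ (d : ℕ) (π : Fin (n + 1) → MvPolynomial (Fin (N + 1)) ℂ),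
    (∀ i, (π i).IsHomogeneous d) ∧ (∃ i, eval x.rep (π i) ≠ 0) ∧
    ∀ y ∈ X, ∀ h : (fun i => eval y.rep (π i)) ≠ 0,
      φ y = Projectivization.mk ℂ (fun i => eval y.rep (π i)) h

/-- `φ` is ramified to order at least `m` over the hyperplane `v · y = 0`: every holomorphic arc
in `X` meets the pull-back of the hyperplane with multiplicity `0` or at least `m`. -/
def RamifiedOver {N n : ℕ} (X : Set (PSpace N)) (φ : PSpace N → PSpace n)
    (v : Fin (n + 1) → ℂ) (m : ℕ) : Prop :=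
  ∀ (γ : ℂ → PSpace N) (z₀ : ℂ), HolomorphicNear γ z₀ → (∀ᶠ z in 𝓝 z₀, γ z ∈ X) →
    ∀ G : ℂ → Fin (n + 1) → ℂ, IsLift (fun z => φ (γ z)) G z₀ →
      analyticOrderAt (fun z => v ⬝ᵥ G z) z₀ = 0 ∨
        (m : ℕ∞) ≤ analyticOrderAt (fun z => v ⬝ᵥ G z) z₀

end Pool.Agent.Lib.GGL
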