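import Mathlib
import Pool.Agent.Lib.MP_8d161d_ag.Defs
import Pool.Agent.Lib.MP_8d161d_ag.Core

/-!
Entire curves in ramified covers of projective space.
-/

open Filter Topology MvPolynomial

namespace Pool.Agent.Lib.GGL

lemma eval_smul_of_homogeneous {N d : ℕ} {Q : MvPolynomial (Fin (N + 1)) ℂ}
    (hQ : Q.IsHomogeneous d) (c : ℂ) (v : Fin (N + 1) → ℂ) :
    eval (c • v) Q = c ^ d * eval v Q := by
  rw [eval_eq, eval_eq, Finset.mul_sum]
  refine Finset.sum_congr rfl fun s hs => ?_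
  have h1 : ∑ i, s i = d := by
    have := hQ (mem_support_iff.mp hs)
    rw [Finsupp.weight_apply, Finsupp.sum_fintype] at this
    · simpa using this
    · simp
  have h2 : ∏ i ∈ s.support, (c • v) i ^ s i = c ^ d * ∏ i ∈ s.support, v i ^ s i := by
    have h3 : ∀ i, (c • v) i ^ s i = c ^ s i * v i ^ s i := fun i => by
      rw [Pi.smul_apply, smul_eq_mul, mul_pow]
    rw [Finset.prod_congr rfl fun i _ => h3 i, Finset.prod_mul_distrib,
      Finset.prod_pow_eq_pow_sum]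
    congr 2
    rw [← h1]
    apply Finset.sum_subset (Finset.subset_univ _)
    intro i _ hi
    simpa using hi
  rw [h2]
  ring

lemma lift_ratio {N : ℕ} {f : ℂ → PSpace N} {F F' : ℂ → Fin (N + 1) → ℂ} {z₀ : ℂ}
    (hF : IsLift f F z₀) (hF' : IsLift f F' z₀) :
    ∃ l : ℂ → ℂ, AnalyticAt ℂ l z₀ ∧ l z₀ ≠ 0 ∧ ∀ᶠ w in 𝓝 z₀, F' w = l w • F w := by
  obtain ⟨hFan, hFev⟩ := hF
  obtain ⟨hFan', hFev'⟩ := hF'
  obtain ⟨h0, -⟩ := hFev.self_of_nhds
  obtain ⟨h0', -⟩ := hFev'.self_of_nhds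
  obtain ⟨i, hi⟩ : ∃ i, F z₀ i ≠ 0 := by
    by_contra h
    push Not at h
    exact h0 (funext h)
  have hFi : AnalyticAt ℂ (fun z => F z i) z₀ := (analyticAt_pi_iff.mp hFan) i
  have hFi' : AnalyticAt ℂ (fun z => F' z i) z₀ := (analyticAt_pi_iff.mp hFan') i
  have hev : ∀ᶠ w in 𝓝 z₀, F' w = (F' w i / F w i) • F w := by
    filter_upwards [hFev, hFev', hFi.continuousAt.eventually_ne hi] with w ⟨h1, h2⟩ ⟨h3, h4⟩ h5
    rw [h2] at h4
    obtain ⟨a, ha⟩ := (Projectivization.mk_eq_mk_iff' ℂ _ _ h1 h3).mp h4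
    -- F w = a • F' w
    have ha0 : a ≠ 0 := by
      rintro rfl
      rw [zero_smul] at ha
      exact h1 ha.symm
    have hi2 : F w i = a * F' w i := by
      rw [← ha, Pi.smul_apply, smul_eq_mul]
    have hF'i : F' w i ≠ 0 := by
      intro h
      rw [h, mul_zero] at hi2
      exact h5 hi2
    rw [hi2]
    have : F' w i / (a * F' w i) = a⁻¹ := by
      field_simp
    rw [this, ← ha, smul_smul, inv_mul_cancel₀ ha0, one_smul]
  refine ⟨fun w => F' w i / F w i, hFi'.div hFi hi, ?_, hev⟩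
  intro h
  have h1 := hev.self_of_nhds
  beta_reduce at h
  rw [h, zero_smul] at h1
  exact h0' h1

lemma IsLift.eventually {N : ℕ} {f : ℂ → PSpace N} {F : ℂ → Fin (N + 1) → ℂ} {z₀ : ℂ}
    (hF : IsLift f F z₀) : ∀ᶠ z in 𝓝 z₀, IsLift f F z := by
  filter_upwards [hF.1.eventually_analyticAt, hF.2.eventually_nhds] with z h1 h2
  exact ⟨h1, h2⟩

lemma liftFamily_of_lifts {N : ℕ} {f : ℂ → PSpace N} {Y : ℂ → ℂ → Fin (N + 1) → ℂ}
    (hY : ∀ z₀, IsLift f (Y z₀) z₀) : LiftFamily Y := by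
  refine ⟨fun z => (hY z).1, fun z => ?_, fun z₁ => ?_⟩
  · obtain ⟨h, -⟩ := (hY z).2.self_of_nhds
    exact h
  · filter_upwards [(hY z₁).eventually] with z hz
    exact lift_ratio hz (hY z)

/-- A ramified entire curve in projective space is constant. -/
theorem core {n m k : ℕ} {ι : Type*} [Finite ι] (p : ι → Fin (n + 1) → ℂ)
    (hND : ∀ Q : MvPolynomial (Fin (n + 1)) ℂ, Q.IsHomogeneous k → (∀ j, eval (p j) Q = 0) →
      Q = 0)
    (hineq : (m + 1) * n < (m - 1) * k) {g : ℂ → PSpace n} (hg : ∀ z, HolomorphicNear g z)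
    (hord : ∀ j z₀ (G : ℂ → Fin (n + 1) → ℂ), IsLift g G z₀ →
      analyticOrderAt (fun z => p j ⬝ᵥ G z) z₀ = 0 ∨
      (m : ℕ∞) ≤ analyticOrderAt (fun z => p j ⬝ᵥ G z) z₀) (z w : ℂ) : g z = g w := by
  choose Y hY using hg
  obtain ⟨c, hc, hcz⟩ := core_family p hND hineq (liftFamily_of_lifts hY)
    (fun j z₁ => hord j z₁ _ (hY z₁)) z w
  obtain ⟨h1, h2⟩ := (hY z).2.self_of_nhds
  obtain ⟨h3, h4⟩ := (hY w).2.self_of_nhds
  rw [h2, h4, Projectivization.mk_eq_mk_iff']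
  exact ⟨c, hcz.symm⟩

lemma analyticAt_eval {N : ℕ} {F : ℂ → Fin (N + 1) → ℂ} {z₀ : ℂ} (hF : AnalyticAt ℂ F z₀)
    (Q : MvPolynomial (Fin (N + 1)) ℂ) : AnalyticAt ℂ (fun z => eval (F z) Q) z₀ := by
  have := AnalyticAt.aeval_mvPolynomial (𝕜 := ℂ) (A := ℂ) (f := F) (z := z₀)
    (fun i => (analyticAt_pi_iff.mp hF) i) Q
  exact this

lemma holomorphicNear_comp {N n : ℕ} {X : Set (PSpace N)} {φ : PSpace N → PSpace n}
    (hφ : IsRegularOn X φ) {f : ℂ → PSpace N} {z₀ : ℂ} (hf : HolomorphicNear f z₀)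
    (hfX : ∀ᶠ z in 𝓝 z₀, f z ∈ X) : HolomorphicNear (fun z => φ (f z)) z₀ := by
  obtain ⟨F, hFan, hF⟩ := hf
  obtain ⟨d, π, hπ, ⟨i, hi⟩, hπφ⟩ := hφ (f z₀) hfX.self_of_nhds
  have hrep : ∀ z (h : F z ≠ 0), f z = Projectivization.mk ℂ (F z) h →
      ∃ c : ℂ, c ≠ 0 ∧ (f z).rep = c • F z := by
    intro z h hz
    obtain ⟨a, ha⟩ := Projectivization.exists_smul_eq_mk_rep ℂ (F z) h
    refine ⟨a, a.ne_zero, ?_⟩
    rw [hz, ← ha]
    rfl
  have hG0 : eval (F z₀) (π i) ≠ 0 := by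
    obtain ⟨h1, h2⟩ := hF.self_of_nhds
    obtain ⟨c, hc, hc2⟩ := hrep z₀ h1 h2
    rw [hc2, eval_smul_of_homogeneous (hπ i)] at hi
    exact right_ne_zero_of_mul hi
  refine ⟨fun z i => eval (F z) (π i), ?_, ?_⟩
  · rw [analyticAt_pi_iff]
    intro j
    exact analyticAt_eval hFan (π j)
  · filter_upwards [hF, hfX, (analyticAt_eval hFan (π i)).continuousAt.eventually_ne hG0]
      with z ⟨h1, h2⟩ h3 h4
    obtain ⟨c, hc, hc2⟩ := hrep z h1 h2
    have h5 : (fun i => eval (F z) (π i)) ≠ 0 := fun h => h4 (congrFun h i)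
    have h6 : (fun i => eval (f z).rep (π i)) = c ^ d • fun i => eval (F z) (π i) := by
      funext j
      rw [hc2, eval_smul_of_homogeneous (hπ j), Pi.smul_apply, smul_eq_mul]
    have h7 : (fun i => eval (f z).rep (π i)) ≠ 0 := by
      rw [h6]
      exact smul_ne_zero (pow_ne_zero _ hc) h5
    refine ⟨h5, ?_⟩
    rw [hπφ (f z) h3 h7, Projectivization.mk_eq_mk_iff']
    exact ⟨c ^ d, h6.symm⟩

/-- a holomorphic curve with finite image is constant -/
lemma const_of_finite {N : ℕ} {f : ℂ → PSpace N} (hf : ∀ z, HolomorphicNear f z)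
    (hfin : (Set.range f).Finite) (z w : ℂ) : f z = f w := by
  have hloc : IsLocallyConstant f := by
    rw [IsLocallyConstant.iff_eventually_eq]
    intro z₀
    obtain ⟨F, hFan, hF⟩ := hf z₀
    obtain ⟨h0, h0'⟩ := hF.self_of_nhds
    have h1 : ∀ᶠ z in 𝓝 z₀, ∀ x ∈ Set.range f, x ≠ f z₀ → F z ∉ Submodule.span ℂ {x.rep} := by
      rw [Filter.eventually_all_finite hfin]
      intro x _
      by_cases hx : x = f z₀
      · exact Filter.Eventually.of_forall fun z h => absurd hx h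
      · have h2 : F z₀ ∉ Submodule.span ℂ {x.rep} := by
          intro h
          obtain ⟨c, hc⟩ := Submodule.mem_span_singleton.mp h
          apply hx
          rw [h0']
          have h3 : x = Projectivization.mk ℂ x.rep x.rep_nonzero := (x.mk_rep).symm
          rw [h3, Projectivization.mk_eq_mk_iff']
          have hc0 : c ≠ 0 := by
            rintro rfl
            rw [zero_smul] at hc
            exact h0 hc.symm
          exact ⟨c⁻¹, by rw [← hc, smul_smul, inv_mul_cancel₀ hc0, one_smul]⟩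
        have h3 : IsClosed (Submodule.span ℂ {x.rep} : Set (Fin (N + 1) → ℂ)) :=
          Submodule.closed_of_finiteDimensional _
        have h4 := hFan.continuousAt.eventually_mem (h3.isOpen_compl.mem_nhds h2)
        filter_upwards [h4] with z hz _ using hz
    filter_upwards [h1, hF] with z hz ⟨h2, h3⟩
    by_contra hne
    apply hz (f z) ⟨z, rfl⟩ hne
    obtain ⟨a, ha⟩ := Projectivization.exists_smul_eq_mk_rep ℂ (F z) h2
    rw [h3, ← ha, Submodule.mem_span_singleton]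
    exact ⟨((a⁻¹ : ℂˣ) : ℂ), by
      show (a⁻¹ : ℂˣ) • (a • F z) = F z
      rw [smul_smul, inv_mul_cancel, one_smul]⟩
  exact hloc.apply_eq_of_preconnectedSpace z w

theorem main {N n m k : ℕ} (hmk : (m + 1) * n < (m - 1) * k)
    {ι : Type*} [Finite ι] (p : ι → Fin (n + 1) → ℂ)
    (hp : ∀ Q : MvPolynomial (Fin (n + 1)) ℂ, Q.IsHomogeneous k → (∀ j, eval (p j) Q = 0) →
      Q = 0)
    (X : Set (PSpace N)) (φ : PSpace N → PSpace n) (hφ : IsRegularOn X φ)
    (hram : ∀ j, RamifiedOver X φ (p j) m)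
    (f : ℂ → PSpace N) (hf : ∀ z, HolomorphicNear f z) (hfX : ∀ z, f z ∈ X) :
    (∀ z w, φ (f z) = φ (f w)) ∧
    ∀ Y : Set (PSpace N), (∀ x ∈ X, x ∉ Y → {y ∈ X | φ y = φ x}.Finite) →
      (∃ z w, f z ≠ f w) → ∀ z, f z ∈ Y := by
  have h1 : ∀ z w, φ (f z) = φ (f w) := by
    intro z w
    refine core p hp hmk (g := fun z => φ (f z))
      (fun z => holomorphicNear_comp hφ (hf z) (Filter.Eventually.of_forall hfX)) ?_ z w
    intro j z₀ G hG
    exact hram j f z₀ (hf z₀) (Filter.Eventually.of_forall hfX) G hG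
  refine ⟨h1, ?_⟩
  intro Y hY hne z
  by_contra hz
  obtain ⟨w₁, w₂, hw⟩ := hne
  apply hw
  apply const_of_finite hf
  apply (hY (f z) (hfX z) hz).subset
  rintro _ ⟨w, rfl⟩
  exact ⟨hfX w, h1 w z⟩

end Pool.Agent.Lib.GGL
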