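import Mathlib
import Pool.Agent.Lib.MP_8d161d_ag.Mg.G035

/-!
The numerical condition.
-/

open MvPolynomial

namespace Pool.Agent.Lib.GGL.CI

lemma sE_le {ι : Type} [Fintype ι] {D : ℕ} (hD : 1 ≤ D) {d : ι → ℕ} (hd : ∀ i, D ≤ d i) (n : ℕ) :
    D ^ Fintype.card ι * sE d n ≤
      D ^ n * (Fintype.card ι + n).choose n * ∏ i, d i := by
  have h1 := EE_le hD ((Finset.univ : Finset ι).toList.map d) (by
    intro e he
    obtain ⟨i, -, rfl⟩ := List.mem_map.mp he
    exact hd i) n
  rw [List.length_map, Finset.length_toList, Finset.card_univ, Finset.prod_map_toList,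
    List.map_map] at h1
  exact h1

lemma numCond_of {ι : Type} [Fintype ι] {d : ι → ℕ} {N n k D : ℕ} (hn : 1 ≤ n) (hD : 2 ≤ D)
    (hd : ∀ i, D ≤ d i) (hk0 : 1 ≤ k) (hk : Fintype.card ι = k + (2 * n - 1))
    (hN : N = Fintype.card ι + (n + 1))
    (hnum : 2 * k * D ^ (3 * n - 1) * (k + (3 * n - 1)).choose (3 * n - 1) ^ 3 < D ^ k) :
    NumCond N n d := by
  intro A hA
  have hAk : A.card = k := by omega
  have hcard : Fintype.card A = k := by rw [Fintype.card_coe, hAk]
  obtain ⟨n', hn'⟩ : ∃ n', n' = 3 * n - 1 := ⟨_, rfl⟩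
  have hN1 : N - 1 = k + n' := by omega
  rw [hN1, hAk, ← hn']
  rw [← hn'] at hnum
  have h1 := sE_le (ι := A) (D := D) (by omega) (d := fun i : A => d i) (fun i => hd i) n'
  rw [hcard] at h1
  obtain ⟨δ, hδ⟩ : ∃ δ, δ = ∏ i : A, d i := ⟨_, rfl⟩
  obtain ⟨E, hE⟩ : ∃ E, E = sE (fun i : A => d i) n' := ⟨_, rfl⟩
  obtain ⟨b, hb⟩ : ∃ b, b = (k + n').choose n' := ⟨_, rfl⟩
  rw [← hδ, ← hE, ← hb] at h1
  rw [← hδ, ← hE]
  rw [← hb] at hnum
  have hδ0 : 0 < δ := by
    rw [hδ]
    exact Finset.prod_pos fun i _ => by have := hd i; omega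
  have h2 : b * n'.factorial * k.factorial = (k + n').factorial := by
    rw [hb, mul_right_comm]
    exact Nat.add_choose_mul_factorial_mul_factorial k n'
  have h3 : (2 * k).factorial = Nat.centralBinom k * k.factorial ^ 2 := by
    have h4 := Nat.add_choose_mul_factorial_mul_factorial k k
    rw [← two_mul] at h4
    rw [← h4, Nat.centralBinom]
    ring
  have h4 := Nat.four_pow_le_two_mul_self_mul_centralBinom k hk0
  obtain ⟨cb, hcb⟩ : ∃ cb, cb = Nat.centralBinom k := ⟨_, rfl⟩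
  rw [← hcb] at h3 h4
  have hcb0 : 0 < cb := by rw [hcb]; exact Nat.centralBinom_pos k
  rw [h3, ← h2]
  have hDk : 0 < D ^ k := by positivity
  apply Nat.lt_of_mul_lt_mul_left (a := D ^ k)
  calc D ^ k * (4 ^ k * E * (b * n'.factorial * k.factorial) ^ 2)
      = 4 ^ k * (D ^ k * E) * (b * n'.factorial * k.factorial) ^ 2 := by ring
    _ ≤ (2 * k * cb) * (D ^ n' * b * δ) * (b * n'.factorial * k.factorial) ^ 2 := by
        gcongr
    _ = (2 * k * D ^ n' * b ^ 3) * (cb * k.factorial ^ 2 * δ * n'.factorial ^ 2) := by ring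
    _ < D ^ k * (cb * k.factorial ^ 2 * δ * n'.factorial ^ 2) := by
        apply Nat.mul_lt_mul_of_pos_right hnum
        have := Nat.factorial_pos k
        have := Nat.factorial_pos n'
        positivity

lemma num_aux (n : ℕ) (hn : 2 ≤ n) : 46 * n * 65536 ^ n * 32768 ^ (23 * n) < 59582 ^ (23 * n) := by
  induction n, hn using Nat.le_induction with
  | base => norm_num
  | succ n hn ih =>
    have h1 : 65536 * 32768 ^ 23 * (n + 1) ≤ 59582 ^ 23 * n := by
      have h2 : 65536 * 32768 ^ 23 * 2 ≤ 59582 ^ 23 := by norm_num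
      calc 65536 * 32768 ^ 23 * (n + 1) ≤ 65536 * 32768 ^ 23 * (2 * n) := by
            apply Nat.mul_le_mul_left
            omega
        _ = (65536 * 32768 ^ 23 * 2) * n := by ring
        _ ≤ _ := Nat.mul_le_mul_right _ h2
    have hn0 : 0 < n := by omega
    apply Nat.lt_of_mul_lt_mul_left (a := n)
    calc n * (46 * (n + 1) * 65536 ^ (n + 1) * 32768 ^ (23 * (n + 1)))
        = (46 * n * 65536 ^ n * 32768 ^ (23 * n)) * (65536 * 32768 ^ 23 * (n + 1)) := by ring
      _ ≤ (46 * n * 65536 ^ n * 32768 ^ (23 * n)) * (59582 ^ 23 * n) :=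
          Nat.mul_le_mul_left _ h1
      _ < 59582 ^ (23 * n) * (59582 ^ 23 * n) := by
          apply Nat.mul_lt_mul_of_pos_right ih
          positivity
      _ = n * 59582 ^ (23 * (n + 1)) := by ring

lemma num_aux2 {n k : ℕ} (hn : 2 ≤ n) (hk : 23 * n ≤ k) :
    2 * k * 65536 ^ n * 32768 ^ k < 59582 ^ k := by
  induction k, hk using Nat.le_induction with
  | base =>
    have h1 := num_aux n hn
    have h2 : 2 * (23 * n) = 46 * n := by ring
    rwa [h2]
  | succ k hk ih =>
    have hk0 : 0 < k := by omega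
    have h1 : 32768 * (k + 1) ≤ 59582 * k := by omega
    apply Nat.lt_of_mul_lt_mul_left (a := k)
    calc k * (2 * (k + 1) * 65536 ^ n * 32768 ^ (k + 1))
        = (2 * k * 65536 ^ n * 32768 ^ k) * (32768 * (k + 1)) := by ring
      _ ≤ (2 * k * 65536 ^ n * 32768 ^ k) * (59582 * k) := Nat.mul_le_mul_left _ h1
      _ < 59582 ^ k * (59582 * k) := by
          apply Nat.mul_lt_mul_of_pos_right ih
          positivity
      _ = k * 59582 ^ (k + 1) := by ring

lemma choose_mul_le (k n r : ℕ) : (k + n).choose n * r ^ k ≤ (r + 1) ^ (k + n) := by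
  rw [add_pow]
  have h1 := Finset.single_le_sum (s := Finset.range (k + n + 1))
    (f := fun m => r ^ m * 1 ^ (k + n - m) * (k + n).choose m) (fun _ _ => Nat.zero_le _)
    (Finset.mem_range.mpr (by omega : k < k + n + 1))
  refine le_trans (le_of_eq ?_) h1
  rw [one_pow, mul_one, mul_comm, Nat.choose_symm_add]

/-- the numerical condition in high codimension -/
lemma num_large {n k : ℕ} (hn : 2 ≤ n) (hk : 23 * n ≤ k) :
    2 * k * 2 ^ n * (k + n).choose n ^ 3 < 2 ^ k := by
  have h1 := choose_mul_le k n 31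
  have h2 := num_aux2 hn hk
  obtain ⟨b, hb⟩ : ∃ b, b = (k + n).choose n := ⟨_, rfl⟩
  rw [← hb] at h1 ⊢
  apply Nat.lt_of_mul_lt_mul_left (a := 29791 ^ k)
  calc 29791 ^ k * (2 * k * 2 ^ n * b ^ 3)
      = 2 * k * 2 ^ n * (b * 31 ^ k) ^ 3 := by
        have : (29791 : ℕ) ^ k = (31 ^ k) ^ 3 := by rw [← pow_mul, mul_comm k 3, pow_mul]; norm_num
        rw [this]; ring
    _ ≤ 2 * k * 2 ^ n * ((31 + 1) ^ (k + n)) ^ 3 := by gcongr
    _ = 2 * k * 65536 ^ n * 32768 ^ k := by
        have h3 : (65536 : ℕ) ^ n = 2 ^ n * (32 ^ n) ^ 3 := by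
          rw [← pow_mul, mul_comm n 3, pow_mul, ← mul_pow]; norm_num
        have h4 : (32768 : ℕ) ^ k = (32 ^ k) ^ 3 := by
          rw [← pow_mul, mul_comm k 3, pow_mul]; norm_num
        rw [h3, h4]
        norm_num
        rw [pow_add]
        ring
    _ < 59582 ^ k := h2
    _ = 29791 ^ k * 2 ^ k := by rw [← mul_pow]; norm_num

/-- the numerical condition, with a lower bound for the degrees -/
lemma num_general {n k D : ℕ} (hn : 2 ≤ n) (hnk : n ≤ k) (hD : 2 ≤ D)
    (h : 2 ^ (22 * n) ≤ D ^ (k - n)) :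
    2 * k * D ^ n * (k + n).choose n ^ 3 < D ^ k := by
  have key : 2 * k * (k + n).choose n ^ 3 < D ^ (k - n) := by
    rcases le_total (23 * n) k with hk | hk
    · have h1 := num_large hn hk
      have h2 : 2 ^ k = 2 ^ n * 2 ^ (k - n) := by rw [← pow_add]; congr 1; omega
      rw [h2] at h1
      have h3 : 2 * k * (k + n).choose n ^ 3 < 2 ^ (k - n) := by
        apply Nat.lt_of_mul_lt_mul_left (a := 2 ^ n)
        calc 2 ^ n * (2 * k * (k + n).choose n ^ 3) = 2 * k * 2 ^ n * (k + n).choose n ^ 3 := by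
              ring
          _ < _ := h1
      exact h3.trans_le (Nat.pow_le_pow_left hD _)
    · have h1 := num_large hn le_rfl
      have h2 : 2 ^ (23 * n) = 2 ^ n * 2 ^ (22 * n) := by rw [← pow_add]; congr 1; omega
      rw [h2] at h1
      have h3 : 2 * (23 * n) * (23 * n + n).choose n ^ 3 < 2 ^ (22 * n) := by
        apply Nat.lt_of_mul_lt_mul_left (a := 2 ^ n)
        calc 2 ^ n * (2 * (23 * n) * (23 * n + n).choose n ^ 3) =
              2 * (23 * n) * 2 ^ n * (23 * n + n).choose n ^ 3 := by ring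
          _ < _ := h1
      calc 2 * k * (k + n).choose n ^ 3 ≤ 2 * (23 * n) * (23 * n + n).choose n ^ 3 := by
            have h4 : (k + n).choose n ≤ (23 * n + n).choose n :=
              Nat.choose_le_choose _ (by omega)
            gcongr
        _ < 2 ^ (22 * n) := h3
        _ ≤ _ := h
  have h1 : D ^ k = D ^ n * D ^ (k - n) := by rw [← pow_add]; congr 1; omega
  rw [h1]
  calc 2 * k * D ^ n * (k + n).choose n ^ 3 = D ^ n * (2 * k * (k + n).choose n ^ 3) := by ring
    _ < _ := by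
        apply Nat.mul_lt_mul_of_pos_left key
        positivity

end Pool.Agent.Lib.GGL.CI
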