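import Mathlib
import Pool.Agent.Lib.MP_8d161d_ag.Defs
import Pool.Agent.Lib.MP_8d161d_ag.Cover

/-!
Intersections of diagonal hypersurfaces as ramified covers of projective space.
-/

open Filter Topology MvPolynomial

namespace Pool.Agent.Lib.GGL

/-- The intersection in `ℙ^N` of all the diagonal hypersurfaces `∑ a_j x_j ^ m = 0` whose
coefficient vector `a` is orthogonal to the `n + 1` columns of the matrix with rows `p_j`. -/
def diagonal {N n : ℕ} (m : ℕ) (p : Fin (N + 1) → Fin (n + 1) → ℂ) : Set (PSpace N) :=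
  {x | ∀ a : Fin (N + 1) → ℂ, (∀ i, ∑ j, a j * p j i = 0) → ∑ j, a j * x.rep j ^ m = 0}

section

variable {N n : ℕ} {p : Fin (N + 1) → Fin (n + 1) → ℂ}

lemma exists_of_orthogonal {v : Fin (N + 1) → ℂ}
    (h : ∀ a : Fin (N + 1) → ℂ, (∀ i, ∑ j, a j * p j i = 0) → ∑ j, a j * v j = 0) :
    ∃ y : Fin (n + 1) → ℂ, ∀ j, p j ⬝ᵥ y = v j := by
  by_contra hcon
  have hv : v ∉ LinearMap.range (evL p) := by
    rintro ⟨y, hy⟩
    exact hcon ⟨y, fun j => congrFun hy j⟩
  obtain ⟨f, hf1, hf2⟩ := Submodule.exists_le_ker_of_notMem hv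
  apply hf1
  have hf : ∀ u : Fin (N + 1) → ℂ, f u = ∑ j, f (Pi.single j 1) * u j := by
    intro u
    have h1 : u = ∑ i, u i • (Pi.single i (1 : ℂ) : Fin (N + 1) → ℂ) := by
      funext l
      rw [Finset.sum_apply, Finset.sum_eq_single l]
      · simp
      · intro j _ hj
        simp [Pi.single_eq_of_ne (Ne.symm hj)]
      · simp
    conv_lhs => rw [h1, map_sum]
    refine Finset.sum_congr rfl fun j _ => ?_
    rw [map_smul, smul_eq_mul, mul_comm]
  rw [hf]
  apply h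
  intro i
  have h2 : evL p (Pi.single i 1) ∈ LinearMap.ker f := hf2 ⟨_, rfl⟩
  rw [LinearMap.mem_ker, hf] at h2
  rw [← h2]
  refine Finset.sum_congr rfl fun j _ => ?_
  rw [evL_apply, dotProduct_single, mul_one]

variable (b : Fin (n + 1) → Fin (N + 1) → ℂ)

/-- the polynomials defining the cover -/
noncomputable def diagPoly (m : ℕ) (i : Fin (n + 1)) : MvPolynomial (Fin (N + 1)) ℂ :=
  ∑ j, C (b i j) * X j ^ m

lemma diagPoly_hom (m : ℕ) (i : Fin (n + 1)) : (diagPoly b m i).IsHomogeneous m := by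
  unfold diagPoly
  apply IsHomogeneous.sum
  intro j _
  have h1 := (isHomogeneous_C (Fin (N + 1)) (b i j)).mul (isHomogeneous_X_pow (R := ℂ) j m)
  rwa [zero_add] at h1

lemma eval_diagPoly (m : ℕ) (i : Fin (n + 1)) (v : Fin (N + 1) → ℂ) :
    eval v (diagPoly b m i) = b i ⬝ᵥ fun j => v j ^ m := by
  rw [diagPoly, map_sum, dotProduct]
  simp

open Classical in
/-- the cover -/
noncomputable def diagMap (m : ℕ) (x : PSpace N) : PSpace n :=
  if h : (fun i => eval x.rep (diagPoly b m i)) ≠ 0 then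
    Projectivization.mk ℂ (fun i => eval x.rep (diagPoly b m i)) h
  else Projectivization.mk ℂ (fun _ => 1) (fun h => one_ne_zero (congrFun h 0))

lemma diagMap_eq (m : ℕ) (x : PSpace N) (h : (fun i => eval x.rep (diagPoly b m i)) ≠ 0) :
    diagMap b m x = Projectivization.mk ℂ (fun i => eval x.rep (diagPoly b m i)) h := by
  rw [diagMap, dif_pos h]

variable {b} (hb : ∀ y : Fin (n + 1) → ℂ, ∀ i, (b i ⬝ᵥ fun j => p j ⬝ᵥ y) = y i)

include hb

lemma diag_rep {m : ℕ} {x : PSpace N} (hx : x ∈ diagonal m p) :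
    ∀ j, (p j ⬝ᵥ fun i => eval x.rep (diagPoly b m i)) = x.rep j ^ m := by
  obtain ⟨y, hy⟩ := exists_of_orthogonal (v := fun j => x.rep j ^ m) hx
  have h1 : (fun i => eval x.rep (diagPoly b m i)) = y := by
    funext i
    rw [eval_diagPoly, ← hb y i]
    congr 1
    funext j
    exact (hy j).symm
  rw [h1]
  exact hy

lemma diag_ne {m : ℕ} {x : PSpace N} (hx : x ∈ diagonal m p) :
    (fun i => eval x.rep (diagPoly b m i)) ≠ 0 := by
  intro h
  apply x.rep_nonzero
  funext j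
  have h1 := diag_rep hb hx j
  rw [h, dotProduct_zero] at h1
  rcases Nat.eq_zero_or_pos m with hm | hm
  · subst hm
    rw [pow_zero] at h1
    exact absurd h1.symm one_ne_zero
  · simpa using (pow_eq_zero_iff hm.ne').mp h1.symm

lemma diag_regular (m : ℕ) : IsRegularOn (diagonal m p) (diagMap b m) := by
  intro x hx
  refine ⟨m, diagPoly b m, diagPoly_hom b m, ?_, ?_⟩
  · by_contra hcon
    push Not at hcon
    exact diag_ne hb hx (funext hcon)
  · intro y _ h
    exact diagMap_eq b m y h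

lemma diag_ramified {m : ℕ} (j : Fin (N + 1)) :
    RamifiedOver (diagonal m p) (diagMap b m) (p j) m := by
  intro γ z₀ ⟨F, hFan, hF⟩ hγ G hG
  -- the natural lift
  obtain ⟨G', hG'⟩ : ∃ G' : ℂ → Fin (n + 1) → ℂ,
    G' = fun z i => eval (F z) (diagPoly b m i) := ⟨_, rfl⟩
  have hrep : ∀ z (h : F z ≠ 0), γ z = Projectivization.mk ℂ (F z) h →
      ∃ c : ℂ, c ≠ 0 ∧ (γ z).rep = c • F z := by
    intro z h hz
    obtain ⟨a, ha⟩ := Projectivization.exists_smul_eq_mk_rep ℂ (F z) h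
    refine ⟨a, a.ne_zero, ?_⟩
    rw [hz, ← ha]
    rfl
  have hev : ∀ᶠ z in 𝓝 z₀, p j ⬝ᵥ G' z = F z j ^ m ∧
      ∃ h : G' z ≠ 0, diagMap b m (γ z) = Projectivization.mk ℂ (G' z) h := by
    filter_upwards [hF, hγ] with z ⟨h1, h2⟩ h3
    obtain ⟨c, hc, hc2⟩ := hrep z h1 h2
    have h6 : (fun i => eval (γ z).rep (diagPoly b m i)) = c ^ m • G' z := by
      funext i
      rw [hc2, eval_smul_of_homogeneous (diagPoly_hom b m i), Pi.smul_apply, smul_eq_mul, hG']
    have h7 := diag_rep hb h3 j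
    have h8 := diag_ne hb h3
    have h9 := diagMap_eq b m (γ z) h8
    rw [h6, dotProduct_smul, hc2, Pi.smul_apply, smul_eq_mul, smul_eq_mul, mul_pow] at h7
    have h10 : G' z ≠ 0 := by
      intro h0
      rw [h6, h0, smul_zero] at h8
      exact h8 rfl
    refine ⟨mul_left_cancel₀ (pow_ne_zero m hc) h7, h10, ?_⟩
    rw [h9, Projectivization.mk_eq_mk_iff']
    exact ⟨c ^ m, h6.symm⟩
  have hG'lift : IsLift (fun z => diagMap b m (γ z)) G' z₀ := by
    refine ⟨?_, hev.mono fun z hz => hz.2⟩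
    rw [hG', analyticAt_pi_iff]
    intro i
    exact analyticAt_eval hFan _
  obtain ⟨l, hl1, hl2, hl3⟩ := lift_ratio hG'lift hG
  have hFj : AnalyticAt ℂ (fun z => F z j) z₀ := (analyticAt_pi_iff.mp hFan) j
  have h11 : (fun z => p j ⬝ᵥ G z) =ᶠ[𝓝 z₀] l * (fun z => F z j) ^ m := by
    filter_upwards [hl3, hev] with z h1 h2
    rw [h1, dotProduct_smul, h2.1]
    rfl
  rw [analyticOrderAt_congr h11, analyticOrderAt_mul hl1 (hFj.pow m),
    (hl1.analyticOrderAt_eq_zero).mpr hl2, zero_add, analyticOrderAt_pow hFj]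
  by_cases h0 : analyticOrderAt (fun z => F z j) z₀ = 0
  · left
    rw [h0]
    simp
  · right
    have h12 : (1 : ℕ∞) ≤ analyticOrderAt (fun z => F z j) z₀ := Order.one_le_iff_ne_zero.mpr h0
    rw [nsmul_eq_mul]
    calc (m : ℕ∞) = m * 1 := (mul_one _).symm
      _ ≤ m * analyticOrderAt (fun z => F z j) z₀ := by gcongr

lemma diag_finite {m : ℕ} (hm : 0 < m) {x : PSpace N} (hx : x ∈ diagonal m p) :
    {y ∈ diagonal m p | diagMap b m y = diagMap b m x}.Finite := by
  classical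
  have h1 : {ζ : Fin (N + 1) → ℂ | ∀ j, ζ j ∈ {t : ℂ | t ^ m = x.rep j ^ m}}.Finite := by
    apply Set.Finite.pi'
    intro j
    have h2 : {t : ℂ | t ^ m = x.rep j ^ m} ⊆
        ((Polynomial.X ^ m - Polynomial.C (x.rep j ^ m) : Polynomial ℂ).roots.toFinset : Set ℂ) := by
      intro t ht
      rw [Finset.mem_coe, Multiset.mem_toFinset, Polynomial.mem_roots
        (Polynomial.X_pow_sub_C_ne_zero hm _), Polynomial.IsRoot.def]
      simp only [Polynomial.eval_sub, Polynomial.eval_pow, Polynomial.eval_X, Polynomial.eval_C]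
      rw [Set.mem_ofPred_eq] at ht
      rw [ht, sub_self]
    exact (Finset.finite_toSet _).subset h2
  have h3 := h1.image fun ζ => if h : ζ ≠ 0 then Projectivization.mk ℂ ζ h else x
  refine h3.subset ?_
  rintro y ⟨hy, hyx⟩
  rw [diagMap_eq b m y (diag_ne hb hy), diagMap_eq b m x (diag_ne hb hx),
    Projectivization.mk_eq_mk_iff'] at hyx
  obtain ⟨a, ha⟩ := hyx
  have h4 : ∀ j, y.rep j ^ m = a * x.rep j ^ m := by
    intro j
    rw [← diag_rep hb hy, ← diag_rep hb hx, ← ha, dotProduct_smul, smul_eq_mul]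
  have ha0 : a ≠ 0 := by
    rintro rfl
    rw [zero_smul] at ha
    exact diag_ne hb hy ha.symm
  obtain ⟨c, hc⟩ := IsAlgClosed.exists_pow_nat_eq a hm
  have hc0 : c ≠ 0 := by
    rintro rfl
    rw [zero_pow hm.ne'] at hc
    exact ha0 hc.symm
  have hy0 : c⁻¹ • y.rep ≠ 0 := smul_ne_zero (inv_ne_zero hc0) y.rep_nonzero
  refine ⟨c⁻¹ • y.rep, ?_, ?_⟩
  · intro j
    rw [Set.mem_ofPred_eq, Pi.smul_apply, smul_eq_mul, mul_pow, h4, inv_pow, hc, ← mul_assoc,
      inv_mul_cancel₀ ha0, one_mul]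
  · beta_reduce
    rw [dif_pos hy0]
    conv_rhs => rw [← y.mk_rep]
    rw [Projectivization.mk_eq_mk_iff']
    exact ⟨c⁻¹, rfl⟩

end

/-- existence of a left inverse -/
lemma exists_left_inverse {N n : ℕ} {p : Fin (N + 1) → Fin (n + 1) → ℂ}
    (hsep : ∀ y : Fin (n + 1) → ℂ, (∀ j, p j ⬝ᵥ y = 0) → y = 0) :
    ∃ b : Fin (n + 1) → Fin (N + 1) → ℂ, ∀ y : Fin (n + 1) → ℂ, ∀ i,
      (b i ⬝ᵥ fun j => p j ⬝ᵥ y) = y i := by
  have hinj : LinearMap.ker (evL p) = ⊥ := by
    rw [LinearMap.ker_eq_bot']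
    intro y hy
    exact hsep y fun j => congrFun hy j
  obtain ⟨g, hg⟩ := LinearMap.exists_leftInverse_of_injective _ hinj
  refine ⟨fun i j => g (Pi.single j 1) i, ?_⟩
  intro y i
  have hgu : ∀ u : Fin (N + 1) → ℂ, g u i = ∑ j, g (Pi.single j 1) i * u j := by
    intro u
    have h1 : u = ∑ i, u i • (Pi.single i (1 : ℂ) : Fin (N + 1) → ℂ) := by
      funext l
      rw [Finset.sum_apply, Finset.sum_eq_single l]
      · simp
      · intro j _ hj
        simp [Pi.single_eq_of_ne (Ne.symm hj)]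
      · simp
    conv_lhs => rw [h1, map_sum, Finset.sum_apply]
    refine Finset.sum_congr rfl fun j _ => ?_
    rw [map_smul, Pi.smul_apply, smul_eq_mul, mul_comm]
  have h2 : g (evL p y) = y := by
    rw [← LinearMap.comp_apply, hg, LinearMap.id_apply]
  conv_rhs => rw [← h2, hgu]
  rfl

end Pool.Agent.Lib.GGL
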