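import Mathlib

/-!
Taylor expansion as a homomorphism of differential rings, and the Wronskian argument for
formal power series.
-/

open Filter Topology

namespace Pool.Agent.Lib.GGL

/-- The Taylor series at `z₁`. -/
noncomputable def tay (z₁ : ℂ) (g : ℂ → ℂ) : PowerSeries ℂ :=
  PowerSeries.mk fun n => iteratedDeriv n g z₁ / n.factorial

lemma coeff_tay (z₁ : ℂ) (g : ℂ → ℂ) (n : ℕ) :
    PowerSeries.coeff n (tay z₁ g) = iteratedDeriv n g z₁ / n.factorial := by
  rw [tay, PowerSeries.coeff_mk]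

lemma constantCoeff_tay (z₁ : ℂ) (g : ℂ → ℂ) : PowerSeries.constantCoeff (tay z₁ g) = g z₁ := by
  rw [← PowerSeries.coeff_zero_eq_constantCoeff_apply, coeff_tay]
  simp

lemma tay_add {z₁ : ℂ} {g h : ℂ → ℂ} (hg : AnalyticAt ℂ g z₁) (hh : AnalyticAt ℂ h z₁) :
    tay z₁ (g + h) = tay z₁ g + tay z₁ h := by
  ext n
  rw [map_add, coeff_tay, coeff_tay, coeff_tay, iteratedDeriv_add hg.contDiffAt hh.contDiffAt,
    add_div]

lemma tay_const (z₁ a : ℂ) : tay z₁ (fun _ => a) = PowerSeries.C a := by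
  ext n
  rw [coeff_tay, PowerSeries.coeff_C, iteratedDeriv_const]
  by_cases h : n = 0
  · simp [h]
  · simp [h]

lemma tay_deriv (z₁ : ℂ) (g : ℂ → ℂ) :
    tay z₁ (deriv g) = PowerSeries.derivative ℂ (tay z₁ g) := by
  ext n
  rw [PowerSeries.coeff_derivative, coeff_tay, coeff_tay, iteratedDeriv_succ', Nat.factorial_succ]
  have h1 : ((n : ℂ) + 1) ≠ 0 := by exact_mod_cast n.succ_ne_zero
  have h2 : (n.factorial : ℂ) ≠ 0 := by exact_mod_cast n.factorial_ne_zero
  push_cast
  field_simp

lemma tay_congr {z₁ : ℂ} {g h : ℂ → ℂ} (e : g =ᶠ[𝓝 z₁] h) : tay z₁ g = tay z₁ h := by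
  ext n
  rw [coeff_tay, coeff_tay, Filter.EventuallyEq.iteratedDeriv_eq n e]

lemma tay_mul {z₁ : ℂ} {g h : ℂ → ℂ} (hg : AnalyticAt ℂ g z₁) (hh : AnalyticAt ℂ h z₁) :
    tay z₁ (g * h) = tay z₁ g * tay z₁ h := by
  ext n
  induction n generalizing g h with
  | zero =>
    rw [PowerSeries.coeff_zero_eq_constantCoeff_apply, PowerSeries.coeff_zero_eq_constantCoeff_apply,
      map_mul, constantCoeff_tay, constantCoeff_tay, constantCoeff_tay, Pi.mul_apply]
  | succ n ih =>
    have h1 : ((n : ℂ) + 1) ≠ 0 := by exact_mod_cast n.succ_ne_zero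
    apply mul_right_cancel₀ h1
    rw [← PowerSeries.coeff_derivative, ← PowerSeries.coeff_derivative, ← tay_deriv]
    have h2 : deriv (g * h) =ᶠ[𝓝 z₁] deriv g * h + g * deriv h := by
      filter_upwards [hg.eventually_analyticAt, hh.eventually_analyticAt] with z h3 h4
      have := (h3.differentiableAt.hasDerivAt.mul h4.differentiableAt.hasDerivAt).deriv
      rw [this]
      rfl
    rw [tay_congr h2, tay_add (hg.deriv.mul hh) (hg.mul hh.deriv), map_add, ih hg.deriv hh,
      ih hg hh.deriv, Derivation.leibniz, map_add, tay_deriv, tay_deriv, smul_eq_mul, smul_eq_mul,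
      mul_comm (PowerSeries.derivative ℂ (tay z₁ g)) (tay z₁ h), add_comm]

lemma tay_eq_zero {z₁ : ℂ} {g : ℂ → ℂ} (hg : AnalyticAt ℂ g z₁) (h : tay z₁ g = 0) :
    ∀ᶠ z in 𝓝 z₁, g z = 0 := by
  have h1 := hg.hasFPowerSeriesAt
  have h2 : (FormalMultilinearSeries.ofScalars ℂ
      (fun n => iteratedDeriv n g z₁ / n.factorial)) = 0 := by
    have h3 : (fun n : ℕ => iteratedDeriv n g z₁ / (n.factorial : ℂ)) = fun _ => 0 := by
      funext n
      rw [← coeff_tay, h, map_zero]
    rw [h3]
    ext n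
    simp [FormalMultilinearSeries.ofScalars]
  rw [h2] at h1
  exact h1.eventually_eq_zero

/-- functions analytic at a point -/
def An (z₁ : ℂ) : Subalgebra ℂ (ℂ → ℂ) where
  carrier := {g | AnalyticAt ℂ g z₁}
  mul_mem' := fun ha hb => ha.mul hb
  add_mem' := fun ha hb => ha.add hb
  algebraMap_mem' := fun _ => analyticAt_const

lemma mem_An {z₁ : ℂ} {g : ℂ → ℂ} : g ∈ An z₁ ↔ AnalyticAt ℂ g z₁ := Iff.rfl

/-- Taylor expansion -/
noncomputable def tayHom (z₁ : ℂ) : An z₁ →ₐ[ℂ] PowerSeries ℂ where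
  toFun g := tay z₁ g
  map_one' := by
    have : ((1 : An z₁) : ℂ → ℂ) = fun _ => 1 := rfl
    rw [this, tay_const, map_one]
  map_mul' g h := tay_mul g.2 h.2
  map_zero' := by
    have : ((0 : An z₁) : ℂ → ℂ) = fun _ => 0 := rfl
    rw [this, tay_const, map_zero]
  map_add' g h := tay_add g.2 h.2
  commutes' r := by
    show tay z₁ (algebraMap ℂ (ℂ → ℂ) r) = _
    have : algebraMap ℂ (ℂ → ℂ) r = fun _ => r := rfl
    rw [this, tay_const]
    rfl

lemma tayHom_apply (z₁ : ℂ) (g : An z₁) : tayHom z₁ g = tay z₁ g := rfl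

/-- evaluation at a nearby point -/
def evA (z₁ z : ℂ) : An z₁ →ₐ[ℂ] ℂ := (Pi.evalAlgHom ℂ (fun _ : ℂ => ℂ) z).comp (An z₁).val

lemma evA_apply (z₁ z : ℂ) (g : An z₁) : evA z₁ z g = (g : ℂ → ℂ) z := rfl

/-- derivative -/
noncomputable def derivA (z₁ : ℂ) (g : An z₁) : An z₁ := ⟨deriv g, AnalyticAt.deriv g.2⟩

lemma tayHom_derivA (z₁ : ℂ) (g : An z₁) :
    tayHom z₁ (derivA z₁ g) = PowerSeries.derivative ℂ (tayHom z₁ g) := tay_deriv _ _

lemma derivA_apply (z₁ z : ℂ) (g : An z₁) : evA z₁ z (derivA z₁ g) = deriv (g : ℂ → ℂ) z := rfl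

lemma eventually_of_tayHom {z₁ : ℂ} {g h : An z₁} (e : tayHom z₁ g = tayHom z₁ h) :
    ∀ᶠ z in 𝓝 z₁, evA z₁ z g = evA z₁ z h := by
  have h1 : tay z₁ ((g - h : An z₁) : ℂ → ℂ) = 0 := by
    rw [← tayHom_apply, map_sub, e, sub_self]
  filter_upwards [tay_eq_zero (g - h).2 h1] with z hz
  rw [← sub_eq_zero, ← map_sub, evA_apply, hz]

/-- The Wronskian argument: `a' b = a b'` with `b ≠ 0` implies that `a` is a constant multiple
of `b`. -/
theorem exists_const_of_wronskian {a b : PowerSeries ℂ} (hb : b ≠ 0)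
    (h : PowerSeries.derivative ℂ a * b = a * PowerSeries.derivative ℂ b) :
    ∃ c : ℂ, a = PowerSeries.C c * b := by
  -- the order of `b`
  obtain ⟨k, b', hb', rfl⟩ : ∃ (k : ℕ) (b' : PowerSeries ℂ), PowerSeries.constantCoeff b' ≠ 0 ∧
      b = PowerSeries.X ^ k * b' := by
    have hex : ∃ n, PowerSeries.coeff n b ≠ 0 := by
      by_contra hcon
      push Not at hcon
      exact hb (PowerSeries.ext fun n => by rw [hcon, map_zero])
    classical
    obtain ⟨b', hb'⟩ := (PowerSeries.X_pow_dvd_iff (n := Nat.find hex) (φ := b)).mpr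
      fun m hm => by simpa using Nat.find_min hex hm
    refine ⟨Nat.find hex, b', ?_, hb'⟩
    intro h0
    apply Nat.find_spec hex
    have := congrArg (PowerSeries.coeff (Nat.find hex)) hb'
    rw [this]
    have h2 := PowerSeries.coeff_X_pow_mul b' (Nat.find hex) 0
    rw [zero_add] at h2
    rw [h2, PowerSeries.coeff_zero_eq_constantCoeff_apply, h0]
  -- the difference of `a` and a multiple of `b`
  by_contra hcon
  push Not at hcon
  -- orders of the differences
  have key : ∀ r : PowerSeries ℂ, r ≠ 0 →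
      PowerSeries.derivative ℂ r * (PowerSeries.X ^ k * b') =
        r * PowerSeries.derivative ℂ (PowerSeries.X ^ k * b') →
      ∃ r', PowerSeries.constantCoeff r' ≠ 0 ∧ r = PowerSeries.X ^ k * r' := by
    intro r hr hr'
    have hex : ∃ n, PowerSeries.coeff n r ≠ 0 := by
      by_contra hcon
      push Not at hcon
      exact hr (PowerSeries.ext fun n => by rw [hcon, map_zero])
    classical
    obtain ⟨m, r', hr0, rfl⟩ : ∃ (m : ℕ) (r' : PowerSeries ℂ),
        PowerSeries.constantCoeff r' ≠ 0 ∧ r = PowerSeries.X ^ m * r' := by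
      obtain ⟨r', hr'⟩ := (PowerSeries.X_pow_dvd_iff (n := Nat.find hex) (φ := r)).mpr
        fun m hm => by simpa using Nat.find_min hex hm
      refine ⟨Nat.find hex, r', ?_, hr'⟩
      intro h0
      apply Nat.find_spec hex
      have := congrArg (PowerSeries.coeff (Nat.find hex)) hr'
      rw [this]
      have h2 := PowerSeries.coeff_X_pow_mul r' (Nat.find hex) 0
      rw [zero_add] at h2
      rw [h2, PowerSeries.coeff_zero_eq_constantCoeff_apply, h0]
    have hmk : m = k := by
      have e1 : PowerSeries.X * (PowerSeries.derivative ℂ (PowerSeries.X ^ m * r') *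
          (PowerSeries.X ^ k * b')) = PowerSeries.X ^ (m + k) *
          ((m : PowerSeries ℂ) * r' * b' +
            PowerSeries.X * (PowerSeries.derivative ℂ r' * b')) := by
        rcases Nat.eq_zero_or_pos m with h0 | h0
        · subst h0
          simp only [pow_zero, one_mul, Nat.cast_zero, zero_mul, zero_add]
          ring
        · obtain ⟨m', rfl⟩ : ∃ m', m = m' + 1 := ⟨m - 1, by omega⟩
          rw [Derivation.leibniz, PowerSeries.derivative_pow, PowerSeries.derivative_X]
          simp only [smul_eq_mul, mul_one, Nat.add_sub_cancel]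
          ring
      have e2 : PowerSeries.X * (PowerSeries.X ^ m * r' *
          PowerSeries.derivative ℂ (PowerSeries.X ^ k * b')) = PowerSeries.X ^ (m + k) *
          ((k : PowerSeries ℂ) * r' * b' +
            PowerSeries.X * (r' * PowerSeries.derivative ℂ b')) := by
        rcases Nat.eq_zero_or_pos k with h0 | h0
        · subst h0
          simp only [pow_zero, one_mul, Nat.cast_zero, zero_mul, zero_add, add_zero]
          ring
        · obtain ⟨k', rfl⟩ : ∃ k', k = k' + 1 := ⟨k - 1, by omega⟩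
          rw [Derivation.leibniz, PowerSeries.derivative_pow, PowerSeries.derivative_X]
          simp only [smul_eq_mul, mul_one, Nat.add_sub_cancel]
          ring
      rw [hr', e2] at e1
      have e3 := mul_left_cancel₀ (pow_ne_zero _ PowerSeries.X_ne_zero) e1
      have e4 := congrArg (PowerSeries.constantCoeff (R := ℂ)) e3
      simp only [map_add, map_mul, map_natCast, PowerSeries.constantCoeff_X, zero_mul,
        add_zero] at e4
      have e5 := mul_right_cancel₀ hb' e4
      have e6 := mul_right_cancel₀ hr0 e5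
      exact_mod_cast e6.symm
    exact ⟨r', hr0, by rw [hmk]⟩
  have ha : a ≠ 0 := by
    intro h0
    apply hcon 0
    rw [h0, map_zero, zero_mul]
  obtain ⟨a', ha0, haa⟩ := key a ha h
  obtain ⟨c, hc⟩ : ∃ c, c = PowerSeries.constantCoeff a' / PowerSeries.constantCoeff b' := ⟨_, rfl⟩
  have hne : a - PowerSeries.C c * (PowerSeries.X ^ k * b') ≠ 0 := by
    rw [sub_ne_zero]
    exact hcon c
  obtain ⟨r', hr0, hrr⟩ := key _ hne (by
    rw [map_sub, Derivation.leibniz, PowerSeries.derivative_C, smul_zero, add_zero, smul_eq_mul]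
    linear_combination h)
  apply hr0
  have h1 : PowerSeries.X ^ k * (a' - PowerSeries.C c * b') = PowerSeries.X ^ k * r' := by
    rw [← hrr, haa]
    ring
  have h2 := mul_left_cancel₀ (pow_ne_zero _ PowerSeries.X_ne_zero) h1
  rw [← h2, map_sub, map_mul, PowerSeries.constantCoeff_C, hc, div_mul_cancel₀ _ hb', sub_self]

end Pool.Agent.Lib.GGL
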