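import Mathlib
import Pool.Agent.Lib.MP_8d161d_ag.Mg.G022
import Pool.Agent.Lib.MP_8d161d_ag.Mg.G021

/-!
Generic independence of the columns along a curve.
-/

open MvPolynomial Module Filter Topology

namespace Pool.Agent.Lib.GGL

/-- evaluation at a point as a functional on forms of degree `d` -/
noncomputable def evF3 {t : ℕ} (d : ℕ) (x : Fin (t + 1) → ℂ) :
    Module.Dual ℂ (homogeneousSubmodule (Fin (t + 1)) ℂ d) :=
  (aeval x : MvPolynomial (Fin (t + 1)) ℂ →ₐ[ℂ] ℂ).toLinearMap ∘ₗ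
    (homogeneousSubmodule (Fin (t + 1)) ℂ d).subtype

lemma evF3_apply {t d : ℕ} (x : Fin (t + 1) → ℂ) (Q : homogeneousSubmodule (Fin (t + 1)) ℂ d) :
    evF3 d x Q = eval x (Q : MvPolynomial (Fin (t + 1)) ℂ) := by
  rfl

lemma exists_interp {t d : ℕ} {ι : Type*} [Finite ι] [DecidableEq ι] (x : ι → Fin (t + 1) → ℂ)
    (h : ∀ Q : MvPolynomial (Fin (t + 1)) ℂ, Q.IsHomogeneous d → (∀ j, eval (x j) Q = 0) → Q = 0) :
    ∃ (H : Finset ι) (L : ι → MvPolynomial (Fin (t + 1)) ℂ),
      H.card = finrank ℂ (homogeneousSubmodule (Fin (t + 1)) ℂ d) ∧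
      (∀ j, (L j).IsHomogeneous d) ∧
      (∀ i ∈ H, ∀ j ∈ H, eval (x j) (L i) = if i = j then 1 else 0) ∧
      ∀ Q : MvPolynomial (Fin (t + 1)) ℂ, Q.IsHomogeneous d → Q = ∑ i ∈ H, eval (x i) Q • L i := by
  obtain ⟨H, L, h1, h2, h3⟩ := exists_lagrange (E := homogeneousSubmodule (Fin (t + 1)) ℂ d)
    (fun j => evF3 d (x j)) (by
      rintro ⟨Q, hQ⟩ hj
      rw [mem_homogeneousSubmodule] at hQ
      ext1
      apply h Q hQ
      intro j
      have := hj j
      rwa [evF3_apply] at this)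
  refine ⟨H, fun j => L j, h1, fun j => (mem_homogeneousSubmodule _ _).mp (L j).2, ?_, ?_⟩
  · intro i hi j hj
    have := h2 i hi j hj
    rwa [evF3_apply] at this
  · intro Q hQ
    have h4 := h3 ⟨Q, (mem_homogeneousSubmodule _ _).mpr hQ⟩
    have h5 := congrArg Subtype.val h4
    simp only [evF3_apply] at h5
    rw [AddSubmonoidClass.coe_finsetSum] at h5
    exact h5

/-- injectivity of evaluation extends to algebras over `ℂ` -/
lemma eq_zero_of_eval {t d : ℕ} {ι : Type*} [Finite ι] (x : ι → Fin (t + 1) → ℂ)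
    (h : ∀ Q : MvPolynomial (Fin (t + 1)) ℂ, Q.IsHomogeneous d → (∀ j, eval (x j) Q = 0) → Q = 0)
    {R : Type*} [CommRing R] [Algebra ℂ R] {P : MvPolynomial (Fin (t + 1)) R}
    (hP : P.IsHomogeneous d) (h0 : ∀ j, eval (fun i => algebraMap ℂ R (x j i)) P = 0) : P = 0 := by
  classical
  obtain ⟨H, L, h1, h2, h3, h4⟩ := exists_interp x h
  rw [interp_map (fun j : H => x j) (fun j : H => L j) (fun Q hQ => by
    rw [Finset.sum_coe_sort H (fun j => eval (x j) Q • L j)]
    exact h4 Q hQ) hP]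
  exact Finset.sum_eq_zero fun j _ => by rw [h0, C_0, zero_mul]

section

variable {n t : ℕ}

/-- The algebraic part: the columns are independent over formal power series. -/
theorem indep_powerSeries {k D' : ℕ} {H : Type*} [Fintype H] [DecidableEq H]
    (x : H → Fin (t + 1) → ℂ) (L : H → MvPolynomial (Fin (t + 1)) ℂ)
    (hL : ∀ j, (L j).IsHomogeneous (k + D'))
    (hδ : ∀ i j, eval (x j) (L i) = if i = j then 1 else 0)
    {F : MvPolynomial (Fin (t + 1)) (PowerSeries ℂ)} (hFh : F.IsHomogeneous D') (hF : F ≠ 0)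
    (hsq : ∀ π : MvPolynomial (Fin (t + 1)) (PowerSeries ℂ), π.totalDegree ≠ 0 → ¬ π ^ 2 ∣ F)
    (hconst : ∀ π₀ : MvPolynomial (Fin (t + 1)) ℂ, π₀.totalDegree ≠ 0 →
      ¬ map (algebraMap ℂ (PowerSeries ℂ)) π₀ ∣ F)
    (hx : ∀ j, eval (fun i => algebraMap ℂ (PowerSeries ℂ) (x j i)) F ≠ 0)
    (B : Finset H) (hB : ∀ c : MvPolynomial (Fin (t + 1)) ℂ, c.IsHomogeneous k →
        (∀ j, j ∉ B → eval (x j) c = 0) → c = 0)
    (h : H → PowerSeries ℂ) (hh : ∀ j, j ∉ B → h j = 0)
    (hrel : ∑ j, C (h j) *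
      ((C (eval (fun i => algebraMap ℂ (PowerSeries ℂ) (x j i)) F) *
        cd (PowerSeries.derivative ℂ) F -
        C (eval (fun i => algebraMap ℂ (PowerSeries ℂ) (x j i))
          (cd (PowerSeries.derivative ℂ) F)) * F) *
      map (algebraMap ℂ (PowerSeries ℂ)) (L j)) = 0) : h = 0 := by
  obtain ⟨a, ha⟩ : ∃ a : H → PowerSeries ℂ, a = fun j =>
    eval (fun i => algebraMap ℂ (PowerSeries ℂ) (x j i)) F := ⟨_, rfl⟩
  obtain ⟨b, hb⟩ : ∃ b : H → PowerSeries ℂ, b = fun j =>
    eval (fun i => algebraMap ℂ (PowerSeries ℂ) (x j i)) (cd (PowerSeries.derivative ℂ) F) :=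
    ⟨_, rfl⟩
  obtain ⟨P, hP⟩ : ∃ P : MvPolynomial (Fin (t + 1)) (PowerSeries ℂ), P =
    ∑ j, C (h j * a j) * map (algebraMap ℂ (PowerSeries ℂ)) (L j) := ⟨_, rfl⟩
  obtain ⟨Q, hQ⟩ : ∃ Q : MvPolynomial (Fin (t + 1)) (PowerSeries ℂ), Q =
    ∑ j, C (h j * b j) * map (algebraMap ℂ (PowerSeries ℂ)) (L j) := ⟨_, rfl⟩
  have h1 : cd (PowerSeries.derivative ℂ) F * P = F * Q := by
    rw [← sub_eq_zero, hP, hQ, Finset.mul_sum, Finset.mul_sum, ← Finset.sum_sub_distrib, ← hrel]
    refine Finset.sum_congr rfl fun j _ => ?_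
    rw [ha, hb]
    simp only [C_mul]
    ring
  have hPh : P.IsHomogeneous (k + D') := by
    rw [hP]
    refine IsHomogeneous.sum _ _ _ fun j _ => ?_
    exact ((hL j).map _).C_mul _
  have hPx : ∀ i, eval (fun l => algebraMap ℂ (PowerSeries ℂ) (x i l)) P = h i * a i := by
    intro i
    rw [hP, map_sum, Finset.sum_eq_single i]
    · rw [map_mul, eval_C, eval_map_algebraMap, hδ, if_pos rfl, map_one, mul_one]
    · intro j _ hji
      rw [map_mul, eval_C, eval_map_algebraMap, hδ, if_neg hji, map_zero, mul_zero]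
    · intro hi
      exact absurd (Finset.mem_univ _) hi
  obtain ⟨u, hu0, g, hg⟩ := exists_coprime hF hsq hconst h1
  have hg0 : g = 0 := by
    by_contra hgne
    have hne : C u * P ≠ 0 := by
      rw [hg]
      exact mul_ne_zero hF hgne
    have hgh : ∃ a, g.IsHomogeneous a := by
      apply isHomogeneous_of_dvd (hPh.C_mul u) hne
      rw [hg]
      exact dvd_mul_left _ _
    obtain ⟨e, he⟩ := hgh
    have he' : e = k := by
      have h2 := hFh.mul he
      rw [← hg] at h2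
      have h3 := h2.inj_right (hPh.C_mul u) hne
      omega
    rw [he'] at he
    apply hgne
    apply eq_zero_of_eval (fun j : {j // j ∉ B} => x j) (fun Q hQ hj => hB Q hQ fun j hjB =>
      hj ⟨j, hjB⟩) he
    rintro ⟨j, hj⟩
    have h4 := congrArg (eval (fun i => algebraMap ℂ (PowerSeries ℂ) (x j i))) hg
    rw [map_mul, eval_C, hPx, hh j hj, zero_mul, mul_zero, map_mul] at h4
    exact (mul_eq_zero.mp h4.symm).resolve_left (hx j)
  rw [hg0, mul_zero] at hg
  have hP0 : P = 0 := by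
    rcases mul_eq_zero.mp hg with h5 | h5
    · exact absurd (by simpa using h5) hu0
    · exact h5
  funext i
  have h6 := hPx i
  rw [hP0, map_zero] at h6
  have h7 : a i ≠ 0 := by
    rw [ha]
    exact hx i
  exact (mul_eq_zero.mp h6.symm).resolve_right h7

/-- The columns are independent at many points of the curve. -/
theorem frequently_indep {k D' : ℕ} {H : Type*} [Fintype H] [DecidableEq H]
    (x : H → Fin (t + 1) → ℂ) (L : H → MvPolynomial (Fin (t + 1)) ℂ)
    (hL : ∀ j, (L j).IsHomogeneous (k + D'))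
    (hδ : ∀ i j, eval (x j) (L i) = if i = j then 1 else 0)
    (B : Finset H) (hB : ∀ c : MvPolynomial (Fin (t + 1)) ℂ, c.IsHomogeneous k →
        (∀ j, j ∉ B → eval (x j) c = 0) → c = 0)
    {κ : Type*} [Fintype κ] (x' : κ → Fin (t + 1) → ℂ) (L' : κ → MvPolynomial (Fin (t + 1)) ℂ)
    (hL' : ∀ Q : MvPolynomial (Fin (t + 1)) ℂ, Q.IsHomogeneous D' →
      Q = ∑ j, eval (x' j) Q • L' j)
    {c : MvPolynomial (Fin (t + 1)) ℂ} (hc : ∀ j, eval (x' j) c ≠ 0)
    (N : MvPolynomial (Fin (n + 1) ⊕ Fin (t + 1)) ℂ) (z₁ : ℂ) (y : Fin (n + 1) → An z₁)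
    {F : MvPolynomial (Fin (t + 1)) (PowerSeries ℂ)} (hFh : F.IsHomogeneous D') (hF : F ≠ 0)
    (hFN : sp (fun i => tayHom z₁ (y i)) N = map (algebraMap ℂ (PowerSeries ℂ)) c * F)
    (hsq : ∀ π : MvPolynomial (Fin (t + 1)) (PowerSeries ℂ), π.totalDegree ≠ 0 → ¬ π ^ 2 ∣ F)
    (hconst : ∀ π₀ : MvPolynomial (Fin (t + 1)) ℂ, π₀.totalDegree ≠ 0 →
      ¬ map (algebraMap ℂ (PowerSeries ℂ)) π₀ ∣ F)
    (hx : ∀ j, eval (fun i => algebraMap ℂ (PowerSeries ℂ) (x j i)) F ≠ 0) :
    ∃ᶠ z in 𝓝 z₁, LinearIndependent ℂ fun j : B =>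
      wr (x j) (qt x' L' c (sp (fun i => evA z₁ z (y i)) N))
        (qt x' L' c (sp1 (fun i => evA z₁ z (y i)) (fun i => evA z₁ z (derivA z₁ (y i))) N)) *
        L j := by
  intro hcon
  -- the columns over the ring of analytic functions
  obtain ⟨g₀, hg₀⟩ : ∃ g₀ : MvPolynomial (Fin (t + 1)) (An z₁), g₀ = qt x' L' c (sp y N) :=
    ⟨_, rfl⟩
  obtain ⟨g₁, hg₁⟩ : ∃ g₁ : MvPolynomial (Fin (t + 1)) (An z₁),
    g₁ = qt x' L' c (sp1 y (fun i => derivA z₁ (y i)) N) := ⟨_, rfl⟩
  obtain ⟨V, hV⟩ : ∃ V : H → MvPolynomial (Fin (t + 1)) (An z₁), V = fun j =>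
    (C (eval (fun i => algebraMap ℂ (An z₁) (x j i)) g₀) * g₁ -
      C (eval (fun i => algebraMap ℂ (An z₁) (x j i)) g₁) * g₀) *
      map (algebraMap ℂ (An z₁)) (L j) := ⟨_, rfl⟩
  have hmap : ∀ {S : Type} [CommRing S] [Algebra ℂ S] (h : An z₁ →ₐ[ℂ] S) (j : H),
      map (h : An z₁ →+* S) (V j) =
      (C (eval (fun i => algebraMap ℂ S (x j i)) (map (h : An z₁ →+* S) g₀)) *
        map (h : An z₁ →+* S) g₁ -
      C (eval (fun i => algebraMap ℂ S (x j i)) (map (h : An z₁ →+* S) g₁)) *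
        map (h : An z₁ →+* S) g₀) * map (algebraMap ℂ S) (L j) := by
    intro S _ _ h j
    have e1 : ∀ g : MvPolynomial (Fin (t + 1)) (An z₁),
        (h : An z₁ →+* S) (eval (fun i => algebraMap ℂ (An z₁) (x j i)) g) =
          eval (fun i => algebraMap ℂ S (x j i)) (map (h : An z₁ →+* S) g) := by
      intro g
      rw [map_eval]
      congr 1
      congr 1
      funext i
      exact h.commutes _
    rw [hV]
    simp only [map_mul, map_sub, map_C, e1, MvPolynomial.map_map]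
    have e2 : (h : An z₁ →+* S).comp (algebraMap ℂ (An z₁)) = algebraMap ℂ S := h.comp_algebraMap
    rw [e2]
  -- evaluation
  have hev : ∀ z j, map (evA z₁ z : An z₁ →+* ℂ) (V j) =
      wr (x j) (qt x' L' c (sp (fun i => evA z₁ z (y i)) N))
        (qt x' L' c (sp1 (fun i => evA z₁ z (y i)) (fun i => evA z₁ z (derivA z₁ (y i))) N)) *
        L j := by
    intro z j
    rw [hmap, hg₀, hg₁, map_qt, map_qt, map_sp, map_sp1]
    simp only [Algebra.algebraMap_self, RingHom.id_apply, MvPolynomial.map_id]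
    rfl
  -- Taylor expansion
  have hF₀ : map (tayHom z₁ : An z₁ →+* PowerSeries ℂ) g₀ = F := by
    rw [hg₀, map_qt, map_sp, hFN]
    exact qt_mul x' L' hL' hc hFh
  have hF₁ : map (tayHom z₁ : An z₁ →+* PowerSeries ℂ) g₁ = cd (PowerSeries.derivative ℂ) F := by
    rw [hg₁, map_qt, map_sp1]
    have e1 : sp1 (fun i => tayHom z₁ (y i)) (fun i => tayHom z₁ (derivA z₁ (y i))) N =
        map (algebraMap ℂ (PowerSeries ℂ)) c * cd (PowerSeries.derivative ℂ) F := by
      have e2 := cd_sp (PowerSeries.derivative ℂ) (fun i => tayHom z₁ (y i)) N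
      simp only [← tayHom_derivA] at e2
      rw [← e2, hFN, cd_mul, cd_map, zero_mul, zero_add]
    rw [e1]
    exact qt_mul x' L' hL' hc (cd_isHomogeneous _ hFh)
  -- the minors vanish
  let ε := B.equivFin
  obtain ⟨h, hh0, hh⟩ := exists_relation B.card
    (fun (j : Fin B.card) (s : Fin (t + 1) →₀ ℕ) =>
      coeff s (map (tayHom z₁ : An z₁ →+* PowerSeries ℂ) (V (ε.symm j)))) (by
    intro r
    have e1 : (Matrix.of fun i j : Fin B.card =>
        coeff (r i) (map (tayHom z₁ : An z₁ →+* PowerSeries ℂ) (V (ε.symm j)))) =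
        (tayHom z₁ : An z₁ →+* PowerSeries ℂ).mapMatrix
          (Matrix.of fun i j : Fin B.card => coeff (r i) (V (ε.symm j))) := by
      ext1 i j
      simp only [Matrix.of_apply, RingHom.mapMatrix_apply, Matrix.map_apply, coeff_map]
    rw [e1, ← RingHom.map_det]
    obtain ⟨δ, hδ'⟩ : ∃ δ : An z₁,
      δ = (Matrix.of fun i j : Fin B.card => coeff (r i) (V (ε.symm j))).det := ⟨_, rfl⟩
    rw [← hδ']
    have e2 : ∀ᶠ z in 𝓝 z₁, (δ : ℂ → ℂ) z = 0 := by
      filter_upwards [hcon] with z hz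
      have e3 : (δ : ℂ → ℂ) z = (evA z₁ z : An z₁ →+* ℂ) δ := rfl
      rw [e3, hδ', RingHom.map_det]
      by_contra hdet
      apply hz
      rw [Fintype.linearIndependent_iff]
      intro a ha j₀
      have e4 : (Matrix.of fun i j : Fin B.card =>
          coeff (r i) (map (evA z₁ z : An z₁ →+* ℂ) (V (ε.symm j)))).mulVec
          (fun j => a (ε.symm j)) = 0 := by
        funext i
        rw [Matrix.mulVec, dotProduct, Pi.zero_apply]
        simp only [Matrix.of_apply, hev]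
        have e5 := congrArg (coeff (r i)) ha
        rw [coeff_sum, coeff_zero] at e5
        rw [← e5]
        apply Fintype.sum_equiv ε.symm
        intro j
        rw [coeff_smul, smul_eq_mul, mul_comm]
      have e6 : (evA z₁ z : An z₁ →+* ℂ).mapMatrix
          (Matrix.of fun i j : Fin B.card => coeff (r i) (V (ε.symm j))) =
          Matrix.of fun i j : Fin B.card =>
          coeff (r i) (map (evA z₁ z : An z₁ →+* ℂ) (V (ε.symm j))) := by
        ext1 i j
        simp only [Matrix.of_apply, RingHom.mapMatrix_apply, Matrix.map_apply, coeff_map]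
      rw [e6] at hdet
      have e7 := Matrix.eq_zero_of_mulVec_eq_zero hdet e4
      have e8 := congrFun e7 (ε j₀)
      simpa using e8
    have e9 : tay z₁ (δ : ℂ → ℂ) = tay z₁ (fun _ => 0) := tay_congr e2
    rw [tay_const, map_zero] at e9
    exact e9)
  -- the contradiction
  apply hh0
  obtain ⟨h', hh'⟩ : ∃ h' : H → PowerSeries ℂ, h' = fun j =>
    if hj : j ∈ B then h (ε ⟨j, hj⟩) else 0 := ⟨_, rfl⟩
  have h'0 : h' = 0 := by
    apply indep_powerSeries x L hL hδ hFh hF hsq hconst hx B hB h'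
    · intro j hj
      rw [hh']
      exact dif_neg hj
    · have e1 : ∀ j, C (h' j) *
          ((C (eval (fun i => algebraMap ℂ (PowerSeries ℂ) (x j i)) F) *
            cd (PowerSeries.derivative ℂ) F -
            C (eval (fun i => algebraMap ℂ (PowerSeries ℂ) (x j i))
              (cd (PowerSeries.derivative ℂ) F)) * F) *
            map (algebraMap ℂ (PowerSeries ℂ)) (L j)) =
          C (h' j) * map (tayHom z₁ : An z₁ →+* PowerSeries ℂ) (V j) := by
        intro j
        rw [hmap, hF₀, hF₁]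
      rw [Finset.sum_congr rfl fun j _ => e1 j]
      rw [← Finset.sum_subset (Finset.subset_univ B)]
      · ext1 s
        rw [coeff_sum, coeff_zero, ← hh s]
        rw [← Finset.sum_coe_sort B]
        apply Fintype.sum_equiv ε
        intro j
        rw [coeff_C_mul, hh']
        simp
      · intro j _ hj
        rw [hh']
        simp [hj]
  funext j
  have e1 := congrFun h'0 (ε.symm j : H)
  rw [hh'] at e1
  simpa using e1

end

end Pool.Agent.Lib.GGL
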