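import Mathlib
import Pool.Agent.Lib.MP_8d161d_ag.Generic
import Pool.Agent.Lib.MP_8d161d_ag.Core

/-!
Bihomogeneous forms: scaling, Euler's identity, analyticity, and the identity theorem along a
family of local lifts.
-/

open MvPolynomial Module Filter Topology

namespace Pool.Agent.Lib.GGL

section hol

variable {n : ℕ}

lemma hol_const (c : ℂ) : Hol (n := n) fun _ _ => c := analyticOnNhd_const

lemma Hol.add {α β : (Fin (n + 1) → ℂ) → (Fin (n + 1) → ℂ) → ℂ} (hα : Hol α) (hβ : Hol β) :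
    Hol fun y w => α y w + β y w := AnalyticOnNhd.add hα hβ

lemma Hol.sub {α β : (Fin (n + 1) → ℂ) → (Fin (n + 1) → ℂ) → ℂ} (hα : Hol α) (hβ : Hol β) :
    Hol fun y w => α y w - β y w := AnalyticOnNhd.sub hα hβ

lemma Hol.mul {α β : (Fin (n + 1) → ℂ) → (Fin (n + 1) → ℂ) → ℂ} (hα : Hol α) (hβ : Hol β) :
    Hol fun y w => α y w * β y w := AnalyticOnNhd.mul hα hβ

lemma Hol.neg {α : (Fin (n + 1) → ℂ) → (Fin (n + 1) → ℂ) → ℂ} (hα : Hol α) :
    Hol fun y w => - α y w := AnalyticOnNhd.neg hα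

lemma Hol.sum {κ : Type*} (s : Finset κ) {α : κ → (Fin (n + 1) → ℂ) → (Fin (n + 1) → ℂ) → ℂ}
    (hα : ∀ i ∈ s, Hol (α i)) : Hol fun y w => ∑ i ∈ s, α i y w := by
  intro q hq
  apply Finset.analyticAt_fun_sum
  intro i hi
  exact hα i hi q hq

lemma hol_fst (i : Fin (n + 1)) : Hol (n := n) fun y _ => y i := by
  intro q _
  exact ((ContinuousLinearMap.proj (R := ℂ) (φ := fun _ : Fin (n + 1) => ℂ) i).comp
    (ContinuousLinearMap.fst ℂ (Fin (n + 1) → ℂ) (Fin (n + 1) → ℂ))).analyticAt q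

lemma hol_snd (i : Fin (n + 1)) : Hol (n := n) fun _ w => w i := by
  intro q _
  exact ((ContinuousLinearMap.proj (R := ℂ) (φ := fun _ : Fin (n + 1) => ℂ) i).comp
    (ContinuousLinearMap.snd ℂ (Fin (n + 1) → ℂ) (Fin (n + 1) → ℂ))).analyticAt q

variable {t : ℕ}

/-- functionals of a specialisation are holomorphic -/
lemma hol_sp (N : MvPolynomial (Fin (n + 1) ⊕ Fin (t + 1)) ℂ)
    (a : MvPolynomial (Fin (t + 1)) ℂ →ₗ[ℂ] ℂ) :
    Hol (n := n) fun y _ => a (sp y N) := by
  induction N using MvPolynomial.induction_on generalizing a with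
  | C r =>
    simp only [sp_C]
    exact hol_const _
  | add p q hp hq =>
    simp only [map_add]
    exact (hp a).add (hq a)
  | mul_X p j hp =>
    rcases j with j | j
    · have h1 : (fun (y _ : Fin (n + 1) → ℂ) => a (sp y (p * X (Sum.inl j)))) =
          fun y _ => y j * a (sp y p) := by
        funext y _
        rw [map_mul, sp_inl, mul_comm, ← smul_eq_C_mul, map_smul, smul_eq_mul]
      rw [h1]
      exact (hol_fst j).mul (hp a)
    · have h1 : (fun (y _ : Fin (n + 1) → ℂ) => a (sp y (p * X (Sum.inr j)))) =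
          fun y _ => (a ∘ₗ LinearMap.mulRight ℂ (X j)) (sp y p) := by
        funext y _
        rw [map_mul, sp_inr, LinearMap.comp_apply, LinearMap.mulRight_apply]
      rw [h1]
      exact hp _

lemma hol_sp1 (N : MvPolynomial (Fin (n + 1) ⊕ Fin (t + 1)) ℂ)
    (a : MvPolynomial (Fin (t + 1)) ℂ →ₗ[ℂ] ℂ) :
    Hol (n := n) fun y w => a (sp1 y w N) := by
  have h1 : (fun (y w : Fin (n + 1) → ℂ) => a (sp1 y w N)) =
      fun y w => ∑ i, w i * a (sp y (pderiv (Sum.inl i) N)) := by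
    funext y w
    rw [sp1, map_sum]
    refine Finset.sum_congr rfl fun i _ => ?_
    rw [← smul_eq_C_mul, map_smul, smul_eq_mul]
  rw [h1]
  exact Hol.sum _ fun i _ => (hol_snd i).mul (hol_sp _ a)

variable {κ : Type*} [Fintype κ] (x : κ → Fin (t + 1) → ℂ)
  (L : κ → MvPolynomial (Fin (t + 1)) ℂ)

lemma qt_complex (c P : MvPolynomial (Fin (t + 1)) ℂ) :
    qt x L c P = ∑ j, ((eval (x j) c)⁻¹ * eval (x j) P) • L j := by
  rw [qt]
  refine Finset.sum_congr rfl fun j _ => ?_
  simp only [Algebra.algebraMap_self, RingHom.id_apply, MvPolynomial.map_id, smul_eq_C_mul]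

/-- evaluation as a linear functional -/
noncomputable def evl (x : Fin (t + 1) → ℂ) : MvPolynomial (Fin (t + 1)) ℂ →ₗ[ℂ] ℂ :=
  (aeval x : MvPolynomial (Fin (t + 1)) ℂ →ₐ[ℂ] ℂ).toLinearMap

lemma evl_apply (x : Fin (t + 1) → ℂ) (P : MvPolynomial (Fin (t + 1)) ℂ) :
    evl x P = eval x P := rfl

lemma hol_qt {Φ : (Fin (n + 1) → ℂ) → (Fin (n + 1) → ℂ) → MvPolynomial (Fin (t + 1)) ℂ}
    (hΦ : ∀ a : MvPolynomial (Fin (t + 1)) ℂ →ₗ[ℂ] ℂ, Hol (n := n) fun y w => a (Φ y w))
    (c : MvPolynomial (Fin (t + 1)) ℂ)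
    (a : MvPolynomial (Fin (t + 1)) ℂ →ₗ[ℂ] ℂ) :
    Hol (n := n) fun y w => a (qt x L c (Φ y w)) := by
  have h1 : (fun (y w : Fin (n + 1) → ℂ) => a (qt x L c (Φ y w))) =
      fun y w => ∑ j, ((eval (x j) c)⁻¹ * evl (x j) (Φ y w)) * a (L j) := by
    funext y w
    rw [qt_complex, map_sum]
    refine Finset.sum_congr rfl fun j _ => ?_
    rw [map_smul, smul_eq_mul, evl_apply]
  rw [h1]
  exact Hol.sum _ fun j _ => ((hol_const _).mul (hΦ _)).mul (hol_const _)

end hol

section scaling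

variable {n t : ℕ} {R : Type*} [CommRing R] [Algebra ℂ R]
  {N : MvPolynomial (Fin (n + 1) ⊕ Fin (t + 1)) ℂ}

/-- weights of the first group of variables -/
def wY (n t : ℕ) : Fin (n + 1) ⊕ Fin (t + 1) → ℕ := Sum.elim (fun _ => 1) (fun _ => 0)

/-- weights of the second group of variables -/
def wT (n t : ℕ) : Fin (n + 1) ⊕ Fin (t + 1) → ℕ := Sum.elim (fun _ => 0) (fun _ => 1)

lemma sp_smul {DY : ℕ} (hN : IsWeightedHomogeneous (wY n t) N DY) (l : R) (y : Fin (n + 1) → R) :
    sp (l • y) N = C (l ^ DY) * sp y N := by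
  have h1 := aeval_weight (wY n t) hN
    (Sum.elim (fun i => C (y i)) X : _ → MvPolynomial (Fin (t + 1)) R) (C l)
  rw [sp, sp, C_pow, ← h1]
  congr 1
  congr 1
  funext i
  rcases i with i | i
  · simp [wY]
  · simp [wY]

lemma sp_isHomogeneous {D : ℕ} (hN : IsWeightedHomogeneous (wT n t) N D) (y : Fin (n + 1) → R) :
    (sp y N).IsHomogeneous D := by
  apply aeval_isHomogeneous (wT n t) hN
  intro i
  rcases i with i | i
  · exact isHomogeneous_C _ _
  · exact isHomogeneous_X _ _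

lemma sp1_isHomogeneous {D : ℕ} (hN : IsWeightedHomogeneous (wT n t) N D)
    (y w : Fin (n + 1) → R) : (sp1 y w N).IsHomogeneous D := by
  rw [sp1]
  refine IsHomogeneous.sum _ _ _ fun i _ => ?_
  apply IsHomogeneous.C_mul
  apply sp_isHomogeneous
  exact hN.pderiv (by simp [wT])

lemma sp1_add (y w w' : Fin (n + 1) → R) : sp1 y (w + w') N = sp1 y w N + sp1 y w' N := by
  rw [sp1, sp1, sp1, ← Finset.sum_add_distrib]
  refine Finset.sum_congr rfl fun i _ => ?_
  rw [Pi.add_apply, C_add, add_mul]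

lemma sp1_smul (y w : Fin (n + 1) → R) (c : R) : sp1 y (c • w) N = C c * sp1 y w N := by
  rw [sp1, sp1, Finset.mul_sum]
  refine Finset.sum_congr rfl fun i _ => ?_
  rw [Pi.smul_apply, smul_eq_mul, C_mul, mul_assoc]

lemma sp1_self {DY : ℕ} (hN : IsWeightedHomogeneous (wY n t) N DY) (y : Fin (n + 1) → R) :
    sp1 y y N = C (DY : R) * sp y N := by
  have h1 := hN.sum_weight_X_mul_pderiv
  rw [Fintype.sum_sum_type] at h1
  simp only [wY, Sum.elim_inl, Sum.elim_inr, one_smul, zero_smul, Finset.sum_const_zero,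
    add_zero] at h1
  have h2 := congrArg (sp y) h1
  rw [map_sum, map_nsmul, nsmul_eq_mul] at h2
  rw [sp1, map_natCast, ← h2]
  refine Finset.sum_congr rfl fun i _ => ?_
  rw [map_mul, sp_inl]

lemma sp1_scale {DY : ℕ} (hN : IsWeightedHomogeneous (wY n t) N (DY + 1)) (l μ : R)
    (y w : Fin (n + 1) → R) :
    sp1 (l • y) (l • w + μ • y) N =
      C (l ^ (DY + 1)) * sp1 y w N + C (μ * l ^ DY * (DY + 1 : ℕ)) * sp y N := by
  have h1 : ∀ v, sp1 (l • y) v N = C (l ^ DY) * sp1 y v N := by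
    intro v
    rw [sp1, sp1, Finset.mul_sum]
    refine Finset.sum_congr rfl fun i _ => ?_
    have h2 : IsWeightedHomogeneous (wY n t) (pderiv (Sum.inl i) N) DY :=
      hN.pderiv (by simp [wY])
    rw [sp_smul h2]
    ring
  rw [h1, sp1_add, sp1_smul, sp1_smul, sp1_self hN]
  simp only [C_mul, C_pow]
  ring

end scaling

section dvd

variable {n t : ℕ}

/-- divisibility of the value at `x` by the equation of a hyperplane -/
def DvdAt (N : MvPolynomial (Fin (n + 1) ⊕ Fin (t + 1)) ℂ) (p : Fin (n + 1) → ℂ)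
    (x : Fin (t + 1) → ℂ) : Prop :=
  ∃ U : MvPolynomial (Fin (n + 1)) ℂ,
    aeval (Sum.elim X (fun i => C (x i)) : _ → MvPolynomial (Fin (n + 1)) ℂ) N = linForm p * U

lemma eval_linForm' (p y : Fin (n + 1) → ℂ) : eval y (linForm p) = p ⬝ᵥ y := by
  rw [eval_linForm, dotProduct_comm]

lemma DvdAt.eval {N : MvPolynomial (Fin (n + 1) ⊕ Fin (t + 1)) ℂ} {p : Fin (n + 1) → ℂ}
    {x : Fin (t + 1) → ℂ} (h : DvdAt N p x) :
    ∃ u v : (Fin (n + 1) → ℂ) → (Fin (n + 1) → ℂ) → ℂ, Hol u ∧ Hol v ∧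
      ∀ y w : Fin (n + 1) → ℂ, MvPolynomial.eval x (sp y N) = (p ⬝ᵥ y) * u y w ∧
        MvPolynomial.eval x (sp1 y w N) = (p ⬝ᵥ w) * u y w + (p ⬝ᵥ y) * v y w := by
  obtain ⟨U, hU⟩ := h
  have hev : ∀ Q : MvPolynomial (Fin (n + 1)) ℂ, Hol (n := n) fun y _ => MvPolynomial.eval y Q := by
    intro Q
    induction Q using MvPolynomial.induction_on with
    | C r =>
      simp only [eval_C]
      exact hol_const _
    | add p q hp hq =>
      simp only [map_add]
      exact hp.add hq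
    | mul_X p j hp =>
      simp only [map_mul, eval_X]
      exact hp.mul (hol_fst j)
  refine ⟨fun y _ => MvPolynomial.eval y U,
    fun y w => ∑ i, w i * MvPolynomial.eval y (pderiv i U), hev U,
    Hol.sum _ fun i _ => (hol_snd i).mul (hev _), ?_⟩
  intro y w
  -- evaluation at `y`
  have h1 : ∀ Q : MvPolynomial (Fin (n + 1) ⊕ Fin (t + 1)) ℂ,
      MvPolynomial.eval y (aeval (Sum.elim X (fun i => C (x i)) :
        _ → MvPolynomial (Fin (n + 1)) ℂ) Q) = MvPolynomial.eval x (sp y Q) := by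
    intro Q
    rw [eval_sp]
    induction Q using MvPolynomial.induction_on with
    | C a => rw [aeval_C, aeval_C]; simp
    | add p q hp hq => rw [map_add, map_add, hp, hq, map_add]
    | mul_X p j hp =>
      rw [map_mul, map_mul, hp, map_mul, aeval_X, aeval_X]
      congr 1
      rcases j with j | j
      · rw [Sum.elim_inl, eval_X, Sum.elim_inl]
      · rw [Sum.elim_inr, eval_C, Sum.elim_inr]
  have hder : ∀ i, pderiv i (aeval (Sum.elim X (fun i => C (x i)) :
      _ → MvPolynomial (Fin (n + 1)) ℂ) N) =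
      aeval (Sum.elim X (fun i => C (x i)) : _ → MvPolynomial (Fin (n + 1)) ℂ)
        (pderiv (Sum.inl i) N) := by
    intro i
    clear hU
    induction N using MvPolynomial.induction_on with
    | C a =>
      rw [aeval_C]
      have : algebraMap ℂ (MvPolynomial (Fin (n + 1)) ℂ) a = C a := rfl
      rw [this, pderiv_C, pderiv_C, map_zero]
    | add p q hp hq => simp only [map_add, hp, hq]
    | mul_X p j hp =>
      rw [map_mul, Derivation.leibniz, Derivation.leibniz, hp, aeval_X, map_add, smul_eq_mul,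
        smul_eq_mul, smul_eq_mul, smul_eq_mul, map_mul, map_mul, aeval_X]
      rcases j with j | j
      · rw [Sum.elim_inl, pderiv_X, pderiv_X]
        by_cases hij : i = j
        · subst hij
          simp
        · rw [Pi.single_eq_of_ne (Ne.symm hij), Pi.single_eq_of_ne (by simpa using Ne.symm hij)]
          simp
      · rw [Sum.elim_inr, pderiv_C, pderiv_X, Pi.single_eq_of_ne (by simp)]
        simp
  constructor
  · rw [← h1, hU, map_mul, eval_linForm']
  · rw [sp1, map_sum]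
    have h2 : ∀ i, MvPolynomial.eval x (C (w i) * sp y (pderiv (Sum.inl i) N)) =
        w i * p i * MvPolynomial.eval y U +
          (p ⬝ᵥ y) * (w i * MvPolynomial.eval y (pderiv i U)) := by
      intro i
      rw [map_mul, eval_C, ← h1, ← hder, hU, Derivation.leibniz, smul_eq_mul, smul_eq_mul, map_add,
        map_mul, map_mul, eval_linForm']
      have h3 : MvPolynomial.eval y (pderiv i (linForm p)) = p i := by
        rw [linForm, map_sum, map_sum, Finset.sum_eq_single i]
        · rw [pderiv_C_mul, pderiv_X_self, mul_one, eval_C]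
        · intro j _ hj
          rw [pderiv_C_mul, pderiv_X_of_ne hj, mul_zero, map_zero]
        · intro hi
          exact absurd (Finset.mem_univ _) hi
      rw [h3]
      ring
    rw [Finset.sum_congr rfl fun i _ => h2 i, Finset.sum_add_distrib, ← Finset.sum_mul,
      ← Finset.mul_sum]
    congr 2
    rw [dotProduct]
    exact Finset.sum_congr rfl fun i _ => mul_comm _ _

end dvd

section identity

variable {n : ℕ} {Y : ℂ → ℂ → Fin (n + 1) → ℂ}

/-- identity theorem for homogeneous analytic conditions -/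
lemma LiftFamily.identity (hY : LiftFamily Y) {E : (Fin (n + 1) → ℂ) → ℂ}
    (hE : AnalyticOnNhd ℂ E Set.univ) (hEs : ∀ y (l : ℂ), l ≠ 0 → (E (l • y) = 0 ↔ E y = 0))
    {z₁ : ℂ} (h : ∀ᶠ z in 𝓝 z₁, E (Y z₁ z) = 0) (z₂ : ℂ) : ∀ᶠ z in 𝓝 z₂, E (Y z₂ z) = 0 := by
  obtain ⟨hYan, hY0, hYc⟩ := hY
  have han : ∀ z₁, AnalyticAt ℂ (fun z => E (Y z₁ z)) z₁ := fun z₁ =>
    (hE _ (Set.mem_univ _)).comp (hYan z₁)
  have hloc : IsLocallyConstant fun z₁ => ∀ᶠ z in 𝓝 z₁, E (Y z₁ z) = 0 := by
    rw [IsLocallyConstant.iff_eventually_eq]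
    intro z₁
    by_cases htop : ∀ᶠ z in 𝓝 z₁, E (Y z₁ z) = 0
    · have h1 := htop.eventually_nhds
      filter_upwards [h1, hYc z₁] with z hz ⟨l, hl1, hl2, hl3⟩
      rw [eq_iff_iff]
      refine iff_of_true ?_ htop
      filter_upwards [hz, hl3, hl1.continuousAt.eventually_ne hl2] with w hw1 hw2 hw3
      rw [hw2, hEs _ _ hw3]
      exact hw1
    · have h1 : ∀ᶠ z in 𝓝[≠] z₁, E (Y z₁ z) ≠ 0 := by
        rcases (han z₁).eventually_eq_zero_or_eventually_ne_zero with h | h
        · exact absurd h htop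
        · exact h
      rw [eventually_nhdsWithin_iff] at h1
      filter_upwards [h1, hYc z₁] with z hz ⟨l, hl1, hl2, hl3⟩
      rw [eq_iff_iff]
      refine iff_of_false ?_ htop
      rcases eq_or_ne z z₁ with rfl | hne
      · exact htop
      · intro h2
        have h3 := h2.self_of_nhds
        rw [hl3.self_of_nhds, hEs _ _ hl2] at h3
        exact hz hne h3
  have h5 := hloc.apply_eq_of_preconnectedSpace z₂ z₁
  beta_reduce at h5
  rw [h5]
  exact h

end identity

end Pool.Agent.Lib.GGL
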