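import Mathlib
import Pool.Agent.Lib.MP_8d161d_ag.Mg.G039

/-!
The growth lemma for a product of two norms.
-/

open Filter Topology Metric

namespace Pool.Agent.Lib.GGL

section vec

variable {E : Type*} [NormedAddCommGroup E] [InnerProductSpace ℂ E]
  {E' : Type*} [NormedAddCommGroup E'] [InnerProductSpace ℂ E']

/-- A holomorphic minorant of the power of the norm of a holomorphic vector. -/
lemma vec_minorant {x : ℂ → E} {z₁ : ℂ} (hx : AnalyticAt ℂ x z₁) (hx0 : x z₁ ≠ 0) (N : ℕ) :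
    ∃ (β : ℂ) (h : ℂ → ℂ), AnalyticAt ℂ h z₁ ∧ ‖h z₁‖ = (‖x z₁‖ ^ 2) ^ N ∧
      ∀ᶠ z in 𝓝 z₁, ‖h z‖ * Real.exp
        (N * (‖deriv x z₁ - β • x z₁‖ / ‖x z₁‖) ^ 2 / 8 * ‖z - z₁‖ ^ 2) ≤ (‖x z‖ ^ 2) ^ N := by
  obtain ⟨a, ha⟩ : ∃ a, a = x z₁ := ⟨_, rfl⟩
  rw [← ha] at hx0
  have hna : 0 < ‖a‖ := norm_pos_iff.mpr hx0
  let ℓ : E →L[ℂ] ℂ := ((‖a‖ ^ 2 : ℝ) : ℂ)⁻¹ • innerSL ℂ a
  have hℓ : ∀ v, ℓ v = ((‖a‖ ^ 2 : ℝ) : ℂ)⁻¹ * inner ℂ a v := fun v => rfl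
  have hna' : ((‖a‖ ^ 2 : ℝ) : ℂ) ≠ 0 := by
    exact_mod_cast (by positivity : (‖a‖ ^ 2 : ℝ) ≠ 0)
  have hℓa : ℓ a = 1 := by
    have h1 : inner ℂ a a = ((‖a‖ ^ 2 : ℝ) : ℂ) := by
      rw [inner_self_eq_norm_sq_to_K]
      push_cast
      rfl
    rw [hℓ, h1, inv_mul_cancel₀ hna']
  have hx' : HasDerivAt x (deriv x z₁) z₁ := hx.differentiableAt.hasDerivAt
  have hh' : HasDerivAt (fun z => ℓ (x z)) (ℓ (deriv x z₁)) z₁ :=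
    ℓ.hasFDerivAt.comp_hasDerivAt z₁ hx'
  have hh1 : ℓ (x z₁) = 1 := by rw [← ha, hℓa]
  have hinv : HasDerivAt (fun z => (ℓ (x z))⁻¹) (-ℓ (deriv x z₁)) z₁ := by
    have := hh'.inv (by rw [hh1]; exact one_ne_zero)
    rw [hh1, one_pow, div_one] at this
    exact this
  have hv : HasDerivAt (fun z => (ℓ (x z))⁻¹ • x z - a) (deriv x z₁ - ℓ (deriv x z₁) • a) z₁ := by
    have h2 := (hinv.smul hx').sub_const a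
    have h3 : deriv x z₁ - ℓ (deriv x z₁) • a =
        (ℓ (x z₁))⁻¹ • deriv x z₁ + -ℓ (deriv x z₁) • x z₁ := by
      rw [hh1, inv_one, one_smul, ← ha, neg_smul]
      abel
    rw [h3]
    exact h2
  obtain ⟨b, hb⟩ : ∃ b, b = deriv x z₁ - ℓ (deriv x z₁) • a := ⟨_, rfl⟩
  rw [← hb] at hv
  have hhan : AnalyticAt ℂ (fun z => ℓ (x z)) z₁ := (ℓ.analyticAt _).comp hx
  refine ⟨ℓ (deriv x z₁), fun z => (ℓ (x z) ^ 2 * ((‖a‖ ^ 2 : ℝ) : ℂ)) ^ N,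
    ((hhan.pow 2).mul analyticAt_const).pow N, ?_, ?_⟩
  · beta_reduce
    rw [hh1, ← ha]
    simp
  rw [← ha, ← hb]
  obtain ⟨t, ht⟩ : ∃ t, t = ‖b‖ / ‖a‖ := ⟨_, rfl⟩
  have ht0 : 0 ≤ t := by rw [ht]; positivity
  rw [← ht]
  have hne : ∀ᶠ z in 𝓝 z₁, ℓ (x z) ≠ 0 := by
    apply hhan.continuousAt.eventually_ne
    rw [hh1]; exact one_ne_zero
  have hsmall : ∀ᶠ z in 𝓝 z₁, t ^ 2 / 4 * ‖z - z₁‖ ^ 2 ≤ 1 := by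
    have hc : ContinuousAt (fun z : ℂ => t ^ 2 / 4 * ‖z - z₁‖ ^ 2) z₁ := by fun_prop
    have h0 : (fun z : ℂ => t ^ 2 / 4 * ‖z - z₁‖ ^ 2) z₁ < 1 := by simp
    filter_upwards [hc.eventually_lt_const h0] with z hz using hz.le
  have hge := eventually_norm_ge hv (by
    rw [hh1, inv_one, one_smul, ← ha, sub_self])
  filter_upwards [hne, hsmall, hge] with z g2 g3 g4
  obtain ⟨v, hvz⟩ : ∃ v, v = (ℓ (x z))⁻¹ • x z - a := ⟨_, rfl⟩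
  rw [← hvz] at g4
  have e1 : x z = ℓ (x z) • (a + v) := by
    rw [hvz, add_sub_cancel, smul_smul, mul_inv_cancel₀ g2, one_smul]
  have e2 : ℓ v = 0 := by
    rw [hvz, map_sub, map_smul, hℓa, smul_eq_mul, inv_mul_cancel₀ g2, sub_self]
  have e3 : inner ℂ a v = 0 := by
    rw [hℓ] at e2
    refine (mul_eq_zero.mp e2).resolve_left ?_
    simpa using hx0
  have e4 : ‖a + v‖ ^ 2 = ‖a‖ ^ 2 + ‖v‖ ^ 2 := by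
    have := norm_add_sq_eq_norm_sq_add_norm_sq_of_inner_eq_zero a v e3
    nlinarith
  have e5 : ‖x z‖ ^ 2 = ‖ℓ (x z)‖ ^ 2 * ‖a‖ ^ 2 * (1 + ‖v‖ ^ 2 / ‖a‖ ^ 2) := by
    conv_lhs => rw [e1]
    rw [norm_smul, mul_pow, e4]
    field_simp
  have e6 : t ^ 2 / 4 * ‖z - z₁‖ ^ 2 ≤ ‖v‖ ^ 2 / ‖a‖ ^ 2 := by
    rw [le_div_iff₀ (by positivity)]
    calc t ^ 2 / 4 * ‖z - z₁‖ ^ 2 * ‖a‖ ^ 2 = (‖b‖ / 2 * ‖z - z₁‖) ^ 2 := by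
          rw [ht]; field_simp; ring
      _ ≤ ‖v‖ ^ 2 := by gcongr
  have e7 : Real.exp (N * t ^ 2 / 8 * ‖z - z₁‖ ^ 2) ≤ (1 + ‖v‖ ^ 2 / ‖a‖ ^ 2) ^ N := by
    calc Real.exp (N * t ^ 2 / 8 * ‖z - z₁‖ ^ 2)
        = Real.exp ((t ^ 2 / 4 * ‖z - z₁‖ ^ 2) / 2) ^ N := by
          rw [← Real.exp_nat_mul]
          congr 1
          ring
      _ ≤ (1 + t ^ 2 / 4 * ‖z - z₁‖ ^ 2) ^ N := by
          gcongr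
          exact exp_half_le (by positivity) g3
      _ ≤ (1 + ‖v‖ ^ 2 / ‖a‖ ^ 2) ^ N := by gcongr
  rw [e5, norm_pow, norm_mul, norm_pow, Complex.norm_real,
    Real.norm_of_nonneg (by positivity), mul_pow _ (1 + ‖v‖ ^ 2 / ‖a‖ ^ 2) N]
  gcongr

lemma local_bound2 {P : ℂ → ℝ} {κ N N' : ℕ} {R : ℝ} {z₁ : ℂ} (hz₁ : ‖z₁‖ < R)
    {σ : ℂ → ℂ} (hσ : AnalyticAt ℂ σ z₁) {x : ℂ → E} (hx : AnalyticAt ℂ x z₁) (hx0 : x z₁ ≠ 0)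
    {y : ℂ → E'} (hy : AnalyticAt ℂ y z₁) (hy0 : y z₁ ≠ 0)
    (hPz₁ : 0 < P z₁)
    (hP : ∀ᶠ z in 𝓝 z₁, P z = ‖σ z‖ ^ 2 * ((‖x z‖ ^ 2) ^ N * (‖y z‖ ^ 2) ^ N'))
    (hmax : ∀ z, ‖z‖ ≤ R →
      P z * (R ^ 2 - ‖z‖ ^ 2) ^ (2 * κ) ≤ P z₁ * (R ^ 2 - ‖z₁‖ ^ 2) ^ (2 * κ)) :
    ∃ β β' : ℂ, N * (‖deriv x z₁ - β • x z₁‖ / ‖x z₁‖) ^ 2 +
      N' * (‖deriv y z₁ - β' • y z₁‖ / ‖y z₁‖) ^ 2 ≤
      304 * κ * (R ^ 2 / (R ^ 2 - ‖z₁‖ ^ 2) ^ 2) := by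
  obtain ⟨β, h, h1, h2, h3⟩ := vec_minorant hx hx0 N
  obtain ⟨β', h', h1', h2', h3'⟩ := vec_minorant hy hy0 N'
  refine ⟨β, β', ?_⟩
  obtain ⟨t, ht⟩ : ∃ t, t = ‖deriv x z₁ - β • x z₁‖ / ‖x z₁‖ := ⟨_, rfl⟩
  obtain ⟨t', ht'⟩ : ∃ t', t' = ‖deriv y z₁ - β' • y z₁‖ / ‖y z₁‖ := ⟨_, rfl⟩
  rw [← ht] at h3
  rw [← ht'] at h3'
  rw [← ht, ← ht']
  have key : N * t ^ 2 / 8 + N' * t' ^ 2 / 8 ≤
      38 * κ * (R ^ 2 / (R ^ 2 - ‖z₁‖ ^ 2) ^ 2) := by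
    have hPz := hP.self_of_nhds
    refine local_bound_aux hz₁ (g := fun z => σ z ^ 2 * (h z * h' z))
      ((hσ.pow 2).mul (h1.mul h1')) hPz₁ ?_ ?_ hmax
    · rw [hPz, norm_mul, norm_pow, norm_mul, h2, h2']
    · filter_upwards [hP, h3, h3'] with z g1 g2 g3
      rw [g1, norm_mul, norm_pow, norm_mul, add_mul, Real.exp_add]
      calc ‖σ z‖ ^ 2 * (‖h z‖ * ‖h' z‖) *
          (Real.exp (N * t ^ 2 / 8 * ‖z - z₁‖ ^ 2) * Real.exp (N' * t' ^ 2 / 8 * ‖z - z₁‖ ^ 2))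
          = ‖σ z‖ ^ 2 * ((‖h z‖ * Real.exp (N * t ^ 2 / 8 * ‖z - z₁‖ ^ 2)) *
            (‖h' z‖ * Real.exp (N' * t' ^ 2 / 8 * ‖z - z₁‖ ^ 2))) := by ring
        _ ≤ _ := by gcongr
  linarith

theorem growth2 {P : ℂ → ℝ} (hPc : Continuous P) (hP0 : ∀ z, 0 ≤ P z) {κ N N' : ℕ} (hN : 0 < N)
    (hN' : 0 < N') (hκ : 0 < κ) (C₁ : ℝ)
    (hloc : ∀ z₁, 0 < P z₁ → ∃ (σ : ℂ → ℂ) (x : ℂ → E) (y : ℂ → E'), AnalyticAt ℂ σ z₁ ∧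
      AnalyticAt ℂ x z₁ ∧ AnalyticAt ℂ y z₁ ∧ x z₁ ≠ 0 ∧ y z₁ ≠ 0 ∧
      (∀ᶠ z in 𝓝 z₁, P z = ‖σ z‖ ^ 2 * ((‖x z‖ ^ 2) ^ N * (‖y z‖ ^ 2) ^ N')) ∧
      ∀ β β' : ℂ, P z₁ ≤ C₁ * (‖deriv x z₁ - β • x z₁‖ / ‖x z₁‖ +
        ‖deriv y z₁ - β' • y z₁‖ / ‖y z₁‖) ^ (2 * κ)) :
    ∀ z, P z = 0 := by
  intro z₀
  by_contra hne
  have hpos : 0 < P z₀ := lt_of_le_of_ne (hP0 z₀) (Ne.symm hne)
  -- the main estimate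
  have main : ∀ R : ℝ, ‖z₀‖ < R →
      P z₀ * (R ^ 2 - ‖z₀‖ ^ 2) ^ (2 * κ) ≤ C₁ * (608 * κ * R ^ 2) ^ κ := by
    intro R hR
    have hR0 : 0 < R := lt_of_le_of_lt (norm_nonneg _) hR
    obtain ⟨z₁, hz₁, hmax⟩ := (isCompact_closedBall (0:ℂ) R).exists_isMaxOn
      ⟨0, mem_closedBall_self hR0.le⟩
      (f := fun z => P z * (R ^ 2 - ‖z‖ ^ 2) ^ (2 * κ)) (by fun_prop)
    have hmax' : ∀ z, ‖z‖ ≤ R →
        P z * (R ^ 2 - ‖z‖ ^ 2) ^ (2 * κ) ≤ P z₁ * (R ^ 2 - ‖z₁‖ ^ 2) ^ (2 * κ) := by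
      intro z hz
      exact hmax (by simpa using hz)
    have h0 := hmax' z₀ hR.le
    have hD₀ : 0 < R ^ 2 - ‖z₀‖ ^ 2 := by
      nlinarith [norm_nonneg z₀]
    have hval : 0 < P z₁ * (R ^ 2 - ‖z₁‖ ^ 2) ^ (2 * κ) :=
      lt_of_lt_of_le (by positivity) h0
    have hPz₁ : 0 < P z₁ := by
      rcases (hP0 z₁).lt_or_eq with h | h
      · exact h
      · rw [← h, zero_mul] at hval
        exact absurd hval (lt_irrefl _)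
    have hz₁' : ‖z₁‖ < R := by
      have h1 : ‖z₁‖ ≤ R := by simpa using hz₁
      rcases h1.lt_or_eq with h | h
      · exact h
      · rw [h, sub_self, zero_pow (by omega), mul_zero] at hval
        exact absurd hval (lt_irrefl _)
    have hD : 0 < R ^ 2 - ‖z₁‖ ^ 2 := by
      nlinarith [norm_nonneg z₁]
    obtain ⟨σ, x, y, hσ, hx, hy, hx0, hy0, hP, hest⟩ := hloc z₁ hPz₁
    obtain ⟨β, β', hβ⟩ := local_bound2 hz₁' hσ hx hx0 hy hy0 hPz₁ hP hmax'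
    obtain ⟨t, ht⟩ : ∃ t, t = ‖deriv x z₁ - β • x z₁‖ / ‖x z₁‖ := ⟨_, rfl⟩
    obtain ⟨t', ht'⟩ : ∃ t', t' = ‖deriv y z₁ - β' • y z₁‖ / ‖y z₁‖ := ⟨_, rfl⟩
    have hest' := hest β β'
    rw [← ht, ← ht'] at hβ hest'
    have ht0 : 0 ≤ t := by rw [ht]; positivity
    have ht0' : 0 ≤ t' := by rw [ht']; positivity
    have hC₁ : 0 ≤ C₁ := by
      by_contra hneg
      push Not at hneg
      have : C₁ * (t + t') ^ (2 * κ) ≤ 0 :=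
        mul_nonpos_of_nonpos_of_nonneg hneg.le (by rw [pow_mul]; positivity)
      linarith
    have hN1 : (1:ℝ) ≤ N := by exact_mod_cast hN
    have hN1' : (1:ℝ) ≤ N' := by exact_mod_cast hN'
    have ht2 : (t + t') ^ 2 ≤ 608 * κ * (R ^ 2 / (R ^ 2 - ‖z₁‖ ^ 2) ^ 2) := by
      have h3 : t ^ 2 + t' ^ 2 ≤ 304 * κ * (R ^ 2 / (R ^ 2 - ‖z₁‖ ^ 2) ^ 2) := by
        refine le_trans ?_ hβ
        have h4 : 1 * t ^ 2 ≤ N * t ^ 2 := by gcongr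
        have h5 : 1 * t' ^ 2 ≤ N' * t' ^ 2 := by gcongr
        linarith
      nlinarith [sq_nonneg (t - t')]
    calc P z₀ * (R ^ 2 - ‖z₀‖ ^ 2) ^ (2 * κ) ≤ P z₁ * (R ^ 2 - ‖z₁‖ ^ 2) ^ (2 * κ) := h0
      _ ≤ (C₁ * ((t + t') ^ 2) ^ κ) * (R ^ 2 - ‖z₁‖ ^ 2) ^ (2 * κ) := by
          rw [← pow_mul]
          gcongr
      _ ≤ (C₁ * (608 * κ * (R ^ 2 / (R ^ 2 - ‖z₁‖ ^ 2) ^ 2)) ^ κ) *
          (R ^ 2 - ‖z₁‖ ^ 2) ^ (2 * κ) := by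
          gcongr
      _ = C₁ * (608 * κ * R ^ 2) ^ κ := by
          rw [pow_mul (R ^ 2 - ‖z₁‖ ^ 2) 2 κ, mul_assoc, ← mul_pow]
          congr 2
          field_simp
  -- let the radius tend to infinity
  obtain ⟨R, hR1, hR2, hR3⟩ : ∃ R : ℝ, ‖z₀‖ < R ∧ 1 ≤ R ∧ 2 * ‖z₀‖ ^ 2 ≤ R ^ 2 ∧
      C₁ * (2432 * κ) ^ κ < P z₀ * R := by
    refine ⟨max (2 * ‖z₀‖ + 1) (|C₁ * (2432 * κ) ^ κ| / P z₀ + 1), ?_, ?_, ?_, ?_⟩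
    · have := le_max_left (2 * ‖z₀‖ + 1) (|C₁ * (2432 * κ) ^ κ| / P z₀ + 1)
      linarith [norm_nonneg z₀]
    · have := le_max_left (2 * ‖z₀‖ + 1) (|C₁ * (2432 * κ) ^ κ| / P z₀ + 1)
      linarith [norm_nonneg z₀]
    · have := le_max_left (2 * ‖z₀‖ + 1) (|C₁ * (2432 * κ) ^ κ| / P z₀ + 1)
      nlinarith [norm_nonneg z₀]
    · have h1 := le_max_right (2 * ‖z₀‖ + 1) (|C₁ * (2432 * κ) ^ κ| / P z₀ + 1)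
      calc C₁ * (2432 * κ) ^ κ ≤ |C₁ * (2432 * κ) ^ κ| := le_abs_self _
        _ < P z₀ * (|C₁ * (2432 * κ) ^ κ| / P z₀ + 1) := by
            rw [mul_add, mul_div_cancel₀ _ hpos.ne', mul_one]
            linarith
        _ ≤ _ := by gcongr
  have h1 := main R hR1
  have h2 : P z₀ * (R ^ 2 / 2) ^ (2 * κ) ≤ C₁ * (608 * κ * R ^ 2) ^ κ := by
    refine le_trans ?_ h1
    gcongr
    linarith [hR3.1]
  have h3 : P z₀ * (R ^ 2) ^ κ ≤ C₁ * (2432 * κ) ^ κ := by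
    have e1 : P z₀ * (R ^ 2 / 2) ^ (2 * κ) = (P z₀ * (R ^ 2) ^ κ) * (R ^ 2 / 4) ^ κ := by
      rw [pow_mul, mul_assoc, ← mul_pow]
      congr 2
      ring
    have e2 : C₁ * (608 * κ * R ^ 2) ^ κ = (C₁ * (2432 * κ) ^ κ) * (R ^ 2 / 4) ^ κ := by
      rw [mul_assoc C₁, ← mul_pow]
      congr 2
      ring
    rw [e1, e2] at h2
    exact le_of_mul_le_mul_right h2 (by positivity)
  have h4 : R ≤ (R ^ 2) ^ κ := by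
    calc R = R ^ 1 := (pow_one R).symm
      _ ≤ R ^ (2 * κ) := pow_le_pow_right₀ hR2 (by omega)
      _ = (R ^ 2) ^ κ := pow_mul _ _ _
  have h5 : P z₀ * R ≤ P z₀ * (R ^ 2) ^ κ := by gcongr
  linarith [hR3.2]

end vec

end Pool.Agent.Lib.GGL
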