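import Mathlib
import Pool.Agent.Lib.MP_8d161d_ag.Alg

/-!
Large subfamilies that behave like irreducible varieties for forms of bounded degree.
-/

open MvPolynomial Module

namespace Pool.Agent.Lib.GGL

/-- a space of functions -/
lemma exists_irr {ι : Type*} [DecidableEq ι] (U : Submodule ℂ (ι → ℂ)) [FiniteDimensional ℂ U] :
    ∀ (r : ℕ) (J : Finset ι),
      finrank ℂ (U.map (LinearMap.funLeft ℂ ℂ (Subtype.val : J → ι))) ≤ r →
      ∃ J' ⊆ J, J.card ≤ 2 ^ r * J'.card ∧ ∀ g ∈ U,
        J'.card ≤ 2 * (J'.filter fun j => g j = 0).card → ∀ j ∈ J', g j = 0 := by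
  intro r
  induction r with
  | zero =>
    intro J hJ
    refine ⟨J, subset_rfl, by simp, ?_⟩
    intro g hg _ j hj
    have h1 : (U.map (LinearMap.funLeft ℂ ℂ (Subtype.val : J → ι))) = ⊥ :=
      Submodule.finrank_eq_zero.mp (Nat.le_zero.mp hJ)
    have h2 : LinearMap.funLeft ℂ ℂ (Subtype.val : J → ι) g ∈
        (U.map (LinearMap.funLeft ℂ ℂ (Subtype.val : J → ι))) := Submodule.mem_map_of_mem hg
    rw [h1, Submodule.mem_bot] at h2
    exact congrFun h2 ⟨j, hj⟩
  | succ r ih =>
    intro J hJ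
    by_cases hirr : ∀ g ∈ U, J.card ≤ 2 * (J.filter fun j => g j = 0).card → ∀ j ∈ J, g j = 0
    · refine ⟨J, subset_rfl, ?_, hirr⟩
      exact Nat.le_mul_of_pos_left _ (by positivity)
    · push Not at hirr
      obtain ⟨g, hg, hgc, j₀, hj₀, hgj⟩ := hirr
      obtain ⟨J₁, hJ₁⟩ : ∃ J₁, J₁ = J.filter fun j => g j = 0 := ⟨_, rfl⟩
      have hsub : J₁ ⊆ J := by
        rw [hJ₁]
        exact Finset.filter_subset _ _
      -- the rank drops
      have hrank : finrank ℂ (U.map (LinearMap.funLeft ℂ ℂ (Subtype.val : J₁ → ι))) <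
          finrank ℂ (U.map (LinearMap.funLeft ℂ ℂ (Subtype.val : J → ι))) := by
        let ρ : (J → ℂ) →ₗ[ℂ] (J₁ → ℂ) := LinearMap.funLeft ℂ ℂ (fun j : J₁ => ⟨j, hsub j.2⟩)
        have h1 : LinearMap.funLeft ℂ ℂ (Subtype.val : J₁ → ι) =
            ρ ∘ₗ LinearMap.funLeft ℂ ℂ (Subtype.val : J → ι) := rfl
        let W := U.map (LinearMap.funLeft ℂ ℂ (Subtype.val : J → ι))
        have h2 : U.map (LinearMap.funLeft ℂ ℂ (Subtype.val : J₁ → ι)) = W.map ρ := by
          rw [h1, Submodule.map_comp]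
        rw [h2]
        have h3 : LinearMap.range (ρ.domRestrict W) = W.map ρ := by
          rw [LinearMap.range_domRestrict]
        have h4 := LinearMap.finrank_range_add_finrank_ker (ρ.domRestrict W)
        rw [h3] at h4
        have h5 : 0 < finrank ℂ (LinearMap.ker (ρ.domRestrict W)) := by
          have hw : LinearMap.funLeft ℂ ℂ (Subtype.val : J → ι) g ∈ W :=
            Submodule.mem_map_of_mem hg
          have h6 : (⟨_, hw⟩ : W) ∈ LinearMap.ker (ρ.domRestrict W) := by
            rw [LinearMap.mem_ker]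
            funext j
            have h10 : (j : ι) ∈ J.filter fun j => g j = 0 := by
              rw [← hJ₁]
              exact j.2
            exact (Finset.mem_filter.mp h10).2
          have h7 : LinearMap.ker (ρ.domRestrict W) ≠ ⊥ := by
            intro h8
            rw [h8, Submodule.mem_bot] at h6
            apply hgj
            have h9 := congrArg Subtype.val h6
            exact congrFun h9 ⟨j₀, hj₀⟩
          apply Nat.pos_of_ne_zero
          intro h8
          exact h7 (Submodule.finrank_eq_zero.mp h8)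
        show finrank ℂ (W.map ρ) < finrank ℂ W
        omega
      obtain ⟨J', h1, h2, h3⟩ := ih J₁ (by omega)
      refine ⟨J', h1.trans hsub, ?_, h3⟩
      rw [← hJ₁] at hgc
      calc J.card ≤ 2 * J₁.card := hgc
        _ ≤ 2 * (2 ^ r * J'.card) := Nat.mul_le_mul_left _ h2
        _ = 2 ^ (r + 1) * J'.card := by ring

section

variable {n : ℕ} {ι : Type*} (p : ι → Fin (n + 1) → ℂ)

/-- functions given by polynomials of bounded degree in the points -/
def Pd (d : ℕ) (f : ι → ℂ) : Prop :=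
  ∃ g : MvPolynomial (Fin (n + 1)) ℂ, g.totalDegree ≤ d ∧ ∀ j, f j = eval (p j) g

variable {p}

lemma Pd.mono {d d' : ℕ} (h : d ≤ d') {f : ι → ℂ} (hf : Pd p d f) : Pd p d' f := by
  obtain ⟨g, hg, hg2⟩ := hf
  exact ⟨g, hg.trans h, hg2⟩

lemma Pd.const (c : ℂ) : Pd p 0 fun _ => c :=
  ⟨C c, by rw [totalDegree_C], fun j => by rw [eval_C]⟩

lemma Pd.add {d : ℕ} {f g : ι → ℂ} (hf : Pd p d f) (hg : Pd p d g) :
    Pd p d fun j => f j + g j := by
  obtain ⟨f', hf1, hf2⟩ := hf
  obtain ⟨g', hg1, hg2⟩ := hg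
  exact ⟨f' + g', (totalDegree_add _ _).trans (max_le hf1 hg1), fun j => by
    rw [map_add, ← hf2, ← hg2]⟩

lemma Pd.mul {d e : ℕ} {f g : ι → ℂ} (hf : Pd p d f) (hg : Pd p e g) :
    Pd p (d + e) fun j => f j * g j := by
  obtain ⟨f', hf1, hf2⟩ := hf
  obtain ⟨g', hg1, hg2⟩ := hg
  exact ⟨f' * g', (totalDegree_mul _ _).trans (add_le_add hf1 hg1), fun j => by
    rw [map_mul, ← hf2, ← hg2]⟩

lemma Pd.zero {d : ℕ} : Pd p d fun _ => 0 :=
  ⟨0, by rw [totalDegree_zero]; exact Nat.zero_le _, fun j => by rw [map_zero]⟩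

lemma Pd.sum {κ : Type*} (s : Finset κ) {d : ℕ} {f : κ → ι → ℂ} (hf : ∀ i ∈ s, Pd p d (f i)) :
    Pd p d fun j => ∑ i ∈ s, f i j := by
  classical
  induction s using Finset.induction with
  | empty =>
    simp only [Finset.sum_empty]
    exact Pd.zero
  | insert i s hi ih =>
    simp only [Finset.sum_insert hi]
    exact (hf i (Finset.mem_insert_self _ _)).add
      (ih fun k hk => hf k (Finset.mem_insert_of_mem hk))

lemma Pd.pow {d : ℕ} {f : ι → ℂ} (hf : Pd p d f) (e : ℕ) : Pd p (e * d) fun j => f j ^ e := by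
  induction e with
  | zero =>
    simp only [pow_zero, zero_mul]
    exact Pd.const 1
  | succ e ih =>
    simp only [pow_succ]
    rw [Nat.succ_mul]
    exact ih.mul hf

lemma Pd.prod {κ : Type*} (s : Finset κ) {d : κ → ℕ} {f : κ → ι → ℂ}
    (hf : ∀ i ∈ s, Pd p (d i) (f i)) : Pd p (∑ i ∈ s, d i) fun j => ∏ i ∈ s, f i j := by
  classical
  induction s using Finset.induction with
  | empty =>
    simp only [Finset.prod_empty, Finset.sum_empty]
    exact Pd.const 1
  | insert i s hi ih =>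
    simp only [Finset.prod_insert hi, Finset.sum_insert hi]
    exact (hf i (Finset.mem_insert_self _ _)).mul
      (ih fun k hk => hf k (Finset.mem_insert_of_mem hk))

lemma Pd.coord (i : Fin (n + 1)) : Pd p 1 fun j => p j i :=
  ⟨X i, by rw [totalDegree_X], fun j => by rw [eval_X]⟩

lemma Pd.dot (v : Fin (n + 1) → ℂ) : Pd p 1 fun j => p j ⬝ᵥ v := by
  have h : (fun j => p j ⬝ᵥ v) = fun j => ∑ i, p j i * v i := rfl
  rw [h]
  exact Pd.sum _ fun i _ => (Pd.coord i).mul (Pd.const _)

/-- values of a polynomial at points depending linearly on `p j` -/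
lemma Pd.eval {σ : Type*} {u : ι → σ → ℂ} (hu : ∀ i, Pd p 1 fun j => u j i)
    (g : MvPolynomial σ ℂ) : Pd p g.totalDegree fun j => MvPolynomial.eval (u j) g := by
  have h1 : (fun j => MvPolynomial.eval (u j) g) =
      fun j => ∑ d ∈ g.support, coeff d g * ∏ i ∈ d.support, u j i ^ d i := by
    funext j
    rw [eval_eq]
  rw [h1]
  apply Pd.sum
  intro d hd
  have h2 := (Pd.const (p := p) (coeff d g)).mul
    (Pd.prod (p := p) d.support (d := fun i => d i * 1) (f := fun i j => u j i ^ d i)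
      fun i _ => (hu i).pow (d i))
  apply h2.mono
  rw [zero_add]
  have h3 := le_totalDegree hd
  rw [Finsupp.sum] at h3
  simpa using h3

/-- irreducibility in degrees `≤ d` -/
def IrrD (p : ι → Fin (n + 1) → ℂ) (d : ℕ) (J : Finset ι) : Prop :=
  ∀ f : ι → ℂ, Pd p d f → ∀ S : Finset ι, S ⊆ J → J.card ≤ 2 * S.card → (∀ j ∈ S, f j = 0) →
    ∀ j ∈ J, f j = 0

/-- existence of irreducible subfamilies -/
theorem exists_irrD [DecidableEq ι] [Fintype ι] (p : ι → Fin (n + 1) → ℂ) (d : ℕ) :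
    ∃ J : Finset ι, Fintype.card ι ≤ 2 ^ ((d + 1) ^ (n + 1)) * J.card ∧ IrrD p d J := by
  let mon : (Fin (n + 1) → Fin (d + 1)) → ι → ℂ := fun e j => ∏ i, p j i ^ (e i : ℕ)
  let U : Submodule ℂ (ι → ℂ) := Submodule.span ℂ (Set.range mon)
  have hU : finrank ℂ U ≤ (d + 1) ^ (n + 1) := by
    have h1 := finrank_range_le_card (R := ℂ) mon
    rw [Set.finrank] at h1
    simpa using h1
  have hmem : ∀ f : ι → ℂ, Pd p d f → f ∈ U := by
    rintro f ⟨g, hg, hfg⟩
    have h1 : f = ∑ m ∈ g.support, coeff m g • fun j => ∏ i, p j i ^ m i := by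
      funext j
      rw [hfg, eval_eq', Finset.sum_apply]
      rfl
    rw [h1]
    apply Submodule.sum_mem
    intro m hm
    apply Submodule.smul_mem
    apply Submodule.subset_span
    have h2 : ∀ i, m i < d + 1 := by
      intro i
      have h3 := le_totalDegree hm
      rw [Finsupp.sum_fintype _ _ (fun _ => rfl)] at h3
      have h4 : m i ≤ ∑ i, m i := Finset.single_le_sum (fun _ _ => Nat.zero_le _)
        (Finset.mem_univ i)
      omega
    exact ⟨fun i => ⟨m i, h2 i⟩, rfl⟩
  obtain ⟨J', -, h2, h3⟩ := exists_irr U ((d + 1) ^ (n + 1)) Finset.univ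
    ((Submodule.finrank_map_le _ _).trans hU)
  refine ⟨J', ?_, ?_⟩
  · rw [← Finset.card_univ]
    exact h2
  · intro f hf S hS hcard hzero
    apply h3 f (hmem f hf)
    refine hcard.trans (Nat.mul_le_mul_left _ (Finset.card_le_card ?_))
    intro j hj
    rw [Finset.mem_filter]
    exact ⟨hS hj, hzero j hj⟩

end

end Pool.Agent.Lib.GGL
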