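import Mathlib
import Pool.Agent.Lib.MP_8d161d_ag.Irr
import Pool.Agent.Lib.MP_8d161d_ag.Generic
import Pool.Agent.Lib.MP_8d161d_ag.NormData

/-!
Choice of coordinates and the generic relation.
-/

open MvPolynomial Module

namespace Pool.Agent.Lib.GGL

section

variable {n : ℕ} {ι : Type*} (p : ι → Fin (n + 1) → ℂ)

/-- the values of linear forms -/
def pt {m : ℕ} (θ : Fin m → Fin (n + 1) → ℂ) (q : Fin (n + 1) → ℂ) : Fin m → ℂ :=
  fun l => q ⬝ᵥ θ l

/-- no form of degree `b` in the linear forms `θ` vanishes on the family -/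
def Dense' (J : Finset ι) {m : ℕ} (θ : Fin m → Fin (n + 1) → ℂ) (b : ℕ) : Prop :=
  ∀ g : MvPolynomial (Fin m) ℂ, g.IsHomogeneous b → (∀ j ∈ J, eval (pt θ (p j)) g = 0) → g = 0

variable {p}

lemma Dense'.mono {J : Finset ι} {m : ℕ} {θ : Fin (m + 1) → Fin (n + 1) → ℂ} {b b' : ℕ}
    (h : Dense' p J θ b) (hb : b' ≤ b) : Dense' p J θ b' := by
  intro g hg hv
  have h1 : g * (X 0 : MvPolynomial (Fin (m + 1)) ℂ) ^ (b - b') = 0 := by
    apply h
    · have := hg.mul (isHomogeneous_X_pow (R := ℂ) (0 : Fin (m + 1)) (b - b'))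
      rwa [Nat.add_sub_cancel' hb] at this
    · intro j hj
      rw [map_mul, hv j hj, zero_mul]
  exact (mul_eq_zero.mp h1).resolve_right (pow_ne_zero _ (X_ne_zero _))

/-- binary forms -/
lemma dense_base {J : Finset ι} {N₀ b : ℕ} (hn : 1 ≤ n)
    (hgp : ∀ y : Fin (n + 1) → ℂ, y ≠ 0 → (J.filter fun j => p j ⬝ᵥ y = 0).card ≤ N₀)
    (hJ : (b + 1) * N₀ < J.card) :
    ∃ θ : Fin (1 + 1) → Fin (n + 1) → ℂ, Dense' p J θ b := by
  classical
  obtain ⟨e₀, he₀⟩ : ∃ e₀ : Fin (n + 1) → ℂ, e₀ = Pi.single 0 1 := ⟨_, rfl⟩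
  obtain ⟨e₁, he₁⟩ : ∃ e₁ : Fin (n + 1) → ℂ, e₁ = Pi.single ⟨1, by omega⟩ 1 := ⟨_, rfl⟩
  have h01 : (⟨1, by omega⟩ : Fin (n + 1)) ≠ 0 := by
    intro h
    have := congrArg Fin.val h
    simp at this
  have he₀0 : e₀ ≠ 0 := by
    intro h
    have := congrFun h 0
    rw [he₀] at this
    simp at this
  have hcomb : ∀ ρ : ℂ, e₁ - ρ • e₀ ≠ 0 := by
    intro ρ h
    have := congrFun h ⟨1, by omega⟩
    rw [he₀, he₁, Pi.sub_apply, Pi.smul_apply, Pi.single_eq_same, Pi.single_eq_of_ne h01] at this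
    simp at this
  refine ⟨![e₀, e₁], ?_⟩
  intro g hg hv
  by_contra hg0
  -- dehomogenisation
  obtain ⟨r, hr⟩ : ∃ r : Polynomial ℂ, r = aeval ![Polynomial.C 1, Polynomial.X] g := ⟨_, rfl⟩
  have hreval : ∀ c : ℂ, r.eval c = eval ![1, c] g := by
    intro c
    rw [hr]
    have h2 : ((Polynomial.aeval c : Polynomial ℂ →ₐ[ℂ] ℂ).comp
        (aeval ![Polynomial.C 1, Polynomial.X] : MvPolynomial (Fin 2) ℂ →ₐ[ℂ] Polynomial ℂ)) =
        aeval ![1, c] := by
      apply MvPolynomial.algHom_ext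
      intro i
      rw [AlgHom.comp_apply, aeval_X, aeval_X]
      fin_cases i
      · simp
      · simp
    exact congrArg (fun F => F g) h2
  have hscale : ∀ a c : ℂ, a ≠ 0 → eval ![a, c] g = a ^ b * eval ![1, c / a] g := by
    intro a c ha
    have h2 := aeval_weight (R := ℂ) (S := ℂ) 1 hg ![1, c / a] a
    have h3 : (fun i => a ^ (1 : Fin 2 → ℕ) i * ![1, c / a] i) = ![a, c] := by
      funext i
      fin_cases i
      · simp
      · simp only [Pi.one_apply, pow_one, Fin.mk_one, Matrix.cons_val_one]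
        simp
        field_simp
    rw [h3] at h2
    exact h2
  have hr0 : r ≠ 0 := by
    intro h0
    have h1 : g * X 0 = 0 := by
      apply MvPolynomial.funext
      intro v
      rw [map_mul, eval_X, map_zero]
      by_cases hv0 : v 0 = 0
      · rw [hv0, mul_zero]
      · have h2 : v = ![v 0, v 1] := by
          funext i
          fin_cases i <;> rfl
        rw [h2, hscale _ _ hv0, ← hreval, h0]
        simp
    exact hg0 ((mul_eq_zero.mp h1).resolve_right (X_ne_zero _))
  have hrdeg : r.natDegree ≤ b := by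
    rw [hr]
    have h3 : ∀ d ∈ g.support, (aeval ![Polynomial.C 1, Polynomial.X]
        (monomial d (coeff d g)) : Polynomial ℂ).natDegree ≤ b := by
      intro d hd
      have h4 : Finsupp.weight 1 d = b := hg (mem_support_iff.mp hd)
      rw [aeval_monomial]
      have h5 : d 1 ≤ b := by
        rw [← h4, Finsupp.weight_apply, Finsupp.sum_fintype _ _ (by simp)]
        simp
      have h6 : (d.prod fun i k => (![Polynomial.C 1, Polynomial.X] : Fin 2 → Polynomial ℂ) i ^ k) =
          Polynomial.X ^ d 1 := by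
        rw [Finsupp.prod_fintype _ _ (by simp)]
        simp
      rw [h6]
      have h7 : algebraMap ℂ (Polynomial ℂ) (coeff d g) = Polynomial.C (coeff d g) := rfl
      rw [h7]
      exact (Polynomial.natDegree_C_mul_X_pow_le _ _).trans h5
    conv_lhs => rw [g.as_sum, map_sum]
    exact Polynomial.natDegree_sum_le_of_forall_le _ _ h3
  -- counting
  have hcover : J ⊆ (J.filter fun j => p j ⬝ᵥ e₀ = 0) ∪
      (r.roots.toFinset.biUnion fun ρ => J.filter fun j => p j ⬝ᵥ (e₁ - ρ • e₀) = 0) := by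
    intro j hj
    rw [Finset.mem_union, Finset.mem_filter, Finset.mem_biUnion]
    by_cases h0 : p j ⬝ᵥ e₀ = 0
    · left
      exact ⟨hj, h0⟩
    · right
      refine ⟨(p j ⬝ᵥ e₁) / (p j ⬝ᵥ e₀), ?_, ?_⟩
      · rw [Multiset.mem_toFinset, Polynomial.mem_roots hr0, Polynomial.IsRoot, hreval]
        have h1 := hv j hj
        have h2 : pt ![e₀, e₁] (p j) = ![p j ⬝ᵥ e₀, p j ⬝ᵥ e₁] := by
          funext i
          fin_cases i <;> rfl
        rw [h2, hscale _ _ h0] at h1
        exact (mul_eq_zero.mp h1).resolve_left (pow_ne_zero _ h0)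
      · rw [Finset.mem_filter]
        refine ⟨hj, ?_⟩
        rw [dotProduct_sub, dotProduct_smul, smul_eq_mul, div_mul_cancel₀ _ h0, sub_self]
  have h1 := Finset.card_le_card hcover
  have h2 := h1.trans (Finset.card_union_le _ _)
  have h3 : (r.roots.toFinset.biUnion fun ρ =>
      J.filter fun j => p j ⬝ᵥ (e₁ - ρ • e₀) = 0).card ≤ b * N₀ := by
    refine (Finset.card_biUnion_le_card_mul _ _ N₀ fun ρ _ => hgp _ (hcomb ρ)).trans ?_
    apply Nat.mul_le_mul_right
    exact (Multiset.toFinset_card_le _).trans ((Polynomial.card_roots' r).trans hrdeg)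
  have h4 := hgp e₀ he₀0
  have h5 : (b + 1) * N₀ = b * N₀ + N₀ := by ring
  omega

/-- choice of the number of coordinates -/
lemma exists_theta' {J : Finset ι} {N₀ : ℕ} (hn : 1 ≤ n) (b : ℕ → ℕ) (hb : b (n + 1) = 1)
    (hgp : ∀ y : Fin (n + 1) → ℂ, y ≠ 0 → (J.filter fun j => p j ⬝ᵥ y = 0).card ≤ N₀)
    (hJ : (b 1 + 1) * N₀ < J.card) :
    ∃ t, 1 ≤ t ∧ t ≤ n ∧ (∃ θ : Fin (t + 1) → Fin (n + 1) → ℂ, Dense' p J θ (b t)) ∧
      ∀ θ' : Fin (t + 2) → Fin (n + 1) → ℂ, ∃ g : MvPolynomial (Fin (t + 2)) ℂ, g ≠ 0 ∧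
        g.IsHomogeneous (b (t + 1)) ∧ ∀ j ∈ J, eval (pt θ' (p j)) g = 0 := by
  have h1 : ∃ θ : Fin (1 + 1) → Fin (n + 1) → ℂ, Dense' p J θ (b 1) := dense_base hn hgp hJ
  have hn1 : ¬ ∃ θ : Fin (n + 1 + 1) → Fin (n + 1) → ℂ, Dense' p J θ (b (n + 1)) := by
    rintro ⟨θ, hθ⟩
    rw [hb] at hθ
    have hdep : ¬ LinearIndependent ℂ θ := by
      intro h
      have := h.fintype_card_le_finrank
      simp at this
    rw [Fintype.not_linearIndependent_iff] at hdep
    obtain ⟨c, hc, i, hi⟩ := hdep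
    have h2 : (∑ l, C (c l) * X l : MvPolynomial (Fin (n + 1 + 1)) ℂ) = 0 := by
      apply hθ
      · refine IsHomogeneous.sum _ _ _ fun l _ => ?_
        exact isHomogeneous_C_mul_X _ _
      · intro j _
        rw [map_sum]
        simp only [map_mul, eval_C, eval_X]
        have h3 : ∑ l, c l * pt θ (p j) l = p j ⬝ᵥ ∑ l, c l • θ l := by
          rw [dotProduct_sum]
          refine Finset.sum_congr rfl fun l _ => ?_
          rw [dotProduct_smul, smul_eq_mul]
          rfl
        rw [h3, hc, dotProduct_zero]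
    apply hi
    have h4 := congrArg (coeff (Finsupp.single i 1)) h2
    classical
    rw [coeff_sum, coeff_zero, Finset.sum_eq_single i] at h4
    · rwa [coeff_C_mul, coeff_X, if_pos rfl, mul_one] at h4
    · intro l _ hl
      rw [coeff_C_mul, coeff_X, if_neg, mul_zero]
      intro h5
      rw [Finsupp.single_left_inj one_ne_zero] at h5
      exact hl h5
    · intro h5
      exact absurd (Finset.mem_univ _) h5
  by_contra hcon
  have hall : ∀ t, 1 ≤ t → t ≤ n + 1 →
      ∃ θ : Fin (t + 1) → Fin (n + 1) → ℂ, Dense' p J θ (b t) := by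
    intro t ht
    induction t, ht using Nat.le_induction with
    | base => intro _; exact h1
    | succ t ht ih =>
      intro htn
      by_contra hcon2
      apply hcon
      refine ⟨t, ht, by omega, ih (by omega), ?_⟩
      intro θ'
      by_contra hcon3
      apply hcon2
      refine ⟨θ', ?_⟩
      intro g hg hv
      by_contra hg0
      exact hcon3 ⟨g, hg0, hg, hv⟩
  exact hn1 (hall (n + 1) (by omega) le_rfl)

end

section

variable {n t : ℕ} {ι : Type*} {p : ι → Fin (n + 1) → ℂ}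

/-- the point of the ring of polynomials in `Y` attached to an index -/
noncomputable def gpt (p : Fin (n + 1) → ℂ) (x : Fin (t + 1) → ℂ) :
    Fin (t + 1 + 1) → MvPolynomial (Fin (n + 1)) ℂ :=
  Fin.cons (linForm p) (fun l => C (x l))

lemma eval_gpt (p v : Fin (n + 1) → ℂ) (x : Fin (t + 1) → ℂ) (l : Fin (t + 1 + 1)) :
    eval v (gpt p x l) = (Fin.cons (p ⬝ᵥ v) x : Fin (t + 1 + 1) → ℂ) l := by
  refine Fin.cases ?_ (fun l => ?_) l
  · rw [gpt, Fin.cons_zero, Fin.cons_zero, eval_linForm']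
  · rw [gpt, Fin.cons_succ, Fin.cons_succ, eval_C]

/-- The generic relation. -/
lemma exists_generic_relation (J : Finset ι) (x : ι → Fin (t + 1) → ℂ) (δ : ℕ)
    (h : ∀ v : Fin (n + 1) → ℂ, ∃ g : MvPolynomial (Fin (t + 1 + 1)) ℂ, g ≠ 0 ∧
      g.IsHomogeneous δ ∧
      ∀ j ∈ J, eval (Fin.cons (p j ⬝ᵥ v) (x j) : Fin (t + 1 + 1) → ℂ) g = 0) :
    ∃ F : MvPolynomial (Fin (t + 1 + 1)) (MvPolynomial (Fin (n + 1)) ℂ), F ≠ 0 ∧
      F.IsHomogeneous δ ∧ ∀ j ∈ J, eval (gpt (p j) (x j)) F = 0 := by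
  classical
  obtain ⟨E, hE⟩ : ∃ E : Finset (Fin (t + 1 + 1) →₀ ℕ),
    E = Finset.finsuppAntidiag Finset.univ δ := ⟨_, rfl⟩
  have hmemE : ∀ m : Fin (t + 1 + 1) →₀ ℕ, m ∈ E ↔ m.degree = δ := by
    intro m
    rw [hE, Finset.mem_finsuppAntidiag, Finsupp.degree_eq_sum]
    simp
  let ε := E.equivFin
  obtain ⟨a, ha0, ha⟩ := exists_relation E.card
    (fun (i : Fin E.card) (j : J) =>
      eval (gpt (p j) (x j)) (monomial (ε.symm i : Fin (t + 1 + 1) →₀ ℕ) 1)) (by
    intro r
    by_contra hdet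
    obtain ⟨v, hv⟩ : ∃ v : Fin (n + 1) → ℂ, eval v (Matrix.of fun i j : Fin E.card =>
        eval (gpt (p (r i)) (x (r i)))
          (monomial (ε.symm j : Fin (t + 1 + 1) →₀ ℕ) 1)).det ≠ 0 := by
      by_contra hcon
      push Not at hcon
      apply hdet
      apply MvPolynomial.funext
      intro v
      rw [hcon, map_zero]
    rw [RingHom.map_det] at hv
    obtain ⟨g, hg0, hgh, hgJ⟩ := h v
    have h1 : ((eval v).mapMatrix (Matrix.of fun i j : Fin E.card =>
        eval (gpt (p (r i)) (x (r i)))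
          (monomial (ε.symm j : Fin (t + 1 + 1) →₀ ℕ) 1))).mulVec
          (fun i => coeff (ε.symm i : Fin (t + 1 + 1) →₀ ℕ) g) = 0 := by
      funext i
      rw [Matrix.mulVec, dotProduct, Pi.zero_apply, ← hgJ (r i) (r i).2]
      have h2 : ∀ m : Fin (t + 1 + 1) →₀ ℕ, eval v (eval (gpt (p (r i)) (x (r i)))
          (monomial m 1)) = eval (Fin.cons (p (r i) ⬝ᵥ v) (x (r i)) :
            Fin (t + 1 + 1) → ℂ) (monomial m 1) := by
        intro m
        rw [map_eval, map_monomial, map_one]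
        congr 1
        congr 1
        funext l
        exact eval_gpt _ _ _ l
      simp only [RingHom.mapMatrix_apply, Matrix.map_apply, Matrix.of_apply, h2]
      conv_rhs => rw [g.as_sum, map_sum]
      have h3 : ∀ m : Fin (t + 1 + 1) →₀ ℕ, eval (Fin.cons (p (r i) ⬝ᵥ v) (x (r i)) :
            Fin (t + 1 + 1) → ℂ) (monomial m (coeff m g)) =
          eval (Fin.cons (p (r i) ⬝ᵥ v) (x (r i)) : Fin (t + 1 + 1) → ℂ) (monomial m 1) *
            coeff m g := by
        intro m
        rw [eval_monomial, eval_monomial]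
        ring
      rw [Finset.sum_congr rfl fun m _ => h3 m]
      have h4 : g.support ⊆ E := by
        intro m hm
        rw [hmemE, Finsupp.degree_eq_weight_one]
        exact hgh (mem_support_iff.mp hm)
      rw [Finset.sum_subset h4, ← Finset.sum_coe_sort E]
      · apply Fintype.sum_equiv ε.symm
        intro j
        rfl
      · intro m _ hm
        rw [notMem_support_iff.mp hm, mul_zero]
    have h2 := Matrix.eq_zero_of_mulVec_eq_zero hv h1
    apply hg0
    ext m
    rw [coeff_zero]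
    by_cases hm : m ∈ E
    · have h3 := congrFun h2 (ε ⟨m, hm⟩)
      simpa using h3
    · by_contra h3
      apply hm
      rw [hmemE, Finsupp.degree_eq_weight_one]
      exact hgh h3)
  refine ⟨∑ i, monomial (ε.symm i : Fin (t + 1 + 1) →₀ ℕ) (a i), ?_, ?_, ?_⟩
  · intro h0
    apply ha0
    funext i
    have h1 := congrArg (coeff (ε.symm i : Fin (t + 1 + 1) →₀ ℕ)) h0
    rw [coeff_sum, coeff_zero, Finset.sum_eq_single i] at h1
    · rwa [coeff_monomial, if_pos rfl] at h1
    · intro i' _ hi'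
      rw [coeff_monomial, if_neg]
      intro h2
      apply hi'
      exact ε.symm.injective (Subtype.ext h2)
    · intro h2
      exact absurd (Finset.mem_univ _) h2
  · refine IsHomogeneous.sum _ _ _ fun i _ => ?_
    exact isHomogeneous_monomial _ ((hmemE _).mp (ε.symm i).2)
  · intro j hj
    rw [map_sum, ← ha ⟨j, hj⟩]
    refine Finset.sum_congr rfl fun i _ => ?_
    rw [eval_monomial, eval_monomial, one_mul]

end

end Pool.Agent.Lib.GGL
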