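import Mathlib
import Pool.Agent.Lib.MP_8d161d_ag.Rel

/-!
A generic linear form generates the function field: the argument by differentiation.
-/

open MvPolynomial Module

namespace Pool.Agent.Lib.GGL

section pdy

variable {n : ℕ} {ι : Type*} {p : ι → Fin (n + 1) → ℂ}

/-- coefficients are polynomials of bounded degree in the points -/
def PdY (p : ι → Fin (n + 1) → ℂ) (d : ℕ) (Q : ι → MvPolynomial (Fin (n + 1)) ℂ) : Prop :=
  ∀ β : Fin (n + 1) →₀ ℕ, Pd p d fun j => coeff β (Q j)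

lemma PdY.mono {d d' : ℕ} (h : d ≤ d') {f : ι → MvPolynomial (Fin (n + 1)) ℂ}
    (hf : PdY p d f) : PdY p d' f := fun β => (hf β).mono h

lemma PdY.const (g : MvPolynomial (Fin (n + 1)) ℂ) : PdY p 0 fun _ => g := fun _ => Pd.const _

lemma PdY.mul {d e : ℕ} {f g : ι → MvPolynomial (Fin (n + 1)) ℂ} (hf : PdY p d f)
    (hg : PdY p e g) : PdY p (d + e) fun j => f j * g j := by
  classical
  intro β
  simp only [coeff_mul]
  exact Pd.sum _ fun q _ => (hf _).mul (hg _)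

lemma PdY.sum {κ : Type*} (s : Finset κ) {d : ℕ} {f : κ → ι → MvPolynomial (Fin (n + 1)) ℂ}
    (hf : ∀ i ∈ s, PdY p d (f i)) : PdY p d fun j => ∑ i ∈ s, f i j := by
  intro β
  simp only [coeff_sum]
  exact Pd.sum _ fun i hi => hf i hi β

lemma PdY.pow {d : ℕ} {f : ι → MvPolynomial (Fin (n + 1)) ℂ} (hf : PdY p d f) (e : ℕ) :
    PdY p (e * d) fun j => f j ^ e := by
  induction e with
  | zero =>
    simp only [pow_zero, zero_mul]
    exact PdY.const 1
  | succ e ih =>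
    simp only [pow_succ]
    rw [Nat.succ_mul]
    exact ih.mul hf

lemma PdY.prod {κ : Type*} (s : Finset κ) {d : κ → ℕ}
    {f : κ → ι → MvPolynomial (Fin (n + 1)) ℂ}
    (hf : ∀ i ∈ s, PdY p (d i) (f i)) : PdY p (∑ i ∈ s, d i) fun j => ∏ i ∈ s, f i j := by
  classical
  induction s using Finset.induction with
  | empty =>
    simp only [Finset.prod_empty, Finset.sum_empty]
    exact PdY.const 1
  | insert i s hi ih =>
    simp only [Finset.prod_insert hi, Finset.sum_insert hi]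
    exact (hf i (Finset.mem_insert_self _ _)).mul
      (ih fun k hk => hf k (Finset.mem_insert_of_mem hk))

lemma PdY.eval {σ : Type*} {u : ι → σ → MvPolynomial (Fin (n + 1)) ℂ}
    (hu : ∀ i, PdY p 1 fun j => u j i)
    (g : MvPolynomial σ (MvPolynomial (Fin (n + 1)) ℂ)) :
    PdY p g.totalDegree fun j => MvPolynomial.eval (u j) g := by
  have h1 : (fun j => MvPolynomial.eval (u j) g) =
      fun j => ∑ d ∈ g.support, coeff d g * ∏ i ∈ d.support, u j i ^ d i := by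
    funext j
    rw [eval_eq]
  rw [h1]
  apply PdY.sum
  intro d hd
  have h2 := (PdY.const (p := p) (coeff d g)).mul
    (PdY.prod (p := p) d.support (d := fun i => d i * 1) (f := fun i j => u j i ^ d i)
      fun i _ => (hu i).pow (d i))
  apply h2.mono
  rw [zero_add]
  have h3 := le_totalDegree hd
  rw [Finsupp.sum] at h3
  simpa using h3

lemma PdY.gpt {t : ℕ} {x : ι → Fin (t + 1) → ℂ} (hx : ∀ l, Pd p 1 fun j => x j l)
    (l : Fin (t + 1 + 1)) : PdY p 1 fun j => gpt (p j) (x j) l := by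
  classical
  refine Fin.cases ?_ (fun l => ?_) l
  · intro β
    have h1 : (fun j => coeff β (GGL.gpt (p j) (x j) 0)) =
        fun j => ∑ i, p j i * coeff β (X i : MvPolynomial (Fin (n + 1)) ℂ) := by
      funext j
      rw [GGL.gpt, Fin.cons_zero, linForm, coeff_sum]
      refine Finset.sum_congr rfl fun i _ => ?_
      rw [coeff_C_mul]
    rw [h1]
    exact Pd.sum _ fun i _ => (Pd.coord i).mul (Pd.const _)
  · intro β
    have h1 : (fun j => coeff β (GGL.gpt (p j) (x j) l.succ)) =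
        fun j => x j l * (if 0 = β then 1 else 0) := by
      funext j
      rw [GGL.gpt, Fin.cons_succ, coeff_C]
      split_ifs <;> simp
    rw [h1]
    exact (hx l).mul (Pd.const _)

end pdy

section

variable {n t : ℕ} {ι : Type*} {p : ι → Fin (n + 1) → ℂ}

/-- A generic relation of minimal degree in the first variable. -/
lemma exists_minimal_relation (J : Finset ι) (x : ι → Fin (t + 1) → ℂ) (δ : ℕ)
    (hdense : ∀ g : MvPolynomial (Fin (t + 1)) ℂ, g.IsHomogeneous δ →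
      (∀ j ∈ J, eval (x j) g = 0) → g = 0)
    (h : ∃ F : MvPolynomial (Fin (t + 1 + 1)) (MvPolynomial (Fin (n + 1)) ℂ), F ≠ 0 ∧
      F.IsHomogeneous δ ∧ ∀ j ∈ J, eval (gpt (p j) (x j)) F = 0) :
    ∃ F : MvPolynomial (Fin (t + 1 + 1)) (MvPolynomial (Fin (n + 1)) ℂ),
      F.IsHomogeneous δ ∧ (∀ j ∈ J, eval (gpt (p j) (x j)) F = 0) ∧
      ∃ j ∈ J, eval (gpt (p j) (x j)) (pderiv 0 F) ≠ 0 := by
  classical
  have hex : ∃ d, ∃ F : MvPolynomial (Fin (t + 1 + 1)) (MvPolynomial (Fin (n + 1)) ℂ),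
      (F ≠ 0 ∧ F.IsHomogeneous δ ∧ ∀ j ∈ J, eval (gpt (p j) (x j)) F = 0) ∧
      degreeOf 0 F = d := by
    obtain ⟨F, hF⟩ := h
    exact ⟨_, F, hF, rfl⟩
  obtain ⟨F, ⟨hF0, hFh, hFJ⟩, hFd⟩ := Nat.find_spec hex
  have hmin : ∀ G : MvPolynomial (Fin (t + 1 + 1)) (MvPolynomial (Fin (n + 1)) ℂ), G ≠ 0 →
      G.IsHomogeneous δ → (∀ j ∈ J, eval (gpt (p j) (x j)) G = 0) →
      degreeOf 0 F ≤ degreeOf 0 G := by
    intro G h1 h2 h3
    rw [hFd]
    exact Nat.find_min' hex ⟨G, ⟨h1, h2, h3⟩, rfl⟩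
  -- the first variable occurs
  have hdeg : degreeOf 0 F ≠ 0 := by
    intro hd
    rw [← natDegree_finSuccEquiv] at hd
    rw [Polynomial.natDegree_eq_zero] at hd
    obtain ⟨g, hg⟩ := hd
    have hgh : g.IsHomogeneous δ := by
      have h1 := hFh.finSuccEquiv_coeff_isHomogeneous 0 δ (by omega)
      rwa [← hg, Polynomial.coeff_C_zero] at h1
    have hg0 : g = 0 := by
      apply eq_zero_of_eval (fun j : J => x j) (fun Q hQ hv =>
        hdense Q hQ fun j hj => hv ⟨j, hj⟩) hgh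
      rintro ⟨j, hj⟩
      have h1 := hFJ j hj
      rw [gpt, eval_eq_eval_mv_eval', ← hg, Polynomial.map_C, Polynomial.eval_C] at h1
      exact h1
    apply hF0
    rw [hg0, Polynomial.C_0] at hg
    exact (MvPolynomial.finSuccEquiv _ _).injective (hg.symm.trans (map_zero _).symm)
  have hδ : 1 ≤ δ := by
    have h1 := degreeOf_le_totalDegree F 0
    have h2 := hFh.totalDegree_le
    omega
  -- the derivative is nonzero of smaller degree
  have hX0 : pderiv 0 F ≠ 0 := by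
    intro h0
    obtain ⟨m, hm, hm0⟩ : ∃ m ∈ F.support, m 0 ≠ 0 := by
      by_contra hcon
      push Not at hcon
      apply hdeg
      apply Nat.le_zero.mp
      rw [degreeOf_le_iff]
      intro m hm
      rw [hcon m hm]
    have h1 := coeff_pderiv F (i := 0) (m - Finsupp.single 0 1)
    have h2 : m - Finsupp.single 0 1 + Finsupp.single 0 1 = m := by
      apply tsub_add_cancel_of_le
      rw [Finsupp.single_le_iff]
      exact Nat.one_le_iff_ne_zero.mpr hm0
    rw [h0, coeff_zero, h2] at h1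
    rcases mul_eq_zero.mp h1.symm with h3 | h3
    · exact MvPolynomial.mem_support_iff.mp hm h3
    · have h4 : ∀ k : ℕ, (k : MvPolynomial (Fin (n + 1)) ℂ) + 1 ≠ 0 := by
        intro k
        exact_mod_cast Nat.succ_ne_zero k
      exact h4 _ h3
  have hXd : degreeOf 0 (pderiv 0 F) < degreeOf 0 F := by
    rw [degreeOf_lt_iff (Nat.pos_of_ne_zero hdeg)]
    intro m hm
    rw [MvPolynomial.mem_support_iff, coeff_pderiv] at hm
    have h1 : m + Finsupp.single 0 1 ∈ F.support := by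
      rw [MvPolynomial.mem_support_iff]
      exact left_ne_zero_of_mul hm
    have h2 := monomial_le_degreeOf 0 h1
    rw [Finsupp.add_apply, Finsupp.single_eq_same] at h2
    omega
  refine ⟨F, hFh, hFJ, ?_⟩
  by_contra hcon
  push Not at hcon
  have h1 := hmin (X 1 * pderiv 0 F) (mul_ne_zero (X_ne_zero _) hX0) (by
    have h2 := (isHomogeneous_X (MvPolynomial (Fin (n + 1)) ℂ) (1 : Fin (t + 1 + 1))).mul
      (hFh.pderiv (i := 0))
    rwa [show 1 + (δ - 1) = δ by omega] at h2) (by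
    intro j hj
    rw [map_mul, hcon j hj, mul_zero])
  have h2 := degreeOf_mul_le 0 (X 1 : MvPolynomial (Fin (t + 1 + 1))
    (MvPolynomial (Fin (n + 1)) ℂ)) (pderiv 0 F)
  have h3 : degreeOf 0 (X 1 : MvPolynomial (Fin (t + 1 + 1))
      (MvPolynomial (Fin (n + 1)) ℂ)) = 0 := by
    rw [degreeOf_X, if_neg]
    simp
  omega

/-- The primitive element. -/
theorem exists_primitive_gen [DecidableEq ι] {J : Finset ι} {x : ι → Fin (t + 1) → ℂ} {δ d : ℕ}
    (hx : ∀ l, Pd p 1 fun j => x j l) (hirr : IrrD p d J) (hδd : δ ≤ d)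
    (hdense : ∀ g : MvPolynomial (Fin (t + 1)) ℂ, g.IsHomogeneous δ →
      (∀ j ∈ J, eval (x j) g = 0) → g = 0)
    (h : ∃ F : MvPolynomial (Fin (t + 1 + 1)) (MvPolynomial (Fin (n + 1)) ℂ), F ≠ 0 ∧
      F.IsHomogeneous δ ∧ ∀ j ∈ J, eval (gpt (p j) (x j)) F = 0) :
    ∃ (y₀ : Fin (n + 1) → ℂ) (D₁ : ℕ) (F₁ : MvPolynomial (Fin (t + 1 + 1)) ℂ)
      (E : Fin (n + 1) → MvPolynomial (Fin (t + 1 + 1)) ℂ),
      Irreducible F₁ ∧ F₁.IsHomogeneous D₁ ∧ D₁ ≤ δ ∧
      (∀ j ∈ J, eval (Fin.cons (p j ⬝ᵥ y₀) (x j) : Fin (t + 1 + 1) → ℂ) F₁ = 0) ∧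
      (∀ i, (E i).IsHomogeneous δ) ∧
      (∀ (y : Fin (n + 1) → ℂ), ∀ j ∈ J, p j ⬝ᵥ y = 0 →
        eval (Fin.cons (p j ⬝ᵥ y₀) (x j) : Fin (t + 1 + 1) → ℂ) (∑ i, C (y i) * E i) = 0) ∧
      ∀ y : Fin (n + 1) → ℂ, 2 * (J.filter fun j => p j ⬝ᵥ y = 0).card ≤ J.card →
        ¬ F₁ ∣ ∑ i, C (y i) * E i := by
  classical
  obtain ⟨F, hFh, hFJ, j₀, hj₀, hFX⟩ := exists_minimal_relation J x δ hdense h
  -- the derivative is nonzero at most points
  obtain ⟨J₁, hJ₁⟩ : ∃ J₁, J₁ = J.filter fun j => eval (gpt (p j) (x j)) (pderiv 0 F) ≠ 0 :=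
    ⟨_, rfl⟩
  have hJ₁card : J.card < 2 * J₁.card := by
    obtain ⟨β, hβ⟩ : ∃ β, coeff β (eval (gpt (p j₀) (x j₀)) (pderiv 0 F)) ≠ 0 := by
      by_contra hcon
      push Not at hcon
      exact hFX (MvPolynomial.ext _ _ fun β => by rw [hcon, coeff_zero])
    have h1 : Pd p d fun j => coeff β (eval (gpt (p j) (x j)) (pderiv 0 F)) := by
      apply (PdY.eval (PdY.gpt hx) (pderiv 0 F) β).mono
      exact ((hFh.pderiv (i := 0)).totalDegree_le).trans (by omega)
    obtain ⟨S, hS⟩ : ∃ S, S = J.filter fun j =>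
      coeff β (eval (gpt (p j) (x j)) (pderiv 0 F)) = 0 := ⟨_, rfl⟩
    have h2 : ¬ J.card ≤ 2 * S.card := by
      intro hcard
      apply hβ
      refine hirr _ h1 S (by rw [hS]; exact Finset.filter_subset _ _) hcard ?_ j₀ hj₀
      intro j hj
      rw [hS, Finset.mem_filter] at hj
      exact hj.2
    have h3 : J ⊆ S ∪ J₁ := by
      intro j hj
      rw [Finset.mem_union]
      by_cases h4 : coeff β (eval (gpt (p j) (x j)) (pderiv 0 F)) = 0
      · left
        rw [hS, Finset.mem_filter]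
        exact ⟨hj, h4⟩
      · right
        rw [hJ₁, Finset.mem_filter]
        refine ⟨hj, ?_⟩
        intro h5
        rw [h5, coeff_zero] at h4
        exact h4 rfl
    have h4 := (Finset.card_le_card h3).trans (Finset.card_union_le _ _)
    omega
  -- the point
  obtain ⟨y₀, hy₀⟩ : ∃ y₀ : Fin (n + 1) → ℂ, ∀ j ∈ J₁,
      eval y₀ (eval (gpt (p j) (x j)) (pderiv 0 F)) ≠ 0 := by
    have h1 : ∏ j ∈ J₁, eval (gpt (p j) (x j)) (pderiv 0 F) ≠ 0 := by
      rw [Finset.prod_ne_zero_iff]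
      intro j hj
      rw [hJ₁, Finset.mem_filter] at hj
      exact hj.2
    obtain ⟨y₀, hy₀⟩ : ∃ v : Fin (n + 1) → ℂ,
        eval v (∏ j ∈ J₁, eval (gpt (p j) (x j)) (pderiv 0 F)) ≠ 0 := by
      by_contra hcon
      push Not at hcon
      apply h1
      apply MvPolynomial.funext
      intro v
      rw [hcon, map_zero]
    rw [map_prod, Finset.prod_ne_zero_iff] at hy₀
    exact ⟨y₀, hy₀⟩
  obtain ⟨u, hu⟩ : ∃ u : ι → Fin (t + 1 + 1) → ℂ, u = fun j => Fin.cons (p j ⬝ᵥ y₀) (x j) :=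
    ⟨_, rfl⟩
  have hup : ∀ l, Pd p 1 fun j => u j l := by
    intro l
    refine Fin.cases ?_ (fun l => ?_) l
    · rw [hu]
      simp only [Fin.cons_zero]
      exact Pd.dot y₀
    · rw [hu]
      simp only [Fin.cons_succ]
      exact hx l
  have hmap : ∀ (G : MvPolynomial (Fin (t + 1 + 1)) (MvPolynomial (Fin (n + 1)) ℂ)) (j : ι),
      eval (u j) (map (eval y₀) G) = eval y₀ (eval (gpt (p j) (x j)) G) := by
    intro G j
    rw [map_eval]
    congr 1
    congr 1
    funext l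
    rw [hu]
    exact (eval_gpt _ _ _ l).symm
  obtain ⟨F₀, hF₀⟩ : ∃ F₀, F₀ = map (eval y₀) F := ⟨_, rfl⟩
  have hF₀h : F₀.IsHomogeneous δ := by
    rw [hF₀]
    exact hFh.map _
  have hF₀J : ∀ j ∈ J, eval (u j) F₀ = 0 := by
    intro j hj
    rw [hF₀, hmap, hFJ j hj, map_zero]
  have hF₀X : ∀ j ∈ J₁, eval (u j) (pderiv 0 F₀) ≠ 0 := by
    intro j hj
    rw [hF₀, pderiv_map, hmap]
    exact hy₀ j hj
  have hJ₁ne : J₁.Nonempty := by
    rw [← Finset.card_pos]
    omega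
  have hF₀0 : F₀ ≠ 0 := by
    intro h0
    obtain ⟨j, hj⟩ := hJ₁ne
    apply hF₀X j hj
    rw [h0, map_zero, map_zero]
  obtain ⟨E, hE⟩ : ∃ E : Fin (n + 1) → MvPolynomial (Fin (t + 1 + 1)) ℂ,
    E = fun i => map (eval y₀) (cd (pderiv i) F) := ⟨_, rfl⟩
  -- the identity
  have hid : ∀ j ∈ J, ∀ i, eval (u j) (E i) = - (p j i * eval (u j) (pderiv 0 F₀)) := by
    intro j hj i
    have h1 := der_eval (pderiv i) (gpt (p j) (x j)) F
    rw [hFJ j hj, map_zero, Fin.sum_univ_succ] at h1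
    have h2 : ∀ l : Fin (t + 1), pderiv i (gpt (p j) (x j) l.succ) = 0 := by
      intro l
      rw [gpt, Fin.cons_succ, pderiv_C]
    have h3 : pderiv i (gpt (p j) (x j) 0) = C (p j i) := by
      rw [gpt, Fin.cons_zero, linForm, map_sum, Finset.sum_eq_single i]
      · rw [pderiv_C_mul, pderiv_X_self, mul_one]
      · intro k _ hk
        rw [pderiv_C_mul, pderiv_X_of_ne hk, mul_zero]
      · intro hi
        exact absurd (Finset.mem_univ _) hi
    simp only [h2, h3, mul_zero, Finset.sum_const_zero, add_zero] at h1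
    have h4 := congrArg (eval y₀) h1
    rw [map_zero, map_add, map_mul, eval_C, ← hmap, ← hmap, ← pderiv_map, ← hF₀] at h4
    rw [hE]
    beta_reduce
    linear_combination -h4
  have hidy : ∀ j ∈ J, ∀ y : Fin (n + 1) → ℂ, eval (u j) (∑ i, C (y i) * E i) =
      - ((p j ⬝ᵥ y) * eval (u j) (pderiv 0 F₀)) := by
    intro j hj y
    rw [map_sum, dotProduct, Finset.sum_mul, ← Finset.sum_neg_distrib]
    refine Finset.sum_congr rfl fun i _ => ?_
    rw [map_mul, eval_C, hid j hj]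
    ring
  -- the irreducible factor
  have hex : ∃ e, ∃ G : MvPolynomial (Fin (t + 1 + 1)) ℂ,
      (G ∣ F₀ ∧ ∀ j ∈ J, eval (u j) G = 0) ∧ G.totalDegree = e :=
    ⟨_, F₀, ⟨dvd_rfl, hF₀J⟩, rfl⟩
  obtain ⟨F₁, ⟨hF₁d, hF₁J⟩, hF₁e⟩ := Nat.find_spec hex
  have hmin : ∀ G : MvPolynomial (Fin (t + 1 + 1)) ℂ, G ∣ F₀ → (∀ j ∈ J, eval (u j) G = 0) →
      F₁.totalDegree ≤ G.totalDegree := by
    intro G h1 h2
    rw [hF₁e]
    exact Nat.find_min' hex ⟨G, ⟨h1, h2⟩, rfl⟩
  have hF₁0 : F₁ ≠ 0 := by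
    rintro rfl
    exact hF₀0 (zero_dvd_iff.mp hF₁d)
  obtain ⟨D₁, hD₁⟩ := isHomogeneous_of_dvd hF₀h hF₀0 hF₁d
  have hle : ∀ G : MvPolynomial (Fin (t + 1 + 1)) ℂ, G ∣ F₀ → G.totalDegree ≤ δ := by
    rintro G ⟨G', hG'⟩
    have hG0 : G ≠ 0 := by
      rintro rfl
      rw [zero_mul] at hG'
      exact hF₀0 hG'
    have hG'0 : G' ≠ 0 := by
      rintro rfl
      rw [mul_zero] at hG'
      exact hF₀0 hG'
    have h1 := totalDegree_mul_of_isDomain hG0 hG'0
    rw [← hG', hF₀h.totalDegree hF₀0] at h1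
    omega
  have hD₁δ : D₁ ≤ δ := by
    rw [← hD₁.totalDegree hF₁0]
    exact hle _ hF₁d
  have hunit : ∀ G : MvPolynomial (Fin (t + 1 + 1)) ℂ, G ≠ 0 → G.totalDegree = 0 → IsUnit G := by
    intro G hG0 hG
    rw [totalDegree_eq_zero_iff_eq_C] at hG
    rw [hG]
    apply IsUnit.map
    rw [isUnit_iff_ne_zero]
    intro h0
    rw [h0, C_0] at hG
    exact hG0 hG
  have hirrF : Irreducible F₁ := by
    rw [irreducible_iff]
    constructor
    · intro hu1
      obtain ⟨j, hj⟩ := hJ₁ne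
      have hjJ : j ∈ J := by
        rw [hJ₁, Finset.mem_filter] at hj
        exact hj.1
      have h1 := hu1.map (eval (u j))
      rw [hF₁J j hjJ] at h1
      exact not_isUnit_zero h1
    · intro a b hab
      have ha0 : a ≠ 0 := by
        rintro rfl
        rw [zero_mul] at hab
        exact hF₁0 hab
      have hb0 : b ≠ 0 := by
        rintro rfl
        rw [mul_zero] at hab
        exact hF₁0 hab
      have had : a ∣ F₀ := (Dvd.intro _ hab.symm).trans hF₁d
      have hbd : b ∣ F₀ := (Dvd.intro_left _ hab.symm).trans hF₁d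
      have hdeg := totalDegree_mul_of_isDomain ha0 hb0
      rw [← hab] at hdeg
      have hor : J.card ≤ 2 * (J.filter fun j => eval (u j) a = 0).card ∨
          J.card ≤ 2 * (J.filter fun j => eval (u j) b = 0).card := by
        have h1 : J ⊆ (J.filter fun j => eval (u j) a = 0) ∪
            (J.filter fun j => eval (u j) b = 0) := by
          intro j hj
          rw [Finset.mem_union, Finset.mem_filter, Finset.mem_filter]
          have h2 := hF₁J j hj
          rw [hab, map_mul] at h2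
          rcases mul_eq_zero.mp h2 with h3 | h3
          · exact Or.inl ⟨hj, h3⟩
          · exact Or.inr ⟨hj, h3⟩
        have h2 := (Finset.card_le_card h1).trans (Finset.card_union_le _ _)
        omega
      rcases hor with h1 | h1
      · right
        have h2 := hirr _ ((Pd.eval hup a).mono ((hle a had).trans hδd)) _
          (Finset.filter_subset _ _) h1 (fun j hj => (Finset.mem_filter.mp hj).2)
        have h3 := hmin a had h2
        exact hunit b hb0 (by omega)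
      · left
        have h2 := hirr _ ((Pd.eval hup b).mono ((hle b hbd).trans hδd)) _
          (Finset.filter_subset _ _) h1 (fun j hj => (Finset.mem_filter.mp hj).2)
        have h3 := hmin b hbd h2
        exact hunit a ha0 (by omega)
  refine ⟨y₀, D₁, F₁, E, hirrF, hD₁, hD₁δ, ?_, ?_, ?_, ?_⟩
  · intro j hj
    have := hF₁J j hj
    rwa [hu] at this
  · intro i
    rw [hE]
    exact (cd_isHomogeneous _ hFh).map _
  · intro y j hj hpy
    have h1 := hidy j hj y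
    rw [hpy, zero_mul, neg_zero, hu] at h1
    exact h1
  · rintro y hy ⟨Q, hQ⟩
    have h1 : J₁ ⊆ J.filter fun j => p j ⬝ᵥ y = 0 := by
      intro j hj
      have hjJ : j ∈ J := by
        rw [hJ₁, Finset.mem_filter] at hj
        exact hj.1
      rw [Finset.mem_filter]
      refine ⟨hjJ, ?_⟩
      have h2 := hidy j hjJ y
      rw [hQ, map_mul, hF₁J j hjJ, zero_mul] at h2
      have h3 : (p j ⬝ᵥ y) * eval (u j) (pderiv 0 F₀) = 0 := neg_eq_zero.mp h2.symm
      exact (mul_eq_zero.mp h3).resolve_right (hF₀X j hj)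
    have h2 := Finset.card_le_card h1
    omega

/-- The primitive element, general position. -/
theorem exists_primitive [DecidableEq ι] {J : Finset ι} {x : ι → Fin (t + 1) → ℂ} {δ d N₀ : ℕ}
    (hx : ∀ l, Pd p 1 fun j => x j l) (hirr : IrrD p d J) (hδd : δ ≤ d)
    (hgp : ∀ y : Fin (n + 1) → ℂ, y ≠ 0 → (J.filter fun j => p j ⬝ᵥ y = 0).card ≤ N₀)
    (hJ : 2 * N₀ < J.card)
    (hdense : ∀ g : MvPolynomial (Fin (t + 1)) ℂ, g.IsHomogeneous δ →
      (∀ j ∈ J, eval (x j) g = 0) → g = 0)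
    (h : ∃ F : MvPolynomial (Fin (t + 1 + 1)) (MvPolynomial (Fin (n + 1)) ℂ), F ≠ 0 ∧
      F.IsHomogeneous δ ∧ ∀ j ∈ J, eval (gpt (p j) (x j)) F = 0) :
    ∃ (y₀ : Fin (n + 1) → ℂ) (D₁ : ℕ) (F₁ : MvPolynomial (Fin (t + 1 + 1)) ℂ)
      (E : Fin (n + 1) → MvPolynomial (Fin (t + 1 + 1)) ℂ),
      Irreducible F₁ ∧ F₁.IsHomogeneous D₁ ∧ D₁ ≤ δ ∧
      (∀ j ∈ J, eval (Fin.cons (p j ⬝ᵥ y₀) (x j) : Fin (t + 1 + 1) → ℂ) F₁ = 0) ∧
      (∀ i, (E i).IsHomogeneous δ) ∧
      (∀ (y : Fin (n + 1) → ℂ), ∀ j ∈ J, p j ⬝ᵥ y = 0 →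
        eval (Fin.cons (p j ⬝ᵥ y₀) (x j) : Fin (t + 1 + 1) → ℂ) (∑ i, C (y i) * E i) = 0) ∧
      ∀ y : Fin (n + 1) → ℂ, y ≠ 0 → ¬ F₁ ∣ ∑ i, C (y i) * E i := by
  obtain ⟨y₀, D₁, F₁, E, h1, h2, h3, h4, h5, h6, h7⟩ :=
    exists_primitive_gen hx hirr hδd hdense h
  refine ⟨y₀, D₁, F₁, E, h1, h2, h3, h4, h5, h6, fun y hy => h7 y ?_⟩
  have := hgp y hy
  omega

end

end Pool.Agent.Lib.GGL
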