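import Mathlib
import Pool.Agent.Lib.MP_8d161d_ag.Mg.G024
import Pool.Agent.Lib.MP_8d161d_ag.Mg.G020

/-!
The irreducible factor of the norm form that vanishes on the hyperplanes.
-/

open MvPolynomial Module

namespace Pool.Agent.Lib.GGL

section hyp

variable {n t : ℕ}

/-- vanishing on a hyperplane at a point -/
def VanAt (q : Fin (n + 1) → ℂ) (x : Fin (t + 1) → ℂ)
    (G : MvPolynomial (Fin (n + 1) ⊕ Fin (t + 1)) ℂ) : Prop :=
  ∀ y : Fin (n + 1) → ℂ, q ⬝ᵥ y = 0 → eval (Sum.elim y x) G = 0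

/-- parametrisation of a hyperplane -/
noncomputable def par (q y' : Fin (n + 1) → ℂ) (x : Fin (t + 1) → ℂ) :
    Fin (n + 1) ⊕ Fin (t + 1) → MvPolynomial (Fin (n + 1)) ℂ :=
  Sum.elim (fun i => X i - C (y' i) * linForm q) fun l => C (x l)

lemma eval_par (q y' : Fin (n + 1) → ℂ) (x : Fin (t + 1) → ℂ)
    (G : MvPolynomial (Fin (n + 1) ⊕ Fin (t + 1)) ℂ) (y : Fin (n + 1) → ℂ) :
    eval y (aeval (par q y' x) G) = eval (Sum.elim (y - (q ⬝ᵥ y) • y') x) G := by
  have h1 : (eval y : MvPolynomial (Fin (n + 1)) ℂ →+* ℂ).comp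
      (aeval (par q y' x) : MvPolynomial (Fin (n + 1) ⊕ Fin (t + 1)) ℂ →ₐ[ℂ] _).toRingHom =
      eval (Sum.elim (y - (q ⬝ᵥ y) • y') x) := by
    apply MvPolynomial.ringHom_ext
    · intro r
      show eval y (aeval _ (C r)) = _
      rw [aeval_C, eval_C]
      show eval y (C r) = r
      rw [eval_C]
    · intro i
      show eval y (aeval _ (X i)) = _
      rw [aeval_X, eval_X, par]
      rcases i with i | i
      · rw [Sum.elim_inl, Sum.elim_inl, map_sub, map_mul, eval_X, eval_C, eval_linForm',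
          Pi.sub_apply, Pi.smul_apply, smul_eq_mul, mul_comm]
      · rw [Sum.elim_inr, Sum.elim_inr, eval_C]
  exact congrArg (fun F => F G) h1

lemma exists_dot_one {q : Fin (n + 1) → ℂ} (hq : q ≠ 0) : ∃ y' : Fin (n + 1) → ℂ, q ⬝ᵥ y' = 1 := by
  classical
  obtain ⟨i, hi⟩ := Function.ne_iff.mp hq
  refine ⟨Pi.single i (q i)⁻¹, ?_⟩
  rw [dotProduct_single]
  exact mul_inv_cancel₀ hi

lemma vanAt_iff {q y' : Fin (n + 1) → ℂ} (hy' : q ⬝ᵥ y' = 1) (x : Fin (t + 1) → ℂ)
    (G : MvPolynomial (Fin (n + 1) ⊕ Fin (t + 1)) ℂ) :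
    VanAt q x G ↔ aeval (par q y' x) G = 0 := by
  constructor
  · intro h
    apply MvPolynomial.funext
    intro y
    rw [eval_par, map_zero]
    apply h
    rw [dotProduct_sub, dotProduct_smul, hy', smul_eq_mul, mul_one, sub_self]
  · intro h y hy
    have h1 := eval_par q y' x G y
    rw [h, map_zero, hy, zero_smul, sub_zero] at h1
    exact h1.symm

lemma VanAt.of_mul {q : Fin (n + 1) → ℂ} (hq : q ≠ 0) {x : Fin (t + 1) → ℂ}
    {G H : MvPolynomial (Fin (n + 1) ⊕ Fin (t + 1)) ℂ} (h : VanAt q x (G * H)) :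
    VanAt q x G ∨ VanAt q x H := by
  obtain ⟨y', hy'⟩ := exists_dot_one hq
  rw [vanAt_iff hy', map_mul] at h
  rw [vanAt_iff hy', vanAt_iff hy']
  exact mul_eq_zero.mp h

lemma VanAt.dvdAt {q : Fin (n + 1) → ℂ} (hq : q ≠ 0) {x : Fin (t + 1) → ℂ}
    {G : MvPolynomial (Fin (n + 1) ⊕ Fin (t + 1)) ℂ} (h : VanAt q x G) : DvdAt G q x := by
  obtain ⟨y', hy'⟩ := exists_dot_one hq
  rw [vanAt_iff hy'] at h
  have h1 : Ideal.Quotient.mk (Ideal.span {linForm q})
      (aeval (Sum.elim X (fun i => C (x i)) : _ → MvPolynomial (Fin (n + 1)) ℂ) G) =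
      Ideal.Quotient.mk (Ideal.span {linForm q}) (aeval (par q y' x) G) := by
    have h2 : (Ideal.Quotient.mk (Ideal.span {linForm q})).comp
        (aeval (Sum.elim X (fun i => C (x i)) : _ → MvPolynomial (Fin (n + 1)) ℂ) :
          MvPolynomial (Fin (n + 1) ⊕ Fin (t + 1)) ℂ →ₐ[ℂ] _).toRingHom =
        (Ideal.Quotient.mk (Ideal.span {linForm q})).comp
        (aeval (par q y' x) : MvPolynomial (Fin (n + 1) ⊕ Fin (t + 1)) ℂ →ₐ[ℂ] _).toRingHom := by
      apply MvPolynomial.ringHom_ext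
      · intro r
        show Ideal.Quotient.mk _ (aeval _ (C r)) = Ideal.Quotient.mk _ (aeval _ (C r))
        rw [aeval_C, aeval_C]
      · intro i
        show Ideal.Quotient.mk _ (aeval _ (X i)) = Ideal.Quotient.mk _ (aeval _ (X i))
        rw [aeval_X, aeval_X, par]
        rcases i with i | i
        · rw [Sum.elim_inl, Sum.elim_inl, Ideal.Quotient.eq, Ideal.mem_span_singleton]
          rw [sub_sub_cancel]
          exact Dvd.intro_left _ rfl
        · rw [Sum.elim_inr, Sum.elim_inr]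
    exact congrArg (fun F => F G) h2
  rw [h, map_zero, Ideal.Quotient.eq_zero_iff_mem, Ideal.mem_span_singleton] at h1
  exact h1

end hyp

section

variable {n t : ℕ} {ι : Type*} {p : ι → Fin (n + 1) → ℂ}

lemma weight_add (d : Fin (n + 1) ⊕ Fin (t + 1) →₀ ℕ) :
    (d.sum fun _ e => e) = Finsupp.weight (wY n t) d + Finsupp.weight (wT n t) d := by
  rw [Finsupp.weight_apply, Finsupp.weight_apply, Finsupp.sum, Finsupp.sum, Finsupp.sum,
    ← Finset.sum_add_distrib]
  refine Finset.sum_congr rfl fun i _ => ?_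
  rcases i with i | i
  · simp [wY, wT]
  · simp [wY, wT]

/-- The irreducible factor. -/
theorem exists_factor [DecidableEq ι] {J : Finset ι} (hJne : J.Nonempty) {x : ι → Fin (t + 1) → ℂ}
    {δ d b : ℕ} (hp : ∀ j ∈ J, p j ≠ 0) (hx : ∀ l, Pd p 1 fun j => x j l)
    (hirr : IrrD p d J) (hδd : δ + δ * δ ≤ d) (hδb : δ * δ ≤ b)
    (hdense : ∀ g : MvPolynomial (Fin (t + 1)) ℂ, g.IsHomogeneous b →
      (∀ j ∈ J, eval (x j) g = 0) → g = 0)
    {N : MvPolynomial (Fin (n + 1) ⊕ Fin (t + 1)) ℂ} {DY D : ℕ} (hDY : DY ≤ δ) (hD : D ≤ δ * δ)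
    (homY : IsWeightedHomogeneous (wY n t) N DY) (homT : IsWeightedHomogeneous (wT n t) N D)
    (hnz : ∀ y : Fin (n + 1) → ℂ, y ≠ 0 → sp y N ≠ 0)
    (hv : ∀ j ∈ J, VanAt (p j) (x j) N) :
    ∃ (N₁ : MvPolynomial (Fin (n + 1) ⊕ Fin (t + 1)) ℂ) (DY₁ D₁ : ℕ), DY₁ ≤ δ ∧ D₁ ≤ δ * δ ∧
      Irreducible N₁ ∧ NData (fun j : J => p j) (fun j : J => x j) N₁ DY₁ D₁ b := by
  classical
  have hy1 : (Pi.single 0 1 : Fin (n + 1) → ℂ) ≠ 0 := by
    intro h
    have := congrFun h 0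
    rw [Pi.single_eq_same] at this
    exact one_ne_zero this
  have hN0 : N ≠ 0 := by
    intro h
    apply hnz _ hy1
    rw [h, map_zero]
  have hex : ∃ e, ∃ G : MvPolynomial (Fin (n + 1) ⊕ Fin (t + 1)) ℂ,
      (G ∣ N ∧ ∀ j ∈ J, VanAt (p j) (x j) G) ∧ G.totalDegree = e :=
    ⟨_, N, ⟨dvd_rfl, hv⟩, rfl⟩
  obtain ⟨N₁, ⟨hN₁d, hN₁v⟩, hN₁e⟩ := Nat.find_spec hex
  have hmin : ∀ G : MvPolynomial (Fin (n + 1) ⊕ Fin (t + 1)) ℂ, G ∣ N →
      (∀ j ∈ J, VanAt (p j) (x j) G) → N₁.totalDegree ≤ G.totalDegree := by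
    intro G h1 h2
    rw [hN₁e]
    exact Nat.find_min' hex ⟨G, ⟨h1, h2⟩, rfl⟩
  have hN₁0 : N₁ ≠ 0 := by
    rintro rfl
    exact hN0 (zero_dvd_iff.mp hN₁d)
  have hNdeg : N.totalDegree ≤ δ + δ * δ := by
    refine Finset.sup_le fun e he => ?_
    have h1 := weight_add e
    rw [homY (mem_support_iff.mp he), homT (mem_support_iff.mp he)] at h1
    omega
  have hle : ∀ G : MvPolynomial (Fin (n + 1) ⊕ Fin (t + 1)) ℂ, G ∣ N → G.totalDegree ≤ d := by
    rintro G ⟨G', hG'⟩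
    have hG0 : G ≠ 0 := by
      rintro rfl
      rw [zero_mul] at hG'
      exact hN0 hG'
    have hG'0 : G' ≠ 0 := by
      rintro rfl
      rw [mul_zero] at hG'
      exact hN0 hG'
    have h1 := totalDegree_mul_of_isDomain hG0 hG'0
    rw [← hG'] at h1
    omega
  have hunit : ∀ G : MvPolynomial (Fin (n + 1) ⊕ Fin (t + 1)) ℂ, G ≠ 0 → G.totalDegree = 0 →
      IsUnit G := by
    intro G hG0 hG
    rw [totalDegree_eq_zero_iff_eq_C] at hG
    rw [hG]
    apply IsUnit.map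
    rw [isUnit_iff_ne_zero]
    intro h0
    rw [h0, C_0] at hG
    exact hG0 hG
  -- vanishing on half of the hyperplanes
  have hhalf : ∀ G : MvPolynomial (Fin (n + 1) ⊕ Fin (t + 1)) ℂ, G ∣ N →
      J.card ≤ 2 * (J.filter fun j => VanAt (p j) (x j) G).card →
      ∀ j ∈ J, VanAt (p j) (x j) G := by
    intro G hG hcard j hj y hy
    obtain ⟨y', hy'⟩ := exists_dot_one (hp j hj)
    have h1 : Pd p d fun j => eval (Sum.elim ((p j ⬝ᵥ y') • y - (p j ⬝ᵥ y) • y') (x j)) G := by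
      apply (Pd.eval (u := fun j => Sum.elim ((p j ⬝ᵥ y') • y - (p j ⬝ᵥ y) • y') (x j))
        _ G).mono (hle G hG)
      intro i
      rcases i with i | i
      · simp only [Sum.elim_inl, Pi.sub_apply, Pi.smul_apply, smul_eq_mul]
        have h2 : Pd p 1 fun j => (p j ⬝ᵥ y') * y i + (p j ⬝ᵥ y) * (-(y' i)) :=
          ((Pd.dot y').mul (Pd.const (y i))).add ((Pd.dot y).mul (Pd.const _))
        have h3 : (fun j => (p j ⬝ᵥ y') * y i - (p j ⬝ᵥ y) * y' i) =
            fun j => (p j ⬝ᵥ y') * y i + (p j ⬝ᵥ y) * (-(y' i)) := by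
          funext j
          ring
        rw [h3]
        exact h2
      · simp only [Sum.elim_inr]
        exact hx i
    have h2 := hirr _ h1 _ (Finset.filter_subset _ _) hcard (fun j hj => by
      have h3 := (Finset.mem_filter.mp hj).2
      apply h3
      rw [dotProduct_sub, dotProduct_smul, dotProduct_smul, smul_eq_mul, smul_eq_mul, mul_comm,
        sub_self]) j hj
    rw [hy', hy, one_smul, zero_smul, sub_zero] at h2
    exact h2
  have hirrN : Irreducible N₁ := by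
    rw [irreducible_iff]
    constructor
    · intro hu1
      obtain ⟨j, hj⟩ := hJne
      have h1 := hu1.map (eval (Sum.elim 0 (x j)))
      rw [hN₁v j hj 0 (dotProduct_zero _)] at h1
      exact not_isUnit_zero h1
    · intro a c hab
      have ha0 : a ≠ 0 := by
        rintro rfl
        rw [zero_mul] at hab
        exact hN₁0 hab
      have hb0 : c ≠ 0 := by
        rintro rfl
        rw [mul_zero] at hab
        exact hN₁0 hab
      have had : a ∣ N := (Dvd.intro _ hab.symm).trans hN₁d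
      have hbd : c ∣ N := (Dvd.intro_left _ hab.symm).trans hN₁d
      have hdeg := totalDegree_mul_of_isDomain ha0 hb0
      rw [← hab] at hdeg
      have hor : J.card ≤ 2 * (J.filter fun j => VanAt (p j) (x j) a).card ∨
          J.card ≤ 2 * (J.filter fun j => VanAt (p j) (x j) c).card := by
        have h1 : J ⊆ (J.filter fun j => VanAt (p j) (x j) a) ∪
            (J.filter fun j => VanAt (p j) (x j) c) := by
          intro j hj
          rw [Finset.mem_union, Finset.mem_filter, Finset.mem_filter]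
          have h2 := hN₁v j hj
          rw [hab] at h2
          rcases h2.of_mul (hp j hj) with h3 | h3
          · exact Or.inl ⟨hj, h3⟩
          · exact Or.inr ⟨hj, h3⟩
        have h2 := (Finset.card_le_card h1).trans (Finset.card_union_le _ _)
        omega
      rcases hor with h1 | h1
      · right
        have h3 := hmin a had (hhalf a had h1)
        exact hunit c hb0 (by omega)
      · left
        have h3 := hmin c hbd (hhalf c hbd h1)
        exact hunit a ha0 (by omega)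
  -- degrees
  obtain ⟨N₂, hN₂⟩ := hN₁d
  have hN₂0 : N₂ ≠ 0 := by
    rintro rfl
    rw [mul_zero] at hN₂
    exact hN0 hN₂
  have hdegs : ∀ (w : Fin (n + 1) ⊕ Fin (t + 1) → ℕ) (e : ℕ), IsWeightedHomogeneous w N e →
      ∃ a, a ≤ e ∧ IsWeightedHomogeneous w N₁ a := by
    intro w e he
    have h1 : IsWeightedHomogeneous w (N₁ * N₂) e := by rw [← hN₂]; exact he
    have h2 : IsWeightedHomogeneous w (N₂ * N₁) e := by rw [mul_comm, ← hN₂]; exact he
    obtain ⟨a, ha⟩ := isWeightedHomogeneous_of_mul w h1 (mul_ne_zero hN₁0 hN₂0)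
    obtain ⟨c, hc⟩ := isWeightedHomogeneous_of_mul w h2 (mul_ne_zero hN₂0 hN₁0)
    refine ⟨a, ?_, ha⟩
    have h3 := (ha.mul hc).inj_right (mul_ne_zero hN₁0 hN₂0) h1
    omega
  obtain ⟨a, ha, haY⟩ := hdegs _ _ homY
  obtain ⟨D₁, hD₁, hT⟩ := hdegs _ _ homT
  have hnz₁ : ∀ y : Fin (n + 1) → ℂ, y ≠ 0 → sp y N₁ ≠ 0 := by
    intro y hy h0
    apply hnz y hy
    rw [hN₂, map_mul, h0, zero_mul]
  have haux : ∀ (y : Fin (n + 1) → ℂ) (u : Fin (t + 1) → ℂ),
      eval u (sp y N₁) = eval (Sum.elim y u) N₁ := by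
    intro y u
    rw [eval_sp, aeval_def, Algebra.algebraMap_self, eval₂_eq_eval_map, map_id]
  have ha0 : a ≠ 0 := by
    rintro rfl
    apply hnz₁ _ hy1
    have h1 := sp_smul haY (0 : ℂ) (Pi.single 0 1 : Fin (n + 1) → ℂ)
    rw [pow_zero, C_1, one_mul, zero_smul] at h1
    rw [← h1]
    have h2 : sp (0 : Fin (n + 1) → ℂ) N₁ * X 0 ^ (b - D₁) = 0 := by
      apply hdense
      · have h3 := (sp_isHomogeneous hT (0 : Fin (n + 1) → ℂ)).mul
          (isHomogeneous_X_pow (R := ℂ) (0 : Fin (t + 1)) (b - D₁))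
        rwa [show D₁ + (b - D₁) = b by omega] at h3
      · intro j hj
        rw [map_mul, haux, hN₁v j hj 0 (dotProduct_zero _), zero_mul]
    exact (mul_eq_zero.mp h2).resolve_right (pow_ne_zero _ (X_ne_zero _))
  obtain ⟨DY₁, rfl⟩ := Nat.exists_eq_succ_of_ne_zero ha0
  refine ⟨N₁, DY₁, D₁, by omega, hD₁.trans hD, hirrN, ⟨haY, hT, hnz₁, ?_, ?_⟩⟩
  · rintro ⟨j, hj⟩
    exact (hN₁v j hj).dvdAt (hp j hj)
  · intro g hg hvg
    exact hdense g hg fun j hj => hvg ⟨j, hj⟩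

end

end Pool.Agent.Lib.GGL
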