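import Mathlib
import Pool.Agent.Lib.MP_8d161d_ag.Mg.G029
import Pool.Agent.Lib.MP_8d161d_ag.Diag

/-!
Entire curves in varieties that are ramified over general hyperplanes, and in general
intersections of diagonal hypersurfaces.
-/

open Filter Topology MvPolynomial

namespace Pool.Agent.Lib.GGL

theorem general_aux {r e m q₀ N : ℕ} (hm2 : 2 * m * (e + 1) < (m - 1) * q₀)
    (h : q₀ * ((r + 1) * r) < (r + 1 + (e + 1)) * (r + 1 + e)) (hq : q₀ + 2 * r ≤ N + 1) :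
    ∃ Θ : MvPolynomial (Fin (N + 1) × Fin (r + 1 + 1)) ℚ, Θ ≠ 0 ∧
      ∀ p : Fin (N + 1) → Fin (r + 1 + 1) → ℂ,
        aeval (fun x : Fin (N + 1) × Fin (r + 1 + 1) => p x.1 x.2) Θ ≠ 0 →
        (∀ (M : ℕ) (X : Set (PSpace M)) (φ : PSpace M → PSpace (r + 1)), IsRegularOn X φ →
          (∀ j, RamifiedOver X φ (p j) m) →
          ∀ f : ℂ → PSpace M, (∀ z, HolomorphicNear f z) → (∀ z, f z ∈ X) →
            (∀ z w, φ (f z) = φ (f w)) ∧
            ∀ Y : Set (PSpace M), (∀ x ∈ X, x ∉ Y → {y ∈ X | φ y = φ x}.Finite) →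
              (∃ z w, f z ≠ f w) → ∀ z, f z ∈ Y) ∧
        ∀ f : ℂ → PSpace N, (∀ z, HolomorphicNear f z) → (∀ z, f z ∈ diagonal m p) →
          ∀ z w, f z = f w := by
  obtain ⟨Θ, h1, h2⟩ := exists_theta_total hm2 h hq
  refine ⟨Θ, h1, ?_⟩
  intro p hp
  obtain ⟨hgp, hY⟩ := h2 p hp
  have hm : 0 < m := by
    rcases Nat.eq_zero_or_pos m with h | h
    · subst h
      simp at hm2
    · exact h
  have hmain : ∀ (M : ℕ) (X : Set (PSpace M)) (φ : PSpace M → PSpace (r + 1)),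
      IsRegularOn X φ → (∀ j, RamifiedOver X φ (p j) m) →
      ∀ f : ℂ → PSpace M, (∀ z, HolomorphicNear f z) → (∀ z, f z ∈ X) →
        (∀ z w, φ (f z) = φ (f w)) ∧
        ∀ Y : Set (PSpace M), (∀ x ∈ X, x ∉ Y → {y ∈ X | φ y = φ x}.Finite) →
          (∃ z w, f z ≠ f w) → ∀ z, f z ∈ Y := by
    intro M X φ hφ hram f hf hfX
    have hg : ∀ z, HolomorphicNear (fun z => φ (f z)) z := fun z =>
      holomorphicNear_comp hφ (hf z) (Filter.Eventually.of_forall hfX)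
    choose Y hYl using hg
    have h3 : ∀ z w, φ (f z) = φ (f w) := by
      intro z w
      obtain ⟨c, hc, hcz⟩ := hY (liftFamily_of_lifts hYl)
        (fun j z₁ => hram j f z₁ (hf z₁) (Filter.Eventually.of_forall hfX) _ (hYl z₁)) z w
      obtain ⟨g1, g2⟩ := (hYl z).2.self_of_nhds
      obtain ⟨g3, g4⟩ := (hYl w).2.self_of_nhds
      beta_reduce at g2 g4
      rw [g2, g4, Projectivization.mk_eq_mk_iff']
      exact ⟨c, hcz.symm⟩
    refine ⟨h3, ?_⟩
    intro Y hYf hne z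
    by_contra hz
    obtain ⟨w₁, w₂, hw⟩ := hne
    apply hw
    apply const_of_finite hf
    apply (hYf (f z) (hfX z) hz).subset
    rintro _ ⟨w, rfl⟩
    exact ⟨hfX w, h3 w z⟩
  refine ⟨hmain, ?_⟩
  intro f hf hfX z w
  by_contra hne
  have hcard : r + 1 + 1 ≤ Fintype.card (Fin (N + 1)) := by
    rw [Fintype.card_fin]
    have := arith2 hm2 h
    omega
  obtain ⟨b, hb⟩ := exists_left_inverse (sep_of_genpos p hgp hcard)
  have h4 := (hmain N (diagonal m p) (diagMap b m) (diag_regular hb m)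
    (fun j => diag_ramified hb j) f hf hfX).2 ∅ (fun x hx _ => diag_finite hb hm hx)
    ⟨z, w, hne⟩ z
  exact h4

theorem general {n e m q₀ N : ℕ} (hn : 1 ≤ n) (he : 1 ≤ e) (hm2 : 2 * m * e < (m - 1) * q₀)
    (h : q₀ * (n * (n - 1)) < (n + e) * (n + e - 1)) (hq : q₀ + 2 * n ≤ N + 3) :
    ∃ Θ : MvPolynomial (Fin (N + 1) × Fin (n + 1)) ℚ, Θ ≠ 0 ∧
      ∀ p : Fin (N + 1) → Fin (n + 1) → ℂ,
        aeval (fun x : Fin (N + 1) × Fin (n + 1) => p x.1 x.2) Θ ≠ 0 →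
        (∀ (M : ℕ) (X : Set (PSpace M)) (φ : PSpace M → PSpace n), IsRegularOn X φ →
          (∀ j, RamifiedOver X φ (p j) m) →
          ∀ f : ℂ → PSpace M, (∀ z, HolomorphicNear f z) → (∀ z, f z ∈ X) →
            (∀ z w, φ (f z) = φ (f w)) ∧
            ∀ Y : Set (PSpace M), (∀ x ∈ X, x ∉ Y → {y ∈ X | φ y = φ x}.Finite) →
              (∃ z w, f z ≠ f w) → ∀ z, f z ∈ Y) ∧
        ∀ f : ℂ → PSpace N, (∀ z, HolomorphicNear f z) → (∀ z, f z ∈ diagonal m p) →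
          ∀ z w, f z = f w := by
  obtain ⟨r, rfl⟩ : ∃ r, n = r + 1 := ⟨n - 1, by omega⟩
  obtain ⟨e, rfl⟩ : ∃ e', e = e' + 1 := ⟨e - 1, by omega⟩
  apply general_aux hm2
  · have h1 : r + 1 - 1 = r := by omega
    have h2 : r + 1 + (e + 1) - 1 = r + 1 + e := by omega
    rw [h1, h2] at h
    exact h
  · omega

end Pool.Agent.Lib.GGL
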