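import Mathlib
import Pool.Agent.Lib.MP_8d161d_ag.Factor

/-!
Norm forms exist for every large family of hyperplanes in subgeneral position.
-/

open MvPolynomial Module

namespace Pool.Agent.Lib.GGL

section numeric

lemma choose_step (t k D : ℕ) :
    (k + 1) * (t + (k + D)).choose (k + D) ≤
      (k + 1) * (t + k).choose k + D * t * (t + (k + D)).choose (k + D) := by
  induction D with
  | zero => simp
  | succ D ih =>
    have h1 : (t + (k + D)).choose (k + D) ≤ (t + (k + (D + 1))).choose (k + (D + 1)) := by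
      have e : t + (k + (D + 1)) = (t + (k + D)) + 1 := by ring
      have e2 : k + (D + 1) = (k + D) + 1 := by ring
      rw [e, e2, Nat.choose_succ_succ]
      exact Nat.le_add_right _ _
    have h2 : (k + D + 1) * (t + (k + (D + 1))).choose (k + (D + 1)) =
        (k + D + 1) * (t + (k + D)).choose (k + D) + t * (t + (k + D)).choose (k + D) := by
      have e : t + (k + (D + 1)) = (t + (k + D)) + 1 := by ring
      have e2 : k + (D + 1) = (k + D) + 1 := by ring
      rw [e, e2]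
      have h3 := Nat.add_one_mul_choose_eq (t + (k + D)) (k + D)
      rw [mul_comm] at h3
      rw [mul_comm, ← h3]
      ring
    obtain ⟨A, hA⟩ : ∃ A, A = (t + (k + D)).choose (k + D) := ⟨_, rfl⟩
    obtain ⟨B, hB⟩ : ∃ B, B = (t + (k + (D + 1))).choose (k + (D + 1)) := ⟨_, rfl⟩
    obtain ⟨C, hC⟩ : ∃ C, C = (t + k).choose k := ⟨_, rfl⟩
    rw [← hA, ← hB] at h1
    rw [← hA, ← hB] at h2
    rw [← hA, ← hC] at ih
    rw [← hB, ← hC]
    obtain ⟨E, hE⟩ := Nat.exists_eq_add_of_le h1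
    subst hE
    have h4 : (k + D + 1) * E = t * A := by
      have : (k + D + 1) * (A + E) = (k + D + 1) * A + (k + D + 1) * E := by ring
      rw [this] at h2
      exact Nat.add_left_cancel h2
    have h5 : (k + 1) * E ≤ t * A := by
      rw [← h4]
      exact Nat.mul_le_mul_right _ (by omega)
    nlinarith [Nat.zero_le (D * t * E), Nat.zero_le (t * E)]

lemma numeric {t n DY D δ k : ℕ} (htn : t ≤ n) (hDY : DY ≤ δ) (hD : D ≤ δ * δ)
    (hk : 4 * (δ + 1) * (δ * δ) * n ≤ k) (D' : ℕ) (hD' : D' ≤ D) :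
    4 * (DY + 1) * ((t + (k + D')).choose (k + D') - (t + k).choose k) <
      (t + (k + D')).choose (k + D') := by
  have h1 := choose_step t k D'
  have hpos : 0 < (t + (k + D')).choose (k + D') := Nat.choose_pos (by omega)
  have hle : (t + k).choose k ≤ (t + (k + D')).choose (k + D') := by
    rw [← Nat.choose_symm_add, ← Nat.choose_symm_add]
    exact Nat.choose_le_choose t (by omega)
  obtain ⟨A, hA⟩ : ∃ A, A = (t + (k + D')).choose (k + D') := ⟨_, rfl⟩
  obtain ⟨C, hC⟩ : ∃ C, C = (t + k).choose k := ⟨_, rfl⟩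
  rw [← hA, ← hC] at h1 hle
  rw [← hA] at hpos
  rw [← hA, ← hC]
  obtain ⟨E, rfl⟩ := Nat.exists_eq_add_of_le hle
  rw [Nat.add_sub_cancel_left]
  have h2 : (k + 1) * E ≤ D' * t * (C + E) := by nlinarith
  have h3 : 4 * (DY + 1) * (D' * t) ≤ k := by
    refine le_trans ?_ hk
    have e1 : 4 * (DY + 1) ≤ 4 * (δ + 1) := by omega
    have e2 : D' * t ≤ (δ * δ) * n := Nat.mul_le_mul (hD'.trans hD) htn
    calc 4 * (DY + 1) * (D' * t) ≤ 4 * (δ + 1) * ((δ * δ) * n) := Nat.mul_le_mul e1 e2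
      _ = 4 * (δ + 1) * (δ * δ) * n := by ring
  have h4 : (k + 1) * (4 * (DY + 1) * E) ≤ k * (C + E) := by
    calc (k + 1) * (4 * (DY + 1) * E) = 4 * (DY + 1) * ((k + 1) * E) := by ring
      _ ≤ 4 * (DY + 1) * (D' * t * (C + E)) := Nat.mul_le_mul_left _ h2
      _ = (4 * (DY + 1) * (D' * t)) * (C + E) := by ring
      _ ≤ k * (C + E) := Nat.mul_le_mul_right _ h3
  by_contra hcon
  push Not at hcon
  have h5 : (k + 1) * (C + E) ≤ k * (C + E) := (Nat.mul_le_mul_left _ hcon).trans h4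
  nlinarith

/-- growth of the degrees -/
def phi (n δ : ℕ) : ℕ := 4 * (δ + 1) * (δ * δ) * n + 4 * (δ * δ)

/-- the sequence of degrees -/
def bseq (n t : ℕ) : ℕ := (phi n)^[n + 1 - t] 1

lemma le_phi {n δ : ℕ} (h : 1 ≤ δ) : δ ≤ phi n δ := by
  rw [phi]
  nlinarith [Nat.zero_le (4 * (δ + 1) * (δ * δ) * n)]

lemma bseq_top (n : ℕ) : bseq n (n + 1) = 1 := by
  rw [bseq, Nat.sub_self]
  rfl

lemma bseq_step {n t : ℕ} (h : t ≤ n) : bseq n t = phi n (bseq n (t + 1)) := by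
  rw [bseq, bseq, show n + 1 - t = (n + 1 - (t + 1)) + 1 by omega, Function.iterate_succ_apply']

lemma iterate_phi_pos (n k : ℕ) : 1 ≤ (phi n)^[k] 1 := by
  induction k with
  | zero => exact le_rfl
  | succ k ih =>
    rw [Function.iterate_succ_apply']
    exact ih.trans (le_phi ih)

lemma iterate_phi_mono (n : ℕ) {k l : ℕ} (h : k ≤ l) : (phi n)^[k] 1 ≤ (phi n)^[l] 1 := by
  induction l, h using Nat.le_induction with
  | base => exact le_rfl
  | succ l _ ih =>
    rw [Function.iterate_succ_apply']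
    exact ih.trans (le_phi (iterate_phi_pos n l))

lemma bseq_pos (n t : ℕ) : 1 ≤ bseq n t := iterate_phi_pos _ _

lemma bseq_le (n t : ℕ) (ht : 1 ≤ t) : bseq n t ≤ bseq n 1 :=
  iterate_phi_mono n (by omega)

/-- the number of hyperplanes -/
def numQ (n N₀ : ℕ) : ℕ :=
  2 ^ ((bseq n 1 + bseq n 1 * bseq n 1 + 1) ^ (n + 1)) * ((bseq n 1 + 3) * N₀) + 1

end numeric

/-- Existence of norm forms. -/
theorem exists_normData {n N₀ : ℕ} {ι : Type} [Fintype ι] [DecidableEq ι] (hn : 1 ≤ n)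
    (p : ι → Fin (n + 1) → ℂ) (hp : ∀ j, p j ≠ 0)
    (hgp : ∀ y : Fin (n + 1) → ℂ, y ≠ 0 →
      (Finset.univ.filter fun j => p j ⬝ᵥ y = 0).card ≤ N₀)
    (hcard : numQ n N₀ ≤ Fintype.card ι) :
    ∃ (J : Finset ι) (t : ℕ) (x : J → Fin (t + 1) → ℂ)
      (N : MvPolynomial (Fin (n + 1) ⊕ Fin (t + 1)) ℂ) (DY D b k : ℕ),
      1 ≤ t ∧ D ≤ k ∧ k + 3 * D ≤ b ∧
      (∀ D', 1 ≤ D' → D' ≤ D →
        4 * (DY + 1) * ((t + (k + D')).choose (k + D') - (t + k).choose k) <
          (t + (k + D')).choose (k + D')) ∧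
      Irreducible N ∧ NData (fun j : J => p j) x N DY D b := by
  classical
  obtain ⟨J, hJcard, hirr⟩ := exists_irrD p (bseq n 1 + bseq n 1 * bseq n 1)
  have hJ : (bseq n 1 + 3) * N₀ < J.card := by
    by_contra hcon
    push Not at hcon
    have h1 : Fintype.card ι ≤
        2 ^ ((bseq n 1 + bseq n 1 * bseq n 1 + 1) ^ (n + 1)) * ((bseq n 1 + 3) * N₀) :=
      hJcard.trans (Nat.mul_le_mul_left _ hcon)
    rw [numQ] at hcard
    omega
  have hJ1 : (bseq n 1 + 1) * N₀ < J.card := by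
    refine lt_of_le_of_lt ?_ hJ
    exact Nat.mul_le_mul_right _ (by omega)
  have hJ2 : 2 * N₀ < J.card := by
    refine lt_of_le_of_lt ?_ hJ
    exact Nat.mul_le_mul_right _ (by omega)
  have hJne : J.Nonempty := by
    rw [← Finset.card_pos]
    omega
  have hgpJ : ∀ y : Fin (n + 1) → ℂ, y ≠ 0 → (J.filter fun j => p j ⬝ᵥ y = 0).card ≤ N₀ := by
    intro y hy
    refine le_trans (Finset.card_le_card ?_) (hgp y hy)
    exact Finset.filter_subset_filter _ (Finset.subset_univ _)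
  obtain ⟨t, ht1, htn, ⟨θ, hθ⟩, hrel⟩ := exists_theta' hn (bseq n) (bseq_top n) hgpJ hJ1
  obtain ⟨δ, hδ⟩ : ∃ δ, δ = bseq n (t + 1) := ⟨_, rfl⟩
  have hδpos : 1 ≤ δ := by rw [hδ]; exact bseq_pos _ _
  have hδB : δ ≤ bseq n 1 := by rw [hδ]; exact bseq_le _ _ (by omega)
  have hb : bseq n t = phi n δ := by rw [hδ]; exact bseq_step htn
  have hd1 : δ + δ * δ ≤ bseq n 1 + bseq n 1 * bseq n 1 :=
    add_le_add hδB (Nat.mul_le_mul hδB hδB)
  obtain ⟨x, hx⟩ : ∃ x : ι → Fin (t + 1) → ℂ, x = fun j => pt θ (p j) := ⟨_, rfl⟩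
  have hxp : ∀ l, Pd p 1 fun j => x j l := by
    intro l
    rw [hx]
    exact Pd.dot (θ l)
  have hdense : ∀ g : MvPolynomial (Fin (t + 1)) ℂ, g.IsHomogeneous (bseq n t) →
      (∀ j ∈ J, eval (x j) g = 0) → g = 0 := by
    intro g hg hv
    apply hθ g hg
    intro j hj
    have := hv j hj
    rwa [hx] at this
  have hθδ : Dense' p J θ δ := hθ.mono (by rw [hb]; exact le_phi hδpos)
  have hdenseδ : ∀ g : MvPolynomial (Fin (t + 1)) ℂ, g.IsHomogeneous δ →
      (∀ j ∈ J, eval (x j) g = 0) → g = 0 := by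
    intro g hg hv
    apply hθδ g hg
    intro j hj
    have := hv j hj
    rwa [hx] at this
  have hgen := exists_generic_relation (p := p) J x δ (by
    intro v
    obtain ⟨g, hg0, hgh, hgv⟩ := hrel (Fin.cons v θ)
    refine ⟨g, hg0, ?_, ?_⟩
    · rw [hδ]; exact hgh
    · intro j hj
      have h1 := hgv j hj
      have h2 : pt (Fin.cons v θ : Fin (t + 1 + 1) → Fin (n + 1) → ℂ) (p j) =
          (Fin.cons (p j ⬝ᵥ v) (x j) : Fin (t + 1 + 1) → ℂ) := by
        funext l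
        refine Fin.cases ?_ (fun l => ?_) l
        · rfl
        · rw [hx]
          rfl
      rw [← h2]
      exact h1)
  obtain ⟨y₀, D₁, F₁, E, hF1, hF2, hF3, hF4, hE1, hE2, hE3⟩ :=
    exists_primitive (p := p) hxp hirr (by omega : δ ≤ bseq n 1 + bseq n 1 * bseq n 1) hgpJ hJ2
      hdenseδ hgen
  obtain ⟨N, DY, D, hDY, hD, hNY, hNT, hNnz, hNv⟩ :=
    exists_norm hF1 hF2 hF3 hdenseδ hF4 hE1 hE2 hE3
  obtain ⟨N₁, DY₁, D₂, h1, h2, h3, h4⟩ := exists_factor (p := p) (b := bseq n t) hJne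
    (fun j _ => hp j) hxp hirr hd1 (by
      rw [hb, phi]
      have : δ * δ ≤ 4 * (δ * δ) := by omega
      exact this.trans (Nat.le_add_left _ _)) hdense hDY hD hNY hNT hNnz
    (fun j hj y hy => hNv j hj y hy)
  refine ⟨J, t, fun j => x j, N₁, DY₁, D₂, bseq n t, 4 * (δ + 1) * (δ * δ) * n + δ * δ, ht1,
    ?_, ?_, ?_, h3, h4⟩
  · exact h2.trans (Nat.le_add_left _ _)
  · rw [hb, phi]
    omega
  · intro D' _ hD'
    exact numeric htn h1 h2 (Nat.le_add_right _ _) D' hD'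

end Pool.Agent.Lib.GGL
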