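import Mathlib
import Pool.Agent.Lib.MP_8d161d_ag.Strong

/-!
Families of linear forms with few proportional members.
-/

open MvPolynomial Module

namespace Pool.Agent.Lib.GGL

section binary

/-- dehomogenisation of a binary form -/
lemma exists_dehom {b : ℕ} {g : MvPolynomial (Fin 2) ℂ} (hg : g.IsHomogeneous b) (hg0 : g ≠ 0) :
    ∃ r : Polynomial ℂ, r ≠ 0 ∧ r.natDegree ≤ b ∧
      ∀ a c : ℂ, a ≠ 0 → eval ![a, c] g = a ^ b * r.eval (c / a) := by
  obtain ⟨r, hr⟩ : ∃ r : Polynomial ℂ, r = aeval ![Polynomial.C 1, Polynomial.X] g := ⟨_, rfl⟩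
  have hreval : ∀ c : ℂ, r.eval c = eval ![1, c] g := by
    intro c
    rw [hr]
    have h2 : ((Polynomial.aeval c : Polynomial ℂ →ₐ[ℂ] ℂ).comp
        (aeval ![Polynomial.C 1, Polynomial.X] : MvPolynomial (Fin 2) ℂ →ₐ[ℂ] Polynomial ℂ)) =
        aeval ![1, c] := by
      apply MvPolynomial.algHom_ext
      intro i
      rw [AlgHom.comp_apply, aeval_X, aeval_X]
      fin_cases i
      · simp
      · simp
    exact congrArg (fun F => F g) h2
  have hscale : ∀ a c : ℂ, a ≠ 0 → eval ![a, c] g = a ^ b * eval ![1, c / a] g := by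
    intro a c ha
    have h2 := aeval_weight (R := ℂ) (S := ℂ) 1 hg ![1, c / a] a
    have h3 : (fun i => a ^ (1 : Fin 2 → ℕ) i * ![1, c / a] i) = ![a, c] := by
      funext i
      fin_cases i
      · simp
      · simp only [Pi.one_apply, pow_one, Fin.mk_one, Matrix.cons_val_one]
        simp
        field_simp
    rw [h3] at h2
    exact h2
  refine ⟨r, ?_, ?_, ?_⟩
  · intro h0
    have h1 : g * X 0 = 0 := by
      apply MvPolynomial.funext
      intro v
      rw [map_mul, eval_X, map_zero]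
      by_cases hv0 : v 0 = 0
      · rw [hv0, mul_zero]
      · have h2 : v = ![v 0, v 1] := by
          funext i
          fin_cases i <;> rfl
        rw [h2, hscale _ _ hv0, ← hreval, h0]
        simp
    exact hg0 ((mul_eq_zero.mp h1).resolve_right (X_ne_zero _))
  · rw [hr]
    have h3 : ∀ d ∈ g.support, (aeval ![Polynomial.C 1, Polynomial.X]
        (monomial d (coeff d g)) : Polynomial ℂ).natDegree ≤ b := by
      intro d hd
      have h4 : Finsupp.weight 1 d = b := hg (mem_support_iff.mp hd)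
      rw [aeval_monomial]
      have h5 : d 1 ≤ b := by
        rw [← h4, Finsupp.weight_apply, Finsupp.sum_fintype _ _ (by simp)]
        simp
      have h6 : (d.prod fun i k => (![Polynomial.C 1, Polynomial.X] : Fin 2 → Polynomial ℂ) i ^ k) =
          Polynomial.X ^ d 1 := by
        rw [Finsupp.prod_fintype _ _ (by simp)]
        simp
      rw [h6]
      have h7 : algebraMap ℂ (Polynomial ℂ) (coeff d g) = Polynomial.C (coeff d g) := rfl
      rw [h7]
      exact (Polynomial.natDegree_C_mul_X_pow_le _ _).trans h5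
    conv_lhs => rw [g.as_sum, map_sum]
    exact Polynomial.natDegree_sum_le_of_forall_le _ _ h3
  · intro a c ha
    rw [hscale a c ha, hreval]

end binary

section

variable {n : ℕ} {ι : Type*} {p : ι → Fin (n + 1) → ℂ}

/-- a nonvanishing minor of two vectors that are not proportional -/
lemma exists_minor {u v : Fin (n + 1) → ℂ} (hu : u ≠ 0) (h : ¬ ∃ c : ℂ, v = c • u) :
    ∃ a b, u a * v b - u b * v a ≠ 0 := by
  by_contra hcon
  push Not at hcon
  obtain ⟨a, ha⟩ := Function.ne_iff.mp hu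
  apply h
  refine ⟨v a / u a, ?_⟩
  funext b
  rw [Pi.smul_apply, smul_eq_mul, div_mul_eq_mul_div, eq_div_iff ha]
  have := hcon a b
  linear_combination this

/-- a generic pair of linear coordinates -/
lemma exists_generic_pair (J : Finset ι) (hp : ∀ j ∈ J, p j ≠ 0) :
    ∃ θ₀ θ₁ : Fin (n + 1) → ℂ, (∀ j ∈ J, p j ⬝ᵥ θ₀ ≠ 0) ∧
      ∀ j ∈ J, ∀ j' ∈ J, (¬ ∃ c : ℂ, p j' = c • p j) →
        (p j ⬝ᵥ θ₀) * (p j' ⬝ᵥ θ₁) - (p j ⬝ᵥ θ₁) * (p j' ⬝ᵥ θ₀) ≠ 0 := by
  classical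
  obtain ⟨ℓ, hℓ⟩ : ∃ ℓ : Fin 2 → (Fin (n + 1) → ℂ) → MvPolynomial (Fin 2 × Fin (n + 1)) ℂ,
    ℓ = fun s q => ∑ i, C (q i) * X (s, i) := ⟨_, rfl⟩
  have hev : ∀ s q (v : Fin 2 × Fin (n + 1) → ℂ), eval v (ℓ s q) = q ⬝ᵥ fun i => v (s, i) := by
    intro s q v
    rw [hℓ]
    beta_reduce
    rw [map_sum, dotProduct]
    refine Finset.sum_congr rfl fun i _ => ?_
    rw [map_mul, eval_C, eval_X]
  obtain ⟨A, hA⟩ : ∃ A : MvPolynomial (Fin 2 × Fin (n + 1)) ℂ, A = ∏ j ∈ J, ℓ 0 (p j) := ⟨_, rfl⟩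
  obtain ⟨B, hB⟩ : ∃ B : MvPolynomial (Fin 2 × Fin (n + 1)) ℂ,
    B = ∏ q ∈ (J ×ˢ J).filter (fun q => ¬ ∃ c : ℂ, p q.2 = c • p q.1),
      (ℓ 0 (p q.1) * ℓ 1 (p q.2) - ℓ 1 (p q.1) * ℓ 0 (p q.2)) := ⟨_, rfl⟩
  have hA0 : A ≠ 0 := by
    rw [hA, Finset.prod_ne_zero_iff]
    intro j hj h0
    obtain ⟨a, ha⟩ := Function.ne_iff.mp (hp j hj)
    apply ha
    have h1 := hev 0 (p j) (fun q => if q.2 = a then 1 else 0)
    rw [h0, map_zero, dotProduct, Finset.sum_eq_single a] at h1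
    · simpa using h1.symm
    · intro i _ hi
      simp [hi]
    · intro hi
      exact absurd (Finset.mem_univ _) hi
  have hB0 : B ≠ 0 := by
    rw [hB, Finset.prod_ne_zero_iff]
    rintro ⟨j, j'⟩ hj h0
    rw [Finset.mem_filter, Finset.mem_product] at hj
    obtain ⟨⟨hj1, hj2⟩, hj3⟩ := hj
    obtain ⟨a, b, hab⟩ := exists_minor (hp j hj1) hj3
    apply hab
    have hd : ∀ (q : Fin (n + 1) → ℂ) (a : Fin (n + 1)),
        (q ⬝ᵥ fun i => if i = a then (1 : ℂ) else 0) = q a := by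
      intro q a
      rw [dotProduct, Finset.sum_eq_single a]
      · simp
      · intro i _ hi
        simp [hi]
      · intro hi
        exact absurd (Finset.mem_univ _) hi
    obtain ⟨v, hv⟩ : ∃ v : Fin 2 × Fin (n + 1) → ℂ,
      v = fun q => if q.1 = 0 then (if q.2 = a then 1 else 0) else (if q.2 = b then 1 else 0) :=
      ⟨_, rfl⟩
    have hv0 : (fun i => v (0, i)) = fun i => if i = a then (1 : ℂ) else 0 := by
      funext i
      rw [hv]
      simp
    have hv1 : (fun i => v (1, i)) = fun i => if i = b then (1 : ℂ) else 0 := by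
      funext i
      rw [hv]
      simp
    have h1 := congrArg (eval v) h0
    rw [map_sub, map_mul, map_mul, hev, hev, hev, hev, hv0, hv1, hd, hd, hd, hd, map_zero] at h1
    exact h1
  obtain ⟨v, hv⟩ : ∃ v : Fin 2 × Fin (n + 1) → ℂ, eval v (A * B) ≠ 0 := by
    by_contra hcon
    push Not at hcon
    apply mul_ne_zero hA0 hB0
    apply MvPolynomial.funext
    intro v
    rw [hcon, map_zero]
  rw [map_mul] at hv
  have hvA := left_ne_zero_of_mul hv
  have hvB := right_ne_zero_of_mul hv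
  rw [hA, map_prod, Finset.prod_ne_zero_iff] at hvA
  rw [hB, map_prod, Finset.prod_ne_zero_iff] at hvB
  refine ⟨fun i => v (0, i), fun i => v (1, i), ?_, ?_⟩
  · intro j hj
    rw [← hev]
    exact hvA j hj
  · intro j hj j' hj' hjj
    have h1 := hvB (j, j') (by
      rw [Finset.mem_filter, Finset.mem_product]
      exact ⟨⟨hj, hj'⟩, hjj⟩)
    rw [map_sub, map_mul, map_mul, hev, hev, hev, hev] at h1
    exact h1

/-- binary forms, few proportional members -/
lemma dense_base' {J : Finset ι} {N₀ b : ℕ} (hp : ∀ j ∈ J, p j ≠ 0)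
    (hcl : ∀ j ∈ J, ∀ S : Finset ι, S ⊆ J → (∀ j' ∈ S, ∃ c : ℂ, p j' = c • p j) → S.card ≤ N₀)
    (hJ : b * N₀ < J.card) :
    ∃ θ : Fin (1 + 1) → Fin (n + 1) → ℂ, Dense' p J θ b := by
  classical
  obtain ⟨θ₀, θ₁, h0, h1⟩ := exists_generic_pair J hp
  refine ⟨![θ₀, θ₁], ?_⟩
  intro g hg hv
  by_contra hg0
  obtain ⟨r, hr0, hrdeg, hreval⟩ := exists_dehom hg hg0
  have hcover : J ⊆ r.roots.toFinset.biUnion
      fun ρ => J.filter fun j => (p j ⬝ᵥ θ₁) / (p j ⬝ᵥ θ₀) = ρ := by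
    intro j hj
    rw [Finset.mem_biUnion]
    refine ⟨(p j ⬝ᵥ θ₁) / (p j ⬝ᵥ θ₀), ?_, ?_⟩
    · rw [Multiset.mem_toFinset, Polynomial.mem_roots hr0, Polynomial.IsRoot]
      have h3 := hv j hj
      have h2 : pt ![θ₀, θ₁] (p j) = ![p j ⬝ᵥ θ₀, p j ⬝ᵥ θ₁] := by
        funext i
        fin_cases i <;> rfl
      rw [h2, hreval _ _ (h0 j hj)] at h3
      exact (mul_eq_zero.mp h3).resolve_left (pow_ne_zero _ (h0 j hj))
    · rw [Finset.mem_filter]
      exact ⟨hj, rfl⟩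
  have h3 : (r.roots.toFinset.biUnion fun ρ =>
      J.filter fun j => (p j ⬝ᵥ θ₁) / (p j ⬝ᵥ θ₀) = ρ).card ≤ b * N₀ := by
    refine (Finset.card_biUnion_le_card_mul _ _ N₀ fun ρ _ => ?_).trans ?_
    · rcases (J.filter fun j => (p j ⬝ᵥ θ₁) / (p j ⬝ᵥ θ₀) = ρ).eq_empty_or_nonempty with he | he
      · rw [he, Finset.card_empty]
        exact Nat.zero_le _
      · obtain ⟨j₀, hj₀⟩ := he
        rw [Finset.mem_filter] at hj₀
        apply hcl j₀ hj₀.1 _ (Finset.filter_subset _ _)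
        intro j hj
        rw [Finset.mem_filter] at hj
        by_contra hcon
        apply h1 j₀ hj₀.1 j hj.1 hcon
        have h4 := h0 j hj.1
        have h5 := h0 j₀ hj₀.1
        have h6 : (p j ⬝ᵥ θ₁) / (p j ⬝ᵥ θ₀) = (p j₀ ⬝ᵥ θ₁) / (p j₀ ⬝ᵥ θ₀) := by
          rw [hj.2, hj₀.2]
        rw [div_eq_div_iff h4 h5] at h6
        linear_combination h6
    · apply Nat.mul_le_mul_right
      exact (Multiset.toFinset_card_le _).trans ((Polynomial.card_roots' r).trans hrdeg)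
  have h4 := Finset.card_le_card hcover
  omega

/-- choice of the number of coordinates, few proportional members -/
lemma exists_theta'' {J : Finset ι} {N₀ : ℕ} (b : ℕ → ℕ) (hb : b (n + 1) = 1)
    (hp : ∀ j ∈ J, p j ≠ 0)
    (hcl : ∀ j ∈ J, ∀ S : Finset ι, S ⊆ J → (∀ j' ∈ S, ∃ c : ℂ, p j' = c • p j) → S.card ≤ N₀)
    (hJ : b 1 * N₀ < J.card) :
    ∃ t, 1 ≤ t ∧ t ≤ n ∧ (∃ θ : Fin (t + 1) → Fin (n + 1) → ℂ, Dense' p J θ (b t)) ∧
      ∀ θ' : Fin (t + 2) → Fin (n + 1) → ℂ, ∃ g : MvPolynomial (Fin (t + 2)) ℂ, g ≠ 0 ∧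
        g.IsHomogeneous (b (t + 1)) ∧ ∀ j ∈ J, eval (pt θ' (p j)) g = 0 := by
  have h1 : ∃ θ : Fin (1 + 1) → Fin (n + 1) → ℂ, Dense' p J θ (b 1) := dense_base' hp hcl hJ
  have hn1 : ¬ ∃ θ : Fin (n + 1 + 1) → Fin (n + 1) → ℂ, Dense' p J θ (b (n + 1)) := by
    rintro ⟨θ, hθ⟩
    rw [hb] at hθ
    have hdep : ¬ LinearIndependent ℂ θ := by
      intro h
      have := h.fintype_card_le_finrank
      simp at this
    rw [Fintype.not_linearIndependent_iff] at hdep
    obtain ⟨c, hc, i, hi⟩ := hdep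
    have h2 : (∑ l, C (c l) * X l : MvPolynomial (Fin (n + 1 + 1)) ℂ) = 0 := by
      apply hθ
      · refine IsHomogeneous.sum _ _ _ fun l _ => ?_
        exact isHomogeneous_C_mul_X _ _
      · intro j _
        rw [map_sum]
        simp only [map_mul, eval_C, eval_X]
        have h3 : ∑ l, c l * pt θ (p j) l = p j ⬝ᵥ ∑ l, c l • θ l := by
          rw [dotProduct_sum]
          refine Finset.sum_congr rfl fun l _ => ?_
          rw [dotProduct_smul, smul_eq_mul]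
          rfl
        rw [h3, hc, dotProduct_zero]
    apply hi
    have h4 := congrArg (coeff (Finsupp.single i 1)) h2
    classical
    rw [coeff_sum, coeff_zero, Finset.sum_eq_single i] at h4
    · rwa [coeff_C_mul, coeff_X, if_pos rfl, mul_one] at h4
    · intro l _ hl
      rw [coeff_C_mul, coeff_X, if_neg, mul_zero]
      intro h5
      rw [Finsupp.single_left_inj one_ne_zero] at h5
      exact hl h5
    · intro h5
      exact absurd (Finset.mem_univ _) h5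
  have hn : 1 ≤ n := by
    by_contra hcon
    have h0 : n = 0 := by omega
    subst h0
    exact hn1 h1
  by_contra hcon
  have hall : ∀ t, 1 ≤ t → t ≤ n + 1 →
      ∃ θ : Fin (t + 1) → Fin (n + 1) → ℂ, Dense' p J θ (b t) := by
    intro t ht
    induction t, ht using Nat.le_induction with
    | base => intro _; exact h1
    | succ t ht ih =>
      intro htn
      by_contra hcon2
      apply hcon
      refine ⟨t, ht, by omega, ih (by omega), ?_⟩
      intro θ'
      by_contra hcon3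
      apply hcon2
      refine ⟨θ', ?_⟩
      intro g hg hv
      by_contra hg0
      exact hcon3 ⟨g, hg0, hg, hv⟩
  exact hn1 (hall (n + 1) (by omega) le_rfl)

end

section numericR

/-- bound for the number of variables -/
def TR (m δ : ℕ) : ℕ := (m + 1) + (δ * δ + 1) ^ (m + 1)

/-- growth of the degrees -/
def phiR (m δ : ℕ) : ℕ := 4 * (δ + 1) * (δ * δ + 1) * TR m δ + 4 * (δ * δ + 1)

/-- the sequence of degrees -/
def bseqR (m t : ℕ) : ℕ := (phiR m)^[m + 1 - t] 1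

lemma le_phiR {m δ : ℕ} (h : 1 ≤ δ) : δ ≤ phiR m δ := by
  rw [phiR]
  nlinarith [Nat.zero_le (4 * (δ + 1) * (δ * δ + 1) * TR m δ)]

lemma bseqR_top (m : ℕ) : bseqR m (m + 1) = 1 := by
  rw [bseqR, Nat.sub_self]
  rfl

lemma bseqR_step {m t : ℕ} (h : t ≤ m) : bseqR m t = phiR m (bseqR m (t + 1)) := by
  rw [bseqR, bseqR, show m + 1 - t = (m + 1 - (t + 1)) + 1 by omega, Function.iterate_succ_apply']

lemma iterate_phiR_pos (m k : ℕ) : 1 ≤ (phiR m)^[k] 1 := by
  induction k with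
  | zero => exact le_rfl
  | succ k ih =>
    rw [Function.iterate_succ_apply']
    exact ih.trans (le_phiR ih)

lemma iterate_phiR_mono (m : ℕ) {k l : ℕ} (h : k ≤ l) : (phiR m)^[k] 1 ≤ (phiR m)^[l] 1 := by
  induction l, h using Nat.le_induction with
  | base => exact le_rfl
  | succ l _ ih =>
    rw [Function.iterate_succ_apply']
    exact ih.trans (le_phiR (iterate_phiR_pos m l))

lemma bseqR_pos (m t : ℕ) : 1 ≤ bseqR m t := iterate_phiR_pos _ _

lemma bseqR_le (m t : ℕ) (ht : 1 ≤ t) : bseqR m t ≤ bseqR m 1 :=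
  iterate_phiR_mono m (by omega)

/-- the number of members -/
def numR (m N₀ : ℕ) : ℕ :=
  2 ^ ((bseqR m 1 + 1) ^ (m + 1)) * ((bseqR m 1 + 3) * N₀) + 1

lemma numericR {t n' DY D δ k Dm : ℕ} (htn : t ≤ n') (hDY : DY ≤ δ) (hD : D ≤ Dm)
    (hk : 4 * (δ + 1) * Dm * n' ≤ k) (D' : ℕ) (hD' : D' ≤ D) :
    4 * (DY + 1) * ((t + (k + D')).choose (k + D') - (t + k).choose k) <
      (t + (k + D')).choose (k + D') := by
  have h1 := choose_step t k D'
  have hpos : 0 < (t + (k + D')).choose (k + D') := Nat.choose_pos (by omega)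
  have hle : (t + k).choose k ≤ (t + (k + D')).choose (k + D') := by
    rw [← Nat.choose_symm_add, ← Nat.choose_symm_add]
    exact Nat.choose_le_choose t (by omega)
  obtain ⟨A, hA⟩ : ∃ A, A = (t + (k + D')).choose (k + D') := ⟨_, rfl⟩
  obtain ⟨C, hC⟩ : ∃ C, C = (t + k).choose k := ⟨_, rfl⟩
  rw [← hA, ← hC] at h1 hle
  rw [← hA] at hpos
  rw [← hA, ← hC]
  obtain ⟨E, rfl⟩ := Nat.exists_eq_add_of_le hle
  rw [Nat.add_sub_cancel_left]
  have h2 : (k + 1) * E ≤ D' * t * (C + E) := by nlinarith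
  have h3 : 4 * (DY + 1) * (D' * t) ≤ k := by
    refine le_trans ?_ hk
    have e1 : 4 * (DY + 1) ≤ 4 * (δ + 1) := by omega
    have e2 : D' * t ≤ Dm * n' := Nat.mul_le_mul (hD'.trans hD) htn
    calc 4 * (DY + 1) * (D' * t) ≤ 4 * (δ + 1) * (Dm * n') := Nat.mul_le_mul e1 e2
      _ = 4 * (δ + 1) * Dm * n' := by ring
  have h4 : (k + 1) * (4 * (DY + 1) * E) ≤ k * (C + E) := by
    calc (k + 1) * (4 * (DY + 1) * E) = 4 * (DY + 1) * ((k + 1) * E) := by ring
      _ ≤ 4 * (DY + 1) * (D' * t * (C + E)) := Nat.mul_le_mul_left _ h2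
      _ = (4 * (DY + 1) * (D' * t)) * (C + E) := by ring
      _ ≤ k * (C + E) := Nat.mul_le_mul_right _ h3
  by_contra hcon
  push Not at hcon
  have h5 : (k + 1) * (C + E) ≤ k * (C + E) := (Nat.mul_le_mul_left _ hcon).trans h4
  nlinarith

end numericR

/-- Existence of norm forms for families with few proportional members. -/
theorem exists_amb {m N₀ : ℕ} {ι : Type} [Fintype ι] [DecidableEq ι]
    (p : ι → Fin (m + 1) → ℂ) (hp : ∀ j, p j ≠ 0)
    (hcl : ∀ j, ∀ S : Finset ι, (∀ j' ∈ S, ∃ c : ℂ, p j' = c • p j) → S.card ≤ N₀)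
    (hcard : numR m N₀ ≤ Fintype.card ι) :
    ∃ (J : Finset ι) (t : ℕ) (x : ι → Fin (t + 1) → ℂ)
      (N : MvPolynomial (Fin (m + 1) ⊕ Fin (t + 1)) ℂ) (δ DY D : ℕ),
      1 ≤ t ∧ t ≤ m ∧ 1 ≤ δ ∧ DY ≤ δ ∧ D ≤ δ * δ ∧ 2 * N₀ < J.card ∧
      IsWeightedHomogeneous (wY m t) N DY ∧ IsWeightedHomogeneous (wT m t) N D ∧
      (∀ y : Fin (m + 1) → ℂ, 2 * (J.filter fun j => p j ⬝ᵥ y = 0).card ≤ J.card → sp y N ≠ 0) ∧
      (∀ j ∈ J, DvdAt N (p j) (x j)) ∧
      ∀ g : MvPolynomial (Fin (t + 1)) ℂ, g.IsHomogeneous (phiR m δ) →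
        (∀ j ∈ J, eval (x j) g = 0) → g = 0 := by
  classical
  obtain ⟨J, hJcard, hirr⟩ := exists_irrD p (bseqR m 1)
  have hJ : (bseqR m 1 + 3) * N₀ < J.card := by
    by_contra hcon
    push Not at hcon
    have h1 : Fintype.card ι ≤
        2 ^ ((bseqR m 1 + 1) ^ (m + 1)) * ((bseqR m 1 + 3) * N₀) :=
      hJcard.trans (Nat.mul_le_mul_left _ hcon)
    rw [numR] at hcard
    omega
  have hJ1 : bseqR m 1 * N₀ < J.card := by
    refine lt_of_le_of_lt ?_ hJ
    exact Nat.mul_le_mul_right _ (by omega)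
  have hJ2 : 2 * N₀ < J.card := by
    refine lt_of_le_of_lt ?_ hJ
    exact Nat.mul_le_mul_right _ (by omega)
  obtain ⟨t, ht1, htn, ⟨θ, hθ⟩, hrel⟩ := exists_theta'' (bseqR m) (bseqR_top m)
    (fun j (_ : j ∈ J) => hp j) (fun j _ S _ hS => hcl j S hS) hJ1
  obtain ⟨δ, hδ⟩ : ∃ δ, δ = bseqR m (t + 1) := ⟨_, rfl⟩
  have hδpos : 1 ≤ δ := by rw [hδ]; exact bseqR_pos _ _
  have hδB : δ ≤ bseqR m 1 := by rw [hδ]; exact bseqR_le _ _ (by omega)
  have hb : bseqR m t = phiR m δ := by rw [hδ]; exact bseqR_step htn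
  obtain ⟨x, hx⟩ : ∃ x : ι → Fin (t + 1) → ℂ, x = fun j => pt θ (p j) := ⟨_, rfl⟩
  have hxp : ∀ l, Pd p 1 fun j => x j l := by
    intro l
    rw [hx]
    exact Pd.dot (θ l)
  have hdense : ∀ g : MvPolynomial (Fin (t + 1)) ℂ, g.IsHomogeneous (phiR m δ) →
      (∀ j ∈ J, eval (x j) g = 0) → g = 0 := by
    intro g hg hv
    apply hθ g (by rw [hb]; exact hg)
    intro j hj
    have := hv j hj
    rwa [hx] at this
  have hθδ : Dense' p J θ δ := hθ.mono (by rw [hb]; exact le_phiR hδpos)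
  have hdenseδ : ∀ g : MvPolynomial (Fin (t + 1)) ℂ, g.IsHomogeneous δ →
      (∀ j ∈ J, eval (x j) g = 0) → g = 0 := by
    intro g hg hv
    apply hθδ g hg
    intro j hj
    have := hv j hj
    rwa [hx] at this
  have hgen := exists_generic_relation (p := p) J x δ (by
    intro v
    obtain ⟨g, hg0, hgh, hgv⟩ := hrel (Fin.cons v θ)
    refine ⟨g, hg0, ?_, ?_⟩
    · rw [hδ]; exact hgh
    · intro j hj
      have h1 := hgv j hj
      have h2 : pt (Fin.cons v θ : Fin (t + 1 + 1) → Fin (m + 1) → ℂ) (p j) =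
          (Fin.cons (p j ⬝ᵥ v) (x j) : Fin (t + 1 + 1) → ℂ) := by
        funext l
        refine Fin.cases ?_ (fun l => ?_) l
        · rfl
        · rw [hx]
          rfl
      rw [← h2]
      exact h1)
  obtain ⟨y₀, D₁, F₁, E, hF1, hF2, hF3, hF4, hE1, hE2, hE3⟩ :=
    exists_primitive_gen (p := p) hxp hirr hδB hdenseδ hgen
  obtain ⟨N, DY, D, hDY, hD, hNY, hNT, hNnz, hNv⟩ :=
    exists_norm_gen (Good := fun y => 2 * (J.filter fun j => p j ⬝ᵥ y = 0).card ≤ J.card)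
      hF1 hF2 hF3 hdenseδ hF4 hE1 hE2 hE3
  exact ⟨J, t, x, N, δ, DY, D, ht1, htn, hδpos, hDY, hD, hJ2, hNY, hNT, hNnz,
    fun j hj => VanAt.dvdAt (hp j) (fun y hy => hNv j hj y hy), hdense⟩

end Pool.Agent.Lib.GGL
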