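import Mathlib
import Pool.Agent.Lib.MP_8d161d_ag.Mg.G023
import Pool.Agent.Lib.MP_8d161d_ag.Mg.G020

/-!
Weighted norm form data: scaling and prolongation.
-/

open MvPolynomial Module Filter Topology

namespace Pool.Agent.Lib.GGL

section subst

variable {σ R : Type*} [CommRing R] {w : σ → ℕ}

/-- weighted substitution -/
lemma aeval_isWeighted {τ : Type*} {S : Type*} [CommRing S] [Algebra R S]
    {φ : MvPolynomial σ R} {n : ℕ} (h : IsWeightedHomogeneous w φ n)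
    (f : σ → MvPolynomial τ S) {w' : τ → ℕ} (hf : ∀ i, IsWeightedHomogeneous w' (f i) (w i)) :
    IsWeightedHomogeneous w' (aeval f φ) n := by
  rw [aeval_def, eval₂_eq]
  refine IsWeightedHomogeneous.sum _ _ _ fun d hd => ?_
  have h1 : Finsupp.weight w d = n := h (mem_support_iff.mp hd)
  have h2 : (algebraMap R (MvPolynomial τ S)) (coeff d φ) = C (algebraMap R S (coeff d φ)) := rfl
  rw [h2, ← h1]
  apply IsWeightedHomogeneous.C_mul
  rw [Finsupp.weight_apply, Finsupp.sum]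
  apply IsWeightedHomogeneous.prod
  intro i _
  exact (hf i).pow _

end subst

section

variable {n t : ℕ}

/-- value at a point of the second group of variables -/
noncomputable def nx (N : MvPolynomial (Fin (n + 1) ⊕ Fin (t + 1)) ℂ) (x : Fin (t + 1) → ℂ) :
    MvPolynomial (Fin (n + 1)) ℂ :=
  aeval (Sum.elim X (fun i => C (x i)) : _ → MvPolynomial (Fin (n + 1)) ℂ) N

lemma aeval_nx {R : Type*} [CommRing R] [Algebra ℂ R]
    (N : MvPolynomial (Fin (n + 1) ⊕ Fin (t + 1)) ℂ) (x : Fin (t + 1) → ℂ)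
    (y : Fin (n + 1) → R) : aeval y (nx N x) = eval (fun i => algebraMap ℂ R (x i)) (sp y N) := by
  rw [eval_sp, nx]
  have h2 : ((aeval y : MvPolynomial (Fin (n + 1)) ℂ →ₐ[ℂ] R).comp
      (aeval (Sum.elim X (fun i => C (x i))) :
        MvPolynomial (Fin (n + 1) ⊕ Fin (t + 1)) ℂ →ₐ[ℂ] MvPolynomial (Fin (n + 1)) ℂ)) =
      aeval (Sum.elim y (fun i => algebraMap ℂ R (x i))) := by
    apply MvPolynomial.algHom_ext
    intro i
    rw [AlgHom.comp_apply, aeval_X, aeval_X]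
    rcases i with i | i
    · rw [Sum.elim_inl, aeval_X, Sum.elim_inl]
    · rw [Sum.elim_inr, aeval_C, Sum.elim_inr]
  exact congrArg (fun F => F N) h2

lemma eval_nx (N : MvPolynomial (Fin (n + 1) ⊕ Fin (t + 1)) ℂ) (x : Fin (t + 1) → ℂ)
    (y : Fin (n + 1) → ℂ) : eval y (nx N x) = eval x (sp y N) := by
  rw [← aeval_complex, aeval_nx]
  rfl

lemma pderiv_nx (N : MvPolynomial (Fin (n + 1) ⊕ Fin (t + 1)) ℂ) (x : Fin (t + 1) → ℂ)
    (i : Fin (n + 1)) : pderiv i (nx N x) = nx (pderiv (Sum.inl i) N) x := by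
  rw [nx, nx]
  induction N using MvPolynomial.induction_on with
  | C a =>
    rw [aeval_C]
    have : algebraMap ℂ (MvPolynomial (Fin (n + 1)) ℂ) a = C a := rfl
    rw [this, pderiv_C, pderiv_C, map_zero]
  | add p q hp hq => simp only [map_add, hp, hq]
  | mul_X p j hp =>
    rw [map_mul, Derivation.leibniz, Derivation.leibniz, hp, aeval_X, map_add, smul_eq_mul,
      smul_eq_mul, smul_eq_mul, smul_eq_mul, map_mul, map_mul, aeval_X]
    rcases j with j | j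
    · rw [Sum.elim_inl, pderiv_X, pderiv_X]
      by_cases hij : i = j
      · subst hij
        simp
      · rw [Pi.single_eq_of_ne (Ne.symm hij), Pi.single_eq_of_ne (by simpa using Ne.symm hij)]
        simp
    · rw [Sum.elim_inr, pderiv_C, pderiv_X, Pi.single_eq_of_ne (by simp)]
      simp

lemma dev_nx (N : MvPolynomial (Fin (n + 1) ⊕ Fin (t + 1)) ℂ) (x : Fin (t + 1) → ℂ)
    (y w : Fin (n + 1) → ℂ) : dev (nx N x) y w = eval x (sp1 y w N) := by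
  rw [dev, sp1, map_sum]
  refine Finset.sum_congr rfl fun i _ => ?_
  rw [map_mul, eval_C, pderiv_nx, eval_nx]

/-- weights of the first group of variables -/
def wU (wt : Fin (n + 1) → ℕ) (t : ℕ) : Fin (n + 1) ⊕ Fin (t + 1) → ℕ := Sum.elim wt (fun _ => 0)

variable {wt : Fin (n + 1) → ℕ} {N : MvPolynomial (Fin (n + 1) ⊕ Fin (t + 1)) ℂ} {a : ℕ}

lemma nx_weighted (hN : IsWeightedHomogeneous (wU wt t) N a) (x : Fin (t + 1) → ℂ) :
    IsWeightedHomogeneous wt (nx N x) a := by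
  apply aeval_isWeighted hN
  rintro (i | i)
  · exact isWeightedHomogeneous_X _ _ _
  · exact isWeightedHomogeneous_C _ _

lemma sp_sc (hN : IsWeightedHomogeneous (wU wt t) N a) (l : ℂ) (y : Fin (n + 1) → ℂ) :
    sp (sc wt l y) N = C (l ^ a) * sp y N := by
  apply MvPolynomial.funext
  intro x
  rw [map_mul, eval_C, ← eval_nx, ← eval_nx, eval_sc (nx_weighted hN x)]

lemma sp1_sc (hN : IsWeightedHomogeneous (wU wt t) N a) (l μ : ℂ) (y w : Fin (n + 1) → ℂ) :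
    sp1 (sc wt l y) (sc wt l (w + μ • eu wt y)) N =
      C (l ^ a) * sp1 y w N + C (μ * l ^ a * a) * sp y N := by
  apply MvPolynomial.funext
  intro x
  have h1 := nx_weighted hN x
  rw [map_add, map_mul, map_mul, eval_C, eval_C, ← eval_nx, ← dev_nx, ← dev_nx, dev_sc h1,
    dev_add, dev_smul, dev_eu h1]
  ring

end

section

variable {n : ℕ} {Y : ℂ → ℂ → Fin (n + 1) → ℂ}

/-- components of a local lift -/
noncomputable def yB (hY : ∀ z₁, AnalyticAt ℂ (Y z₁) z₁) (z₁ : ℂ) (i : Fin (n + 1)) : An z₁ :=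
  ⟨fun z => Y z₁ z i, (analyticAt_pi_iff.mp (hY z₁)) i⟩

lemma evA_yB (hY : ∀ z₁, AnalyticAt ℂ (Y z₁) z₁) (z₁ z : ℂ) :
    (fun i => evA z₁ z (yB hY z₁ i)) = Y z₁ z := rfl

lemma evA_derivA_yB (hY : ∀ z₁, AnalyticAt ℂ (Y z₁) z₁) (z₁ : ℂ) :
    ∀ᶠ z in 𝓝 z₁, (fun i => evA z₁ z (derivA z₁ (yB hY z₁ i))) = deriv (Y z₁) z := by
  filter_upwards [(hY z₁).eventually_analyticAt] with z hz
  funext i
  have h1 : HasDerivAt (Y z₁) (deriv (Y z₁) z) z := hz.differentiableAt.hasDerivAt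
  exact (hasDerivAt_pi.mp h1 i).deriv

lemma constantCoeff_yB (hY : ∀ z₁, AnalyticAt ℂ (Y z₁) z₁) (z₁ : ℂ) (i : Fin (n + 1)) :
    PowerSeries.constantCoeff (tayHom z₁ (yB hY z₁ i)) = Y z₁ z₁ i := constantCoeff_tay _ _

end

section

variable {n t : ℕ} {κ : Type*} [Fintype κ] (x' : κ → Fin (t + 1) → ℂ)
  (L' : κ → MvPolynomial (Fin (t + 1)) ℂ) (c : MvPolynomial (Fin (t + 1)) ℂ)
  {N : MvPolynomial (Fin (n + 1) ⊕ Fin (t + 1)) ℂ} {wt : Fin (n + 1) → ℕ} {a : ℕ}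

lemma sc_mem_ZS (hN : IsWeightedHomogeneous (wU wt t) N a) {y : Fin (n + 1) → ℂ} {l : ℂ}
    (hy : y ∈ ZS x' L' c N) : sc wt l y ∈ ZS x' L' c N := by
  show sp (sc wt l y) N = _
  rw [sp_sc hN, qt_C_mul]
  have h : sp y N = c * qt x' L' c (sp y N) := hy
  conv_lhs => rw [h]
  ring

lemma TS_sc (hN : IsWeightedHomogeneous (wU wt t) N a) {y w : Fin (n + 1) → ℂ} (l μ c' : ℂ)
    (h : TS x' L' c N y w) :
    TS x' L' c N (sc wt l y) (c' • sc wt l (w + μ • eu wt y)) := by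
  obtain ⟨h1, h2⟩ := h
  refine ⟨sc_mem_ZS x' L' c hN h1, ?_⟩
  rw [sp1_smul, sp1_sc hN, qt_C_mul, qt_add, qt_C_mul, qt_C_mul]
  have h1' : sp y N = c * qt x' L' c (sp y N) := h1
  conv_lhs => rw [h1', h2]
  ring

lemma eventually_TSB {D' : ℕ}
    (hL' : ∀ Q : MvPolynomial (Fin (t + 1)) ℂ, Q.IsHomogeneous D' →
      Q = ∑ j, eval (x' j) Q • L' j) (hL'h : ∀ j, (L' j).IsHomogeneous D')
    (hc : ∀ j, eval (x' j) c ≠ 0)
    {Y : ℂ → ℂ → Fin (n + 1) → ℂ} (hY : ∀ z₁, AnalyticAt ℂ (Y z₁) z₁) {z₂ : ℂ}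
    (h : ∀ᶠ z in 𝓝 z₂, Y z₂ z ∈ ZS x' L' c N) :
    ∀ᶠ z in 𝓝 z₂, TS x' L' c N (Y z₂ z) (deriv (Y z₂) z) := by
  -- Taylor expansion
  have hmapc : ∀ {S : Type} [CommRing S] [Algebra ℂ S] (f : An z₂ →ₐ[ℂ] S),
      map (f : An z₂ →+* S) (map (algebraMap ℂ (An z₂)) c) = map (algebraMap ℂ S) c := by
    intro S _ _ f
    rw [MvPolynomial.map_map]
    have h0 : (f : An z₂ →+* S).comp (algebraMap ℂ (An z₂)) = algebraMap ℂ S := f.comp_algebraMap
    rw [h0]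
  have h1 : map (tayHom z₂ : An z₂ →+* PowerSeries ℂ)
      (sp (yB hY z₂) N - map (algebraMap ℂ (An z₂)) c * qt x' L' c (sp (yB hY z₂) N)) = 0 := by
    apply map_tayHom_eq_zero
    filter_upwards [h] with z hz
    rw [map_sub, map_mul, map_qt, map_sp, evA_yB, hmapc, sub_eq_zero]
    have h2 : sp (Y z₂ z) N = c * qt x' L' c (sp (Y z₂ z) N) := hz
    simp only [Algebra.algebraMap_self, MvPolynomial.map_id]
    exact h2
  rw [map_sub, map_mul, map_qt, map_sp, sub_eq_zero, hmapc] at h1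
  obtain ⟨F, hF⟩ : ∃ F, F = qt x' L' c (sp (fun i => tayHom z₂ (yB hY z₂ i)) N) := ⟨_, rfl⟩
  rw [← hF] at h1
  have hFh : F.IsHomogeneous D' := by
    rw [hF]
    exact qt_isHomogeneous _ _ hL'h _ _
  have h3 : sp1 (fun i => tayHom z₂ (yB hY z₂ i)) (fun i => tayHom z₂ (derivA z₂ (yB hY z₂ i))) N =
      map (algebraMap ℂ (PowerSeries ℂ)) c * cd (PowerSeries.derivative ℂ) F := by
    have e2 := cd_sp (PowerSeries.derivative ℂ) (fun i => tayHom z₂ (yB hY z₂ i)) N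
    simp only [← tayHom_derivA] at e2
    rw [← e2, h1, cd_mul, cd_map, zero_mul, zero_add]
  have h4 : map (tayHom z₂ : An z₂ →+* PowerSeries ℂ)
      (sp1 (yB hY z₂) (fun i => derivA z₂ (yB hY z₂ i)) N -
        map (algebraMap ℂ (An z₂)) c *
          qt x' L' c (sp1 (yB hY z₂) (fun i => derivA z₂ (yB hY z₂ i)) N)) = 0 := by
    rw [map_sub, map_mul, map_qt, map_sp1, hmapc, h3, qt_mul x' L' hL' hc (cd_isHomogeneous _ hFh),
      sub_self]
  filter_upwards [h, eventually_map_eq_zero h4, evA_derivA_yB hY z₂] with z hz1 hz2 hz3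
  refine ⟨hz1, ?_⟩
  rw [map_sub, map_mul, map_qt, map_sp1, evA_yB, hmapc, sub_eq_zero] at hz2
  simp only [Algebra.algebraMap_self, MvPolynomial.map_id, hz3] at hz2
  exact hz2

lemma ZS_identityW (hN : IsWeightedHomogeneous (wU wt t) N a)
    {Y : ℂ → ℂ → Fin (n + 1) → ℂ} (hY : WLift wt Y) {z₁ : ℂ}
    (h : ∀ᶠ z in 𝓝 z₁, Y z₁ z ∈ ZS x' L' c N) (z₂ : ℂ) :
    ∀ᶠ z in 𝓝 z₂, Y z₂ z ∈ ZS x' L' c N := by
  have h1 : ∀ m : Fin (t + 1) →₀ ℕ, ∀ᶠ z in 𝓝 z₂, coeff m (sp (Y z₂ z) N) -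
      coeff m (c * qt x' L' c (sp (Y z₂ z) N)) = 0 := by
    intro m
    have h2 : Hol (n := n) fun y _ => lcoeff ℂ m (sp y N) -
        (lcoeff ℂ m ∘ₗ LinearMap.mulLeft ℂ c) (qt x' L' c (sp y N)) :=
      (hol_sp N _).sub (hol_qt x' L' (Φ := fun y _ => sp y N) (hol_sp N) c _)
    have h3 : AnalyticOnNhd ℂ (fun y : Fin (n + 1) → ℂ => coeff m (sp y N) -
        coeff m (c * qt x' L' c (sp y N))) Set.univ := by
      intro y _
      have h4 := h2 (y, (0 : Fin (n + 1) → ℂ)) (Set.mem_univ _)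
      exact AnalyticAt.comp (g := fun q : (Fin (n + 1) → ℂ) × (Fin (n + 1) → ℂ) =>
        lcoeff ℂ m (sp q.1 N) - (lcoeff ℂ m ∘ₗ LinearMap.mulLeft ℂ c) (qt x' L' c (sp q.1 N)))
        (f := fun y => (y, (0 : Fin (n + 1) → ℂ))) h4 (analyticAt_id.prod analyticAt_const)
    refine hY.identity (E := fun y => coeff m (sp y N) - coeff m (c * qt x' L' c (sp y N)))
      h3 ?_ (z₁ := z₁) ?_ z₂
    · intro y l hl
      rw [sp_sc hN, qt_C_mul, coeff_C_mul, mul_left_comm, coeff_C_mul, ← mul_sub]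
      constructor
      · intro h5
        exact (mul_eq_zero.mp h5).resolve_left (pow_ne_zero _ hl)
      · intro h5
        rw [h5, mul_zero]
    · filter_upwards [h] with z hz
      have h5 : sp (Y z₁ z) N = c * qt x' L' c (sp (Y z₁ z) N) := hz
      rw [← h5, sub_self]
  have hYan : ∀ z₁, AnalyticAt ℂ (Y z₁) z₁ := hY.1
  obtain ⟨P, hP⟩ : ∃ P : MvPolynomial (Fin (t + 1)) (An z₂),
    P = sp (yB hYan z₂) N - map (algebraMap ℂ (An z₂)) c * qt x' L' c (sp (yB hYan z₂) N) :=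
    ⟨_, rfl⟩
  have hPz : ∀ z, map (evA z₂ z : An z₂ →+* ℂ) P =
      sp (Y z₂ z) N - c * qt x' L' c (sp (Y z₂ z) N) := by
    intro z
    rw [hP, map_sub, map_mul, map_qt, map_sp, evA_yB, MvPolynomial.map_map]
    have h6 : (evA z₂ z : An z₂ →+* ℂ).comp (algebraMap ℂ (An z₂)) = algebraMap ℂ ℂ :=
      (evA z₂ z).comp_algebraMap
    rw [h6]
    simp only [Algebra.algebraMap_self, MvPolynomial.map_id]
  have h7 : ∀ᶠ z in 𝓝 z₂, ∀ m ∈ P.support, coeff m (sp (Y z₂ z) N) -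
      coeff m (c * qt x' L' c (sp (Y z₂ z) N)) = 0 := by
    rw [Filter.eventually_all_finset]
    exact fun m _ => h1 m
  filter_upwards [h7] with z hz
  show sp (Y z₂ z) N = c * qt x' L' c (sp (Y z₂ z) N)
  rw [← sub_eq_zero]
  ext m
  rw [coeff_zero]
  by_cases hm : m ∈ P.support
  · rw [coeff_sub]
    exact hz m hm
  · rw [← hPz z, coeff_map, notMem_support_iff.mp hm, map_zero]

end

section equations

variable {n : ℕ} (wt : Fin (n + 1) → ℕ) (𝔣 : Set (MvPolynomial (Fin (n + 1)) ℂ))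

/-- common zeros -/
def ZF : Set (Fin (n + 1) → ℂ) := {y | ∀ f ∈ 𝔣, eval y f = 0}

/-- the tangent space -/
def TF (y w : Fin (n + 1) → ℂ) : Prop := y ∈ ZF 𝔣 ∧ ∀ f ∈ 𝔣, dev f y w = 0

variable {wt 𝔣}

lemma isClosed_ZF : IsClosed (ZF 𝔣) := by
  have h1 : ZF 𝔣 = ⋂ f ∈ 𝔣, {y | eval y f = 0} := by
    ext y
    simp [ZF]
  rw [h1]
  refine isClosed_biInter fun f _ => ?_
  exact isClosed_singleton.preimage (continuous_eval f)

variable (h𝔣 : ∀ f ∈ 𝔣, ∃ e, IsWeightedHomogeneous wt f e)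

include h𝔣 in
lemma sc_mem_ZF {y : Fin (n + 1) → ℂ} {l : ℂ} (hy : y ∈ ZF 𝔣) : sc wt l y ∈ ZF 𝔣 := by
  intro f hf
  obtain ⟨e, he⟩ := h𝔣 f hf
  rw [eval_sc he, hy f hf, mul_zero]

include h𝔣 in
lemma TF_sc {y w : Fin (n + 1) → ℂ} (l μ c' : ℂ) (h : TF 𝔣 y w) :
    TF 𝔣 (sc wt l y) (c' • sc wt l (w + μ • eu wt y)) := by
  obtain ⟨h1, h2⟩ := h
  refine ⟨sc_mem_ZF h𝔣 h1, ?_⟩
  intro f hf
  obtain ⟨e, he⟩ := h𝔣 f hf
  rw [dev_smul, dev_sc he, dev_add, dev_smul, dev_eu he, h2 f hf, h1 f hf]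
  ring

lemma eventually_TF {y : ℂ → Fin (n + 1) → ℂ} {z₂ : ℂ} (hy : AnalyticAt ℂ y z₂)
    (h : ∀ᶠ z in 𝓝 z₂, y z ∈ ZF 𝔣) : ∀ᶠ z in 𝓝 z₂, TF 𝔣 (y z) (deriv y z) := by
  filter_upwards [h.eventually_nhds, hy.eventually_analyticAt] with z hz1 hz2
  refine ⟨hz1.self_of_nhds, ?_⟩
  intro f hf
  rw [← deriv_eval hz2]
  have h1 : (fun z => eval (y z) f) =ᶠ[𝓝 z] fun _ => 0 := by
    filter_upwards [hz1] with w hw
    exact hw f hf
  rw [h1.deriv_eq, deriv_const]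

end equations

end Pool.Agent.Lib.GGL
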