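import Mathlib
import Pool.Agent.Lib.MP_8d161d_ag.Sep
import Pool.Agent.Lib.MP_8d161d_ag.WData

/-!
Substitution of the monomials of a given degree.
-/

open MvPolynomial Module

namespace Pool.Agent.Lib.GGL

section

variable (n ed : ℕ)

/-- the monomials of a given degree -/
theorem exists_veronese : ∃ (m : ℕ) (v : Fin (m + 1) → MvPolynomial (Fin (n + 1)) ℂ),
    (∀ i, (v i).IsHomogeneous ed) ∧
    ∀ P : MvPolynomial (Fin (n + 1)) ℂ, P.IsHomogeneous ed →
      ∃ q : Fin (m + 1) → ℂ, P = ∑ i, C (q i) * v i := by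
  classical
  obtain ⟨E, hE⟩ : ∃ E : Finset (Fin (n + 1) →₀ ℕ),
    E = Finset.finsuppAntidiag Finset.univ ed := ⟨_, rfl⟩
  have hmemE : ∀ m : Fin (n + 1) →₀ ℕ, m ∈ E ↔ m.degree = ed := by
    intro m
    rw [hE, Finset.mem_finsuppAntidiag, Finsupp.degree_eq_sum]
    simp
  have hne : 0 < E.card := by
    rw [Finset.card_pos]
    refine ⟨Finsupp.single 0 ed, ?_⟩
    rw [hmemE, Finsupp.degree_single]
  obtain ⟨m, hm⟩ : ∃ m, E.card = m + 1 := ⟨E.card - 1, by omega⟩
  let ε : E ≃ Fin (m + 1) := E.equivFinOfCardEq hm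
  refine ⟨m, fun i => monomial (ε.symm i : Fin (n + 1) →₀ ℕ) 1, ?_, ?_⟩
  · intro i
    exact isHomogeneous_monomial _ ((hmemE _).mp (ε.symm i).2)
  · intro P hP
    refine ⟨fun i => coeff (ε.symm i : Fin (n + 1) →₀ ℕ) P, ?_⟩
    have h1 : P.support ⊆ E := by
      intro d hd
      rw [hmemE, Finsupp.degree_eq_weight_one]
      exact hP (mem_support_iff.mp hd)
    have h2 : ∀ d : Fin (n + 1) →₀ ℕ, C (coeff d P) * monomial d 1 = monomial d (coeff d P) := by
      intro d
      rw [C_mul_monomial, mul_one]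
    simp only [h2]
    conv_lhs => rw [P.as_sum]
    rw [Finset.sum_subset h1, ← Finset.sum_coe_sort E]
    · apply Fintype.sum_equiv ε
      intro j
      rw [Equiv.symm_apply_apply]
    · intro d _ hd
      rw [notMem_support_iff.mp hd, monomial_zero]

end

section

variable {n m t : ℕ}

/-- weighted homogeneity of a renamed polynomial -/
lemma rename_isWeighted {σ τ : Type*} {w : τ → ℕ} (f : σ → τ) {φ : MvPolynomial σ ℂ} {e : ℕ}
    (h : IsWeightedHomogeneous (fun i => w (f i)) φ e) :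
    IsWeightedHomogeneous w (rename f φ) e := by
  have h1 : rename f φ = aeval (fun i => (X (f i) : MvPolynomial τ ℂ)) φ := by
    have h2 : (rename f : MvPolynomial σ ℂ →ₐ[ℂ] MvPolynomial τ ℂ) =
        aeval (fun i => (X (f i) : MvPolynomial τ ℂ)) := by
      apply MvPolynomial.algHom_ext
      intro i
      rw [rename_X, aeval_X]
    rw [h2]
  rw [h1]
  exact aeval_isWeighted h _ fun i => isWeightedHomogeneous_X _ _ _

/-- a polynomial without variables of positive weight -/
lemma isWeighted_zero {σ : Type*} {w : σ → ℕ} (hw : ∀ i, w i = 0) (φ : MvPolynomial σ ℂ) :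
    IsWeightedHomogeneous w φ 0 := by
  intro d _
  rw [Finsupp.weight_apply, Finsupp.sum]
  apply Finset.sum_eq_zero
  intro i _
  rw [hw, smul_zero]

/-- the substitution -/
noncomputable def vsub (v : Fin (m + 1) → MvPolynomial (Fin (n + 1)) ℂ) :
    MvPolynomial (Fin (m + 1) ⊕ Fin (t + 1)) ℂ →ₐ[ℂ] MvPolynomial (Fin (n + 1) ⊕ Fin (t + 1)) ℂ :=
  aeval (Sum.elim (fun i => rename Sum.inl (v i)) fun l => X (Sum.inr l))

lemma sp_vsub {R : Type*} [CommRing R] [Algebra ℂ R]
    (v : Fin (m + 1) → MvPolynomial (Fin (n + 1)) ℂ) (y : Fin (n + 1) → R)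
    (N : MvPolynomial (Fin (m + 1) ⊕ Fin (t + 1)) ℂ) :
    sp y (vsub v N) = sp (fun i => aeval y (v i)) N := by
  have h1 : (sp y : MvPolynomial (Fin (n + 1) ⊕ Fin (t + 1)) ℂ →ₐ[ℂ] _).comp (vsub v) =
      sp (fun i => aeval y (v i)) := by
    apply MvPolynomial.algHom_ext
    rintro (i | i)
    · rw [AlgHom.comp_apply, vsub, aeval_X, Sum.elim_inl, sp_inl]
      have h2 : ∀ P : MvPolynomial (Fin (n + 1)) ℂ,
          sp (t := t) y (rename Sum.inl P) = C (aeval y P) := by
        intro P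
        induction P using MvPolynomial.induction_on with
        | C a =>
          rw [rename_C, sp_C, aeval_C]
        | add p q hp hq => rw [map_add, map_add, hp, hq, map_add, C_add]
        | mul_X p j hp => rw [map_mul, map_mul, hp, rename_X, sp_inl, map_mul, aeval_X, C_mul]
      exact h2 _
    · rw [AlgHom.comp_apply, vsub, aeval_X, Sum.elim_inr, sp_inr, sp_inr]
  exact congrArg (fun F => F N) h1

lemma vsub_homY {ed DY : ℕ} {v : Fin (m + 1) → MvPolynomial (Fin (n + 1)) ℂ}
    (hv : ∀ i, (v i).IsHomogeneous ed) {N : MvPolynomial (Fin (m + 1) ⊕ Fin (t + 1)) ℂ}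
    (hN : IsWeightedHomogeneous (wY m t) N DY) :
    IsWeightedHomogeneous (wY n t) (vsub v N) (ed * DY) := by
  have h1 : IsWeightedHomogeneous (fun i => ed * wY m t i) N (ed * DY) := by
    intro d hd
    rw [← hN hd, Finsupp.weight_apply, Finsupp.weight_apply, Finsupp.sum, Finsupp.sum,
      Finset.mul_sum]
    refine Finset.sum_congr rfl fun i _ => ?_
    rw [smul_eq_mul, smul_eq_mul]
    ring
  apply aeval_isWeighted h1
  rintro (i | i)
  · rw [Sum.elim_inl]
    have h2 : ed * wY m t (Sum.inl i) = ed := mul_one ed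
    rw [h2]
    apply rename_isWeighted
    exact hv i
  · rw [Sum.elim_inr]
    exact isWeightedHomogeneous_X _ _ _

lemma vsub_homT {D : ℕ} {v : Fin (m + 1) → MvPolynomial (Fin (n + 1)) ℂ}
    {N : MvPolynomial (Fin (m + 1) ⊕ Fin (t + 1)) ℂ}
    (hN : IsWeightedHomogeneous (wT m t) N D) :
    IsWeightedHomogeneous (wT n t) (vsub v N) D := by
  apply aeval_isWeighted hN
  rintro (i | i)
  · rw [Sum.elim_inl]
    apply rename_isWeighted
    exact isWeighted_zero (fun _ => rfl) _
  · rw [Sum.elim_inr]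
    exact isWeightedHomogeneous_X _ _ _

lemma vsub_dvd {v : Fin (m + 1) → MvPolynomial (Fin (n + 1)) ℂ}
    {N : MvPolynomial (Fin (m + 1) ⊕ Fin (t + 1)) ℂ} {q : Fin (m + 1) → ℂ} {x : Fin (t + 1) → ℂ}
    (h : DvdAt N q x) : (∑ i, C (q i) * v i) ∣ nx (vsub v N) x := by
  obtain ⟨U, hU⟩ := h
  have h1 : nx (vsub v N) x = aeval v (nx N x) := by
    rw [nx, nx]
    have h2 : (aeval (Sum.elim X (fun i => C (x i))) :
        MvPolynomial (Fin (n + 1) ⊕ Fin (t + 1)) ℂ →ₐ[ℂ] MvPolynomial (Fin (n + 1)) ℂ).comp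
        (vsub v) = (aeval v).comp (aeval (Sum.elim X (fun i => C (x i))) :
          MvPolynomial (Fin (m + 1) ⊕ Fin (t + 1)) ℂ →ₐ[ℂ] MvPolynomial (Fin (m + 1)) ℂ) := by
      apply MvPolynomial.algHom_ext
      rintro (i | i)
      · rw [AlgHom.comp_apply, AlgHom.comp_apply, vsub, aeval_X, aeval_X, Sum.elim_inl,
          Sum.elim_inl, aeval_X, aeval_rename]
        have h3 : (Sum.elim X (fun i => C (x i)) : _ → MvPolynomial (Fin (n + 1)) ℂ) ∘
            Sum.inl = X := rfl
        rw [h3, aeval_X_left]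
        rfl
      · rw [AlgHom.comp_apply, AlgHom.comp_apply, vsub, aeval_X, aeval_X, Sum.elim_inr,
          Sum.elim_inr, aeval_X, Sum.elim_inr, aeval_C]
        rfl
    exact congrArg (fun F => F N) h2
  have h2 : aeval v (linForm q) = ∑ i, C (q i) * v i := by
    rw [linForm, map_sum]
    refine Finset.sum_congr rfl fun i _ => ?_
    rw [map_mul, aeval_C, aeval_X]
    rfl
  rw [h1, nx, hU, map_mul, h2]
  exact dvd_mul_right _ _

end

end Pool.Agent.Lib.GGL
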