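import Mathlib

/-!
Squarefreeness of the product of a form and a generic linear form.
-/

open MvPolynomial

namespace Pool.Agent.Lib.GGL

section

variable {A B : Type*} {K : Type*} [Field K]

lemma exists_C_of_mul_C {R : Type*} [CommRing R] [IsDomain R] {F : R} (hF : F ≠ 0)
    {x y : MvPolynomial B R} (h : x * y = C F) : ∃ x' y' : R, x = C x' ∧ y = C y' := by
  have hx0 : x ≠ 0 := by
    rintro rfl
    rw [zero_mul] at h
    exact hF (C_eq_zero.mp h.symm)
  have hy0 : y ≠ 0 := by
    rintro rfl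
    rw [mul_zero] at h
    exact hF (C_eq_zero.mp h.symm)
  have h1 := totalDegree_mul_of_isDomain hx0 hy0
  rw [h, totalDegree_C] at h1
  have h2 : x.totalDegree = 0 := by omega
  have h3 : y.totalDegree = 0 := by omega
  exact ⟨_, _, totalDegree_eq_zero_iff_eq_C.mp h2, totalDegree_eq_zero_iff_eq_C.mp h3⟩

lemma squarefree_mvC {R : Type*} [CommRing R] [IsDomain R] {F : R} (hF0 : F ≠ 0)
    (hF : Squarefree F) : Squarefree (C F : MvPolynomial B R) := by
  rintro x ⟨y, hy⟩
  rw [mul_assoc] at hy
  obtain ⟨x', z', hx, hz⟩ := exists_C_of_mul_C hF0 hy.symm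
  rw [hx] at hz
  have hx0 : x' ≠ 0 := by
    rintro rfl
    rw [hx, C_0, zero_mul] at hy
    exact hF0 (C_eq_zero.mp hy)
  by_cases hz0 : z' = 0
  · exfalso
    rw [hx, hz, hz0, C_0, mul_zero] at hy
    exact hF0 (C_eq_zero.mp hy)
  obtain ⟨x'', y', hx2, hy2⟩ := exists_C_of_mul_C hz0 hz
  rw [hx, hy2, ← C_mul, ← C_mul] at hy
  have h4 := hF x' ⟨y', by rw [mul_assoc]; exact C_injective _ _ hy⟩
  rw [hx]
  exact h4.map C

variable [Fintype B]

/-- the linear form -/
noncomputable def lamf (g : B → K) : MvPolynomial B (MvPolynomial A K) :=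
  ∑ m, C (C (g m)) * X m

lemma coeff_lamf (g : B → K) (m : B) :
    coeff (Finsupp.single m 1) (lamf (A := A) g) = C (g m) := by
  classical
  rw [lamf, coeff_sum, Finset.sum_eq_single m]
  · rw [coeff_C_mul, coeff_X, if_pos rfl, mul_one]
  · intro k _ hk
    rw [coeff_C_mul, coeff_X, if_neg, mul_zero]
    intro h
    rw [Finsupp.single_left_inj one_ne_zero] at h
    exact hk h
  · intro h
    exact absurd (Finset.mem_univ _) h

lemma lamf_homogeneous (g : B → K) : (lamf (A := A) g).IsHomogeneous 1 := by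
  refine IsHomogeneous.sum _ _ _ fun i _ => ?_
  exact isHomogeneous_C_mul_X _ _

/-- a constant divisor of the linear form is a unit -/
lemma isUnit_of_dvd_lamf {g : B → K} {m : B} (hm : g m ≠ 0) {d : MvPolynomial A K}
    (h : (C d : MvPolynomial B (MvPolynomial A K)) ∣ lamf g) : IsUnit d := by
  rw [C_dvd_iff_dvd_coeff] at h
  have h1 := h (Finsupp.single m 1)
  rw [coeff_lamf] at h1
  have h2 : IsUnit (C (g m) : MvPolynomial A K) := (isUnit_iff_ne_zero.mpr hm).map C
  exact isUnit_of_dvd_unit h1 h2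

lemma irreducible_lamf {g : B → K} {m : B} (hm : g m ≠ 0) : Irreducible (lamf (A := A) g) := by
  have h0 : lamf (A := A) g ≠ 0 := by
    intro h0
    have h1 := coeff_lamf (A := A) g m
    rw [h0, coeff_zero] at h1
    exact hm (C_eq_zero.mp h1.symm)
  have hd : (lamf (A := A) g).totalDegree = 1 := (lamf_homogeneous g).totalDegree h0
  rw [irreducible_iff]
  constructor
  · intro hu
    obtain ⟨v, hv⟩ := hu.exists_right_inv
    have hv0 : v ≠ 0 := by
      rintro rfl
      rw [mul_zero] at hv
      exact zero_ne_one hv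
    have h1 := totalDegree_mul_of_isDomain h0 hv0
    rw [hv, hd, totalDegree_one] at h1
    omega
  · intro a b hab
    have ha0 : a ≠ 0 := by
      rintro rfl
      rw [zero_mul] at hab
      exact h0 hab
    have hb0 : b ≠ 0 := by
      rintro rfl
      rw [mul_zero] at hab
      exact h0 hab
    have h1 := totalDegree_mul_of_isDomain ha0 hb0
    rw [← hab, hd] at h1
    have h2 : a.totalDegree = 0 ∨ b.totalDegree = 0 := by omega
    rcases h2 with h2 | h2
    · left
      rw [totalDegree_eq_zero_iff_eq_C] at h2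
      rw [h2]
      apply IsUnit.map
      apply isUnit_of_dvd_lamf hm
      rw [← h2]
      exact Dvd.intro _ hab.symm
    · right
      rw [totalDegree_eq_zero_iff_eq_C] at h2
      rw [h2]
      apply IsUnit.map
      apply isUnit_of_dvd_lamf hm
      rw [← h2]
      exact Dvd.intro_left _ hab.symm

lemma squarefree_C_mul_lamf [Finite A] {F : MvPolynomial A K} (hF0 : F ≠ 0) (hF : Squarefree F)
    {g : B → K} {m : B} (hm : g m ≠ 0) : Squarefree (C F * lamf g) := by
  rw [squarefree_mul_iff]
  refine ⟨?_, squarefree_mvC hF0 hF, (irreducible_lamf hm).squarefree⟩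
  intro d hd1 hd2
  obtain ⟨y, hy⟩ := hd1
  obtain ⟨d', y', hd', -⟩ := exists_C_of_mul_C hF0 hy.symm
  rw [hd'] at hd2 ⊢
  exact (isUnit_of_dvd_lamf hm hd2).map C

theorem squarefree_rename_mul [Finite A] {A' : Type*} (e : B ⊕ A ≃ A') {G : MvPolynomial A K}
    (hG0 : G ≠ 0) (hG : Squarefree G) {g : B → K} {m : B} (hm : g m ≠ 0) :
    Squarefree (rename (fun i => e (Sum.inr i)) G * ∑ m, C (g m) * X (e (Sum.inl m))) := by
  let ψ : MvPolynomial A' K ≃ₐ[K] MvPolynomial B (MvPolynomial A K) :=
    (renameEquiv K e.symm).trans (sumAlgEquiv K B A)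
  have hψX : ∀ i, ψ (X (e i)) = sumAlgEquiv K B A (X i) := by
    intro i
    show sumAlgEquiv K B A (rename e.symm (X (e i))) = _
    rw [rename_X, Equiv.symm_apply_apply]
  have h1 : ψ (rename (fun i => e (Sum.inr i)) G) = C G := by
    have h2 : ψ.toAlgHom.comp (rename (fun i => e (Sum.inr i))) =
        IsScalarTower.toAlgHom K (MvPolynomial A K) (MvPolynomial B (MvPolynomial A K)) := by
      apply MvPolynomial.algHom_ext
      intro i
      rw [AlgHom.comp_apply, rename_X]
      show ψ (X (e (Sum.inr i))) = algebraMap (MvPolynomial A K) _ (X i)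
      rw [hψX, sumAlgEquiv_X_inr]
      rfl
    exact congrArg (fun F => F G) h2
  have h2 : ψ (∑ m, C (g m) * X (e (Sum.inl m))) = lamf g := by
    rw [map_sum, lamf]
    refine Finset.sum_congr rfl fun m _ => ?_
    rw [map_mul, hψX, sumAlgEquiv_X_inl]
    congr 1
    show ψ (algebraMap K _ (g m)) = _
    rw [ψ.commutes]
    rfl
  intro x hx
  have h3 : ψ x * ψ x ∣ C G * lamf g := by
    have h4 := map_dvd ψ hx
    rwa [map_mul, map_mul, h1, h2] at h4
  have h4 := (squarefree_C_mul_lamf hG0 hG hm _ h3).map ψ.symm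
  rwa [AlgEquiv.symm_apply_apply] at h4

end

end Pool.Agent.Lib.GGL
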