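import Mathlib
import Pool.Agent.Lib.MP_8d161d_ag.Mg.G028
import Pool.Agent.Lib.MP_8d161d_ag.Mg.G023

/-!
The exceptional hypersurface of a family of forms on a projective variety.
-/

open MvPolynomial Module Filter Topology

namespace Pool.Agent.Lib.GGL

lemma LiftFamily.wLift {n : ℕ} {Y : ℂ → ℂ → Fin (n + 1) → ℂ} (hY : LiftFamily Y) :
    WLift (1 : Fin (n + 1) → ℕ) Y := by
  refine ⟨hY.1, ?_, ?_⟩
  · intro z₁ h0
    apply hY.2.1 z₁
    funext i
    have h1 := norm_le_n1 (1 : Fin (n + 1) → ℕ) (Y z₁ z₁) (i := i) rfl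
    rw [h0] at h1
    exact norm_le_zero_iff.mp h1
  · intro z₁
    filter_upwards [hY.2.2 z₁] with z ⟨l, hl1, hl2, hl3⟩
    refine ⟨l, hl1, hl2, ?_⟩
    filter_upwards [hl3] with w hw
    rw [hw]
    funext i
    rw [sc, Pi.one_apply, pow_one]
    rfl

lemma eval_smul_mem_zero {n : ℕ} {I : Ideal (MvPolynomial (Fin (n + 1)) ℂ)} (hI : HomIdeal I)
    {y : Fin (n + 1) → ℂ} (hy : ∀ g ∈ I, eval y g = 0) (c : ℂ) : ∀ g ∈ I, eval (c • y) g = 0 := by
  intro g hg
  rw [← sum_homogeneousComponent g, map_sum]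
  refine Finset.sum_eq_zero fun k _ => ?_
  rw [eval_smul_of_homogeneous (homogeneousComponent_isHomogeneous k g), hy _ (hI g hg k), mul_zero]

lemma isClosed_zeros {n : ℕ} (I : Ideal (MvPolynomial (Fin (n + 1)) ℂ)) :
    IsClosed {y : Fin (n + 1) → ℂ | ∀ g ∈ I, eval y g = 0} := by
  have h1 : {y : Fin (n + 1) → ℂ | ∀ g ∈ I, eval y g = 0} = ⋂ g ∈ I, {y | eval y g = 0} := by
    ext y
    simp
  rw [h1]
  refine isClosed_biInter fun g _ => ?_
  exact isClosed_eq (continuous_eval g) continuous_const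

/-- forms of one degree -/
theorem family_class {n m N₀ ed : ℕ} (hed : 0 < ed) {vv : Fin (m + 1) → MvPolynomial (Fin (n + 1)) ℂ}
    (hvv : ∀ i, (vv i).IsHomogeneous ed) {I : Ideal (MvPolynomial (Fin (n + 1)) ℂ)} [I.IsPrime]
    (hI : HomIdeal I) {ι : Type} [Fintype ι] [DecidableEq ι]
    {P : ι → MvPolynomial (Fin (n + 1)) ℂ} (q : ι → Fin (m + 1) → ℂ)
    (hPq : ∀ j, P j = ∑ i, C (q j i) * vv i) (hPI : ∀ j, P j ∉ I) (hrad : ∀ j, RedOn I (P j))
    (hgp : ∀ y : Fin (n + 1) → ℂ, y ≠ 0 → (∀ g ∈ I, eval y g = 0) →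
      ∀ S : Finset ι, (∀ j ∈ S, eval y (P j) = 0) → S.card ≤ N₀)
    (hcard : numR m N₀ ≤ Fintype.card ι) :
    ∃ Δ₀ : MvPolynomial (Fin (n + 1)) ℂ, Δ₀ ∉ I ∧
      ∀ Y : ℂ → ℂ → Fin (n + 1) → ℂ, LiftFamily Y →
        (∀ z₁, ∀ᶠ z in 𝓝 z₁, ∀ g ∈ I, eval (Y z₁ z) g = 0) →
        (∀ j z₁, analyticOrderAt (fun z => eval (Y z₁ z) (P j)) z₁ = 0 ∨
          (2 : ℕ∞) ≤ analyticOrderAt (fun z => eval (Y z₁ z) (P j)) z₁) →
        ∀ z₁, eval (Y z₁ z₁) Δ₀ ≠ 0 → ∀ z w, ∃ c : ℂ, c ≠ 0 ∧ Y z z = c • Y w w := by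
  by_cases hzero : ∀ j, ∃ y : Fin (n + 1) → ℂ, y ≠ 0 ∧ (∀ g ∈ I, eval y g = 0) ∧ eval y (P j) = 0
  · exact family_base hed hvv hI q hPq hPI hrad hgp hzero hcard
  · push Not at hzero
    obtain ⟨j, hj⟩ := hzero
    refine ⟨1, ?_, ?_⟩
    · intro h
      exact (inferInstance : I.IsPrime).ne_top ((Ideal.eq_top_iff_one I).mpr h)
    · intro Y hY hYI _ z₁ _ z w
      have hPh : (P j).IsHomogeneous ed := by
        rw [hPq]
        exact IsHomogeneous.sum _ _ _ fun i _ => (hvv i).C_mul _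
      obtain ⟨c, hc, hcc⟩ := const_of_coneW hY.wLift (isClosed_zeros I)
        (by
          intro y hy l _
          have h1 : sc (1 : Fin (n + 1) → ℕ) l y = l • y := by
            funext i
            rw [sc, Pi.one_apply, pow_one]
            rfl
          rw [h1]
          exact eval_smul_mem_zero hI hy l) (K₀ := 1)
        (by
          intro y _ hy1
          rw [← hy1, pi_norm_le_iff_of_nonneg (n1_nonneg _ _)]
          intro i
          exact norm_le_n1 _ y rfl)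
        hed hPh
        (by
          intro y hy hy0
          apply hj y _ hy
          rintro rfl
          apply hy0
          have h1 := n1_le_norm (1 : Fin (n + 1) → ℕ) 0
          rw [norm_zero] at h1
          exact le_antisymm h1 (n1_nonneg _ _))
        (fun z => (hYI z).self_of_nhds) z w
      refine ⟨c, hc, ?_⟩
      funext i
      rw [Pi.smul_apply, smul_eq_mul]
      exact hcc i rfl

/-- The exceptional hypersurface, in homogeneous coordinates. -/
theorem family_top (n d N₀ : ℕ) : ∃ Q : ℕ, ∀ (I : Ideal (MvPolynomial (Fin (n + 1)) ℂ)), I.IsPrime →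
    HomIdeal I → ∀ (ι : Type) [Finite ι] (P : ι → MvPolynomial (Fin (n + 1)) ℂ),
    (∀ j, ∃ e, 1 ≤ e ∧ e ≤ d ∧ (P j).IsHomogeneous e) → (∀ j, RedOn I (P j)) →
    (∀ y : Fin (n + 1) → ℂ, y ≠ 0 → (∀ g ∈ I, eval y g = 0) →
      {j | eval y (P j) = 0}.ncard ≤ N₀) →
    Q ≤ Nat.card ι →
    ∃ (e : ℕ) (Δ : MvPolynomial (Fin (n + 1)) ℂ), Δ.IsHomogeneous e ∧ Δ ∉ I ∧
      ∀ Y : ℂ → ℂ → Fin (n + 1) → ℂ, LiftFamily Y →
        (∀ z₁, ∀ᶠ z in 𝓝 z₁, ∀ g ∈ I, eval (Y z₁ z) g = 0) →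
        (∀ j z₁, analyticOrderAt (fun z => eval (Y z₁ z) (P j)) z₁ = 0 ∨
          (2 : ℕ∞) ≤ analyticOrderAt (fun z => eval (Y z₁ z) (P j)) z₁) →
        ∀ z₁, eval (Y z₁ z₁) Δ ≠ 0 → ∀ z w, ∃ c : ℂ, c ≠ 0 ∧ Y z z = c • Y w w := by
  classical
  choose m vv hvv hvq using fun e => exists_veronese n e
  refine ⟨N₀ + ∑ e ∈ Finset.range (d + 1), numR (m e) N₀ + 1, ?_⟩
  intro I hIp hI ι _ P hP hrad hgp hcard
  have := Fintype.ofFinite ι
  rw [Nat.card_eq_fintype_card] at hcard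
  have hgp' : ∀ y : Fin (n + 1) → ℂ, y ≠ 0 → (∀ g ∈ I, eval y g = 0) →
      ∀ S : Finset ι, (∀ j ∈ S, eval y (P j) = 0) → S.card ≤ N₀ := by
    intro y hy0 hy S hS
    have h1 := hgp y hy0 hy
    refine le_trans ?_ h1
    rw [← Set.ncard_coe_finset]
    apply Set.ncard_le_ncard _ (Set.toFinite _)
    intro j hj
    exact hS j hj
  by_cases hV : ∃ y : Fin (n + 1) → ℂ, y ≠ 0 ∧ ∀ g ∈ I, eval y g = 0
  swap
  · push Not at hV
    refine ⟨0, 1, isHomogeneous_one _ _, ?_, ?_⟩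
    · intro h
      exact hIp.ne_top ((Ideal.eq_top_iff_one I).mpr h)
    · intro Y hY hYI _ z₁ _ z w
      exfalso
      obtain ⟨g, hg, hg0⟩ := hV _ (hY.2.1 z₁)
      exact hg0 ((hYI z₁).self_of_nhds g hg)
  obtain ⟨y₀, hy₀, hy₀I⟩ := hV
  choose e he1 hed heh using hP
  have hbad : (Finset.univ.filter fun j => P j ∈ I).card ≤ N₀ := by
    apply hgp' y₀ hy₀ hy₀I
    intro j hj
    rw [Finset.mem_filter] at hj
    exact hy₀I _ hj.2
  -- a class with many members
  obtain ⟨k, hk, hkc⟩ : ∃ k ∈ Finset.range (d + 1), numR (m k) N₀ ≤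
      (Finset.univ.filter fun j => P j ∉ I ∧ e j = k).card ∧
      0 < (Finset.univ.filter fun j => P j ∉ I ∧ e j = k).card := by
    by_contra hcon
    push Not at hcon
    have h1 : (Finset.univ.filter fun j => P j ∉ I).card ≤
        ∑ k ∈ Finset.range (d + 1), numR (m k) N₀ := by
      rw [Finset.card_eq_sum_card_fiberwise (f := e) (t := Finset.range (d + 1))]
      · apply Finset.sum_le_sum
        intro k hk
        rw [Finset.filter_filter]
        by_cases h2 : numR (m k) N₀ ≤ (Finset.univ.filter fun j => P j ∉ I ∧ e j = k).card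
        · exact (hcon k hk h2).trans (Nat.zero_le _)
        · exact (not_le.mp h2).le
      · intro j _
        rw [Finset.coe_range, Set.mem_Iio]
        have := hed j
        omega
    have h2 := Finset.card_filter_add_card_filter_not (s := (Finset.univ : Finset ι))
      (fun j => P j ∈ I)
    rw [Finset.card_univ] at h2
    omega
  obtain ⟨hkc, hkpos⟩ := hkc
  have hk0 : 0 < k := by
    rw [Finset.card_pos] at hkpos
    obtain ⟨j, hj⟩ := hkpos
    rw [Finset.mem_filter] at hj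
    have := he1 j
    omega
  obtain ⟨ι', hι'⟩ : ∃ ι' : Type, ι' = {j : ι // P j ∉ I ∧ e j = k} := ⟨_, rfl⟩
  subst hι'
  choose q hq using fun j : {j : ι // P j ∉ I ∧ e j = k} => hvq k (P j) (by
    have h1 := heh j
    rw [j.2.2] at h1
    exact h1)
  obtain ⟨Δ₀, hΔ₀, hΔ₀s⟩ := family_class (N₀ := N₀) hk0 (hvv k) hI
    (P := fun j : {j : ι // P j ∉ I ∧ e j = k} => P j) q hq (fun j => j.2.1) (fun j => hrad j)
    (by
      intro y hy0 hy S hS
      have h1 := hgp' y hy0 hy (S.map ⟨Subtype.val, Subtype.val_injective⟩) (by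
        intro j hj
        rw [Finset.mem_map] at hj
        obtain ⟨j', hj', rfl⟩ := hj
        exact hS j' hj')
      rwa [Finset.card_map] at h1)
    (by
      rw [Fintype.card_subtype]
      exact hkc)
  obtain ⟨d', hd'⟩ : ∃ d', homogeneousComponent d' Δ₀ ∉ I := by
    by_contra hcon
    push Not at hcon
    apply hΔ₀
    rw [← sum_homogeneousComponent Δ₀]
    exact Ideal.sum_mem _ fun k _ => hcon k
  refine ⟨d', homogeneousComponent d' Δ₀, homogeneousComponent_isHomogeneous d' Δ₀, hd', ?_⟩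
  intro Y hY hYI hord z₁ hz₁ z w
  obtain ⟨c, hc, hcz⟩ := exists_scale hz₁
  obtain ⟨c', hc', hcc⟩ := hΔ₀s (fun z₁ z => c • Y z₁ z) (hY.smul hc)
    (by
      intro z₂
      filter_upwards [hYI z₂] with z hz
      exact eval_smul_mem_zero hI hz c)
    (by
      intro j z₂
      have h1 : (fun z => eval (c • Y z₂ z) (P j)) =
          (fun _ => c ^ e j) * fun z => eval (Y z₂ z) (P j) := by
        funext z
        rw [eval_smul_of_homogeneous (heh j), Pi.mul_apply]
      have h2 : AnalyticAt ℂ (fun z => eval (Y z₂ z) (P j)) z₂ := analyticAt_eval (hY.1 z₂) (P j)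
      rw [h1, analyticOrderAt_mul analyticAt_const h2]
      have h4 : analyticOrderAt (fun _ : ℂ => c ^ e j) z₂ = 0 := by
        rw [AnalyticAt.analyticOrderAt_eq_zero analyticAt_const]
        exact pow_ne_zero _ hc
      rw [h4, zero_add]
      exact hord j z₂)
    z₁ hcz z w
  refine ⟨c', hc', ?_⟩
  have h1 : c • Y z z = c • (c' • Y w w) := by
    rw [hcc, smul_comm]
  exact smul_right_injective _ hc h1

end Pool.Agent.Lib.GGL
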